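import Mathlib

/-!
# Project UNI: derivatives of functions on a normed space, evaluated at vectors
-/

open Filter
open scoped Topology ContDiff

namespace Pool.Agent.H735U

noncomputable section

section gen

variable {E : Type*} [NormedAddCommGroup E] [NormedSpace ℝ E]

/-- The first derivative of `r` at `M` in the direction `V`. -/
def dr1 (r : E → ℝ) (M V : E) : ℝ := fderiv ℝ r M V

/-- The second derivative of `r` at `M` in the directions `V`, `V'`. -/
def dr2 (r : E → ℝ) (M V V' : E) : ℝ := fderiv ℝ (fderiv ℝ r) M V V'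

/-- The fourth derivative of `r` at `M`. -/
def dr4 (r : E → ℝ) (M Y Y' Z Z' : E) : ℝ := dr2 (fun M => dr2 r M Y Y') M Z Z'

variable {r : E → ℝ}

theorem dr1_add (M V W : E) : dr1 r M (V + W) = dr1 r M V + dr1 r M W := by simp [dr1]

theorem dr1_smul (M V : E) (c : ℝ) : dr1 r M (c • V) = c * dr1 r M V := by simp [dr1]

theorem dr1_sum {ι : Type*} (s : Finset ι) (M : E) (V : ι → E) :
    dr1 r M (∑ i ∈ s, V i) = ∑ i ∈ s, dr1 r M (V i) := by simp [dr1]

theorem dr2_add_left (M V W V' : E) : dr2 r M (V + W) V' = dr2 r M V V' + dr2 r M W V' := by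
  simp [dr2]

theorem dr2_add_right (M V V' W' : E) : dr2 r M V (V' + W') = dr2 r M V V' + dr2 r M V W' := by
  simp [dr2]

theorem dr2_smul_left (M V V' : E) (c : ℝ) : dr2 r M (c • V) V' = c * dr2 r M V V' := by
  simp [dr2]

theorem dr2_smul_right (M V V' : E) (c : ℝ) : dr2 r M V (c • V') = c * dr2 r M V V' := by
  simp [dr2]

theorem dr2_sum_left {ι : Type*} (s : Finset ι) (M W : E) (V : ι → E) :
    dr2 r M (∑ i ∈ s, V i) W = ∑ i ∈ s, dr2 r M (V i) W := by simp [dr2]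

theorem dr2_sum_right {ι : Type*} (s : Finset ι) (M W : E) (V : ι → E) :
    dr2 r M W (∑ i ∈ s, V i) = ∑ i ∈ s, dr2 r M W (V i) := by simp [dr2]

theorem contDiff_fderiv {F : Type*} [NormedAddCommGroup F] [NormedSpace ℝ F] {f : E → F}
    (hr : ContDiff ℝ ∞ f) : ContDiff ℝ ∞ (fderiv ℝ f) :=
  (contDiff_infty_iff_fderiv.1 hr).2

theorem hasFDerivAt_r (hr : ContDiff ℝ ∞ r) (M : E) : HasFDerivAt r (fderiv ℝ r M) M :=
  (hr.differentiable (by simp) M).hasFDerivAt

theorem hasFDerivAt_fr (hr : ContDiff ℝ ∞ r) (M : E) :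
    HasFDerivAt (fderiv ℝ r) (fderiv ℝ (fderiv ℝ r) M) M :=
  ((contDiff_fderiv hr).differentiable (by simp) M).hasFDerivAt

/-- The chain rule. -/
theorem hasDerivAt_comp (hr : ContDiff ℝ ∞ r) {γ : ℝ → E} {v : E} {t : ℝ}
    (h : HasDerivAt γ v t) : HasDerivAt (fun s => r (γ s)) (dr1 r (γ t) v) t :=
  (hasFDerivAt_r hr (γ t)).comp_hasDerivAt t h

/-- The chain rule for the first derivative. -/
theorem hasDerivAt_dr1 (hr : ContDiff ℝ ∞ r) {γ v : ℝ → E} {v' w : E} {t : ℝ}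
    (h : HasDerivAt γ v' t) (hv : HasDerivAt v w t) :
    HasDerivAt (fun s => dr1 r (γ s) (v s)) (dr2 r (γ t) v' (v t) + dr1 r (γ t) w) t := by
  have h1 : HasDerivAt (fun s => fderiv ℝ r (γ s)) (fderiv ℝ (fderiv ℝ r) (γ t) v') t :=
    (hasFDerivAt_fr hr (γ t)).comp_hasDerivAt t h
  exact h1.clm_apply hv

theorem contDiff_dr1 (hr : ContDiff ℝ ∞ r) (V : E) : ContDiff ℝ ∞ fun M => dr1 r M V :=
  (contDiff_fderiv hr).clm_apply contDiff_const

theorem contDiff_dr2 (hr : ContDiff ℝ ∞ r) (V W : E) : ContDiff ℝ ∞ fun M => dr2 r M V W :=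
  ((contDiff_fderiv (contDiff_fderiv hr)).clm_apply contDiff_const).clm_apply contDiff_const

theorem continuous_dr1 (hr : ContDiff ℝ ∞ r) : Continuous fun x : E × E => dr1 r x.1 x.2 := by
  have h := (contDiff_fderiv hr).continuous
  unfold dr1
  fun_prop

theorem continuous_dr2 (hr : ContDiff ℝ ∞ r) :
    Continuous fun x : E × E × E => dr2 r x.1 x.2.1 x.2.2 := by
  have h := (contDiff_fderiv (E := E) hr)
  have h2 : Continuous (fderiv ℝ (fderiv ℝ r)) := h.continuous_fderiv (by simp)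
  unfold dr2
  fun_prop

theorem dr2_comm (hr : ContDiff ℝ ∞ r) (M V V' : E) : dr2 r M V V' = dr2 r M V' V := by
  have h : IsSymmSndFDerivAt ℝ r M := by
    apply (hr.contDiffAt (x := M)).isSymmSndFDerivAt
    simp only [minSmoothness_of_isRCLikeNormedField]
    exact ENat.LEInfty.out
  exact h V V'

/-- Iterated directional derivatives. -/
theorem dr2_eq (hr : ContDiff ℝ ∞ r) (M V W : E) :
    dr2 r M V W = dr1 (fun M => dr1 r M W) M V := by
  have h := (hasFDerivAt_fr hr M).clm_apply (hasFDerivAt_const W M)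
  have h2 : fderiv ℝ (fun M => dr1 r M W) M = _ := h.fderiv
  simp only [dr2, dr1] at h2 ⊢
  rw [h2]
  simp

/-- The directional derivatives commute. -/
theorem dr1_comm (hr : ContDiff ℝ ∞ r) (M V W : E) :
    dr1 (fun M => dr1 r M W) M V = dr1 (fun M => dr1 r M V) M W := by
  rw [← dr2_eq hr, ← dr2_eq hr, dr2_comm hr]

theorem dr4_comm_right (hr : ContDiff ℝ ∞ r) (M Y Y' Z Z' : E) :
    dr4 r M Y Y' Z Z' = dr4 r M Y Y' Z' Z := dr2_comm (contDiff_dr2 hr _ _) _ _ _

theorem dr4_comm_left (hr : ContDiff ℝ ∞ r) (M Y Y' Z Z' : E) :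
    dr4 r M Y Y' Z Z' = dr4 r M Y' Y Z Z' := by
  unfold dr4
  congr 1
  funext M
  exact dr2_comm hr _ _ _

/-- The fourth derivative is an iterated directional derivative. -/
theorem dr4_eq (hr : ContDiff ℝ ∞ r) (M Y Y' Z Z' : E) :
    dr4 r M Y Y' Z Z' =
      dr1 (fun M => dr1 (fun M => dr1 (fun M => dr1 r M Y') M Y) M Z') M Z := by
  unfold dr4
  rw [dr2_eq (contDiff_dr2 hr _ _)]
  simp only [dr2_eq hr]

theorem dr4_comm_mid (hr : ContDiff ℝ ∞ r) (M Y Y' Z Z' : E) :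
    dr4 r M Y Y' Z Z' = dr4 r M Z' Y' Z Y := by
  rw [dr4_eq hr, dr4_eq hr]
  congr 1
  funext M
  exact dr1_comm (contDiff_dr1 hr _) _ _ _

theorem dr4_add_right (M Y Y' Z Z' W : E) :
    dr4 r M Y Y' Z (Z' + W) = dr4 r M Y Y' Z Z' + dr4 r M Y Y' Z W := dr2_add_right _ _ _ _

theorem dr4_smul_right (M Y Y' Z Z' : E) (c : ℝ) :
    dr4 r M Y Y' Z (c • Z') = c * dr4 r M Y Y' Z Z' := dr2_smul_right _ _ _ _

/-- The exchange of the two pairs. -/
theorem dr4_swap (hr : ContDiff ℝ ∞ r) (M Y Y' Z Z' : E) :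
    dr4 r M Y Y' Z Z' = dr4 r M Z Z' Y Y' := by
  rw [dr4_comm_mid hr, dr4_comm_left hr, dr4_comm_right hr, dr4_comm_mid hr, dr4_comm_right hr]

end gen

end

end Pool.Agent.H735U
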