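import Mathlib
import Pool.Agent.Y16.AF.Defs
import Pool.Agent.H735U.Gen

/-!
# Project UNI: universality of asymptotic freedom, definitions

Lattice Yang-Mills theory with the plaquette energy `s(g) = Re tr (1 - g) + r(g)` instead of `Re tr (1 - g)`,
`r` being a function on the matrices which vanishes to the order four at `1`. Everything else is as in the
project AF (`Pool.Agent.Y16.AF.Defs`).
-/

open MeasureTheory Matrix
open scoped Matrix.Norms.Frobenius Topology ContDiff
open Pool.Agent.Y16.Gluon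
open Pool.Agent.Y16.AF

namespace Pool.Agent.H735U

set_option linter.unusedSectionVars false

noncomputable section

/-- The correction of the plaquette energy is admissible: it is smooth, it vanishes to the order four at
`1`, it is a class function on `G`, and `1` is the only minimum of the energy on `G`. -/
structure Adm {N : ℕ} (G : Subgroup (UU N)) (r : Mt N → ℝ) : Prop where
  smooth : ContDiff ℝ ∞ r
  van : ∃ C δ : ℝ, 0 < δ ∧ ∀ M : Mt N, ‖M - 1‖ ≤ δ → |r M| ≤ C * ‖M - 1‖ ^ 4
  cls : ∀ g h : G, r (mt (h * g * h⁻¹)) = r (mt g)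
  pos : ∀ g : G, g ≠ 1 → 0 < (trace (1 - mt g)).re + r (mt g)

section full

variable {N L : ℕ} {G : Subgroup (UU N)}

/-- The energy of a plaquette. -/
def en1 (r : Mt N → ℝ) (g : G) : ℝ := (trace (1 - mt g)).re + r (mt g)

/-- The action. -/
def actionR [NeZero L] (r : Mt N → ℝ) (e : ℝ → G) (ε : ℝ) (U : Links L → G) : ℝ :=
  ∑ x : Sp L, ((∑ t ∈ Finset.range L, ∑ j, en1 r (tplaq e ε U t x j)) +
    ∑ t ∈ Finset.range (L + 1), ∑ i, ∑ j,
      if i < j then en1 r (splaq e ε U t x i j) else 0)

/-- The partition function with the given boundary values. -/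
def ZR [MeasurableSpace G] (μ : Measure G) (r : Mt N → ℝ) (e : ℝ → G) (L : ℕ) [NeZero L]
    (β ε : ℝ) : ℝ :=
  ∫ U : Links L → G, Real.exp (-(β * actionR r e ε U)) ∂(Measure.pi fun _ => μ)

/-- The inverse of the running coupling at the scale `L`. -/
def invR [MeasurableSpace G] (μ : Measure G) (r : Mt N → ℝ) (e : ℝ → G) (L : ℕ) [NeZero L]
    (β : ℝ) : ℝ :=
  iteratedDeriv 2 (fun ε => -Real.log (ZR μ r e L β ε)) 0

end full

section prob

variable {N n L : ℕ} {G : Subgroup (UU N)}

/-- The action of the fluctuations in the background field. -/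
def SgR [NeZero L] (r : Mt N → ℝ) (e : ℝ → G) (ε : ℝ) (U : Links L → G) : ℝ :=
  ∑ p : Pq L, en1 r (bg e (al L p.2.2 * ε) (ta p.2.1 p.2.2 * ε) (lg (fx U) p))

/-- The matrix of a plaquette. -/
def pm (g : Fin 4 → G) : Mt N := mt (g 0) * mt (g 1) * mt (g 2) * mt (g 3)

/-- The correction without background field. -/
def S0r [NeZero L] (r : Mt N → ℝ) (U : Links L → G) : ℝ := ∑ p : Pq L, r (pm (lg (fx U) p))

/-- The action without background field. -/
def S0R [NeZero L] (r : Mt N → ℝ) (U : Links L → G) : ℝ := S0 U + S0r r U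

/-- First derivative of the plaquette in the background field. -/
def V1 (T : Mt N) (α τ : ℝ) (g : Fin 4 → G) : Mt N :=
  α • (T * pm g) + τ • ((T * mt (g 0) - mt (g 0) * T) * (mt (g 1) * mt (g 2) * mt (g 3)))

/-- Second derivative of the plaquette in the background field. -/
def V2 (T : Mt N) (α τ : ℝ) (g : Fin 4 → G) : Mt N :=
  α ^ 2 • (T * T * pm g) + (2 * (α * τ)) • (T * (T * mt (g 0) - mt (g 0) * T) *
      (mt (g 1) * mt (g 2) * mt (g 3))) +
    τ ^ 2 • ((T * (T * mt (g 0) - mt (g 0) * T) - (T * mt (g 0) - mt (g 0) * T) * T) *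
      (mt (g 1) * mt (g 2) * mt (g 3)))

/-- First derivative of the correction of a plaquette term. -/
def D1r (r : Mt N → ℝ) (T : Mt N) (α τ : ℝ) (g : Fin 4 → G) : ℝ :=
  dr1 r (pm g) (V1 T α τ g)

/-- Second derivative of the correction of a plaquette term. -/
def D2r (r : Mt N → ℝ) (T : Mt N) (α τ : ℝ) (g : Fin 4 → G) : ℝ :=
  dr2 r (pm g) (V1 T α τ g) (V1 T α τ g) + dr1 r (pm g) (V2 T α τ g)

def S1r [NeZero L] (r : Mt N → ℝ) (T : Mt N) (U : Links L → G) : ℝ :=
  ∑ p : Pq L, D1r r T (al L p.2.2) (ta p.2.1 p.2.2) (lg (fx U) p)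

def S2r [NeZero L] (r : Mt N → ℝ) (T : Mt N) (U : Links L → G) : ℝ :=
  ∑ p : Pq L, D2r r T (al L p.2.2) (ta p.2.1 p.2.2) (lg (fx U) p)

/-- First derivative of the action. -/
def S1R [NeZero L] (r : Mt N → ℝ) (T : Mt N) (U : Links L → G) : ℝ := S1 T U + S1r r T U

/-- Second derivative of the action. -/
def S2R [NeZero L] (r : Mt N → ℝ) (T : Mt N) (U : Links L → G) : ℝ := S2 T U + S2r r T U

/-- Expectation in the theory without background field. -/
def EXR [NeZero L] [MeasurableSpace G] (μ : Measure G) (r : Mt N → ℝ) (β : ℝ)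
    (F : (Links L → G) → ℝ) : ℝ :=
  (∫ U : Links L → G, F U * Real.exp (-(β * S0R r U)) ∂(Measure.pi fun _ => μ)) /
    ∫ U : Links L → G, Real.exp (-(β * S0R r U)) ∂(Measure.pi fun _ => μ)

/-- The probability measure of the theory without background field. -/
def PR [MeasurableSpace G] (μ : Measure G) (r : Mt N → ℝ) (L : ℕ) [NeZero L] (β : ℝ) :
    Measure (Links L → G) :=
  (Measure.pi fun _ => μ).tilted fun U => -(β * S0R r U)

/-- Derivative of the correction `S0r` in the direction `U_w → exp (t X_a) U_w`. -/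
def GSr [NeZero L] (B : LieBasis G n) (r : Mt N → ℝ) (U : Links L → G) (i : Dy L × Fin n) : ℝ :=
  ∑ p : Pq L, ∑ l : Fin 4,
    if lv p.2.1 p.2.2 l = some i.1.1.2 ∧ p.1 + ls p.2.2 l = i.1.1.1 then
      dr1 r (pm (lg (fx U) p))
        ((if l = 0 then dl B U p 0 i.2 else mt (lg (fx U) p 0)) *
        (if l = 1 then dl B U p 1 i.2 else mt (lg (fx U) p 1)) *
        (if l = 2 then dl B U p 2 i.2 else mt (lg (fx U) p 2)) *
        (if l = 3 then dl B U p 3 i.2 else mt (lg (fx U) p 3)))
    else 0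

/-- Derivative of the action. -/
def GSR [NeZero L] (B : LieBasis G n) (r : Mt N → ℝ) (U : Links L → G) (i : Dy L × Fin n) : ℝ :=
  GS B U i + GSr B r U i

/-- The colour matrix of the correction. -/
def qM (B : LieBasis G n) (r : Mt N → ℝ) (T : Mt N) : Matrix (Fin n) (Fin n) ℝ :=
  Matrix.of fun a b => dr4 r 1 T T (B.X a) (B.X b)

end prob

end

end Pool.Agent.H735U
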