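import Mathlib
import Pool.Agent.H735U.Defs
import Pool.Agent.Y16.AF.StmP
import Pool.Agent.Y16.AF.StmC

/-! # Project UNI: statements of the parts -/

open MeasureTheory Matrix Filter
open scoped Matrix.Norms.Frobenius Topology ContDiff
open Pool.Agent.Y16.Gluon
open Pool.Agent.Y16.AF

namespace Pool.Agent.H735U

/-- U1: bounds for the correction and its derivatives. -/
def S_RT : Prop :=
  ∀ (E : Type) [NormedAddCommGroup E] [NormedSpace ℝ E] [FiniteDimensional ℝ E] (r : E → ℝ)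
    (p : E), ContDiff ℝ ∞ r →
    (∃ C δ : ℝ, 0 < δ ∧ ∀ M : E, ‖M - p‖ ≤ δ → |r M| ≤ C * ‖M - p‖ ^ 4) → ∀ R : ℝ,
    ∃ C : ℝ, 0 ≤ C ∧ ∀ M : E, ‖M‖ ≤ R →
      |r M| ≤ C * ‖M - p‖ ^ 4 ∧ (∀ V : E, |dr1 r M V| ≤ C * ‖M - p‖ ^ 3 * ‖V‖) ∧
      (∀ V V' : E, |dr2 r M V V'| ≤ C * ‖M - p‖ ^ 2 * ‖V‖ * ‖V'‖) ∧
      ∀ V V' : E, |dr2 r M V V' - 1 / 2 * dr4 r p V V' (M - p) (M - p)| ≤
        C * ‖M - p‖ ^ 3 * ‖V‖ * ‖V'‖

/-- U2: comparison of the energies. -/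
def S_CMP : Prop :=
  S_RT → ∀ {N : ℕ} (G : Subgroup (UU N)) (_ : IsClosed (G : Set (UU N))) (r : Mt N → ℝ),
    Adm G r → ∃ c C : ℝ, 0 < c ∧ ∀ g : G, c * (trace (1 - mt g)).re ≤ en1 r g ∧
      en1 r g ≤ C * (trace (1 - mt g)).re

/-- U3: moments of the size of the configuration. -/
def S_MOMR : Prop :=
  S_BALL → S_COER → S_RT → S_CMP → ∀ {N : ℕ} (G : Subgroup (UU N))
    (_ : IsClosed (G : Set (UU N))) [MeasurableSpace G] [BorelSpace G] (μ : Measure G)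
    [IsProbabilityMeasure μ] [μ.IsHaarMeasure] (r : Mt N → ℝ), Adm G r →
    ∃ C : ℝ, 1 ≤ C ∧ ∀ (L : ℕ) [NeZero L], 2 ≤ L → ∀ β : ℝ, 3 ≤ β → ∀ p : ℕ, p ≤ 8 →
      EXR (L := L) μ r β (fun U => rr U ^ p) ≤ Real.sqrt (C * (L : ℝ) ^ 16 * Real.log β / β) ^ p

/-- U4: gauge fixing. -/
def S_GAUGER : Prop :=
  ∀ {N : ℕ} (G : Subgroup (UU N)) (_ : IsClosed (G : Set (UU N))) [MeasurableSpace G]
    [BorelSpace G] (μ : Measure G) [IsProbabilityMeasure μ] [μ.IsHaarMeasure] (r : Mt N → ℝ)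
    (_ : Adm G r) (T : Mt N) (e : ℝ → G) (_ : ∀ t, mt (e t) = NormedSpace.exp (t • T))
    (L : ℕ) [NeZero L], 2 ≤ L → ∀ β ε : ℝ, ZR μ r e L β ε =
      ∫ U : Links L → G, Real.exp (-(β * SgR r e ε U)) ∂(Measure.pi fun _ => μ)

/-- U5: differentiation of the partition function. -/
def S_DIFFR : Prop :=
  ∀ {N : ℕ} (G : Subgroup (UU N)) (_ : IsClosed (G : Set (UU N))) [MeasurableSpace G]
    [BorelSpace G] (μ : Measure G) [IsProbabilityMeasure μ] (r : Mt N → ℝ)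
    (_ : Adm G r) (T : Mt N) (e : ℝ → G) (_ : ∀ t, mt (e t) = NormedSpace.exp (t • T))
    (L : ℕ) [NeZero L] (β : ℝ),
    iteratedDeriv 2 (fun ε => -Real.log
      (∫ U : Links L → G, Real.exp (-(β * SgR r e ε U)) ∂(Measure.pi fun _ => μ))) 0 =
      β * EXR μ r β (S2R (L := L) r T) -
        β ^ 2 * (EXR μ r β (fun U => S1R (L := L) r T U ^ 2) - EXR μ r β (S1R (L := L) r T) ^ 2)

/-- U6: the first derivative of the correction is of the third order. -/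
def S_TAY1R : Prop :=
  S_RT → ∀ {N : ℕ} (G : Subgroup (UU N)) (_ : IsClosed (G : Set (UU N))) (r : Mt N → ℝ)
    (_ : Adm G r) (T : Mt N),
    ∃ C : ℝ, ∀ (L : ℕ) [NeZero L], 2 ≤ L → ∀ U : Links L → G,
      |S1r r T U| ≤ C * (L : ℝ) ^ 4 * rr U ^ 3

/-- U7: Taylor expansion of the second derivative of the correction. -/
def S_TAY2R : Prop :=
  S_RT → ∀ {N n : ℕ} (G : Subgroup (UU N)) (_ : IsClosed (G : Set (UU N))) (r : Mt N → ℝ)
    (_ : Adm G r) (B : LieBasis G n) (T : Mt N),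
    ∃ C : ℝ, ∀ (L : ℕ) [NeZero L], 2 ≤ L → ∀ U : Links L → G,
      |S2r r T U - 1 / 2 * ∑ i : Dy L × Fin n, ∑ j : Dy L × Fin n,
        (1 / (L : ℝ) ^ 4 * rs (H01 (L := L)) i.1 j.1 * qM B r T i.2 j.2) *
          (cA B U i * cA B U j)| ≤ C * (L : ℝ) ^ 4 * rr U ^ 3

/-- U8: the gradient of the correction. -/
def S_TAYGR : Prop :=
  S_RT → ∀ {N n : ℕ} (G : Subgroup (UU N)) (_ : IsClosed (G : Set (UU N))) (r : Mt N → ℝ)
    (_ : Adm G r) (B : LieBasis G n),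
    ∃ C : ℝ, ∀ (L : ℕ) [NeZero L], 2 ≤ L → ∀ (U : Links L → G) (i : Dy L × Fin n),
      |GSr B r U i| ≤ C * (L : ℝ) ^ 4 * rr U ^ 2

/-- U9: integration by parts. -/
def S_IBPR : Prop :=
  ∀ {N n : ℕ} (G : Subgroup (UU N)) (_ : IsClosed (G : Set (UU N))) [MeasurableSpace G]
    [BorelSpace G] (μ : Measure G) [IsProbabilityMeasure μ] [μ.IsHaarMeasure] (r : Mt N → ℝ)
    (_ : Adm G r) (B : LieBasis G n) (L : ℕ) [NeZero L], 2 ≤ L → ∀ β : ℝ,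
    (∀ i j : Dy L × Fin n, EXR μ r β (fun U => dA B U i j) =
      β * EXR μ r β (fun U => cA B U j * GSR B r U i)) ∧
    ∀ i j k l : Dy L × Fin n, EXR μ r β (fun U => dA B U i j * cA B U k * cA B U l +
        cA B U j * dA B U i k * cA B U l + cA B U j * cA B U k * dA B U i l) =
      β * EXR μ r β (fun U => cA B U j * cA B U k * cA B U l * GSR B r U i)

/-- U10: continuity. -/
def S_CONTR : Prop :=
  ∀ {N n : ℕ} (G : Subgroup (UU N)) (_ : IsClosed (G : Set (UU N))) (r : Mt N → ℝ)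
    (_ : Adm G r) (B : LieBasis G n) (T : Mt N) (L : ℕ) [NeZero L],
    Continuous (S0R (L := L) r : (Links L → G) → ℝ) ∧
    Continuous (S1R (L := L) r T : (Links L → G) → ℝ) ∧
    Continuous (S2R (L := L) r T : (Links L → G) → ℝ) ∧
    ∀ i, Continuous fun U : Links L → G => GSR B r U i

/-! ### energies given on the group -/

/-- U13: extension of a correction which vanishes to the order four on the group. -/
def S_EXT : Prop :=
  ∀ {N : ℕ} (G : Subgroup (UU N)) (_ : IsClosed (G : Set (UU N))) (r : Mt N → ℝ),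
    ContDiff ℝ ∞ r → (∃ C : ℝ, ∀ g : G, |r (mt g)| ≤ C * ‖mt g - 1‖ ^ 4) →
    ∃ r' : Mt N → ℝ, ContDiff ℝ ∞ r' ∧ (∀ g : G, r' (mt g) = r (mt g)) ∧
      ∃ C δ : ℝ, 0 < δ ∧ ∀ M : Mt N, ‖M - 1‖ ≤ δ → |r' M| ≤ C * ‖M - 1‖ ^ 4

end Pool.Agent.H735U
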