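import Mathlib
import Pool.Agent.H735U.Stm

/-! # Project UNI: statements of the parts, second file -/

open MeasureTheory Matrix Filter
open scoped Matrix.Norms.Frobenius Topology ContDiff
open Pool.Agent.Y16.Gluon
open Pool.Agent.Y16.AF

namespace Pool.Agent.H735U

noncomputable section

/-- `Y` is in the Lie algebra of `G` (as `Pool.Agent.Y16.AF.IsLie` in `Pool/Agent/Y16/AF/Fin.lean`). -/
def IsLie {N : ℕ} (G : Subgroup (UU N)) (Y : Mt N) : Prop :=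
  ∀ t : ℝ, ∃ g : G, mt g = NormedSpace.exp (t • Y)

/-- `X` is an orthonormal basis of the Lie algebra of `G`. -/
def IsBasis {N n : ℕ} (G : Subgroup (UU N)) (X : Fin n → Mt N) : Prop :=
  (∀ a b, (trace ((X a)ᴴ * X b)).re = if a = b then 1 else 0) ∧
    ∀ Y, IsLie G Y ↔ Y ∈ Submodule.span ℝ (Set.range X)

/-- The Lie algebra of `G` is simple. -/
def IsSimple {N : ℕ} (G : Subgroup (UU N)) : Prop :=
  (∃ Y Z, IsLie G Y ∧ IsLie G Z ∧ Y * Z ≠ Z * Y) ∧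
    ∀ W : Submodule ℝ (Mt N), (∀ Y ∈ W, IsLie G Y) →
      (∀ Y ∈ W, ∀ Z, IsLie G Z → Z * Y - Y * Z ∈ W) → W = ⊥ ∨ ∀ Y, IsLie G Y → Y ∈ W

/-- The fourth derivative of the energy along a one parameter group. -/
def quart {N : ℕ} (s : Mt N → ℝ) (Y : Mt N) : ℝ :=
  iteratedDeriv 4 (fun t : ℝ => s (NormedSpace.exp (t • Y))) 0

/-- The polarization of `quart`: the fourth derivative of the energy, twice in the direction `T` and
twice in the direction `X`. -/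
def mixed {N : ℕ} (s : Mt N → ℝ) (T X : Mt N) : ℝ :=
  (quart s (T + X) + quart s (T - X) - 2 * quart s T - 2 * quart s X) / 12

/-- The energies of a plaquette. -/
structure IsEnergy {N : ℕ} (G : Subgroup (UU N)) (s : Mt N → ℝ) : Prop where
  smooth : ContDiff ℝ ∞ s
  cls : ∀ g h : G, s (mt (h * g * h⁻¹)) = s (mt g)
  pos : ∀ g : G, g ≠ 1 → 0 < s (mt g)
  norm : ∃ C : ℝ, ∀ g : G, |s (mt g) - 1 / 2 * ‖mt g - 1‖ ^ 2| ≤ C * ‖mt g - 1‖ ^ 4

/-- The mixed action. -/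
def smix {N : ℕ} (b : ℝ) (M : Mt N) : ℝ := (trace (1 - M)).re - b * ‖trace (1 - M)‖ ^ 2

end

/-- U15: the fourth derivative along a one parameter group. -/
def S_D4 : Prop :=
  S_RT → ∀ {N : ℕ} (r : Mt N → ℝ), ContDiff ℝ ∞ r →
    (∃ C δ : ℝ, 0 < δ ∧ ∀ M : Mt N, ‖M - 1‖ ≤ δ → |r M| ≤ C * ‖M - 1‖ ^ 4) → ∀ Y : Mt N,
    quart (fun M => (trace (1 - M)).re + r M) Y =
      -(trace (Y * Y * (Y * Y))).re + dr4 r 1 Y Y Y Y

/-- U16: invariant quadratic forms on a simple Lie algebra. -/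
def S_INV : Prop :=
  ∀ {N : ℕ} (G : Subgroup (UU N)) (_ : IsClosed (G : Set (UU N))), IsSimple G →
    ∀ b : Mt N →ₗ[ℝ] Mt N →ₗ[ℝ] ℝ, (∀ h : G, ∀ T, IsLie G T →
      b (mt h * T * mt h⁻¹) (mt h * T * mt h⁻¹) = b T T) →
    ∃ c : ℝ, ∀ T, IsLie G T → b T T = c * ‖T‖ ^ 2

/-- U17: the normalization of the energy is automatic for simple groups. -/
def S_HESS : Prop :=
  S_INV → ∀ {N : ℕ} (G : Subgroup (UU N)) (_ : IsClosed (G : Set (UU N))), IsSimple G →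
    ∀ s : Mt N → ℝ, ContDiff ℝ ∞ s → (∀ g h : G, s (mt (h * g * h⁻¹)) = s (mt g)) →
    (∀ g : G, s (mt g⁻¹) = s (mt g)) → s 1 = 0 → (∀ g : G, g ≠ 1 → 0 < s (mt g)) →
    (∃ T, IsLie G T ∧ iteratedDeriv 2 (fun t : ℝ => s (NormedSpace.exp (t • T))) 0 ≠ 0) →
    ∃ z : ℝ, 0 < z ∧ IsEnergy G fun M => s M / z

/-- U18: the one loop constant for simple groups. -/
def S_SIMF : Prop :=
  S_RT → S_EXT → S_D4 → S_INV → ∀ {N n : ℕ} (G : Subgroup (UU N))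
    (_ : IsClosed (G : Set (UU N))), IsSimple G → ∀ s : Mt N → ℝ, IsEnergy G s →
    ∀ B : LieBasis G n, ∃ f : ℝ, ∀ T, IsLie G T → ∑ a, mixed s T (B.X a) = f * ‖T‖ ^ 2

/-- U19: the mixed action of `SU(N)` is an energy. -/
def S_EXA : Prop :=
  ∀ {N : ℕ} (G : Subgroup (UU N)), (∀ U : UU N, U ∈ G ↔ det (U : Mt N) = 1) → ∀ b : ℝ,
    b * (2 * N) < 1 → IsEnergy G (smix b)

/-- U20: the one loop constant of the mixed action of `SU(N)`. -/
def S_EXB : Prop :=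
  ∀ {N n : ℕ} (G : Subgroup (UU N)) (_ : IsClosed (G : Set (UU N))), 0 < N →
    (∀ U : UU N, U ∈ G ↔ det (U : Mt N) = 1) →
    ∀ B : LieBasis G n, ∀ b : ℝ, ∀ T ∈ Submodule.span ℝ (Set.range B.X),
      ∑ a, mixed (smix b) T (B.X a) = (-(2 * N / 3) + 1 / N - 2 * b * (N ^ 2 + 1)) * ‖T‖ ^ 2

end Pool.Agent.H735U
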