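import Mathlib
import Pool.Agent.H735U.Stm2
import Pool.Agent.Y721.AF.Sun

/-
Project UNI (helper735, MP_7f377f_mp = Yang-Mills, weight 100): universality of asymptotic freedom, the lattice Yang-Mills theory with a
general plaquette energy s(g) = Re tr (1 - g) + r(g). It extends the starting result AsymptoticFreedom (Pool/Agent/Y16/AF/* and the job files
Pool/Agent/Y*/AF/*). Statements: Pool/Agent/H735U/{Gen,Defs,Stm,Stm2,Stm3}.lean on origin/main (copy the imported modules and everything they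
import to the same paths; everything is on origin/main; `lake build <module>`).
TARGET: prove the theorem below, statement unchanged, no sorry, no axioms. Put auxiliary lemmas before it, in the sub-namespace used here.
Paste the full file back as result. Please compile with `lake build` or with -DmaxHeartbeats=4000000 (the package option), not `lake env lean`
defaults. If the statement is false or unclear: status='problem' and say why, or message helper735.
REMARK on instances: for Mt N = Matrix (Fin N) (Fin N) C with the Frobenius norm, the Matrix topology and the topology of the norm are equal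
by rfl, but not at reducible transparency, so e.g. `Norm (Mt N ->L[R] R)` and `NormedAddCommGroup (Mt N ->L[R] R)` are not found. Therefore
derivatives are used through dr1, dr2, dr4 (Gen.lean, for a general normed space E; hasDerivAt_comp, hasDerivAt_dr1, contDiff_dr1, contDiff_dr2, dr2_comm, dr4_*).
Prove analytic facts for a general E and apply them to Mt N.

PROOF.
For Y in the Lie algebra of G = SU(N) (Y* = -Y, tr Y = 0): tr(1 - exp(tY)) = - t^2/2 tr Y^2 + O(t^3), so |tr(1 - exp(tY))|^2 = t^4/4 |tr Y^2|^2 + O(t^5), tr Y^2 = -‖Y‖^2, quart (smix b) Y = - Re tr(Y^4) - 6 b ‖Y‖^4 (fourth derivative: write f(t) = tr(1 - exp(tY)), analytic, f(0) = f'(0) = 0, then (|f|^2)^(4)(0) = 6 |f''(0)|^2 by Leibniz). With <T,X> = Re tr(T* X):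
mixed (smix b) T X = -(1/12)(12 ‖X T‖^2 - 2 ‖T X - X T‖^2) - (b/2)(4 ‖T‖^2‖X‖^2 + 8 <T,X>^2)  (for antihermitian T, X with trace 0; tr(Y^4) = ‖Y^2‖^2, ‖(T+X)^2‖^2 + ‖(T-X)^2‖^2 = 2‖T^2+X^2‖^2 + 2‖TX+XT‖^2, ‖TX+XT‖^2 + ‖TX-XT‖^2 = 4‖XT‖^2 (these are traces of words in T, X; use cyclicity)). Sum over a: sum ‖X_a T‖^2 = (N - 1/N)‖T‖^2 and
sum ‖T X_a - X_a T‖^2 = 2N ‖T‖^2 by Pool.Agent.Y721.AF.Sun.af_sun (S_SUN; kap B T is the second sum), sum ‖X_a‖^2 = n = N^2 - 1 (the number of elements of the basis; if S_SUN does not give it: the span of the X_a is the space of the antihermitian matrices with trace 0; or contract the completeness relation), sum <T,X_a>^2 = ‖T‖^2. Result: -(N - 1/N)‖T‖^2 + (1/6) 2N ‖T‖^2 - b (2 (N^2-1) + 4) ‖T‖^2 = (-(2N/3) + 1/N - 2b(N^2+1))‖T‖^2.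
-/

set_option autoImplicit false
set_option linter.unusedVariables false

open MeasureTheory Matrix Filter
open scoped Matrix.Norms.Frobenius Topology ContDiff
open Pool.Agent.Y16.Gluon Pool.Agent.Y16.AF

namespace Pool.Agent.H735U

namespace Exb

/-- the fourth derivative from a chain of derivatives -/
theorem iter4 {F0 F1 F2 F3 F4 : ℝ → ℝ} (h0 : ∀ t, HasDerivAt F0 (F1 t) t)
    (h1 : ∀ t, HasDerivAt F1 (F2 t) t) (h2 : ∀ t, HasDerivAt F2 (F3 t) t)
    (h3 : ∀ t, HasDerivAt F3 (F4 t) t) : iteratedDeriv 4 F0 = F4 := by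
  have e0 : deriv F0 = F1 := funext fun t => (h0 t).deriv
  have e1 : deriv F1 = F2 := funext fun t => (h1 t).deriv
  have e2 : deriv F2 = F3 := funext fun t => (h2 t).deriv
  have e3 : deriv F3 = F4 := funext fun t => (h3 t).deriv
  rw [iteratedDeriv_succ, iteratedDeriv_succ, iteratedDeriv_succ, iteratedDeriv_succ,
    iteratedDeriv_zero, e0, e1, e2, e3]

/-- the fourth derivative of `u - b (u² + v²)` at a point at which `u`, `v` vanish to the order two -/
theorem iter_uv {u0 u1 u2 u3 u4 v0 v1 v2 v3 v4 : ℝ → ℝ} (b : ℝ)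
    (hu0 : ∀ t, HasDerivAt u0 (u1 t) t) (hu1 : ∀ t, HasDerivAt u1 (u2 t) t)
    (hu2 : ∀ t, HasDerivAt u2 (u3 t) t) (hu3 : ∀ t, HasDerivAt u3 (u4 t) t)
    (hv0 : ∀ t, HasDerivAt v0 (v1 t) t) (hv1 : ∀ t, HasDerivAt v1 (v2 t) t)
    (hv2 : ∀ t, HasDerivAt v2 (v3 t) t) (hv3 : ∀ t, HasDerivAt v3 (v4 t) t)
    (zu0 : u0 0 = 0) (zu1 : u1 0 = 0) (zv0 : v0 0 = 0) (zv1 : v1 0 = 0) :
    iteratedDeriv 4 (fun t => u0 t - b * (u0 t ^ 2 + v0 t ^ 2)) 0 =
      u4 0 - 6 * b * (u2 0 ^ 2 + v2 0 ^ 2) := by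
  have h : iteratedDeriv 4 (fun t => u0 t - b * (u0 t ^ 2 + v0 t ^ 2)) =
      fun t => u4 t - b * ((6 * u2 t ^ 2 + 8 * (u1 t * u3 t) + 2 * (u0 t * u4 t)) +
        (6 * v2 t ^ 2 + 8 * (v1 t * v3 t) + 2 * (v0 t * v4 t))) := by
    refine iter4 (F1 := fun t => u1 t - b * (2 * (u0 t * u1 t) + 2 * (v0 t * v1 t)))
      (F2 := fun t => u2 t - b * ((2 * u1 t ^ 2 + 2 * (u0 t * u2 t)) +
        (2 * v1 t ^ 2 + 2 * (v0 t * v2 t))))
      (F3 := fun t => u3 t - b * ((6 * (u1 t * u2 t) + 2 * (u0 t * u3 t)) +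
        (6 * (v1 t * v2 t) + 2 * (v0 t * v3 t)))) ?_ ?_ ?_ ?_
    · intro t
      refine ((hu0 t).sub ((((hu0 t).pow 2).add ((hv0 t).pow 2)).const_mul b)).congr_deriv ?_
      push_cast
      ring
    · intro t
      refine ((hu1 t).sub (((((hu0 t).mul (hu1 t)).const_mul 2).add
        (((hv0 t).mul (hv1 t)).const_mul 2)).const_mul b)).congr_deriv ?_
      ring
    · intro t
      refine ((hu2 t).sub ((((((hu1 t).pow 2).const_mul 2).add
        (((hu0 t).mul (hu2 t)).const_mul 2)).add ((((hv1 t).pow 2).const_mul 2).add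
        (((hv0 t).mul (hv2 t)).const_mul 2))).const_mul b)).congr_deriv ?_
      push_cast
      ring
    · intro t
      refine ((hu3 t).sub ((((((hu1 t).mul (hu2 t)).const_mul 6).add
        (((hu0 t).mul (hu3 t)).const_mul 2)).add ((((hv1 t).mul (hv2 t)).const_mul 6).add
        (((hv0 t).mul (hv3 t)).const_mul 2))).const_mul b)).congr_deriv ?_
      ring
  rw [h]
  simp only [zu0, zu1, zv0, zv1]
  ring

/-- the derivative of `tr (A exp (t Y))` -/
theorem hasDerivAt_tr {N : ℕ} (A Y : Mt N) (t : ℝ) :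
    HasDerivAt (fun t : ℝ => trace (A * NormedSpace.exp (t • Y)))
      (trace (A * Y * NormedSpace.exp (t • Y))) t := by
  have h := hasDerivAt_exp_smul_const' (𝕂 := ℝ) (𝔸 := Mt N) Y t
  let L : Mt N →ₗ[ℝ] ℂ :=
    { toFun := fun M => trace (A * M)
      map_add' := fun x y => by rw [Matrix.mul_add, trace_add]
      map_smul' := fun c x => by rw [Matrix.mul_smul, trace_smul]; rfl }
  have h2 := (LinearMap.toContinuousLinearMap L).hasFDerivAt.comp_hasDerivAt t h
  have e : trace (A * Y * NormedSpace.exp (t • Y)) = trace (A * (Y * NormedSpace.exp (t • Y))) := by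
    rw [Matrix.mul_assoc]
  rw [e]
  exact h2

theorem hasDerivAt_re {f : ℝ → ℂ} {f' : ℂ} {t : ℝ} (h : HasDerivAt f f' t) :
    HasDerivAt (fun t => (f t).re) f'.re t :=
  (Complex.reCLM.hasFDerivAt.comp_hasDerivAt t h)

theorem hasDerivAt_im {f : ℝ → ℂ} {f' : ℂ} {t : ℝ} (h : HasDerivAt f f' t) :
    HasDerivAt (fun t => (f t).im) f'.im t :=
  (Complex.imCLM.hasFDerivAt.comp_hasDerivAt t h)

theorem quart_smix {N : ℕ} (b : ℝ) {Y : Mt N} (h1 : trace Y = 0) (h2 : Yᴴ = -Y) :
    quart (smix b) Y = -(trace (Y * Y * (Y * Y))).re - 6 * b * (‖Y‖ ^ 2) ^ 2 := by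
  have hd : ∀ (A : Mt N) (t : ℝ), HasDerivAt (fun t : ℝ => -(trace (A * NormedSpace.exp (t • Y))))
      (-(trace (A * Y * NormedSpace.exp (t • Y)))) t := fun A t => (hasDerivAt_tr A Y t).neg
  have hd0 : ∀ (t : ℝ), HasDerivAt (fun t : ℝ => trace (1 - NormedSpace.exp (t • Y)))
      (-(trace (Y * NormedSpace.exp (t • Y)))) t := by
    intro t
    have h := (hasDerivAt_tr 1 Y t).const_sub (trace (1 : Mt N))
    simp only [Matrix.one_mul] at h
    simpa only [trace_sub] using h
  have e := iter_uv (u0 := fun t => (trace (1 - NormedSpace.exp (t • Y))).re)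
    (u1 := fun t => (-(trace (Y * NormedSpace.exp (t • Y)))).re)
    (u2 := fun t => (-(trace (Y * Y * NormedSpace.exp (t • Y)))).re)
    (u3 := fun t => (-(trace (Y * Y * Y * NormedSpace.exp (t • Y)))).re)
    (u4 := fun t => (-(trace (Y * Y * Y * Y * NormedSpace.exp (t • Y)))).re)
    (v0 := fun t => (trace (1 - NormedSpace.exp (t • Y))).im)
    (v1 := fun t => (-(trace (Y * NormedSpace.exp (t • Y)))).im)
    (v2 := fun t => (-(trace (Y * Y * NormedSpace.exp (t • Y)))).im)
    (v3 := fun t => (-(trace (Y * Y * Y * NormedSpace.exp (t • Y)))).im)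
    (v4 := fun t => (-(trace (Y * Y * Y * Y * NormedSpace.exp (t • Y)))).im) b
    (fun t => hasDerivAt_re (hd0 t)) (fun t => hasDerivAt_re (hd Y t))
    (fun t => hasDerivAt_re (hd (Y * Y) t)) (fun t => hasDerivAt_re (hd (Y * Y * Y) t))
    (fun t => hasDerivAt_im (hd0 t)) (fun t => hasDerivAt_im (hd Y t))
    (fun t => hasDerivAt_im (hd (Y * Y) t)) (fun t => hasDerivAt_im (hd (Y * Y * Y) t))
    (by simp) (by simp [h1]) (by simp) (by simp [h1])
  have e2 : quart (smix b) Y = iteratedDeriv 4 (fun t : ℝ =>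
      (trace (1 - NormedSpace.exp (t • Y))).re - b * ((trace (1 - NormedSpace.exp (t • Y))).re ^ 2 +
        (trace (1 - NormedSpace.exp (t • Y))).im ^ 2)) 0 := by
    unfold quart smix
    congr 1
    funext t
    rw [← Complex.normSq_eq_norm_sq, Complex.normSq_apply]
    ring
  rw [e2, e]
  have e3 : ‖Y‖ ^ 2 = -(trace (Y * Y)).re := by
    rw [frob_sq, h2, neg_mul, trace_neg, Complex.neg_re]
  have e4 : (trace (Y * Y)).im = 0 := by
    have : star (trace (Y * Y)) = trace (Y * Y) := by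
      rw [← trace_conjTranspose, conjTranspose_mul, h2, neg_mul_neg]
    exact Complex.conj_eq_iff_im.mp this
  simp only [zero_smul, NormedSpace.exp_zero, Matrix.mul_one, Complex.neg_re, Complex.neg_im, e4]
  rw [e3, Matrix.mul_assoc (Y * Y) Y Y]
  ring

/-- the trace of the fourth powers -/
theorem tr4 {N : ℕ} (T X : Mt N) :
    trace ((T + X) * (T + X) * ((T + X) * (T + X))) + trace ((T - X) * (T - X) * ((T - X) * (T - X)))
      - 2 * trace (T * T * (T * T)) - 2 * trace (X * X * (X * X)) =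
      8 * trace (T * T * (X * X)) + 4 * trace (T * (X * T * X)) := by
  have e1 : trace (T * X * (X * T)) = trace (T * T * (X * X)) := by
    rw [← Matrix.mul_assoc, trace_mul_comm (T * X * X) T]
    congr 1
    noncomm_ring
  have e2 : trace (X * T * (T * X)) = trace (T * T * (X * X)) := by
    rw [Matrix.mul_assoc X, trace_mul_comm X]
    congr 1
    noncomm_ring
  have e3 : trace (X * X * (T * T)) = trace (T * T * (X * X)) := trace_mul_comm _ _
  have e4 : trace (X * T * (X * T)) = trace (T * (X * T * X)) := by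
    rw [← Matrix.mul_assoc, trace_mul_comm _ T]
  have e : (T + X) * (T + X) * ((T + X) * (T + X)) + (T - X) * (T - X) * ((T - X) * (T - X)) =
      2 • (T * T * (T * T)) + 2 • (X * X * (X * X)) + 2 • (T * T * (X * X)) +
      2 • (T * (X * T * X)) + 2 • (T * X * (X * T)) + 2 • (X * T * (T * X)) +
      2 • (X * T * (X * T)) + 2 • (X * X * (T * T)) := by
    noncomm_ring
  rw [← trace_add, e]
  simp only [two_smul, trace_add, e1, e2, e3, e4]
  ring

theorem norm_add_sub {N : ℕ} (T X : Mt N) :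
    ‖T + X‖ ^ 2 = ‖T‖ ^ 2 + ‖X‖ ^ 2 + 2 * (trace (Xᴴ * T)).re ∧
    ‖T - X‖ ^ 2 = ‖T‖ ^ 2 + ‖X‖ ^ 2 - 2 * (trace (Xᴴ * T)).re := by
  have h : (trace (Tᴴ * X)).re = (trace (Xᴴ * T)).re := by
    have : star (trace (Tᴴ * X)) = trace (Xᴴ * T) := by
      rw [← trace_conjTranspose, conjTranspose_mul, conjTranspose_conjTranspose]
    rw [← this]
    simp
  constructor
  · rw [frob_sq, frob_sq, frob_sq, conjTranspose_add, Matrix.add_mul, Matrix.mul_add,
      Matrix.mul_add, trace_add, trace_add, trace_add, Complex.add_re, Complex.add_re,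
      Complex.add_re, h]
    ring
  · rw [frob_sq, frob_sq, frob_sq, conjTranspose_sub, Matrix.sub_mul, Matrix.mul_sub,
      Matrix.mul_sub, trace_sub, trace_sub, trace_sub, Complex.sub_re, Complex.sub_re,
      Complex.sub_re, h]
    ring

theorem mixed_smix {N : ℕ} (b : ℝ) {T X : Mt N} (hT1 : trace T = 0) (hT2 : Tᴴ = -T)
    (hX1 : trace X = 0) (hX2 : Xᴴ = -X) :
    mixed (smix b) T X = -(2 / 3) * (trace (T * T * (X * X))).re -
      1 / 3 * (trace (T * (X * T * X))).re - 2 * b * (‖T‖ ^ 2 * ‖X‖ ^ 2) -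
      4 * b * (trace (Xᴴ * T)).re ^ 2 := by
  have ha1 : trace (T + X) = 0 := by rw [trace_add, hT1, hX1, add_zero]
  have ha2 : (T + X)ᴴ = -(T + X) := by rw [conjTranspose_add, hT2, hX2]; abel
  have hs1 : trace (T - X) = 0 := by rw [trace_sub, hT1, hX1, sub_zero]
  have hs2 : (T - X)ᴴ = -(T - X) := by rw [conjTranspose_sub, hT2, hX2]; abel
  unfold mixed
  rw [quart_smix b ha1 ha2, quart_smix b hs1 hs2, quart_smix b hT1 hT2, quart_smix b hX1 hX2,
    (norm_add_sub T X).1, (norm_add_sub T X).2]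
  have h := congrArg Complex.re (tr4 T X)
  simp only [Complex.add_re, Complex.sub_re, Complex.mul_re, Complex.re_ofNat, Complex.im_ofNat,
    zero_mul, sub_zero] at h
  linear_combination (-(1 / 12 : ℝ)) * h

end Exb

theorem t_EXB : S_EXB := by
  intro N n G hG hN hdet B b T hT
  obtain ⟨htr, hsk⟩ := Pool.Agent.Y721.AF.Sun.tr_span B hdet hT
  have hXX := Pool.Agent.Y721.AF.Sun.sum_XX B hN hdet
  have hXTX := Pool.Agent.Y721.AF.Sun.sum_XTX B hN hdet htr
  have hTT : ‖T‖ ^ 2 = -(trace (T * T)).re := by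
    rw [frob_sq, hsk, neg_mul, trace_neg, Complex.neg_re]
  have hXX' : ∑ a, B.X a * B.X a = -(((N : ℂ) - 1 / N) • (1 : Mt N)) := by
    rw [← hXX, ← Finset.sum_neg_distrib]
    refine Finset.sum_congr rfl fun a _ => ?_
    rw [skX B a, neg_mul, neg_neg]
  have hre : ((N : ℂ) - 1 / N) = (((N : ℝ) - 1 / N : ℝ) : ℂ) := by push_cast; rfl
  have hre2 : (1 / N : ℂ) = ((1 / N : ℝ) : ℂ) := by push_cast; rfl
  have hN' : (N : ℝ) ≠ 0 := by exact_mod_cast hN.ne'
  have s1 : ∑ a, (trace (T * T * (B.X a * B.X a))).re = ((N : ℝ) - 1 / N) * ‖T‖ ^ 2 := by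
    rw [← Complex.re_sum, ← trace_sum, ← Finset.mul_sum, hXX', Matrix.mul_neg, Matrix.mul_smul,
      Matrix.mul_one, trace_neg, trace_smul, smul_eq_mul, hre, Complex.neg_re,
      Complex.re_ofReal_mul, hTT]
    ring
  have s2 : ∑ a, (trace (T * (B.X a * T * B.X a))).re = -(1 / N * ‖T‖ ^ 2) := by
    rw [← Complex.re_sum, ← trace_sum, ← Finset.mul_sum, hXTX, Matrix.mul_smul, trace_smul,
      smul_eq_mul, hre2, Complex.re_ofReal_mul, hTT]
    ring
  have s3 : ∑ a, ‖B.X a‖ ^ 2 = (N : ℝ) ^ 2 - 1 := by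
    rw [Finset.sum_congr rfl fun a _ => frob_sq (B.X a), ← Complex.re_sum, ← trace_sum, hXX,
      trace_smul, trace_one, Fintype.card_fin, smul_eq_mul, hre, Complex.re_ofReal_mul]
    simp only [Complex.natCast_re]
    field_simp
  have s4 : ∑ a, (trace ((B.X a)ᴴ * T)).re ^ 2 = ‖T‖ ^ 2 := by
    have h := expand B hT
    have h2 : (trace (Tᴴ * T)).re = ∑ a, (trace ((B.X a)ᴴ * T)).re * (trace (Tᴴ * B.X a)).re := by
      conv_lhs => rw [h, ← h]
      rw [show Tᴴ * T = Tᴴ * ∑ a, (trace ((B.X a)ᴴ * T)).re • B.X a from by rw [← h],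
        Finset.mul_sum, trace_sum, Complex.re_sum]
      refine Finset.sum_congr rfl fun a _ => ?_
      rw [Matrix.mul_smul, trace_smul, Complex.smul_re, smul_eq_mul]
    rw [frob_sq, h2]
    refine Finset.sum_congr rfl fun a _ => ?_
    have : star (trace (Tᴴ * B.X a)) = trace ((B.X a)ᴴ * T) := by
      rw [← trace_conjTranspose, conjTranspose_mul, conjTranspose_conjTranspose]
    rw [← this]
    simp [sq]
  rw [Finset.sum_congr rfl fun a _ => Exb.mixed_smix b htr hsk
    (Pool.Agent.Y721.AF.Sun.tr_zero B hdet a) (skX B a)]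
  rw [Finset.sum_sub_distrib, Finset.sum_sub_distrib, Finset.sum_sub_distrib, ← Finset.mul_sum,
    ← Finset.mul_sum, ← Finset.mul_sum, ← Finset.mul_sum, ← Finset.mul_sum, s1, s2, s3, s4]
  field_simp
  ring

end Pool.Agent.H735U
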