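import Mathlib
import Pool.Agent.H735U.Stm2

/-! # Project UNI: elementary identities for the fourth derivatives -/

open MeasureTheory Matrix Filter
open scoped Matrix.Norms.Frobenius Topology ContDiff
open Pool.Agent.Y16.Gluon
open Pool.Agent.Y16.AF

namespace Pool.Agent.H735U

section gen

variable {E : Type*} [NormedAddCommGroup E] [NormedSpace ℝ E] {r : E → ℝ}

theorem dr4_smul_left (hr : ContDiff ℝ ∞ r) (M Y Z Z' : E) (c : ℝ) :
    dr4 r M (c • Y) (c • Y) Z Z' = c ^ 2 * dr4 r M Y Y Z Z' := by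
  rw [dr4_swap hr, dr4_smul_right, dr4_comm_right hr, dr4_smul_right, dr4_comm_right hr,
    dr4_swap hr]
  ring

/-- Polarization. -/
theorem dr4_pol (hr : ContDiff ℝ ∞ r) (M T X : E) :
    12 * dr4 r M T T X X = dr4 r M (T + X) (T + X) (T + X) (T + X) +
      dr4 r M (T - X) (T - X) (T - X) (T - X) - 2 * dr4 r M T T T T - 2 * dr4 r M X X X X := by
  have hn : ∀ Y Y' Z Z' : E, dr4 r M Y Y' Z (-Z') = -dr4 r M Y Y' Z Z' := by
    intro Y Y' Z Z'
    rw [← neg_one_smul ℝ Z', dr4_smul_right]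
    ring
  have e4 : ∀ Y Y' Z A B : E, dr4 r M Y Y' Z (A + B) = dr4 r M Y Y' Z A + dr4 r M Y Y' Z B :=
    fun Y Y' Z A B => dr4_add_right M Y Y' Z A B
  have e3 : ∀ Y Y' A B Z' : E, dr4 r M Y Y' (A + B) Z' = dr4 r M Y Y' A Z' + dr4 r M Y Y' B Z' := by
    intro Y Y' A B Z'
    rw [dr4_comm_right hr, e4, dr4_comm_right hr _ _ _ _ A, dr4_comm_right hr _ _ _ _ B]
  have e2 : ∀ Y A B Z Z' : E, dr4 r M Y (A + B) Z Z' = dr4 r M Y A Z Z' + dr4 r M Y B Z Z' := by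
    intro Y A B Z Z'
    rw [dr4_swap hr, e4, dr4_swap hr _ _ _ _ A, dr4_swap hr _ _ _ _ B]
  have e1 : ∀ A B Y' Z Z' : E, dr4 r M (A + B) Y' Z Z' = dr4 r M A Y' Z Z' + dr4 r M B Y' Z Z' := by
    intro A B Y' Z Z'
    rw [dr4_comm_left hr, e2, dr4_comm_left hr _ _ A, dr4_comm_left hr _ _ B]
  have n3 : ∀ Y Y' Z Z' : E, dr4 r M Y Y' (-Z) Z' = -dr4 r M Y Y' Z Z' := by
    intro Y Y' Z Z'
    rw [dr4_comm_right hr, hn, dr4_comm_right hr]
  have n2 : ∀ Y Y' Z Z' : E, dr4 r M Y (-Y') Z Z' = -dr4 r M Y Y' Z Z' := by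
    intro Y Y' Z Z'
    rw [dr4_swap hr, hn, dr4_swap hr]
  have n1 : ∀ Y Y' Z Z' : E, dr4 r M (-Y) Y' Z Z' = -dr4 r M Y Y' Z Z' := by
    intro Y Y' Z Z'
    rw [dr4_comm_left hr, n2, dr4_comm_left hr]
  simp only [sub_eq_add_neg, e1, e2, e3, e4, n1, n2, n3, hn]
  have a1 : dr4 r M T X T X = dr4 r M T T X X := by rw [dr4_comm_mid hr, dr4_swap hr]
  have a2 : dr4 r M X T X T = dr4 r M T T X X := by rw [dr4_comm_mid hr]
  have a3 : dr4 r M T X X T = dr4 r M T T X X := by rw [dr4_comm_right hr, a1]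
  have a4 : dr4 r M X T T X = dr4 r M T T X X := by rw [dr4_comm_right hr, a2]
  have a5 : dr4 r M X X T T = dr4 r M T T X X := by rw [dr4_swap hr]
  rw [a1, a2, a3, a4, a5]
  ring

end gen

end Pool.Agent.H735U
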