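import Mathlib
import Pool.Agent.H735U.Stm
import Pool.Agent.Y16.AF.Prob9

/-! # Project UNI: statements of the parts, the one loop formula -/

open MeasureTheory Matrix Filter
open scoped Matrix.Norms.Frobenius Topology ContDiff
open Pool.Agent.Y16.Gluon
open Pool.Agent.Y16.AF

namespace Pool.Agent.H735U

/-- U11: the one loop formula (after `Pool.Agent.Y16.AF.core_of`). -/
def S_CORER : Prop :=
  S_GAUGER → S_DIFFR → S_BALL → S_COER → S_RT → S_CMP → S_MOMR → S_TAY1 → S_TAY2 → S_TAYG →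
    S_TAY1R → S_TAY2R → S_TAYGR → S_IBPR → S_CONTR → S_ABS → S_HPD → ∃ K : ℕ, ∀
    {N n : ℕ} (G : Subgroup (UU N)) (_ : IsClosed (G : Set (UU N))) [MeasurableSpace G]
    [BorelSpace G] (μ : Measure G) [IsProbabilityMeasure μ] [μ.IsHaarMeasure] (r : Mt N → ℝ)
    (_ : Adm G r) (B : LieBasis G n)
    (T : Mt N) (e : ℝ → G) (_ : ∀ t, mt (e t) = NormedSpace.exp (t • T)),
    ∃ (C : ℝ), ∀ (L : ℕ) [NeZero L], 2 ≤ L → ∀ β : ℝ, (L : ℝ) ^ K ≤ β →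
      |invR μ r e L β - (β * ‖T‖ ^ 2 + 1 / 2 * (kap B T * XX L) + 1 / 2 *
        (1 / (L : ℝ) ^ 4 * trace ((rs (Hm (L := L)))⁻¹ * rs (H01 (L := L)))) *
        (trace (eM B T) + trace (qM B r T)))| ≤ C / L

/-- The one loop formula for the general energy. -/
def CORER (K : ℕ) : Prop :=
  ∀ {N n : ℕ} (G : Subgroup (UU N)) (_ : IsClosed (G : Set (UU N))) [MeasurableSpace G]
    [BorelSpace G] (μ : Measure G) [IsProbabilityMeasure μ] [μ.IsHaarMeasure] (r : Mt N → ℝ)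
    (_ : Adm G r) (B : LieBasis G n)
    (T : Mt N) (e : ℝ → G) (_ : ∀ t, mt (e t) = NormedSpace.exp (t • T)),
    ∃ (C : ℝ), ∀ (L : ℕ) [NeZero L], 2 ≤ L → ∀ β : ℝ, (L : ℝ) ^ K ≤ β →
      |invR μ r e L β - (β * ‖T‖ ^ 2 + 1 / 2 * (kap B T * XX L) + 1 / 2 *
        (1 / (L : ℝ) ^ 4 * trace ((rs (Hm (L := L)))⁻¹ * rs (H01 (L := L)))) *
        (trace (eM B T) + trace (qM B r T)))| ≤ C / L

/-- U12: the final form, uniformly in the field (after `Pool.Agent.Y16.AF.fin_of`, `unif_of`). -/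
def S_FINR : Prop :=
  ∀ K : ℕ, CORER K → S_GAUGER → S_DIFFR → S_CONTR → ∀ x : ℝ,
    Tendsto (fun L : ℕ => XX (L + 2) +
      11 / (12 * Real.pi ^ 2) * Real.log ((L + 2 : ℕ) : ℝ)) atTop (𝓝 x) → C_WH →
    ∀ {N n : ℕ} (G : Subgroup (UU N)) (_ : IsClosed (G : Set (UU N)))
      [MeasurableSpace G] [BorelSpace G] (μ : Measure G) [IsProbabilityMeasure μ]
      [μ.IsHaarMeasure] (r : Mt N → ℝ) (_ : Adm G r) (B : LieBasis G n),
      ∃ δ : ℕ → ℝ, Tendsto δ atTop (𝓝 0) ∧ ∀ (T : Mt N) (e : ℝ → G),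
        (∀ t, mt (e t) = NormedSpace.exp (t • T)) → ∀ (L : ℕ) [NeZero L], 2 ≤ L → ∀ β : ℝ,
        (L : ℝ) ^ K ≤ β → |invR μ r e L β - (β * ‖T‖ ^ 2 -
          11 / (24 * Real.pi ^ 2) * kap B T * Real.log L +
          (1 / 2 * x + 1 / 16) * kap B T - 1 / 4 * ∑ a, ‖B.X a * T‖ ^ 2 +
          1 / 4 * ∑ a, dr4 r 1 T T (B.X a) (B.X a))| ≤ δ L * ‖T‖ ^ 2

end Pool.Agent.H735U
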