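import Mathlib
import Pool.Agent.H735U.Stm2
import Pool.Agent.H735U.Stm3
import Pool.Agent.H735U.Lem
import Pool.Agent.H735U.Exb
import Pool.Agent.Y421.AF.Mom
import Pool.Agent.Y16.AF.Fin

/-! # Project UNI: assembly -/

open MeasureTheory Matrix Filter
open scoped Matrix.Norms.Frobenius Topology ContDiff
open Pool.Agent.Y16.Gluon
open Pool.Agent.Y16.AF (Sp Links tplaq splaq kap expand T_mem)

namespace Pool.Agent.H735U

set_option linter.unusedSectionVars false

noncomputable section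

section defs

variable {N L : ℕ} {G : Subgroup (UU N)}

/-- The action: the sum of the energies of all plaquettes. -/
def actionS [NeZero L] (s : Mt N → ℝ) (e : ℝ → G) (ε : ℝ) (U : Links L → G) : ℝ :=
  ∑ x : Sp L, ((∑ t ∈ Finset.range L, ∑ j, s (mt (tplaq e ε U t x j))) +
    ∑ t ∈ Finset.range (L + 1), ∑ i, ∑ j,
      if i < j then s (mt (splaq e ε U t x i j)) else 0)

/-- The partition function with the given boundary values. -/
def ZS [MeasurableSpace G] (μ : Measure G) (s : Mt N → ℝ) (e : ℝ → G) (L : ℕ) [NeZero L]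
    (β ε : ℝ) : ℝ :=
  ∫ U : Links L → G, Real.exp (-(β * actionS s e ε U)) ∂(Measure.pi fun _ => μ)

/-- The inverse running coupling at the scale `L`. -/
def invS [MeasurableSpace G] (μ : Measure G) (s : Mt N → ℝ) (e : ℝ → G) (L : ℕ) [NeZero L]
    (β : ℝ) : ℝ :=
  iteratedDeriv 2 (fun ε => -Real.log (ZS μ s e L β ε)) 0

end defs

/-- The running. -/
def RunsS {N : ℕ} (G : Subgroup (UU N)) [MeasurableSpace G] (μ : Measure G) (s : Mt N → ℝ) (K : ℕ)
    (m : Mt N → ℝ → ℕ → ℝ) : Prop :=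
  ∃ δ : ℕ → ℝ, Tendsto δ atTop (𝓝 0) ∧ ∀ (T : Mt N) (e : ℝ → G),
    (∀ t, mt (e t) = NormedSpace.exp (t • T)) → ∀ (L : ℕ) [NeZero L], 2 ≤ L → ∀ β : ℝ,
      (L : ℝ) ^ K ≤ β → |invS μ s e L β - m T β L| ≤ δ L * ‖T‖ ^ 2

section prep

variable {N n : ℕ} {G : Subgroup (UU N)}

lemma norm_sub_sq (g : G) : ‖mt g - 1‖ ^ 2 = 2 * (trace (1 - mt g)).re :=
  Pool.Agent.Y421.AF.norm_sub_sq g

lemma trace_conj (g h : G) : (trace (1 - mt (h * g * h⁻¹))).re = (trace (1 - mt g)).re := by
  have h1 := norm_sub_sq (h * g * h⁻¹)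
  have e : trace (mt (h * g * h⁻¹)) = trace (mt g) := by
    have : mt (h * g * h⁻¹) = mt h * mt g * mt h⁻¹ := rfl
    rw [this, trace_mul_cycle]
    have h2 : mt h⁻¹ * mt h = 1 := by
      have : mt h⁻¹ * mt h = mt (h⁻¹ * h) := rfl
      rw [this, inv_mul_cancel]
      rfl
    rw [h2, one_mul]
  rw [trace_sub, trace_sub, e]

/-- The function which is extended. -/
lemma exists_adm (hext : S_EXT) (hG : IsClosed (G : Set (UU N))) {s : Mt N → ℝ}
    (hs : IsEnergy G s) : ∃ r : Mt N → ℝ, Adm G r ∧ ∀ g : G, s (mt g) = en1 r g := by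
  obtain ⟨C, hC⟩ := hs.norm
  have hsm : ContDiff ℝ ∞ fun M : Mt N => s M - (trace (1 - M)).re := by
    refine hs.smooth.sub ?_
    let F : Mt N →ₗ[ℝ] ℝ :=
      { toFun := fun M => (trace M).re
        map_add' := fun a b => by simp [trace_add]
        map_smul' := fun c a => by simp [trace_smul] }
    have h1 : ContDiff ℝ ∞ (F : Mt N → ℝ) := (LinearMap.toContinuousLinearMap F).contDiff
    exact h1.comp (contDiff_const.sub contDiff_id)
  obtain ⟨r, hr1, hr2, hr3⟩ := hext G hG (fun M : Mt N => s M - (trace (1 - M)).re) hsm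
    ⟨C, fun g => by
      have h := hC g
      rw [norm_sub_sq] at h
      simpa [← mul_assoc] using h⟩
  have he : ∀ g : G, s (mt g) = en1 r g := by
    intro g
    rw [en1, hr2 g]
    ring
  refine ⟨r, ⟨hr1, hr3, fun g h => ?_, fun g hg => ?_⟩, he⟩
  · rw [hr2, hr2, hs.cls, trace_conj]
  · have := hs.pos g hg
    rw [he g] at this
    exact this

lemma actionS_eq {L : ℕ} [NeZero L] {s r : Mt N → ℝ} (h : ∀ g : G, s (mt g) = en1 r g)
    (e : ℝ → G) (ε : ℝ) (U : Links L → G) : actionS s e ε U = actionR r e ε U := by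
  unfold actionS actionR
  simp only [h]

lemma invS_eq {L : ℕ} [NeZero L] [MeasurableSpace G] (μ : Measure G) {s r : Mt N → ℝ}
    (h : ∀ g : G, s (mt g) = en1 r g) (e : ℝ → G) (β : ℝ) : invS μ s e L β = invR μ r e L β := by
  unfold invS invR ZS ZR
  simp only [actionS_eq h]

lemma quart_eq (hrt : S_RT) (hd4 : S_D4) {s r : Mt N → ℝ} (hr : Adm G r)
    (h : ∀ g : G, s (mt g) = en1 r g) {Y : Mt N} (hY : IsLie G Y) :
    quart s Y = -(trace (Y * Y * (Y * Y))).re + dr4 r 1 Y Y Y Y := by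
  rw [← hd4 hrt r hr.smooth hr.van Y]
  unfold quart
  congr 1
  funext t
  obtain ⟨g, hg⟩ := hY t
  rw [← hg, h g]
  rfl

lemma words {T X : Mt N} (hT : Tᴴ = -T) (hX : Xᴴ = -X) :
    (trace (T * T * (X * X))).re = ‖X * T‖ ^ 2 ∧
    (trace (T * (X * T * X))).re = ‖X * T‖ ^ 2 - 1 / 2 * ‖T * X - X * T‖ ^ 2 := by
  have e1 : ‖X * T‖ ^ 2 = (trace (T * T * (X * X))).re := by
    rw [Pool.Agent.Y421.AF.norm_sq, conjTranspose_mul, hT, hX]
    congr 1
    rw [neg_mul_neg, trace_mul_comm (T * X)]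
    have : X * T * (T * X) = X * (T * T * X) := by simp only [mul_assoc]
    rw [this, trace_mul_comm, mul_assoc]
  have e2 : ‖T * X - X * T‖ ^ 2 = 2 * (trace (T * T * (X * X))).re -
      2 * (trace (T * (X * T * X))).re := by
    rw [Pool.Agent.Y421.AF.norm_sq, conjTranspose_sub, conjTranspose_mul, conjTranspose_mul, hT,
      hX, neg_mul_neg, neg_mul_neg]
    have e : (X * T - T * X) * (T * X - X * T) = X * T * (T * X) - X * T * (X * T) -
        T * X * (T * X) + T * X * (X * T) := by noncomm_ring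
    rw [e, trace_add, trace_sub, trace_sub]
    have a1 : trace (X * T * (T * X)) = trace (T * T * (X * X)) := by
      have : X * T * (T * X) = X * (T * T * X) := by simp only [mul_assoc]
      rw [this, trace_mul_comm, mul_assoc]
    have a2 : trace (T * X * (X * T)) = trace (T * T * (X * X)) := by
      rw [trace_mul_comm, a1]
    have a3 : trace (T * X * (T * X)) = trace (T * (X * T * X)) := by simp only [mul_assoc]
    have a4 : trace (X * T * (X * T)) = trace (T * (X * T * X)) := by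
      rw [mul_assoc, trace_mul_comm, ← a3]
      congr 1
      simp only [mul_assoc]
    rw [a1, a2, a3, a4]
    simp only [Complex.add_re, Complex.sub_re]
    ring
  refine ⟨e1.symm, ?_⟩
  rw [e2, e1]
  ring

lemma mixed_eq (hrt : S_RT) (hd4 : S_D4) (hG : IsClosed (G : Set (UU N))) {s r : Mt N → ℝ}
    (hr : Adm G r) (h : ∀ g : G, s (mt g) = en1 r g) (B : LieBasis G n) {T X : Mt N}
    (hT : T ∈ Submodule.span ℝ (Set.range B.X)) (hX : X ∈ Submodule.span ℝ (Set.range B.X)) :
    mixed s T X = -‖X * T‖ ^ 2 + 1 / 6 * ‖T * X - X * T‖ ^ 2 + dr4 r 1 T T X X := by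
  have hl : ∀ Y ∈ Submodule.span ℝ (Set.range B.X), IsLie G Y := fun Y hY =>
    (Pool.Agent.Y16.AF.lie_iff hG B Y).2 hY
  have hsk : ∀ Y ∈ Submodule.span ℝ (Set.range B.X), Yᴴ = -Y := by
    intro Y hY
    rw [expand B hY, conjTranspose_sum, ← Finset.sum_neg_distrib]
    refine Finset.sum_congr rfl fun a _ => ?_
    rw [conjTranspose_smul, Pool.Agent.Y16.AF.skX]
    simp
  have hw := words (hsk T hT) (hsk X hX)
  have hp := dr4_pol hr.smooth 1 T X
  have ht := congrArg Complex.re (Pool.Agent.H735U.Exb.tr4 T X)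
  simp only [Complex.add_re, Complex.sub_re, Complex.mul_re, Complex.re_ofNat, Complex.im_ofNat,
    zero_mul, sub_zero] at ht
  unfold mixed
  rw [quart_eq hrt hd4 hr h (hl _ (Submodule.add_mem _ hT hX)),
    quart_eq hrt hd4 hr h (hl _ (Submodule.sub_mem _ hT hX)),
    quart_eq hrt hd4 hr h (hl _ hT), quart_eq hrt hd4 hr h (hl _ hX)]
  rw [hw.1, hw.2] at ht
  linarith

end prep

end

end Pool.Agent.H735U
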