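import Mathlib
import Pool.Agent.H735U.Stm
import Pool.Agent.Y421.AF.Mom
import Pool.Agent.H906R3.YM.Conc

set_option autoImplicit false
set_option linter.unusedVariables false

open MeasureTheory Matrix Filter
open scoped Matrix.Norms.Frobenius Topology ContDiff
open Pool.Agent.Y16.Gluon Pool.Agent.Y16.AF

namespace Pool.Agent.H735U

namespace Cmp

open Pool.Agent.Y421.AF

variable {N : ℕ} {G : Subgroup (UU N)}

lemma norm_mt_sq (g : G) : ‖mt g‖ ^ 2 = N := by
  rw [norm_sq, mt_un]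
  simp

lemma norm_mt (g : G) : ‖mt g‖ ≤ Real.sqrt N := by
  have h := norm_mt_sq g
  rw [← h, Real.sqrt_sq (norm_nonneg _)]

lemma eq_one_of_re (g : G) (h : (trace (1 - mt g)).re = 0) : g = 1 := by
  have h1 := norm_sub_sq g
  rw [h, mul_zero] at h1
  have h2 : ‖mt g - 1‖ = 0 := by simpa using h1
  have h3 : mt g - 1 = 0 := norm_eq_zero.1 h2
  have h4 : mt g = 1 := sub_eq_zero.1 h3
  have h5 : ((g : UU N) : Mt N) = ((1 : UU N) : Mt N) := h4
  exact Subtype.ext (Subtype.ext h5)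

lemma re_le (g : G) : (trace (1 - mt g)).re ≤ 2 * (N : ℝ) := by
  have h1 := norm_sub_sq g
  have h2 : ‖mt g - 1‖ ^ 2 ≤ 2 * ‖mt g‖ ^ 2 + 2 * ‖(1 : Mt N)‖ ^ 2 := by
    have := norm_sub_le (mt g) 1
    nlinarith [sq_nonneg (‖mt g‖ - ‖(1 : Mt N)‖), norm_nonneg (mt g - 1), norm_nonneg (mt g), norm_nonneg (1 : Mt N)]
  have h3 : ‖(1 : Mt N)‖ ^ 2 = N := norm_mt_sq (1 : G)
  rw [norm_mt_sq, h3] at h2
  linarith

lemma w_cont : Continuous fun g : G => (trace (1 - mt g)).re := by
  refine Complex.continuous_re.comp ?_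
  exact (continuous_const.sub Pool.Agent.Y421.AF.mt_cont).matrix_trace

lemma r_cont {r : Mt N → ℝ} (hr : ContDiff ℝ ∞ r) : Continuous r := hr.continuous

lemma en_cont {r : Mt N → ℝ} (hr : ContDiff ℝ ∞ r) : Continuous fun g : G => en1 r g :=
  w_cont.add ((r_cont hr).comp Pool.Agent.Y421.AF.mt_cont)

lemma small (S : S_RT) {r : Mt N → ℝ} (hA : Adm G r) : ∃ C : ℝ, 0 ≤ C ∧
    ∀ g : G, |r (mt g)| ≤ C * (trace (1 - mt g)).re ^ 2 := by
  obtain ⟨C, hC, h⟩ := S (Mt N) r 1 hA.smooth hA.van (Real.sqrt N)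
  refine ⟨4 * C, by linarith, fun g => ?_⟩
  have h1 := (h (mt g) (norm_mt g)).1
  have h2 : ‖mt g - 1‖ ^ 4 = 4 * (trace (1 - mt g)).re ^ 2 := by
    have : ‖mt g - 1‖ ^ 4 = (‖mt g - 1‖ ^ 2) ^ 2 := by ring
    rw [this, norm_sub_sq]
    ring
  rw [h2] at h1
  linarith

end Cmp

open Cmp Pool.Agent.Y421.AF in
theorem t_CMP : S_CMP := by
  intro S N G hG r hA
  obtain ⟨C, hC, hs⟩ := small S hA
  have hcG : CompactSpace G :=
    isCompact_iff_compactSpace.1 (IsClosed.isCompact (X := UU N) hG)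
  -- the threshold
  set κ : ℝ := 1 / (2 * (C + 1)) with hκ
  have hκ0 : 0 < κ := by positivity
  have hκC : C * κ ≤ 1 / 2 := by
    rw [hκ, mul_one_div, div_le_div_iff₀ (by positivity) (by norm_num)]
    nlinarith
  have hsm : ∀ g : G, (trace (1 - mt g)).re ≤ κ →
      |r (mt g)| ≤ 1 / 2 * (trace (1 - mt g)).re := by
    intro g hg
    have h0 := re_nonneg g
    refine (hs g).trans ?_
    nlinarith [mul_le_mul_of_nonneg_left hg (mul_nonneg hC h0), mul_le_mul_of_nonneg_right hκC h0]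
  set K : Set G := {g : G | κ ≤ (trace (1 - mt g)).re} with hK
  have hKc : IsCompact K := (isClosed_le continuous_const w_cont).isCompact
  -- lower bound
  obtain ⟨m, hm0, hm⟩ : ∃ m : ℝ, 0 < m ∧ ∀ g ∈ K, m ≤ en1 r g := by
    rcases K.eq_empty_or_nonempty with h | h
    · exact ⟨1, one_pos, fun g hg => by simp [h] at hg⟩
    · obtain ⟨g0, hg0, hmin⟩ := hKc.exists_isMinOn h (en_cont hA.smooth).continuousOn
      refine ⟨en1 r g0, hA.pos g0 ?_, fun g hg => hmin hg⟩
      rintro rfl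
      have : κ ≤ (trace (1 - mt (1 : G))).re := hg0
      rw [mt_one] at this
      simp at this
      linarith
  obtain ⟨M, hM0, hM⟩ : ∃ M : ℝ, 0 ≤ M ∧ ∀ g ∈ K, en1 r g ≤ M := by
    obtain ⟨M, hM⟩ := (hKc.image (en_cont hA.smooth)).bddAbove
    exact ⟨max M 0, le_max_right _ _, fun g hg => (hM (Set.mem_image_of_mem _ hg)).trans (le_max_left _ _)⟩
  refine ⟨min (1 / 2) (m / (2 * N + 1)), max 2 (M / κ), ?_, fun g => ?_⟩
  · refine lt_min (by norm_num) (by positivity)
  · have h0 := re_nonneg g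
    by_cases hg : (trace (1 - mt g)).re ≤ κ
    · have h1 := abs_le.1 (hsm g hg)
      constructor
      · refine (mul_le_mul_of_nonneg_right (min_le_left _ _) h0).trans ?_
        unfold en1
        linarith [h1.1]
      · refine le_trans ?_ (mul_le_mul_of_nonneg_right (le_max_left _ _) h0)
        unfold en1
        linarith [h1.2]
    · have hgK : g ∈ K := le_of_lt (not_le.1 hg)
      have hgκ : κ ≤ (trace (1 - mt g)).re := hgK
      constructor
      · refine (mul_le_mul_of_nonneg_right (min_le_right _ _) h0).trans ?_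
        refine le_trans ?_ (hm g hgK)
        rw [div_mul_eq_mul_div, div_le_iff₀ (by positivity)]
        have := re_le g
        nlinarith
      · refine (hM g hgK).trans ?_
        refine le_trans ?_ (mul_le_mul_of_nonneg_right (le_max_right _ _) h0)
        rw [div_mul_eq_mul_div, le_div_iff₀ hκ0]
        exact mul_le_mul_of_nonneg_left hgκ hM0

end Pool.Agent.H735U
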