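import Mathlib
import Pool.Agent.H735U.Stm
import Pool.Agent.Y16.AF.Prob1

/-
Project UNI (helper735, MP_7f377f_mp = Yang-Mills, weight 100): universality of asymptotic freedom, the lattice Yang-Mills theory with a
general plaquette energy s(g) = Re tr (1 - g) + r(g). It extends the starting result AsymptoticFreedom (Pool/Agent/Y16/AF/* and the job files
Pool/Agent/Y*/AF/*). Statements: Pool/Agent/H735U/{Gen,Defs,Stm,Stm2,Stm3}.lean on origin/main (copy the imported modules and everything they
import to the same paths; everything is on origin/main; `lake build <module>`).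
TARGET: prove the theorem below, statement unchanged, no sorry, no axioms. Put auxiliary lemmas before it, in the sub-namespace used here.
Paste the full file back as result. Please compile with `lake build` or with -DmaxHeartbeats=4000000 (the package option), not `lake env lean`
defaults. If the statement is false or unclear: status='problem' and say why, or message helper735.
REMARK on instances: for Mt N = Matrix (Fin N) (Fin N) C with the Frobenius norm, the Matrix topology and the topology of the norm are equal
by rfl, but not at reducible transparency, so e.g. `Norm (Mt N ->L[R] R)` and `NormedAddCommGroup (Mt N ->L[R] R)` are not found. Therefore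
derivatives are used through dr1, dr2, dr4 (Gen.lean, for a general normed space E; hasDerivAt_comp, hasDerivAt_dr1, contDiff_dr1, contDiff_dr2, dr2_comm, dr4_*).
Prove analytic facts for a general E and apply them to Mt N.

PROOF.
S0_cont, S1_cont, S2_cont, GS_cont in Pool/Agent/Y16/AF/Prob1.lean for the first parts, and continuous_dr1, continuous_dr2 (Pool/Agent/H735U/Gen.lean) composed with the continuous maps U -> pm (lg (fx U) p), V1, V2 (mlg_cont), dl_cont for the corrections.
-/

set_option autoImplicit false
set_option linter.unusedVariables false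

open MeasureTheory Matrix Filter
open scoped Matrix.Norms.Frobenius Topology ContDiff
open Pool.Agent.Y16.Gluon Pool.Agent.Y16.AF

namespace Pool.Agent.H735U

namespace Con

section gen

variable {E X : Type*} [NormedAddCommGroup E] [NormedSpace ℝ E] [TopologicalSpace X] {r : E → ℝ}

theorem c0 (hr : ContDiff ℝ ∞ r) {f : X → E} (hf : Continuous f) :
    Continuous fun x => r (f x) := hr.continuous.comp hf

theorem c1 (hr : ContDiff ℝ ∞ r) {f g : X → E} (hf : Continuous f) (hg : Continuous g) :
    Continuous fun x => dr1 r (f x) (g x) :=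
  (continuous_dr1 hr).comp (hf.prodMk hg)

theorem c2 (hr : ContDiff ℝ ∞ r) {f g h : X → E} (hf : Continuous f) (hg : Continuous g)
    (hh : Continuous h) : Continuous fun x => dr2 r (f x) (g x) (h x) :=
  (continuous_dr2 hr).comp (hf.prodMk (hg.prodMk hh))

end gen

variable {N n L : ℕ} {G : Subgroup (UU N)} [NeZero L] {r : Mt N → ℝ}

theorem pm_cont (p : Pq L) : Continuous fun U : Links L → G => pm (lg (fx U) p) := by
  unfold pm
  exact (((mlg_cont p 0).mul (mlg_cont p 1)).mul (mlg_cont p 2)).mul (mlg_cont p 3)

theorem w_cont (p : Pq L) : Continuous fun U : Links L → G =>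
    mt (lg (fx U) p 1) * mt (lg (fx U) p 2) * mt (lg (fx U) p 3) :=
  ((mlg_cont p 1).mul (mlg_cont p 2)).mul (mlg_cont p 3)

theorem co_cont (T : Mt N) (p : Pq L) : Continuous fun U : Links L → G =>
    T * mt (lg (fx U) p 0) - mt (lg (fx U) p 0) * T :=
  (continuous_const.mul (mlg_cont p 0)).sub ((mlg_cont p 0).mul continuous_const)

theorem V1_cont (T : Mt N) (α τ : ℝ) (p : Pq L) : Continuous fun U : Links L → G =>
    V1 T α τ (lg (fx U) p) := by
  unfold V1
  exact ((continuous_const.mul (pm_cont p)).const_smul α).add
    (((co_cont T p).mul (w_cont p)).const_smul τ)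

theorem V2_cont (T : Mt N) (α τ : ℝ) (p : Pq L) : Continuous fun U : Links L → G =>
    V2 T α τ (lg (fx U) p) := by
  unfold V2
  have hc := co_cont (G := G) T p
  exact ((((continuous_const.mul (pm_cont p)).const_smul (α ^ 2)).add
    (((continuous_const.mul hc).mul (w_cont p)).const_smul (2 * (α * τ)))).add
    ((((continuous_const.mul hc).sub (hc.mul continuous_const)).mul
      (w_cont p)).const_smul (τ ^ 2)))

theorem S0r_cont (hr : ContDiff ℝ ∞ r) : Continuous (S0r (L := L) r : (Links L → G) → ℝ) := by
  unfold S0r
  exact continuous_finsetSum _ fun p _ => c0 hr (pm_cont p)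

theorem S1r_cont (hr : ContDiff ℝ ∞ r) (T : Mt N) :
    Continuous (S1r (L := L) r T : (Links L → G) → ℝ) := by
  unfold S1r D1r
  exact continuous_finsetSum _ fun p _ => c1 hr (pm_cont p) (V1_cont T _ _ p)

theorem S2r_cont (hr : ContDiff ℝ ∞ r) (T : Mt N) :
    Continuous (S2r (L := L) r T : (Links L → G) → ℝ) := by
  unfold S2r D2r
  exact continuous_finsetSum _ fun p _ =>
    (c2 hr (pm_cont p) (V1_cont T _ _ p) (V1_cont T _ _ p)).add
      (c1 hr (pm_cont p) (V2_cont T _ _ p))

theorem GSr_cont (hr : ContDiff ℝ ∞ r) (B : LieBasis G n) (i : Dy L × Fin n) :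
    Continuous fun U : Links L → G => GSr B r U i := by
  unfold GSr
  refine continuous_finsetSum _ fun p _ => continuous_finsetSum _ fun l _ => ?_
  have hh : ∀ m : Fin 4, Continuous fun U : Links L → G =>
      (if l = m then dl B U p m i.2 else mt (lg (fx U) p m)) := by
    intro m
    by_cases h : l = m
    · simpa only [h, if_true] using dl_cont B p m i.2
    · simpa only [h, if_false] using mlg_cont p m
  have h4 : Continuous fun U : Links L → G => dr1 r (pm (lg (fx U) p))
      ((if l = 0 then dl B U p 0 i.2 else mt (lg (fx U) p 0)) *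
        (if l = 1 then dl B U p 1 i.2 else mt (lg (fx U) p 1)) *
        (if l = 2 then dl B U p 2 i.2 else mt (lg (fx U) p 2)) *
        (if l = 3 then dl B U p 3 i.2 else mt (lg (fx U) p 3))) :=
    c1 hr (pm_cont p) ((((hh 0).mul (hh 1)).mul (hh 2)).mul (hh 3))
  by_cases hc : lv p.2.1 p.2.2 l = some i.1.1.2 ∧ p.1 + ls p.2.2 l = i.1.1.1
  · simpa only [if_pos hc] using h4
  · simpa only [if_neg hc] using continuous_const

end Con

theorem t_CONTR : S_CONTR := by
  intro N n G _ r hr B T L _
  refine ⟨?_, ?_, ?_, fun i => ?_⟩
  · exact S0_cont.add (Con.S0r_cont hr.smooth)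
  · exact (S1_cont T).add (Con.S1r_cont hr.smooth T)
  · exact (S2_cont T).add (Con.S2r_cont hr.smooth T)
  · exact (GS_cont B i).add (Con.GSr_cont hr.smooth B i)

end Pool.Agent.H735U
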