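import Mathlib
import Pool.Agent.H735U.Stm3
import Pool.Agent.Y16.AF.Prob5

/-
Project UNI (helper735, MP_7f377f_mp = Yang-Mills, weight 100): universality of asymptotic freedom, the lattice Yang-Mills theory with a
general plaquette energy s(g) = Re tr (1 - g) + r(g). It extends the starting result AsymptoticFreedom (Pool/Agent/Y16/AF/* and the job files
Pool/Agent/Y*/AF/*). Statements: Pool/Agent/H735U/{Gen,Defs,Stm,Stm2,Stm3}.lean on origin/main (copy the imported modules and everything they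
import to the same paths; everything is on origin/main; `lake build <module>`).
TARGET: prove the theorem below, statement unchanged, no sorry, no axioms. Put auxiliary lemmas before it, in the sub-namespace used here.
Paste the full file back as result. Please compile with `lake build` or with -DmaxHeartbeats=4000000 (the package option), not `lake env lean`
defaults. If the statement is false or unclear: status='problem' and say why, or message helper735.
REMARK on instances: for Mt N = Matrix (Fin N) (Fin N) C with the Frobenius norm, the Matrix topology and the topology of the norm are equal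
by rfl, but not at reducible transparency, so e.g. `Norm (Mt N ->L[R] R)` and `NormedAddCommGroup (Mt N ->L[R] R)` are not found. Therefore
derivatives are used through dr1, dr2, dr4 (Gen.lean, for a general normed space E; hasDerivAt_comp, hasDerivAt_dr1, contDiff_dr1, contDiff_dr2, dr2_comm, dr4_*).
Prove analytic facts for a general E and apply them to Mt N.

PROOF.
Copy core_of in Pool/Agent/Y16/AF/Prob5.lean (lines 46-259) and change: PP -> PR-type measure (the tilted measure with S0R; EXR_eq as EX_eq in Prob1.lean, needs the continuity of S0R from S_CONTR), GS -> GSR, S1 -> S1R, S2 -> S2R, RR -> RRR := Matrix.of (fun i j => rs Rm i.1 j.1 * (-(Jm B T * Jm B T)) i.2 j.2 + 1/L^4 * (rs H01 i.1 j.1 * (eM B T + qM B r T) i.2 j.2)).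
The error terms add: |GSR i - sum_j H_ij cA_j| <= (C3 + C3r) L^4 rr^2, |S1R - 1/2 sum Q A A| <= (C1 + C1r) L^4 rr^3, |S2R - ‖T‖^2 - 1/2 sum RRR A A| <= (C2 + C2r) L^4 rr^3. C0 gets the additional terms + 1000 * sab (qM B r T) + |C1r| + |C2r| + |C3r|. qM is symmetric: dr4_comm_right (Gen.lean). The trace of H^-1 RRR: trR in Prob3.lean with eM B T replaced by
eM B T + qM B r T (trace is additive). S_MOMR gives the moments, S_IBPR the integration by parts. Use the gauge fixing S_GAUGER and S_DIFFR for invR as there. K = 80 * (Ka + 1) + 4.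
-/

set_option autoImplicit false
set_option linter.unusedVariables false

open MeasureTheory Matrix Filter
open scoped Matrix.Norms.Frobenius Topology ContDiff
open Pool.Agent.Y16.Gluon Pool.Agent.Y16.AF

namespace Pool.Agent.H735U

namespace Cor

open scoped Kronecker

/-- The matrix of the second derivative of the action. -/
noncomputable def RRR {N n : ℕ} {G : Subgroup (UU N)} (L : ℕ) [NeZero L] (B : LieBasis G n)
    (r : Mt N → ℝ) (T : Mt N) : Matrix (Dy L × Fin n) (Dy L × Fin n) ℝ :=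
  rs (Rm (L := L)) ⊗ₖ (-(Jm B T * Jm B T)) +
    (1 / (L : ℝ) ^ 4) • (rs (H01 (L := L)) ⊗ₖ (eM B T + qM B r T))

lemma trRR {N n L : ℕ} [NeZero L] {G : Subgroup (UU N)} (B : LieBasis G n)
    (r : Mt N → ℝ) (T : Mt N) :
    trace ((HH L n)⁻¹ * RRR L B r T) =
      -(trace ((rs (Hm (L := L)))⁻¹ * rs (Rm (L := L))) * trace (Jm B T * Jm B T)) +
        1 / (L : ℝ) ^ 4 * (trace ((rs (Hm (L := L)))⁻¹ * rs (H01 (L := L))) *
          (trace (eM B T) + trace (qM B r T))) := by
  rw [HH_inv, RRR, Matrix.mul_add, ← Matrix.mul_kronecker_mul, one_mul, Matrix.mul_smul,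
    ← Matrix.mul_kronecker_mul, one_mul, Matrix.trace_add, Matrix.trace_smul,
    Matrix.trace_kronecker, Matrix.trace_kronecker, Matrix.trace_neg, smul_eq_mul,
    Matrix.trace_add]
  ring

lemma qM_symm {N n : ℕ} {G : Subgroup (UU N)} (B : LieBasis G n)
    (r : Mt N → ℝ) (hr : ContDiff ℝ ∞ r) (T : Mt N) : (qM B r T)ᵀ = qM B r T := by
  ext a b
  simp only [Matrix.transpose_apply, qM, Matrix.of_apply]
  exact dr4_comm_right hr _ _ _ _ _

section meas

variable {N L : ℕ} [NeZero L] {G : Subgroup (UU N)}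
variable [CompactSpace G] [SecondCountableTopology G] [MeasurableSpace G] [BorelSpace G]
  (μ : Measure G) [IsProbabilityMeasure μ]

lemma exp_intR (r : Mt N → ℝ) (hc : Continuous (S0R (L := L) r : (Links L → G) → ℝ)) (β : ℝ) :
    Integrable (fun U : Links L → G => Real.exp (-(β * S0R r U)))
    (Measure.pi fun _ => μ) :=
  (Real.continuous_exp.comp (continuous_const.mul hc).neg).integrable_of_hasCompactSupport
    (HasCompactSupport.of_compactSpace _)

lemma PR_prob (r : Mt N → ℝ) (hc : Continuous (S0R (L := L) r : (Links L → G) → ℝ)) (β : ℝ) :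
    IsProbabilityMeasure (PR μ r L β) :=
  isProbabilityMeasure_tilted (exp_intR μ r hc β)

lemma EXR_eq (r : Mt N → ℝ) (β : ℝ) (F : (Links L → G) → ℝ) :
    EXR μ r β F = ∫ U, F U ∂(PR μ r L β) := by
  unfold EXR PR
  rw [integral_tilted, ← integral_div]
  refine integral_congr_ae (Filter.Eventually.of_forall fun U => ?_)
  simp only [smul_eq_mul]
  ring

end meas

end Cor

set_option maxHeartbeats 4000000 in
theorem t_CORER : S_CORER := by
  intro hgauge hdiff hball hcoer hrt hcmp hmom htay1 htay2 htayg htay1r htay2r htaygr hibp hcont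
    habs hhpd
  obtain ⟨Ca, Ka, hCa, habs⟩ := habs
  refine ⟨80 * (Ka + 1) + 4, ?_⟩
  intro N n G hG _ _ μ _ _ r hadm B T e he
  have : CompactSpace G := compactG hG
  have : SecondCountableTopology G := scG
  obtain ⟨Cm, hCm1, hmom⟩ := hmom hball hcoer hrt hcmp G hG μ r hadm
  obtain ⟨C1, htay1⟩ := htay1 G hG B T e he
  obtain ⟨C2, htay2⟩ := htay2 G hG B T e he
  obtain ⟨C3, htayg⟩ := htayg G hG B
  obtain ⟨D1, htay1r⟩ := htay1r hrt G hG r hadm T
  obtain ⟨D2, htay2r⟩ := htay2r hrt G hG r hadm B T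
  obtain ⟨D3, htaygr⟩ := htaygr hrt G hG r hadm B
  have hT : T ∈ Submodule.span ℝ (Set.range B.X) := T_mem B he
  -- the constant M = C0 L^4
  set C0 : ℝ := 1 + 4 * n + 100 + 1000 * sab (Jm B T) + 1000 * sab (-(Jm B T * Jm B T)) +
    1000 * sab (eM B T) + 1000 * sab (qM B r T) + |C1| + |C2| + |C3| + |D1| + |D2| + |D3| with hC0
  have hs1 := sab_nonneg (Jm B T)
  have hs2 := sab_nonneg (-(Jm B T * Jm B T))
  have hs3 := sab_nonneg (eM B T)
  have hs4 := sab_nonneg (qM B r T)
  have hn0 : (0 : ℝ) ≤ n := Nat.cast_nonneg n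
  have a1 := abs_nonneg C1
  have a2 := abs_nonneg C2
  have a3 := abs_nonneg C3
  have a4 := abs_nonneg D1
  have a5 := abs_nonneg D2
  have a6 := abs_nonneg D3
  have hC01 : 1 ≤ C0 := by
    rw [hC0]; linarith
  set K1 : ℕ := Ka + 1 with hK1
  refine ⟨Ca * (C0 * Cm * (4 * K1)) ^ K1, fun L _ hL β hβL => ?_⟩
  obtain ⟨hc0, hc1, hc2, hcg⟩ := hcont G hG r hadm B T L
  have hprob : IsProbabilityMeasure (PR μ r L β) := Cor.PR_prob μ r hc0 β
  have hL0 : (0 : ℝ) < L := by exact_mod_cast (by omega : 0 < L)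
  have hL2 : (2 : ℝ) ≤ L := by exact_mod_cast hL
  have hL1 : (1 : ℝ) ≤ L := by linarith
  have hL4 : (1 : ℝ) ≤ (L : ℝ) ^ 4 := one_le_pow₀ hL1
  have hL40 : (0 : ℝ) ≤ (L : ℝ) ^ 4 := by linarith
  have hβ3 : 3 ≤ β := by
    refine le_trans ?_ hβL
    calc (3 : ℝ) ≤ 2 ^ 2 := by norm_num
      _ ≤ (L : ℝ) ^ 2 := pow_le_pow_left₀ (by norm_num) hL2 2
      _ ≤ (L : ℝ) ^ (80 * K1 + 4) := pow_le_pow_right₀ hL1 (by omega)
  have hβ1 : 1 ≤ β := by linarith
  have hβ0 : 0 < β := by linarith
  have hlog1 : 1 ≤ Real.log β := by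
    rw [Real.le_log_iff_exp_le hβ0]
    exact (Real.exp_one_lt_d9.le.trans (by norm_num)).trans hβ3
  set M : ℝ := C0 * (L : ℝ) ^ 4 with hM
  set m : ℝ := Cm * (L : ℝ) ^ 16 * Real.log β with hm
  have hM1 : 1 ≤ M := one_le_mul_of_one_le_of_one_le hC01 hL4
  have hm1 : 1 ≤ m := one_le_mul_of_one_le_of_one_le
    (one_le_mul_of_one_le_of_one_le hCm1 (one_le_pow₀ hL1)) hlog1
  obtain ⟨hpd, hinv, htr0, htr1, hent, hcard, hHt, hQt, hRt, h01t⟩ := hhpd L hL
  obtain ⟨hib1, hib3⟩ := hibp G hG μ r hadm B L hL β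
  have hC1M : (|C1| + |D1|) * (L : ℝ) ^ 4 ≤ M := by
    refine mul_le_mul_of_nonneg_right ?_ (by positivity)
    rw [hC0]; linarith
  have hC2M : (|C2| + |D2|) * (L : ℝ) ^ 4 ≤ M := by
    refine mul_le_mul_of_nonneg_right ?_ (by positivity)
    rw [hC0]; linarith
  have hC3M : (|C3| + |D3|) * (L : ℝ) ^ 4 ≤ M := by
    refine mul_le_mul_of_nonneg_right ?_ (by positivity)
    rw [hC0]; linarith
  have hC3M' : |C3| * (L : ℝ) ^ 4 ≤ M := by
    refine mul_le_mul_of_nonneg_right ?_ (by positivity)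
    rw [hC0]; linarith
  have hX := habs (PR μ r L β) (HH L n) (QQ L B T) (Cor.RRR L B r T)
    (fun i U => cA B U i) (fun i U => GSR B r U i) (fun i j U => dA B U i j)
    rr (S1R r T) (S2R r T) β M m (‖T‖ ^ 2)
    (cA_cont B) hcg (dA_cont B) rr_cont hc1 hc2 hβ1 hM1 hm1
    (by
      rw [Fintype.card_prod, Fintype.card_fin]
      push_cast
      calc ((Fintype.card (Dy L) : ℕ) : ℝ) * n ≤ 4 * (L : ℝ) ^ 4 * n :=
            mul_le_mul_of_nonneg_right hcard hn0
        _ = 4 * n * (L : ℝ) ^ 4 := by ring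
        _ ≤ M := by
          refine mul_le_mul_of_nonneg_right ?_ (by positivity)
          rw [hC0]; linarith)
    (HH_det hpd)
    (by rw [HH, ← Matrix.kroneckerMap_transpose, hHt, transpose_one])
    (by
      intro i j
      rw [HH_inv]
      show |(rs (Hm (L := L)))⁻¹ i.1 j.1 * (1 : Matrix (Fin n) (Fin n) ℝ) i.2 j.2| ≤ M
      rw [abs_mul]
      have h1 : |(1 : Matrix (Fin n) (Fin n) ℝ) i.2 j.2| ≤ 1 := by
        rw [Matrix.one_apply]; split_ifs <;> simp
      calc _ ≤ 100 * (L : ℝ) ^ 4 * 1 := mul_le_mul (hinv _ _) h1 (abs_nonneg _) (by positivity)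
        _ ≤ M := by
          rw [mul_one]
          refine mul_le_mul_of_nonneg_right ?_ (by positivity)
          rw [hC0]; linarith)
    (by
      intro i j
      show |rs (Qm (L := L)) i.1 j.1 * Jm B T i.2 j.2| ≤ M
      rw [abs_mul]
      calc _ ≤ 1000 * (L : ℝ) ^ 4 * sab (Jm B T) :=
            mul_le_mul (hent _ _).2.1 (le_sab _ _ _) (abs_nonneg _) (by positivity)
        _ = 1000 * sab (Jm B T) * (L : ℝ) ^ 4 := by ring
        _ ≤ M := by
          refine mul_le_mul_of_nonneg_right ?_ (by positivity)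
          rw [hC0]; linarith)
    (by
      intro i j
      show |rs (Rm (L := L)) i.1 j.1 * (-(Jm B T * Jm B T)) i.2 j.2 +
        (1 / (L : ℝ) ^ 4) * (rs (H01 (L := L)) i.1 j.1 * (eM B T i.2 j.2 + qM B r T i.2 j.2))| ≤ M
      refine (abs_add_le _ _).trans ?_
      rw [abs_mul, abs_mul, abs_mul, abs_of_nonneg (by positivity : (0 : ℝ) ≤ 1 / (L : ℝ) ^ 4)]
      have h1 : |rs (Rm (L := L)) i.1 j.1| * |(-(Jm B T * Jm B T)) i.2 j.2| ≤
          1000 * (L : ℝ) ^ 4 * sab (-(Jm B T * Jm B T)) :=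
        mul_le_mul (hent _ _).2.2.1 (le_sab _ _ _) (abs_nonneg _) (by positivity)
      have h2 : |rs (H01 (L := L)) i.1 j.1| * |eM B T i.2 j.2 + qM B r T i.2 j.2| ≤
          1000 * (L : ℝ) ^ 4 * (sab (eM B T) + sab (qM B r T)) :=
        mul_le_mul (hent _ _).2.2.2 ((abs_add_le _ _).trans
          (add_le_add (le_sab _ _ _) (le_sab _ _ _))) (abs_nonneg _) (by positivity)
      have h3 : 1 / (L : ℝ) ^ 4 * (|rs (H01 (L := L)) i.1 j.1| *
          |eM B T i.2 j.2 + qM B r T i.2 j.2|) ≤
          1 * (1000 * (L : ℝ) ^ 4 * (sab (eM B T) + sab (qM B r T))) := by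
        refine mul_le_mul ?_ h2 (mul_nonneg (abs_nonneg _) (abs_nonneg _)) zero_le_one
        rw [div_le_one (by positivity)]; exact hL4
      have h5 : (1000 * sab (-(Jm B T * Jm B T)) + 1000 * (sab (eM B T) + sab (qM B r T))) *
          (L : ℝ) ^ 4 ≤ M := by
        refine mul_le_mul_of_nonneg_right ?_ (by positivity)
        rw [hC0]; linarith
      have h4 : 1000 * (L : ℝ) ^ 4 * sab (-(Jm B T * Jm B T)) +
          1 * (1000 * (L : ℝ) ^ 4 * (sab (eM B T) + sab (qM B r T))) =
          (1000 * sab (-(Jm B T * Jm B T)) + 1000 * (sab (eM B T) + sab (qM B r T))) *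
            (L : ℝ) ^ 4 := by ring
      linarith)
    (by rw [QQ, ← Matrix.kroneckerMap_transpose, hQt, J_anti]
        ext i j
        show -rs (Qm (L := L)) i.1 j.1 * -(Jm B T i.2 j.2) =
          rs (Qm (L := L)) i.1 j.1 * Jm B T i.2 j.2
        ring)
    (by rw [Cor.RRR, Matrix.transpose_add, Matrix.transpose_smul, ← Matrix.kroneckerMap_transpose,
          ← Matrix.kroneckerMap_transpose, hRt, h01t, Matrix.transpose_neg, JJ_symm,
          Matrix.transpose_add, eM_symm, Cor.qM_symm B r hadm.smooth])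
    rr_nonneg
    (by
      intro p hp
      have h1 := hmom L hL β hβ3 p hp
      rw [Cor.EXR_eq] at h1
      exact h1)
    (fun i U => (htayg L hL U i).2.1)
    (by
      intro i U
      rw [HH_mul (fun j => cA B U j) i]
      have e1 := (htayg L hL U i).1
      have e2 := htaygr L hL U i
      have e3 : GSR B r U i - ∑ w : Dy L, rs (Hm (L := L)) i.1 w * cA B U (w, i.2) =
          (GS B U i - ∑ w : Dy L, rs (Hm (L := L)) i.1 w * cA B U (w, i.2)) + GSr B r U i := by
        unfold GSR; ring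
      rw [e3]
      refine (abs_add_le _ _).trans ((add_le_add e1 e2).trans ?_)
      rw [← add_mul, ← add_mul]
      refine mul_le_mul_of_nonneg_right (le_trans ?_ hC3M) (sq_nonneg _)
      exact mul_le_mul_of_nonneg_right (add_le_add (le_abs_self _) (le_abs_self _))
        (by positivity))
    (by
      intro i j U
      refine (((htayg L hL U i).2.2 j)).trans ?_
      refine mul_le_mul_of_nonneg_right (le_trans ?_ hC3M') (rr_nonneg U)
      calc C3 ≤ |C3| := le_abs_self _
        _ = |C3| * 1 := (mul_one _).symm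
        _ ≤ |C3| * (L : ℝ) ^ 4 := mul_le_mul_of_nonneg_left hL4 (abs_nonneg _))
    (by
      intro i j
      have h1 := hib1 i j
      rw [Cor.EXR_eq, Cor.EXR_eq] at h1
      exact h1)
    (by
      intro i j k l
      have h1 := hib3 i j k l
      rw [Cor.EXR_eq, Cor.EXR_eq] at h1
      exact h1)
    (by
      intro U
      have e1 := htay1 L hL U
      have e2 := htay1r L hL U
      have e3 : S1R r T U - 1 / 2 * ∑ i : Dy L × Fin n, ∑ j : Dy L × Fin n,
          QQ L B T i j * (cA B U i * cA B U j) =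
          (S1 T U - 1 / 2 * ∑ i : Dy L × Fin n, ∑ j : Dy L × Fin n,
            rs (Qm (L := L)) i.1 j.1 * Jm B T i.2 j.2 * (cA B U i * cA B U j)) + S1r r T U := by
        unfold S1R QQ
        show _ = _
        simp only [Matrix.kroneckerMap_apply]
        ring
      rw [e3]
      refine (abs_add_le _ _).trans ((add_le_add e1 e2).trans ?_)
      rw [← add_mul, ← add_mul]
      refine mul_le_mul_of_nonneg_right (le_trans ?_ hC1M) (pow_nonneg (rr_nonneg U) 3)
      exact mul_le_mul_of_nonneg_right (add_le_add (le_abs_self _) (le_abs_self _))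
        (by positivity))
    (by
      intro U
      have e1 := htay2 L hL U
      have e2 := htay2r L hL U
      have h2 : ∀ i j : Dy L × Fin n, Cor.RRR L B r T i j =
          (rs (Rm (L := L)) i.1 j.1 * (-(Jm B T * Jm B T)) i.2 j.2 +
          1 / (L : ℝ) ^ 4 * rs (H01 (L := L)) i.1 j.1 * eM B T i.2 j.2) +
          1 / (L : ℝ) ^ 4 * rs (H01 (L := L)) i.1 j.1 * qM B r T i.2 j.2 := by
        intro i j
        show rs (Rm (L := L)) i.1 j.1 * (-(Jm B T * Jm B T)) i.2 j.2 +
          (1 / (L : ℝ) ^ 4) * (rs (H01 (L := L)) i.1 j.1 * (eM B T i.2 j.2 + qM B r T i.2 j.2)) = _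
        ring
      have e3 : S2R r T U - ‖T‖ ^ 2 - 1 / 2 * ∑ i : Dy L × Fin n, ∑ j : Dy L × Fin n,
          Cor.RRR L B r T i j * (cA B U i * cA B U j) =
          (S2 T U - ‖T‖ ^ 2 - 1 / 2 * ∑ i : Dy L × Fin n, ∑ j : Dy L × Fin n,
            (rs (Rm (L := L)) i.1 j.1 * (-(Jm B T * Jm B T)) i.2 j.2 +
            1 / (L : ℝ) ^ 4 * rs (H01 (L := L)) i.1 j.1 * eM B T i.2 j.2) *
            (cA B U i * cA B U j)) +
          (S2r r T U - 1 / 2 * ∑ i : Dy L × Fin n, ∑ j : Dy L × Fin n,
            (1 / (L : ℝ) ^ 4 * rs (H01 (L := L)) i.1 j.1 * qM B r T i.2 j.2) *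
              (cA B U i * cA B U j)) := by
        have e4 : ∑ i : Dy L × Fin n, ∑ j : Dy L × Fin n,
            Cor.RRR L B r T i j * (cA B U i * cA B U j) =
            ∑ i : Dy L × Fin n, ∑ j : Dy L × Fin n,
            (rs (Rm (L := L)) i.1 j.1 * (-(Jm B T * Jm B T)) i.2 j.2 +
            1 / (L : ℝ) ^ 4 * rs (H01 (L := L)) i.1 j.1 * eM B T i.2 j.2) *
            (cA B U i * cA B U j) + ∑ i : Dy L × Fin n, ∑ j : Dy L × Fin n,
            (1 / (L : ℝ) ^ 4 * rs (H01 (L := L)) i.1 j.1 * qM B r T i.2 j.2) *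
              (cA B U i * cA B U j) := by
          rw [← Finset.sum_add_distrib]
          refine Finset.sum_congr rfl fun i _ => ?_
          rw [← Finset.sum_add_distrib]
          refine Finset.sum_congr rfl fun j _ => ?_
          rw [h2 i j]
          exact add_mul _ _ _
        rw [e4]
        unfold S2R
        ring
      rw [e3]
      refine (abs_add_le _ _).trans ((add_le_add e1 e2).trans ?_)
      rw [← add_mul, ← add_mul]
      refine mul_le_mul_of_nonneg_right (le_trans ?_ hC2M) (pow_nonneg (rr_nonneg U) 3)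
      exact mul_le_mul_of_nonneg_right (add_le_add (le_abs_self _) (le_abs_self _))
        (by positivity))
  -- the coupling
  have hI : invR μ r e L β = β * ∫ U, S2R r T U ∂(PR μ r L β) -
      β ^ 2 * (∫ U, S1R r T U ^ 2 ∂(PR μ r L β) - (∫ U, S1R r T U ∂(PR μ r L β)) ^ 2) := by
    unfold invR
    have h1 : (fun ε => -Real.log (ZR μ r e L β ε)) = fun ε => -Real.log
        (∫ U : Links L → G, Real.exp (-(β * SgR r e ε U)) ∂(Measure.pi fun _ => μ)) := by
      funext ε
      rw [hgauge G hG μ r hadm T e he L hL β ε]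
    rw [h1, hdiff G hG μ r hadm T e he L β, Cor.EXR_eq, Cor.EXR_eq, Cor.EXR_eq]
  rw [← hI] at hX
  have herr : Ca * (M * m) ^ Ka / Real.sqrt β ≤ Ca * (C0 * Cm * (4 * K1)) ^ K1 / L := by
    have h1 : (M * m) ^ Ka ≤ (M * m) ^ K1 :=
      pow_le_pow_right₀ (one_le_mul_of_one_le_of_one_le hM1 hm1) (by omega)
    have h2 : M * m = C0 * Cm * (L : ℝ) ^ 20 * Real.log β := by rw [hM, hm]; ring
    have h3 := err_le2 K1 (by omega) (A := C0 * Cm) (by positivity) (L := L) (by omega) hβ1 hβL
    rw [← h2] at h3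
    have h4 : (M * m) ^ Ka / Real.sqrt β ≤ (M * m) ^ K1 / Real.sqrt β :=
      div_le_div_of_nonneg_right h1 (Real.sqrt_nonneg _)
    rw [mul_div_assoc, mul_div_assoc]
    exact mul_le_mul_of_nonneg_left (h4.trans h3) hCa.le
  have hX2 := hX.trans herr
  rw [trQ, Cor.trRR] at hX2
  have hk := kap_eq B hT
  have hk2 : trace (Jm B T * Jm B T) = -kap B T := by rw [hk]; ring
  rw [hk2] at hX2
  refine le_trans (le_of_eq ?_) hX2
  congr 1
  unfold XX
  ring

end Pool.Agent.H735U
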