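import Mathlib
import Pool.Agent.H735U.Stm2

/-
Project UNI (helper735, MP_7f377f_mp = Yang-Mills, weight 100): universality of asymptotic freedom, the lattice Yang-Mills theory with a
general plaquette energy s(g) = Re tr (1 - g) + r(g). It extends the starting result AsymptoticFreedom (Pool/Agent/Y16/AF/* and the job files
Pool/Agent/Y*/AF/*). Statements: Pool/Agent/H735U/{Gen,Defs,Stm,Stm2,Stm3}.lean on origin/main (copy the imported modules and everything they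
import to the same paths; everything is on origin/main; `lake build <module>`).
TARGET: prove the theorem below, statement unchanged, no sorry, no axioms. Put auxiliary lemmas before it, in the sub-namespace used here.
Paste the full file back as result. Please compile with `lake build` or with -DmaxHeartbeats=4000000 (the package option), not `lake env lean`
defaults. If the statement is false or unclear: status='problem' and say why, or message helper735.
REMARK on instances: for Mt N = Matrix (Fin N) (Fin N) C with the Frobenius norm, the Matrix topology and the topology of the norm are equal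
by rfl, but not at reducible transparency, so e.g. `Norm (Mt N ->L[R] R)` and `NormedAddCommGroup (Mt N ->L[R] R)` are not found. Therefore
derivatives are used through dr1, dr2, dr4 (Gen.lean, for a general normed space E; hasDerivAt_comp, hasDerivAt_dr1, contDiff_dr1, contDiff_dr2, dr2_comm, dr4_*).
Prove analytic facts for a general E and apply them to Mt N.

PROOF.
quart s Y is the fourth derivative at 0 of t -> s (exp (t Y)). For the first part, d^4/dt^4 (- Re tr exp (t Y)) at 0 = - Re tr Y^4 (the derivative of exp (t Y) is Y exp (t Y)). For r: f(t) = r(exp(tY)) is smooth and f(t) = t^4/24 dr4 r 1 Y Y Y Y + O(t^5), which gives the fourth derivative at 0 (a smooth f with f(t) = a t^4 + O(t^5) has iteratedDeriv 4 f 0 = 24 a, Taylor).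
Proof of the expansion: with h = exp(tY) - 1 = tY + O(t^2), r(1 + h) = int_0^1 (1-u) dr2 r (1 + u h) h h du (r and its first derivative vanish at 1), and by the last estimate of S_RT |dr2 r (1 + uh) h h - u^2/2 dr4 r 1 h h h h| <= C u^3 ‖h‖^5, int_0^1 (1-u) u^2/2 du = 1/24. dr4 r 1 h h h h = t^4 dr4 r 1 Y Y Y Y + O(t^5) by multilinearity (dr4 is bilinear
in the last two arguments, and in the first two by dr4_swap). Alternatively differentiate four times with the chain rule.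
-/

set_option autoImplicit false
set_option linter.unusedVariables false

open MeasureTheory Matrix Filter
open scoped Matrix.Norms.Frobenius Topology ContDiff
open Pool.Agent.Y16.Gluon Pool.Agent.Y16.AF

namespace Pool.Agent.H735U

namespace D4

theorem iter4 (f : ℝ → ℝ) (hf : ContDiff ℝ ∞ f) : iteratedDeriv 4 f 0 = dr4 f 0 1 1 1 1 := by
  rw [dr4_eq hf]
  have h1 : ∀ g : ℝ → ℝ, (fun M => dr1 g M 1) = deriv g := fun g => rfl
  simp only [h1]
  rw [iteratedDeriv_eq_iterate]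
  rfl

theorem bnd {E : Type} [NormedAddCommGroup E] [NormedSpace ℝ E] (h : ℝ → E)
    (hh : ContDiff ℝ ∞ h) :
    ∃ K : ℝ, 0 ≤ K ∧ ∀ t : ℝ, |t| ≤ 1 → ‖h t‖ ≤ K ∧ ‖h t - h 0‖ ≤ K * |t| := by
  obtain ⟨K1, hK1⟩ := (isCompact_Icc (a := (-1 : ℝ)) (b := 1)).exists_bound_of_continuousOn
    hh.continuous.continuousOn
  have hd : Continuous (deriv h) := hh.continuous_deriv (by simp)
  obtain ⟨K2, hK2⟩ := (isCompact_Icc (a := (-1 : ℝ)) (b := 1)).exists_bound_of_continuousOn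
    hd.continuousOn
  refine ⟨|K1| + |K2|, by positivity, fun t ht => ?_⟩
  have ht' : t ∈ Set.Icc (-1 : ℝ) 1 := abs_le.1 ht
  constructor
  · exact (hK1 t ht').trans ((le_abs_self _).trans (le_add_of_nonneg_right (abs_nonneg _)))
  · have h3 := (convex_Icc (-1 : ℝ) 1).norm_image_sub_le_of_norm_deriv_le (f := h) (C := K2)
      (x := 0) (y := t) (fun x _ => (hh.differentiable (by simp) x)) hK2
      ⟨by norm_num, by norm_num⟩ ht'
    rw [sub_zero, Real.norm_eq_abs] at h3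
    exact h3.trans (mul_le_mul_of_nonneg_right
      ((le_abs_self _).trans (le_add_of_nonneg_left (abs_nonneg _))) (abs_nonneg _))

/-- the second derivative along a curve -/
theorem second {E : Type} [NormedAddCommGroup E] [NormedSpace ℝ E] (r : E → ℝ)
    (hr : ContDiff ℝ ∞ r) (γ : ℝ → E) (hγ : ContDiff ℝ ∞ γ) (t : ℝ) :
    dr2 (fun t => r (γ t)) t 1 1 = dr2 r (γ t) (deriv γ t) (deriv γ t)
      + dr1 r (γ t) (deriv (deriv γ) t) := by
  have hf : ContDiff ℝ ∞ (fun t => r (γ t)) := hr.comp hγ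
  have hγ1 : ContDiff ℝ ∞ (deriv γ) := (contDiff_infty_iff_deriv.1 hγ).2
  have e1 : ∀ s, HasDerivAt γ (deriv γ s) s := fun s => (hγ.differentiable (by simp) s).hasDerivAt
  have e2 : ∀ s, HasDerivAt (deriv γ) (deriv (deriv γ) s) s :=
    fun s => (hγ1.differentiable (by simp) s).hasDerivAt
  rw [dr2_eq hf]
  have h1 : (fun M => dr1 (fun t => r (γ t)) M 1) = fun s => dr1 r (γ s) (deriv γ s) := by
    funext s
    exact (hasDerivAt_comp hr (e1 s)).deriv
  rw [h1]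
  exact (hasDerivAt_dr1 hr (e1 t) (e2 t)).deriv

theorem main (hRT : S_RT) {E : Type} [NormedAddCommGroup E] [NormedSpace ℝ E]
    [FiniteDimensional ℝ E] (r : E → ℝ) (hr : ContDiff ℝ ∞ r) (γ : ℝ → E) (hγ : ContDiff ℝ ∞ γ)
    (h4 : ∃ C δ : ℝ, 0 < δ ∧ ∀ M : E, ‖M - γ 0‖ ≤ δ → |r M| ≤ C * ‖M - γ 0‖ ^ 4) :
    iteratedDeriv 4 (fun t => r (γ t)) 0 =
      dr4 r (γ 0) (deriv γ 0) (deriv γ 0) (deriv γ 0) (deriv γ 0) := by
  have hf : ContDiff ℝ ∞ (fun t => r (γ t)) := hr.comp hγ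
  have hγ1 : ContDiff ℝ ∞ (deriv γ) := (contDiff_infty_iff_deriv.1 hγ).2
  have hγ2 : ContDiff ℝ ∞ (deriv (deriv γ)) := (contDiff_infty_iff_deriv.1 hγ1).2
  obtain ⟨K0, hK0, hb0⟩ := bnd γ hγ
  obtain ⟨K1, hK1, hb1⟩ := bnd (deriv γ) hγ1
  obtain ⟨K2, hK2, hb2⟩ := bnd (deriv (deriv γ)) hγ2
  obtain ⟨C, hC, hCb⟩ := hRT E r (γ 0) hr h4 K0
  have hf4 : ∃ C δ : ℝ, 0 < δ ∧ ∀ t : ℝ, ‖t - 0‖ ≤ δ →
      |(fun t => r (γ t)) t| ≤ C * ‖t - 0‖ ^ 4 := by
    refine ⟨C * K0 ^ 4, 1, one_pos, fun t ht => ?_⟩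
    rw [sub_zero, Real.norm_eq_abs] at ht ⊢
    obtain ⟨ha, hb⟩ := hb0 t ht
    refine ((hCb (γ t) ha).1).trans ?_
    rw [mul_assoc, ← mul_pow]
    exact mul_le_mul_of_nonneg_left (pow_le_pow_left₀ (norm_nonneg _) hb 4) hC
  obtain ⟨C', hC', hCb'⟩ := hRT ℝ (fun t => r (γ t)) 0 hf hf4 1
  rw [iter4 _ hf]
  set B : ℝ := dr4 (fun t => r (γ t)) 0 1 1 1 1 with hB
  set Y : E := deriv γ 0 with hY
  set D : ℝ := C * K0 ^ 2 * K1 * ‖Y‖ + C * K0 ^ 2 * K1 * K1 + C * K0 ^ 3 * K2 with hD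
  have key : ∀ t : ℝ, |t| ≤ 1 → t ≠ 0 →
      |B - dr4 r (γ 0) Y Y (slope γ 0 t) (slope γ 0 t)| ≤ 2 * (C' + C * K0 ^ 3 * ‖Y‖ * ‖Y‖ + D) * |t| := by
    intro t ht ht0
    obtain ⟨ha0, hc0⟩ := hb0 t ht
    obtain ⟨ha1, hc1⟩ := hb1 t ht
    obtain ⟨ha2, hc2⟩ := hb2 t ht
    obtain ⟨-, q1, q2, q3⟩ := hCb (γ t) ha0
    obtain ⟨-, -, -, p3⟩ := hCb' t (by rwa [Real.norm_eq_abs])
    have p4 := p3 1 1
    have e1 : dr4 (fun t => r (γ t)) 0 1 1 (t - 0) (t - 0) = t ^ 2 * B := by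
      have : t - 0 = t • (1 : ℝ) := by simp
      rw [this, hB]
      unfold dr4
      rw [dr2_smul_left, dr2_smul_right]
      ring
    rw [e1, sub_zero, Real.norm_eq_abs, norm_one, mul_one, mul_one] at p4
    have q4 := q3 Y Y
    have e2 : dr4 r (γ 0) Y Y (γ t - γ 0) (γ t - γ 0) =
        t ^ 2 * dr4 r (γ 0) Y Y (slope γ 0 t) (slope γ 0 t) := by
      have : γ t - γ 0 = t • slope γ 0 t := by
        have := sub_smul_slope γ 0 t
        rw [sub_zero, vsub_eq_sub] at this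
        exact this.symm
      rw [this]
      unfold dr4
      rw [dr2_smul_left, dr2_smul_right]
      ring
    rw [e2] at q4
    have e3 := second r hr γ hγ t
    have e4 : dr2 r (γ t) (deriv γ t) (deriv γ t) = dr2 r (γ t) Y Y
        + dr2 r (γ t) (deriv γ t - Y) Y + dr2 r (γ t) (deriv γ t) (deriv γ t - Y) := by
      have f1 : deriv γ t = (deriv γ t - Y) + Y := by abel
      have f2 : dr2 r (γ t) (deriv γ t) (deriv γ t) = dr2 r (γ t) (deriv γ t) (deriv γ t - Y)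
          + dr2 r (γ t) (deriv γ t) Y := by
        rw [← dr2_add_right, ← f1]
      have f3 : dr2 r (γ t) (deriv γ t) Y = dr2 r (γ t) (deriv γ t - Y) Y
          + dr2 r (γ t) Y Y := by
        rw [← dr2_add_left, ← f1]
      rw [f2, f3]
      ring
    have g1 := q2 (deriv γ t - Y) Y
    have g2 := q2 (deriv γ t) (deriv γ t - Y)
    have g3 := q1 (deriv (deriv γ) t)
    have ht1 : 0 ≤ |t| := abs_nonneg t
    have n0 : ‖γ t - γ 0‖ ^ 2 ≤ (K0 * |t|) ^ 2 := pow_le_pow_left₀ (norm_nonneg _) hc0 2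
    have n1 : ‖γ t - γ 0‖ ^ 3 ≤ (K0 * |t|) ^ 3 := pow_le_pow_left₀ (norm_nonneg _) hc0 3
    have m1 : |dr2 r (γ t) (deriv γ t - Y) Y| ≤ C * K0 ^ 2 * K1 * ‖Y‖ * |t| ^ 3 := by
      refine g1.trans ?_
      calc C * ‖γ t - γ 0‖ ^ 2 * ‖deriv γ t - Y‖ * ‖Y‖
          ≤ C * (K0 * |t|) ^ 2 * (K1 * |t|) * ‖Y‖ := by gcongr
        _ = C * K0 ^ 2 * K1 * ‖Y‖ * |t| ^ 3 := by ring
    have m2 : |dr2 r (γ t) (deriv γ t) (deriv γ t - Y)| ≤ C * K0 ^ 2 * K1 * K1 * |t| ^ 3 := by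
      refine g2.trans ?_
      calc C * ‖γ t - γ 0‖ ^ 2 * ‖deriv γ t‖ * ‖deriv γ t - Y‖
          ≤ C * (K0 * |t|) ^ 2 * K1 * (K1 * |t|) := by gcongr
        _ = C * K0 ^ 2 * K1 * K1 * |t| ^ 3 := by ring
    have m3 : |dr1 r (γ t) (deriv (deriv γ) t)| ≤ C * K0 ^ 3 * K2 * |t| ^ 3 := by
      refine g3.trans ?_
      calc C * ‖γ t - γ 0‖ ^ 3 * ‖deriv (deriv γ) t‖
          ≤ C * (K0 * |t|) ^ 3 * K2 := by gcongr
        _ = C * K0 ^ 3 * K2 * |t| ^ 3 := by ring
    have m4 : |dr2 r (γ t) Y Y - 1 / 2 * (t ^ 2 * dr4 r (γ 0) Y Y (slope γ 0 t) (slope γ 0 t))| ≤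
        C * K0 ^ 3 * ‖Y‖ * ‖Y‖ * |t| ^ 3 := by
      refine q4.trans ?_
      calc C * ‖γ t - γ 0‖ ^ 3 * ‖Y‖ * ‖Y‖
          ≤ C * (K0 * |t|) ^ 3 * ‖Y‖ * ‖Y‖ := by gcongr
        _ = C * K0 ^ 3 * ‖Y‖ * ‖Y‖ * |t| ^ 3 := by ring
    rw [e4] at e3
    rw [e3] at p4
    have tot : |1 / 2 * (t ^ 2 * (B - dr4 r (γ 0) Y Y (slope γ 0 t) (slope γ 0 t)))| ≤
        (C' + C * K0 ^ 3 * ‖Y‖ * ‖Y‖ + D) * |t| ^ 3 := by
      rw [abs_le] at *
      rw [hD]
      constructor <;> nlinarith [m1.1, m1.2, m2.1, m2.2, m3.1, m3.2, m4.1, m4.2, p4.1, p4.2]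
    have ht2 : 0 < |t| ^ 2 := by positivity
    rw [abs_mul, abs_mul, abs_of_pos (by norm_num : (0 : ℝ) < 1 / 2), abs_pow] at tot
    have t3 : |t| ^ 2 * |B - dr4 r (γ 0) Y Y (slope γ 0 t) (slope γ 0 t)| ≤
        |t| ^ 2 * (2 * (C' + C * K0 ^ 3 * ‖Y‖ * ‖Y‖ + D) * |t|) := by
      have : |t| ^ 2 * (2 * (C' + C * K0 ^ 3 * ‖Y‖ * ‖Y‖ + D) * |t|) =
        2 * ((C' + C * K0 ^ 3 * ‖Y‖ * ‖Y‖ + D) * |t| ^ 3) := by ring
      rw [this]
      linarith
    exact le_of_mul_le_mul_left t3 ht2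
  -- passage to the limit
  have hder : HasDerivAt γ Y 0 := (hγ.differentiable (by simp) 0).hasDerivAt
  have hs : Tendsto (slope γ 0) (𝓝[≠] 0) (𝓝 Y) := hasDerivAt_iff_tendsto_slope.1 hder
  have hcont : Continuous fun Z : E => dr4 r (γ 0) Y Y Z Z := by
    have h := continuous_dr2 (contDiff_dr2 hr Y Y)
    exact h.comp (continuous_const.prodMk (continuous_id.prodMk continuous_id))
  have hlim : Tendsto (fun t => |B - dr4 r (γ 0) Y Y (slope γ 0 t) (slope γ 0 t)|) (𝓝[≠] 0)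
      (𝓝 |B - dr4 r (γ 0) Y Y Y Y|) :=
    (tendsto_const_nhds.sub ((hcont.tendsto Y).comp hs)).abs
  have hlim2 : Tendsto (fun t : ℝ => 2 * (C' + C * K0 ^ 3 * ‖Y‖ * ‖Y‖ + D) * |t|) (𝓝[≠] 0)
      (𝓝 0) := by
    have : Tendsto (fun t : ℝ => 2 * (C' + C * K0 ^ 3 * ‖Y‖ * ‖Y‖ + D) * |t|) (𝓝 0)
      (𝓝 (2 * (C' + C * K0 ^ 3 * ‖Y‖ * ‖Y‖ + D) * |(0 : ℝ)|)) :=
      (continuous_const.mul continuous_abs).tendsto 0
    rw [abs_zero, mul_zero] at this
    exact this.mono_left nhdsWithin_le_nhds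
  have hle : |B - dr4 r (γ 0) Y Y Y Y| ≤ 0 := by
    refine le_of_tendsto_of_tendsto hlim hlim2 ?_
    have h1 : ∀ᶠ t : ℝ in 𝓝[≠] 0, |t| ≤ 1 := by
      apply Filter.Eventually.filter_mono nhdsWithin_le_nhds
      have : Set.Icc (-1 : ℝ) 1 ∈ 𝓝 (0 : ℝ) := Icc_mem_nhds (by norm_num) (by norm_num)
      filter_upwards [this] with t ht using abs_le.2 ht
    filter_upwards [h1, self_mem_nhdsWithin] with t h1 h2 using key t h1 h2
  have := abs_nonpos_iff.1 hle
  linarith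

theorem main2 (hRT : S_RT) {E : Type} [NormedAddCommGroup E] [NormedSpace ℝ E]
    [FiniteDimensional ℝ E] (r : E → ℝ) (hr : ContDiff ℝ ∞ r) (γ : ℝ → E) (hγ : ContDiff ℝ ∞ γ)
    (p Y : E) (hp : γ 0 = p) (hY : HasDerivAt γ Y 0)
    (h4 : ∃ C δ : ℝ, 0 < δ ∧ ∀ M : E, ‖M - p‖ ≤ δ → |r M| ≤ C * ‖M - p‖ ^ 4) :
    iteratedDeriv 4 (fun t => r (γ t)) 0 = dr4 r p Y Y Y Y := by
  subst hp
  have h := main hRT r hr γ hγ h4
  rw [hY.deriv] at h
  exact h

section mat

variable {N : ℕ}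

theorem expD (Y : Mt N) (t : ℝ) :
    HasDerivAt (fun t : ℝ => NormedSpace.exp (t • Y)) (NormedSpace.exp (t • Y) * Y) t :=
  hasDerivAt_exp_smul_const Y t

theorem exp0 (Y : Mt N) : NormedSpace.exp ((0 : ℝ) • Y) = (1 : Mt N) := by
  rw [zero_smul, NormedSpace.exp_zero]

theorem expD0 (Y : Mt N) : HasDerivAt (fun t : ℝ => NormedSpace.exp (t • Y)) Y 0 := by
  have h := expD Y 0
  rw [exp0, one_mul] at h
  exact h

theorem expS (Y : Mt N) : ContDiff ℝ ∞ (fun t : ℝ => NormedSpace.exp (t • Y)) := by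
  have h : ContDiff ℝ ∞ (fun M : Mt N => NormedSpace.exp M) := by
    have h1 : AnalyticOnNhd ℝ (NormedSpace.exp : Mt N → Mt N) Set.univ :=
      fun x _ => NormedSpace.exp_analytic x
    exact h1.contDiff
  exact h.comp (contDiff_id.smul contDiff_const)

/-- the trace along the one parameter group -/
theorem trD (Y Z : Mt N) (t : ℝ) :
    HasDerivAt (fun t : ℝ => (trace (NormedSpace.exp (t • Y) * Z)).re)
      (trace (NormedSpace.exp (t • Y) * (Y * Z))).re t := by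
  have h1 : HasDerivAt (fun t : ℝ => NormedSpace.exp (t • Y) * Z)
      (NormedSpace.exp (t • Y) * Y * Z) t := (expD Y t).mul_const Z
  let L : Mt N →ₗ[ℝ] ℝ := Complex.reLm.comp ((Matrix.traceLinearMap (Fin N) ℝ ℂ))
  have h2 : HasDerivAt (fun t : ℝ => L.toContinuousLinearMap (NormedSpace.exp (t • Y) * Z))
      (L.toContinuousLinearMap (NormedSpace.exp (t • Y) * Y * Z)) t :=
    L.toContinuousLinearMap.hasFDerivAt.comp_hasDerivAt t h1
  rw [← Matrix.mul_assoc]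
  exact h2

theorem trE (Y Z : Mt N) : deriv (fun t : ℝ => (trace (NormedSpace.exp (t • Y) * Z)).re) =
    fun t => (trace (NormedSpace.exp (t • Y) * (Y * Z))).re := by
  funext t
  exact (trD Y Z t).deriv

theorem trE4 (Y Z : Mt N) :
    iteratedDeriv 4 (fun t : ℝ => (trace (NormedSpace.exp (t • Y) * Z)).re) 0 =
      (trace (Y * Y * (Y * Y) * Z)).re := by
  rw [iteratedDeriv_eq_iterate]
  show deriv (deriv (deriv (deriv (fun t : ℝ => (trace (NormedSpace.exp (t • Y) * Z)).re)))) 0 = _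
  rw [trE, trE, trE, trE]
  show (trace (NormedSpace.exp ((0 : ℝ) • Y) * _)).re = _
  rw [exp0, one_mul]
  simp only [Matrix.mul_assoc]

theorem trS (Y Z : Mt N) :
    ContDiff ℝ ∞ (fun t : ℝ => (trace (NormedSpace.exp (t • Y) * Z)).re) := by
  rw [contDiff_infty]
  intro n
  induction n generalizing Z with
  | zero =>
    rw [Nat.cast_zero, contDiff_zero]
    exact continuous_iff_continuousAt.2 fun t => (trD Y Z t).continuousAt
  | succ n ih =>
    rw [Nat.cast_succ, contDiff_succ_iff_deriv]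
    refine ⟨fun t => (trD Y Z t).differentiableAt, by simp, ?_⟩
    rw [trE]
    exact ih _

end mat

end D4

theorem t_D4 : S_D4 := by
  intro hRT N r hr h4 Y
  have hs := D4.expS Y
  have h1 : iteratedDeriv 4 (fun t : ℝ => r (NormedSpace.exp (t • Y))) 0 = dr4 r 1 Y Y Y Y :=
    D4.main2 hRT r hr (fun t : ℝ => NormedSpace.exp (t • Y)) hs 1 Y (D4.exp0 Y) (D4.expD0 Y) h4
  have hf1 : ContDiff ℝ ∞ (fun t : ℝ => r (NormedSpace.exp (t • Y))) := hr.comp hs
  have h2 := D4.trE4 Y 1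
  have hf2 := D4.trS Y 1
  have hf0 : (fun t : ℝ => (trace (1 - NormedSpace.exp (t • Y))).re + r (NormedSpace.exp (t • Y))) =
      fun t : ℝ => (trace (1 : Mt N)).re + (r (NormedSpace.exp (t • Y)) -
        (trace (NormedSpace.exp (t • Y) * 1)).re) := by
    funext t
    rw [trace_sub, Complex.sub_re, mul_one]
    ring
  unfold quart
  rw [hf0]
  rw [iteratedDeriv_const_add (by norm_num)]
  have h3 := iteratedDeriv_sub (n := 4) (x := (0 : ℝ)) (f := fun t : ℝ => r (NormedSpace.exp (t • Y)))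
    (g := fun t : ℝ => (trace (NormedSpace.exp (t • Y) * 1)).re)
    (contDiff_infty.1 hf1 4).contDiffAt (contDiff_infty.1 hf2 4).contDiffAt
  rw [h1, h2, mul_one] at h3
  refine Eq.trans ?_ (h3.trans (by ring))
  rfl

end Pool.Agent.H735U
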