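import Mathlib
import Pool.Agent.H735U.Stm
import Pool.Agent.Y515.AF.Diff

/-
Project UNI (helper735, MP_7f377f_mp = Yang-Mills, weight 100): universality of asymptotic freedom, the lattice Yang-Mills theory with a
general plaquette energy s(g) = Re tr (1 - g) + r(g). It extends the starting result AsymptoticFreedom (Pool/Agent/Y16/AF/* and the job files
Pool/Agent/Y*/AF/*). Statements: Pool/Agent/H735U/{Gen,Defs,Stm,Stm2,Stm3}.lean on origin/main (copy the imported modules and everything they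
import to the same paths; everything is on origin/main; `lake build <module>`).
TARGET: prove the theorem below, statement unchanged, no sorry, no axioms. Put auxiliary lemmas before it, in the sub-namespace used here.
Paste the full file back as result. Please compile with `lake build` or with -DmaxHeartbeats=4000000 (the package option), not `lake env lean`
defaults. If the statement is false or unclear: status='problem' and say why, or message helper735.
REMARK on instances: for Mt N = Matrix (Fin N) (Fin N) C with the Frobenius norm, the Matrix topology and the topology of the norm are equal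
by rfl, but not at reducible transparency, so e.g. `Norm (Mt N ->L[R] R)` and `NormedAddCommGroup (Mt N ->L[R] R)` are not found. Therefore
derivatives are used through dr1, dr2, dr4 (Gen.lean, for a general normed space E; hasDerivAt_comp, hasDerivAt_dr1, contDiff_dr1, contDiff_dr2, dr2_comm, dr4_*).
Prove analytic facts for a general E and apply them to Mt N.

PROOF.
This is Pool.Agent.Y515.AF.af_diff (file Pool/Agent/Y515/AF/Diff.lean) with the energy en1 r = Re tr (1 - mt g) + r (mt g). The abstract lemma abs_diff there needs the continuity of the first two derivatives in eps of the action on R x configurations. The plaquette in the background field is (gA in Diff.lean)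
F(eps) = exp(alpha eps T) exp(theta eps T) g0 exp(-theta eps T) g1 g2 g3 (alpha = al, theta = ta); F'(eps) = alpha T F + theta e^{alpha eps T} e^{theta eps T} (T g0 - g0 T) e^{-theta eps T} R (gA_deriv), and the second derivative again. By the chain rule (hasDerivAt_comp, hasDerivAt_dr1 in Gen.lean)
d/deps r(F) = dr1 r F F', d^2/deps^2 r(F) = dr2 r F F' F' + dr1 r F F''. At eps = 0: F = pm g, F' = V1 T alpha tau g, F'' = V2 T alpha tau g (Defs.lean), so the derivatives of SgR at 0 are S1R = S1 + S1r, S2R = S2 + S2r, and SgR at 0 is S0R. Continuity: continuous_dr1, continuous_dr2 in Gen.lean.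
-/

set_option autoImplicit false
set_option linter.unusedVariables false

open MeasureTheory Matrix Filter
open scoped Matrix.Norms.Frobenius Topology ContDiff
open Pool.Agent.Y16.Gluon Pool.Agent.Y16.AF

namespace Pool.Agent.H735U

namespace Dif

open Pool.Agent.Y515.AF

noncomputable section

section alg

variable {A : Type*} [NormedRing A] [NormedAlgebra ℝ A] [CompleteSpace A]

/-- the first derivative of the basic function -/
def g1 (T : A) (α τ : ℝ) (Y R : A) (ε : ℝ) : A :=
  α • gA T α τ (T * 1) Y R ε + τ • gA T α τ 1 (T * Y - Y * T) R ε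

/-- the second derivative of the basic function -/
def g2 (T : A) (α τ : ℝ) (Y R : A) (ε : ℝ) : A :=
  α • (α • gA T α τ (T * (T * 1)) Y R ε + τ • gA T α τ (T * 1) (T * Y - Y * T) R ε) +
    τ • (α • gA T α τ (T * 1) (T * Y - Y * T) R ε +
      τ • gA T α τ 1 (T * (T * Y - Y * T) - (T * Y - Y * T) * T) R ε)

theorem g0_deriv (T : A) (α τ : ℝ) (Y R : A) (ε : ℝ) :
    HasDerivAt (gA T α τ 1 Y R) (g1 T α τ Y R ε) ε := gA_deriv T α τ 1 Y R ε

theorem g1_deriv (T : A) (α τ : ℝ) (Y R : A) (ε : ℝ) :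
    HasDerivAt (g1 T α τ Y R) (g2 T α τ Y R ε) ε :=
  ((gA_deriv T α τ (T * 1) Y R ε).const_smul α).add
    ((gA_deriv T α τ 1 (T * Y - Y * T) R ε).const_smul τ)

/-- the correction of a term of the action and its two derivatives -/
def p0 (r : A → ℝ) (T : A) (α τ : ℝ) (Y R : A) (ε : ℝ) : ℝ := r (gA T α τ 1 Y R ε)

def p1 (r : A → ℝ) (T : A) (α τ : ℝ) (Y R : A) (ε : ℝ) : ℝ :=
  dr1 r (gA T α τ 1 Y R ε) (g1 T α τ Y R ε)

def p2 (r : A → ℝ) (T : A) (α τ : ℝ) (Y R : A) (ε : ℝ) : ℝ :=
  dr2 r (gA T α τ 1 Y R ε) (g1 T α τ Y R ε) (g1 T α τ Y R ε) +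
    dr1 r (gA T α τ 1 Y R ε) (g2 T α τ Y R ε)

variable {r : A → ℝ}

theorem p0_deriv (hr : ContDiff ℝ ∞ r) (T : A) (α τ : ℝ) (Y R : A) (ε : ℝ) :
    HasDerivAt (p0 r T α τ Y R) (p1 r T α τ Y R ε) ε :=
  hasDerivAt_comp hr (g0_deriv T α τ Y R ε)

theorem p1_deriv (hr : ContDiff ℝ ∞ r) (T : A) (α τ : ℝ) (Y R : A) (ε : ℝ) :
    HasDerivAt (p1 r T α τ Y R) (p2 r T α τ Y R ε) ε :=
  hasDerivAt_dr1 hr (g0_deriv T α τ Y R ε) (g1_deriv T α τ Y R ε)

variable {X : Type*} [TopologicalSpace X]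

omit [NormedAlgebra ℝ A] [CompleteSpace A] in
theorem kc (T : A) {Y : X → A} (hY : Continuous Y) : Continuous fun x => T * Y x - Y x * T :=
  (continuous_const.mul hY).sub (hY.mul continuous_const)

theorem g1_cont (T : A) (α τ : ℝ) {Y R : X → A} (hY : Continuous Y) (hR : Continuous R) :
    Continuous fun p : ℝ × X => g1 T α τ (Y p.2) (R p.2) p.1 :=
  ((gA_cont T α τ _ hY hR).const_smul α).add ((gA_cont T α τ _ (kc T hY) hR).const_smul τ)

theorem g2_cont (T : A) (α τ : ℝ) {Y R : X → A} (hY : Continuous Y) (hR : Continuous R) :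
    Continuous fun p : ℝ × X => g2 T α τ (Y p.2) (R p.2) p.1 :=
  ((((gA_cont T α τ _ hY hR).const_smul α).add
    ((gA_cont T α τ _ (kc T hY) hR).const_smul τ)).const_smul α).add
    ((((gA_cont T α τ _ (kc T hY) hR).const_smul α).add
    ((gA_cont T α τ _ (kc T (kc T hY)) hR).const_smul τ)).const_smul τ)

theorem p0_cont (hr : ContDiff ℝ ∞ r) (T : A) (α τ : ℝ) {Y R : X → A} (hY : Continuous Y)
    (hR : Continuous R) : Continuous fun p : ℝ × X => p0 r T α τ (Y p.2) (R p.2) p.1 :=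
  hr.continuous.comp (gA_cont T α τ 1 hY hR)

theorem p1_cont (hr : ContDiff ℝ ∞ r) (T : A) (α τ : ℝ) {Y R : X → A} (hY : Continuous Y)
    (hR : Continuous R) : Continuous fun p : ℝ × X => p1 r T α τ (Y p.2) (R p.2) p.1 :=
  (continuous_dr1 hr).comp ((gA_cont T α τ 1 hY hR).prodMk (g1_cont T α τ hY hR))

theorem p2_cont (hr : ContDiff ℝ ∞ r) (T : A) (α τ : ℝ) {Y R : X → A} (hY : Continuous Y)
    (hR : Continuous R) : Continuous fun p : ℝ × X => p2 r T α τ (Y p.2) (R p.2) p.1 :=
  ((continuous_dr2 hr).comp ((gA_cont T α τ 1 hY hR).prodMk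
    ((g1_cont T α τ hY hR).prodMk (g1_cont T α τ hY hR)))).add
    ((continuous_dr1 hr).comp ((gA_cont T α τ 1 hY hR).prodMk (g2_cont T α τ hY hR)))

/-- values at zero -/
theorem g0_zero (T : A) (α τ : ℝ) (a b c d : A) :
    gA T α τ 1 a (b * c * d) 0 = a * b * c * d := by
  rw [gA_zero, one_mul]
  simp only [mul_assoc]

theorem g1_zero (T : A) (α τ : ℝ) (a b c d : A) :
    g1 T α τ a (b * c * d) 0 =
      α • (T * (a * b * c * d)) + τ • ((T * a - a * T) * (b * c * d)) := by
  unfold g1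
  rw [gA_zero, gA_zero, one_mul, mul_one]
  simp only [mul_assoc]

theorem g2_zero (T : A) (α τ : ℝ) (a b c d : A) :
    g2 T α τ a (b * c * d) 0 =
      α ^ 2 • (T * T * (a * b * c * d)) + (2 * (α * τ)) • (T * (T * a - a * T) *
      (b * c * d)) +
    τ ^ 2 • ((T * (T * a - a * T) - (T * a - a * T) * T) *
      (b * c * d)) := by
  unfold g2
  rw [gA_zero, gA_zero, gA_zero, one_mul, mul_one]
  have e1 : T * (a * b * c * d) = T * a * (b * c * d) := by simp only [mul_assoc]
  rw [show T * T * (a * b * c * d) = T * T * a * (b * c * d) by simp only [mul_assoc]]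
  module

end alg

section mtx

variable {N L : ℕ} {G : Subgroup (UU N)}

theorem key0 {T : Mt N} {e : ℝ → G} (he : ∀ t, mt (e t) = NormedSpace.exp (t • T)) (α τ ε : ℝ)
    (g : Fin 4 → G) : mt (bg e (α * ε) (τ * ε) g) =
      gA T α τ 1 (mt (g 0)) (mt (g 1) * mt (g 2) * mt (g 3)) ε := by
  have k1 : mt (e (α * ε)) = Ex T (α * ε) := he _
  have k2 : mt (e (τ * ε)) = Ex T (τ * ε) := he _
  have k3 : mt (e (τ * ε))⁻¹ = Ex T (-(τ * ε)) := mt_e_inv he _
  have k4 : mt (bg e (α * ε) (τ * ε) g) = mt (e (α * ε)) *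
    (mt (e (τ * ε)) * mt (g 0) * mt (e (τ * ε))⁻¹) * mt (g 1) * mt (g 2) * mt (g 3) := rfl
  rw [k4, k1, k2, k3]
  unfold gA
  rw [mul_one]
  simp only [mul_assoc]

theorem tp0 (r : Mt N → ℝ) {T : Mt N} {e : ℝ → G}
    (he : ∀ t, mt (e t) = NormedSpace.exp (t • T)) (α τ ε : ℝ)
    (g : Fin 4 → G) : r (mt (bg e (α * ε) (τ * ε) g)) =
      p0 r T α τ (mt (g 0)) (mt (g 1) * mt (g 2) * mt (g 3)) ε := by
  rw [key0 he]
  rfl

theorem tp00 (r : Mt N → ℝ) (T : Mt N) (α τ : ℝ) (g : Fin 4 → G) : r (pm g) =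
      p0 r T α τ (mt (g 0)) (mt (g 1) * mt (g 2) * mt (g 3)) 0 := by
  unfold p0 pm
  rw [g0_zero]

theorem tp1 (r : Mt N → ℝ) (T : Mt N) (α τ : ℝ) (g : Fin 4 → G) : D1r r T α τ g =
      p1 r T α τ (mt (g 0)) (mt (g 1) * mt (g 2) * mt (g 3)) 0 := by
  unfold p1 D1r V1 pm
  rw [g0_zero, g1_zero]

theorem tp2 (r : Mt N → ℝ) (T : Mt N) (α τ : ℝ) (g : Fin 4 → G) : D2r r T α τ g =
      p2 r T α τ (mt (g 0)) (mt (g 1) * mt (g 2) * mt (g 3)) 0 := by
  unfold p2 D2r V2 V1 pm
  rw [g0_zero, g1_zero, g2_zero]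

end mtx

end

end Dif

open Dif Pool.Agent.Y515.AF in
theorem t_DIFFR : S_DIFFR := by
  intro N G hG _ _ μ _ r hr T e he L _ β
  have hcU := compactU N
  have hcG : CompactSpace G := isCompact_iff_compactSpace.1 hG.isCompact
  have h00 := secU N
  have h01 : SecondCountableTopology G := TopologicalSpace.Subtype.secondCountableTopology _
  -- the data
  let Y : Pq L → (Links L → G) → Mt N := fun p U => mt (lg (fx U) p 0)
  let R : Pq L → (Links L → G) → Mt N := fun p U =>
    mt (lg (fx U) p 1) * mt (lg (fx U) p 2) * mt (lg (fx U) p 3)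
  have hm : ∀ p i, Continuous fun U : Links L → G => mt (lg (fx U) p i) :=
    fun p i => mt_cont.comp (lg_cont p i)
  have hR : ∀ p, Continuous (R p) := fun p => ((hm p 1).mul (hm p 2)).mul (hm p 3)
  have hY : ∀ p, Continuous (Y p) := fun p => hm p 0
  have hs : ContDiff ℝ ∞ r := hr.smooth
  have main := abs_diff (Measure.pi fun _ : Links L => μ)
    (S := fun ε U => ∑ p : Pq L, (q0 (retr N) T (al L p.2.2) (ta p.2.1 p.2.2) (Y p U) (R p U) ε +
      p0 r T (al L p.2.2) (ta p.2.1 p.2.2) (Y p U) (R p U) ε))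
    (S' := fun ε U => ∑ p : Pq L, (q1 (retr N) T (al L p.2.2) (ta p.2.1 p.2.2) (Y p U) (R p U) ε +
      p1 r T (al L p.2.2) (ta p.2.1 p.2.2) (Y p U) (R p U) ε))
    (S'' := fun ε U => ∑ p : Pq L, (q2 (retr N) T (al L p.2.2) (ta p.2.1 p.2.2) (Y p U) (R p U) ε +
      p2 r T (al L p.2.2) (ta p.2.1 p.2.2) (Y p U) (R p U) ε))
    (continuous_finsetSum _ fun p _ => (q0_cont (retr N) T _ _ (hY p) (hR p)).add
      (p0_cont hs T _ _ (hY p) (hR p)))
    (continuous_finsetSum _ fun p _ => (q1_cont (retr N) T _ _ (hY p) (hR p)).add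
      (p1_cont hs T _ _ (hY p) (hR p)))
    (continuous_finsetSum _ fun p _ => (q2_cont (retr N) T _ _ (hY p) (hR p)).add
      (p2_cont hs T _ _ (hY p) (hR p)))
    (fun ε U => HasDerivAt.fun_sum fun p _ => (q0_deriv (retr N) T _ _ (Y p U) (R p U) ε).add
      (p0_deriv hs T _ _ (Y p U) (R p U) ε))
    (fun ε U => HasDerivAt.fun_sum fun p _ => (q1_deriv (retr N) T _ _ (Y p U) (R p U) ε).add
      (p1_deriv hs T _ _ (Y p U) (R p U) ε)) β
  have eS : ∀ (ε : ℝ) (U : Links L → G), SgR r e ε U =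
      ∑ p : Pq L, (q0 (retr N) T (al L p.2.2) (ta p.2.1 p.2.2) (Y p U) (R p U) ε +
      p0 r T (al L p.2.2) (ta p.2.1 p.2.2) (Y p U) (R p U) ε) :=
    fun ε U => Finset.sum_congr rfl fun p _ => congrArg₂ (· + ·) (term0 he _ _ _ _)
      (tp0 r he _ _ _ _)
  have eS0 : ∀ U : Links L → G, S0R r U =
      ∑ p : Pq L, (q0 (retr N) T (al L p.2.2) (ta p.2.1 p.2.2) (Y p U) (R p U) 0 +
      p0 r T (al L p.2.2) (ta p.2.1 p.2.2) (Y p U) (R p U) 0) := by
    intro U
    rw [Finset.sum_add_distrib]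
    exact congrArg₂ (· + ·) (Finset.sum_congr rfl fun p _ => term00 T _ _ _)
      (Finset.sum_congr rfl fun p _ => tp00 r T _ _ _)
  have eS1 : ∀ U : Links L → G, S1R r T U =
      ∑ p : Pq L, (q1 (retr N) T (al L p.2.2) (ta p.2.1 p.2.2) (Y p U) (R p U) 0 +
      p1 r T (al L p.2.2) (ta p.2.1 p.2.2) (Y p U) (R p U) 0) := by
    intro U
    rw [Finset.sum_add_distrib]
    exact congrArg₂ (· + ·) (Finset.sum_congr rfl fun p _ => term1 T _ _ _)
      (Finset.sum_congr rfl fun p _ => tp1 r T _ _ _)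
  have eS2 : ∀ U : Links L → G, S2R r T U =
      ∑ p : Pq L, (q2 (retr N) T (al L p.2.2) (ta p.2.1 p.2.2) (Y p U) (R p U) 0 +
      p2 r T (al L p.2.2) (ta p.2.1 p.2.2) (Y p U) (R p U) 0) := by
    intro U
    rw [Finset.sum_add_distrib]
    exact congrArg₂ (· + ·) (Finset.sum_congr rfl fun p _ => term2 T _ _ _)
      (Finset.sum_congr rfl fun p _ => tp2 r T _ _ _)
  unfold EXR
  simp only [eS, eS0, eS1, eS2]
  exact main

end Pool.Agent.H735U
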