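import Mathlib
import Pool.Agent.H735U.Stm2
import Pool.Agent.Y421.AF.Mom

set_option autoImplicit false
set_option linter.unusedVariables false

open MeasureTheory Matrix Filter
open scoped Matrix.Norms.Frobenius Topology ContDiff
open Pool.Agent.Y16.Gluon Pool.Agent.Y16.AF

namespace Pool.Agent.H735U

namespace Exa

/-- real linear maps on a finite dimensional space are smooth -/
lemma contDiff_lin {E F : Type*} [NormedAddCommGroup E] [NormedSpace ℝ E] [FiniteDimensional ℝ E]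
    [NormedAddCommGroup F] [NormedSpace ℝ F] (l : E →ₗ[ℝ] F) {n : WithTop ℕ∞} :
    ContDiff ℝ n (fun x => l x) := by
  have h := (LinearMap.toContinuousLinearMap l).contDiff (n := n)
  exact h

/-- second order Taylor estimate -/
lemma taylor2 {E F : Type*} [NormedAddCommGroup E] [NormedSpace ℝ E]
    [NormedAddCommGroup F] [NormedSpace ℝ F] (f : E → F) (hf : ContDiff ℝ ∞ f) (p : E)
    (l : E → F) (hl : ∀ h, HasDerivAt (fun t : ℝ => f (p + t • h)) (l h) 0) :
    ∃ K δ : ℝ, 0 ≤ K ∧ 0 < δ ∧ ∀ h : E, ‖h‖ ≤ δ → ‖f (p + h) - f p - l h‖ ≤ K * ‖h‖ ^ 2 := by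
  have hf1 : ContDiff ℝ 1 (fderiv ℝ f) := hf.fderiv_right (m := 1) (by norm_cast)
  obtain ⟨K, t, ht, hK⟩ := (hf1.contDiffAt (x := p)).exists_lipschitzOnWith
  obtain ⟨δ, hδ, hball⟩ := Metric.mem_nhds_iff.1 ht
  have hd : ∀ x, HasFDerivAt f (fderiv ℝ f x) x := fun x =>
    (hf.differentiable (by simp) x).hasFDerivAt
  have hlin : ∀ h, l h = fderiv ℝ f p h := by
    intro h
    have h1 : HasDerivAt (fun t : ℝ => p + t • h) h 0 := by
      have := ((hasDerivAt_id (0 : ℝ)).smul_const h).const_add p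
      simpa using this
    have h2 : HasDerivAt (fun t : ℝ => f (p + t • h)) (fderiv ℝ f p h) 0 := by
      have h3 : HasFDerivAt f (fderiv ℝ f p) (p + (0 : ℝ) • h) := by simpa using hd p
      exact h3.comp_hasDerivAt (0 : ℝ) h1
    exact (hl h).unique h2
  refine ⟨K, δ / 2, K.2, by positivity, ?_⟩
  intro h hh
  have hs : ∀ x ∈ Metric.closedBall p ‖h‖, ‖fderiv ℝ f x - fderiv ℝ f p‖ ≤ K * ‖h‖ := by
    intro x hx
    rw [mem_closedBall_iff_norm] at hx
    have hxt : x ∈ t := hball (by rw [mem_ball_iff_norm]; linarith)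
    have hpt : p ∈ t := mem_of_mem_nhds ht
    have := hK.norm_sub_le hxt hpt
    exact this.trans (mul_le_mul_of_nonneg_left hx K.2)
  have hm := (convex_closedBall p ‖h‖).norm_image_sub_le_of_norm_hasFDerivWithin_le'
    (f := f) (f' := fun x => fderiv ℝ f x) (φ := fderiv ℝ f p) (C := K * ‖h‖)
    (fun x _ => (hd x).hasFDerivWithinAt) hs (x := p) (y := p + h)
    (Metric.mem_closedBall_self (norm_nonneg _)) (by rw [mem_closedBall_iff_norm]; simp)
  rw [add_sub_cancel_left] at hm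
  rw [hlin]
  calc _ ≤ K * ‖h‖ * ‖h‖ := hm
    _ = K * ‖h‖ ^ 2 := by ring

variable {N : ℕ}

/-- the trace as a real linear map -/
noncomputable def trl (N : ℕ) : Mt N →ₗ[ℝ] ℂ where
  toFun := fun M => trace M
  map_add' := fun A B => trace_add A B
  map_smul' := fun c A => trace_smul c A

/-- an entry as a real linear map -/
noncomputable def entl (N : ℕ) (i j : Fin N) : Mt N →ₗ[ℝ] ℂ where
  toFun := fun M => M i j
  map_add' := fun A B => rfl
  map_smul' := fun c A => rfl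

lemma finDim : FiniteDimensional ℝ (Mt N) := by
  have : FiniteDimensional ℝ ℂ := inferInstance
  infer_instance

lemma contDiff_trace {n : WithTop ℕ∞} : ContDiff ℝ n (fun M : Mt N => trace M) := by
  have := finDim (N := N)
  exact contDiff_lin (trl N)

lemma contDiff_entry {n : WithTop ℕ∞} (i j : Fin N) : ContDiff ℝ n (fun M : Mt N => M i j) := by
  have := finDim (N := N)
  exact contDiff_lin (entl N i j)

lemma contDiff_det : ContDiff ℝ ∞ (fun M : Mt N => det M) := by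
  simp only [det_apply]
  apply ContDiff.sum
  intro σ _
  have h : ContDiff ℝ ∞ (fun M : Mt N => ∏ i, M (σ i) i) :=
    contDiff_prod fun i _ => contDiff_entry _ _
  rcases Int.units_eq_one_or (Equiv.Perm.sign σ) with h1 | h1
  · simpa [h1] using h
  · simpa [h1] using h.neg

lemma hasDerivAt_det (H : Mt N) :
    HasDerivAt (fun t : ℝ => det (1 + t • H)) (trace H) 0 := by
  set Q : Polynomial ℂ := (det (1 + (Polynomial.X : Polynomial ℂ) • H.map Polynomial.C)).divX.divX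
    with hQ
  have h2 : ∀ t : ℝ, det (1 + t • H) = 1 + trace H * (t : ℂ) + Q.eval (t : ℂ) * (t : ℂ) ^ 2 := by
    intro t
    have := Matrix.det_one_add_smul (t : ℂ) H
    rw [← this]
    congr 1
  have h3 : (fun t : ℝ => det (1 + t • H)) =
      fun t : ℝ => 1 + trace H * (t : ℂ) + Q.eval (t : ℂ) * (t : ℂ) ^ 2 := funext h2
  rw [h3]
  have h4 : HasDerivAt (fun z : ℂ => 1 + trace H * z + Q.eval z * z ^ 2) (trace H) ((0 : ℝ) : ℂ) := by
    have h5 := (((hasDerivAt_id (((0 : ℝ) : ℂ))).const_mul (trace H)).const_add 1).add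
      ((Q.hasDerivAt ((0 : ℝ) : ℂ)).mul (hasDerivAt_pow 2 (((0 : ℝ) : ℂ))))
    exact h5.congr_deriv (by simp)
  exact h4.comp_ofReal

lemma norm_sq_sum (A : Mt N) : ‖A‖ ^ 2 = ∑ i, ∑ j, ‖A j i‖ ^ 2 := by
  rw [Pool.Agent.Y421.AF.norm_sq]
  simp only [trace, diag_apply, mul_apply, conjTranspose_apply, Complex.re_sum]
  refine Finset.sum_congr rfl fun i _ => Finset.sum_congr rfl fun j _ => ?_
  rw [Complex.star_def, mul_comm, Complex.mul_conj, Complex.ofReal_re, Complex.normSq_eq_norm_sq]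

lemma trace_sq_le (A : Mt N) : ‖trace A‖ ^ 2 ≤ N * ‖A‖ ^ 2 := by
  have h1 : ‖trace A‖ ≤ ∑ i, ‖A i i‖ := by
    simpa [trace] using norm_sum_le (Finset.univ : Finset (Fin N)) (fun i => A i i)
  have h2 : (∑ i : Fin N, ‖A i i‖) ^ 2 ≤ N * ∑ i : Fin N, ‖A i i‖ ^ 2 := by
    simpa using sq_sum_le_card_mul_sum_sq (s := (Finset.univ : Finset (Fin N)))
      (f := fun i => ‖A i i‖)
  have h3 : ∑ i : Fin N, ‖A i i‖ ^ 2 ≤ ‖A‖ ^ 2 := by
    rw [norm_sq_sum]
    refine Finset.sum_le_sum fun i _ => ?_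
    exact Finset.single_le_sum (f := fun j => ‖A j i‖ ^ 2) (fun j _ => by positivity)
      (Finset.mem_univ i)
  calc ‖trace A‖ ^ 2 ≤ (∑ i, ‖A i i‖) ^ 2 := pow_le_pow_left₀ (norm_nonneg _) h1 2
    _ ≤ N * ∑ i : Fin N, ‖A i i‖ ^ 2 := h2
    _ ≤ N * ‖A‖ ^ 2 := mul_le_mul_of_nonneg_left h3 (by positivity)

/-- the trace of `g - 1` is of second order on `SU(N)` -/
lemma trace_le (N : ℕ) : ∃ C : ℝ, 0 ≤ C ∧ ∀ H : Mt N, det (1 + H) = 1 →
    ‖trace H‖ ≤ C * ‖H‖ ^ 2 := by
  obtain ⟨K, δ, hK, hδ, h⟩ := taylor2 (fun M : Mt N => det M) contDiff_det 1 (fun H => trace H)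
    hasDerivAt_det
  refine ⟨K + Real.sqrt N / δ, by positivity, ?_⟩
  intro H hH
  rcases le_or_gt ‖H‖ δ with h1 | h1
  · have h2 := h H h1
    simp only [hH, det_one, sub_self, zero_sub, norm_neg] at h2
    have h3 : 0 ≤ Real.sqrt N / δ * ‖H‖ ^ 2 := by positivity
    rw [add_mul]
    linarith
  · have h2 : ‖trace H‖ ≤ Real.sqrt N * ‖H‖ := by
      refine abs_le_of_sq_le_sq' ?_ (by positivity) |>.2
      rw [mul_pow, Real.sq_sqrt (by positivity)]
      exact trace_sq_le H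
    have h3 : ‖H‖ ≤ ‖H‖ ^ 2 / δ := by
      rw [le_div_iff₀ hδ]
      nlinarith [norm_nonneg H]
    have h4 : Real.sqrt N * ‖H‖ ≤ Real.sqrt N * (‖H‖ ^ 2 / δ) :=
      mul_le_mul_of_nonneg_left h3 (by positivity)
    have h5 : Real.sqrt N * (‖H‖ ^ 2 / δ) = Real.sqrt N / δ * ‖H‖ ^ 2 := by ring
    have h6 : 0 ≤ K * ‖H‖ ^ 2 := by positivity
    rw [add_mul]
    linarith

end Exa

open Exa in
theorem t_EXA : S_EXA := by
  intro N G hG b hb
  refine ⟨?_, ?_, ?_, ?_⟩
  · have h1 : ContDiff ℝ ∞ (fun M : Mt N => trace (1 - M)) := by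
      have : (fun M : Mt N => trace (1 - M)) = fun M => trace (1 : Mt N) - trace M := by
        funext M
        exact trace_sub _ _
      rw [this]
      exact contDiff_const.sub contDiff_trace
    have h2 : ContDiff ℝ ∞ (fun M : Mt N => (trace (1 - M)).re) :=
      Complex.reCLM.contDiff.comp h1
    exact h2.sub (contDiff_const.mul (h1.norm_sq ℂ))
  · intro g h
    have h1 : trace (1 - mt (h * g * h⁻¹)) = trace (1 - mt g) := by
      rw [trace_sub, trace_sub, Pool.Agent.Y421.AF.mt_mul, trace_mul_comm,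
        ← Pool.Agent.Y421.AF.mt_mul, ← mul_assoc, inv_mul_cancel, one_mul]
    simp only [smix, h1]
  · intro g hg
    have h1 := Pool.Agent.Y421.AF.norm_sub_sq g
    have h2 : 0 < ‖mt g - 1‖ ^ 2 := by
      have : mt g - 1 ≠ 0 := by
        intro h
        apply hg
        apply Subtype.ext
        apply Subtype.ext
        exact sub_eq_zero.1 h
      exact pow_pos (norm_pos_iff.2 this) 2
    have h3 : ‖trace (1 - mt g)‖ ^ 2 ≤ N * ‖mt g - 1‖ ^ 2 := by
      have := trace_sq_le (1 - mt g)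
      rwa [norm_sub_rev] at this
    simp only [smix]
    rcases le_or_gt b 0 with h4 | h4
    · have h5 : b * ‖trace (1 - mt g)‖ ^ 2 ≤ 0 :=
        mul_nonpos_of_nonpos_of_nonneg h4 (by positivity)
      linarith
    · have h5 : b * ‖trace (1 - mt g)‖ ^ 2 ≤ b * (N * ‖mt g - 1‖ ^ 2) :=
        mul_le_mul_of_nonneg_left h3 h4.le
      have h6 : 0 < (1 - b * (2 * N)) * (‖mt g - 1‖ ^ 2 / 2) := by
        have : 0 < 1 - b * (2 * N) := by linarith
        positivity
      nlinarith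
  · obtain ⟨C, hC, h⟩ := trace_le N
    refine ⟨|b| * C ^ 2, ?_⟩
    intro g
    have h1 := Pool.Agent.Y421.AF.norm_sub_sq g
    have hd : det (1 + (mt g - 1)) = 1 := by
      rw [add_sub_cancel]
      exact (hG g).1 g.2
    have h2 := h (mt g - 1) hd
    have h3 : ‖trace (1 - mt g)‖ = ‖trace (mt g - 1)‖ := by
      rw [← neg_sub, trace_neg, norm_neg]
    have h4 : smix b (mt g) - 1 / 2 * ‖mt g - 1‖ ^ 2 = -(b * ‖trace (mt g - 1)‖ ^ 2) := by
      simp only [smix]
      rw [h1, h3]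
      ring
    rw [h4, abs_neg, abs_mul, abs_of_nonneg (by positivity : (0 : ℝ) ≤ ‖trace (mt g - 1)‖ ^ 2)]
    have h5 : ‖trace (mt g - 1)‖ ^ 2 ≤ (C * ‖mt g - 1‖ ^ 2) ^ 2 :=
      pow_le_pow_left₀ (norm_nonneg _) h2 2
    calc |b| * ‖trace (mt g - 1)‖ ^ 2 ≤ |b| * (C * ‖mt g - 1‖ ^ 2) ^ 2 :=
          mul_le_mul_of_nonneg_left h5 (abs_nonneg _)
      _ = |b| * C ^ 2 * ‖mt g - 1‖ ^ 4 := by ring

end Pool.Agent.H735U
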