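import Mathlib
import Pool.Agent.H735U.Stm
import Pool.Agent.TH618.YM.Cartan
import Pool.Agent.Y274.YMTan

set_option autoImplicit false
set_option linter.unusedVariables false

open Filter
open scoped Topology ContDiff

namespace Pool.Agent.H735U

namespace Ext

section alg

variable {A : Type*} [NormedRing A] [NormedAlgebra ℝ A] [CompleteSpace A]

/-- a closed group of units -/
structure CG (S : Set A) : Prop where
  cl : IsClosed S
  one : (1 : A) ∈ S
  mul : ∀ a ∈ S, ∀ b ∈ S, a * b ∈ S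
  inv : ∀ a ∈ S, ∃ b ∈ S, a * b = 1

theorem CG.pow {S : Set A} (hS : CG S) {a : A} (ha : a ∈ S) (n : ℕ) : a ^ n ∈ S := by
  induction n with
  | zero => rw [pow_zero]; exact hS.one
  | succ n ih => rw [pow_succ]; exact hS.mul _ ih _ ha

theorem exp_neg_mul (Z : A) : NormedSpace.exp (-Z) * NormedSpace.exp Z = 1 := by
  let _ : NormedAlgebra ℚ A := NormedAlgebra.restrictScalars ℚ ℝ A
  rw [← NormedSpace.exp_add_of_commute (Commute.neg_left (Commute.refl Z)), neg_add_cancel,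
    NormedSpace.exp_zero]

theorem limit_exp {S : Set A} (hS : CG S) {h : ℕ → A} (hh : ∀ k, h k ∈ S) {τ : ℕ → ℝ}
    (hτ : ∀ k, 0 < τ k) (hτ0 : Tendsto τ atTop (𝓝 0)) {Z : A}
    (hZ : Tendsto (fun k => (τ k)⁻¹ • (h k - 1)) atTop (𝓝 Z)) (t : ℝ) :
    NormedSpace.exp (t • Z) ∈ S := by
  have h0 : ∀ t : ℝ, 0 ≤ t → NormedSpace.exp (t • Z) ∈ S := by
    intro t ht
    exact hS.cl.mem_of_tendsto (Pool.Agent.Y274.YMTan.pow_tendsto_exp h τ hτ hτ0 Z hZ t ht)
      (Eventually.of_forall fun k => hS.pow (hh k) _)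
  rcases le_total 0 t with ht | ht
  · exact h0 t ht
  · have h1 := h0 (-t) (by linarith)
    obtain ⟨b, hb, hb1⟩ := hS.inv _ h1
    have h2 := exp_neg_mul ((-t) • Z)
    have h3 : -((-t) • Z) = t • Z := by rw [neg_smul, neg_neg]
    rw [h3] at h2
    have h4 : b = NormedSpace.exp (t • Z) := by
      calc b = NormedSpace.exp (t • Z) * NormedSpace.exp ((-t) • Z) * b := by rw [h2, one_mul]
        _ = _ := by rw [mul_assoc, hb1, mul_one]
    rw [← h4]; exact hb

/-- the Lie algebra -/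
def lie {S : Set A} (hS : CG S) : Submodule ℝ A where
  carrier := {Y | ∀ t : ℝ, NormedSpace.exp (t • Y) ∈ S}
  zero_mem' := fun t => by rw [smul_zero, NormedSpace.exp_zero]; exact hS.one
  smul_mem' := fun c Y hY t => by rw [smul_smul]; exact hY _
  add_mem' := by
    intro X Y hX hY t
    exact limit_exp hS (fun k => hS.mul _ (hX _) _ (hY _)) (fun k => by positivity)
      tendsto_one_div_add_atTop_nhds_zero_nat (Pool.Agent.Y274.YMTan.mul_tendsto X Y) t

theorem mem_lie {S : Set A} (hS : CG S) {Y : A} :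
    Y ∈ lie hS ↔ ∀ t : ℝ, NormedSpace.exp (t • Y) ∈ S := Iff.rfl

theorem exists_proj [FiniteDimensional ℝ A] (V : Submodule ℝ A) :
    ∃ P : A →L[ℝ] A, (∀ x, P x ∈ V) ∧ ∀ x ∈ V, P x = x := by
  obtain ⟨g, hg⟩ := V.subtype.exists_leftInverse_of_injective (by simp)
  refine ⟨LinearMap.toContinuousLinearMap (V.subtype ∘ₗ g), fun x => ?_, fun x hx => ?_⟩
  · simp
  · have h1 : g x = ⟨x, hx⟩ := by
      have := congrArg (fun f => f ⟨x, hx⟩) hg
      simpa using this
    simp [h1]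

theorem exp_strict : HasStrictFDerivAt (NormedSpace.exp : A → A)
    (ContinuousLinearMap.id ℝ A) 0 := hasStrictFDerivAt_exp_zero (𝕂 := ℝ) (𝔸 := A)

theorem phi_strict (P : A →L[ℝ] A) : HasStrictFDerivAt
    (fun M : A => NormedSpace.exp (P M) * NormedSpace.exp (M - P M))
    ((ContinuousLinearEquiv.refl ℝ A : A ≃L[ℝ] A) : A →L[ℝ] A) 0 := by
  have h1 : HasStrictFDerivAt (fun M : A => (NormedSpace.exp (P M) : A)) P 0 := by
    have h2 : HasStrictFDerivAt (NormedSpace.exp : A → A) (ContinuousLinearMap.id ℝ A) (P 0) := by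
      rw [map_zero]; exact exp_strict
    have h3 := h2.comp (0 : A) P.hasStrictFDerivAt
    exact h3
  have h4 : HasStrictFDerivAt (fun M : A => (NormedSpace.exp (M - P M) : A))
      (ContinuousLinearMap.id ℝ A - P) 0 := by
    have h2 : HasStrictFDerivAt (NormedSpace.exp : A → A) (ContinuousLinearMap.id ℝ A)
        ((fun M : A => M - P M) 0) := by
      simp only [map_zero, sub_zero]; exact exp_strict
    have h3 := h2.comp (0 : A) ((hasStrictFDerivAt_id (0 : A)).sub P.hasStrictFDerivAt)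
    exact h3
  have h5 := h1.mul' h4
  refine h5.congr_fderiv ?_
  ext x
  simp

theorem log_mem {S : Set A} (hS : CG S) [FiniteDimensional ℝ A] (lg : A → A)
    (hlg : ∀ᶠ x in 𝓝 (0 : A), lg (NormedSpace.exp x) = x) :
    ∀ᶠ g in 𝓝 (1 : A), g ∈ S → lg g ∈ lie hS := by
  obtain ⟨P, hP1, hP2⟩ := exists_proj (lie hS)
  have hφ := phi_strict P
  obtain ⟨ψ, hψ⟩ : ∃ ψ, ψ = hφ.localInverse := ⟨_, rfl⟩
  have hφ0 : NormedSpace.exp (P 0) * NormedSpace.exp (0 - P 0) = (1 : A) := by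
    simp
  have hr : ∀ᶠ y in 𝓝 (1 : A), NormedSpace.exp (P (ψ y)) * NormedSpace.exp (ψ y - P (ψ y)) = y := by
    have := hφ.eventually_right_inverse
    rw [hφ0, ← hψ] at this
    exact this
  have hψ0 : Tendsto ψ (𝓝 1) (𝓝 0) := by
    have := hφ.localInverse_tendsto
    rw [hφ0, ← hψ] at this
    exact this
  by_contra hcon
  rw [not_eventually] at hcon
  obtain ⟨g, hg1, hg⟩ := exists_seq_forall_of_frequently
    (hcon.and_eventually (hr.and (hψ0.eventually hlg)))
  have hgS : ∀ k, g k ∈ S := fun k => by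
    by_contra h; exact (hg k).1 fun h' => absurd h' h
  have hgV : ∀ k, lg (g k) ∉ lie hS := fun k h => (hg k).1 fun _ => h
  have hge : ∀ k, NormedSpace.exp (P (ψ (g k))) * NormedSpace.exp (ψ (g k) - P (ψ (g k))) = g k :=
    fun k => (hg k).2.1
  have hgl : ∀ k, lg (NormedSpace.exp (ψ (g k))) = ψ (g k) := fun k => (hg k).2.2
  obtain ⟨w, hw⟩ : ∃ w : ℕ → A, w = fun k => ψ (g k) - P (ψ (g k)) := ⟨_, rfl⟩
  have hm0 : Tendsto (fun k => ψ (g k)) atTop (𝓝 0) := hψ0.comp hg1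
  have hw0 : Tendsto w atTop (𝓝 0) := by
    have h1 := hm0.sub ((P.continuous.tendsto 0).comp hm0)
    rw [map_zero, sub_zero] at h1
    rw [hw]; exact h1
  have hwne : ∀ k, w k ≠ 0 := by
    intro k h
    rw [hw] at h
    simp only at h
    have h1 := hge k
    rw [h, NormedSpace.exp_zero, mul_one] at h1
    have h2 : P (ψ (g k)) = ψ (g k) := (sub_eq_zero.1 h).symm
    rw [h2] at h1
    have h3 := hgl k
    rw [h1] at h3
    apply hgV k
    rw [h3, ← h2]
    exact hP1 _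
  have hPw : ∀ k, P (w k) = 0 := by
    intro k
    rw [hw]
    simp only
    rw [map_sub, hP2 _ (hP1 _), sub_self]
  have hwS : ∀ k, NormedSpace.exp (w k) ∈ S := by
    intro k
    have h1 := (mem_lie hS).1 (hP1 (ψ (g k))) (-1)
    rw [neg_one_smul] at h1
    have h2 := hS.mul _ h1 _ (hgS k)
    have h3 : NormedSpace.exp (-(P (ψ (g k)))) * g k = NormedSpace.exp (w k) := by
      calc NormedSpace.exp (-(P (ψ (g k)))) * g k = NormedSpace.exp (-(P (ψ (g k)))) *
            (NormedSpace.exp (P (ψ (g k))) * NormedSpace.exp (ψ (g k) - P (ψ (g k)))) := by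
              rw [hge k]
        _ = _ := by rw [← mul_assoc, exp_neg_mul, one_mul, hw]
    rw [h3] at h2
    exact h2
  have hτ : ∀ k, 0 < ‖w k‖ := fun k => norm_pos_iff.2 (hwne k)
  have hsph : ∀ k, ‖w k‖⁻¹ • w k ∈ Metric.sphere (0 : A) 1 := by
    intro k
    rw [mem_sphere_zero_iff_norm, norm_smul, norm_inv, norm_norm, inv_mul_cancel₀ (hτ k).ne']
  haveI : ProperSpace A := FiniteDimensional.proper_real A
  obtain ⟨W, hW, φ, hφm, hlim⟩ := (isCompact_sphere (0 : A) 1).tendsto_subseq hsph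
  have hwφ : Tendsto (fun k => w (φ k)) atTop (𝓝 0) := hw0.comp hφm.tendsto_atTop
  have hlittle : Tendsto (fun k => ‖w (φ k)‖⁻¹ • (NormedSpace.exp (w (φ k)) - 1 - w (φ k))) atTop
      (𝓝 0) := by
    have h1 := (exp_strict (A := A)).hasFDerivAt.isLittleO
    have h2 := h1.comp_tendsto hwφ
    have h3 := h2.norm_right.tendsto_inv_smul_nhds_zero
    refine h3.congr fun k => ?_
    simp [Function.comp]
  have hlim2 : Tendsto (fun k => ‖w (φ k)‖⁻¹ • (NormedSpace.exp (w (φ k)) - 1)) atTop (𝓝 W) := by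
    have h1 := hlittle.add hlim
    rw [zero_add] at h1
    refine h1.congr fun k => ?_
    simp only [Function.comp]
    rw [← smul_add, sub_add_cancel]
  have hWV : W ∈ lie hS := (mem_lie hS).2 fun t => limit_exp hS (fun k => hwS (φ k))
    (fun k => hτ (φ k)) (by simpa using hwφ.norm) hlim2 t
  have hPW : P W = 0 := by
    have h1 : Tendsto (fun k => P (‖w (φ k)‖⁻¹ • w (φ k))) atTop (𝓝 (P W)) :=
      (P.continuous.tendsto W).comp hlim
    have h2 : (fun k => P (‖w (φ k)‖⁻¹ • w (φ k))) = fun _ => 0 := by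
      funext k; rw [map_smul, hPw, smul_zero]
    rw [h2] at h1
    exact tendsto_nhds_unique h1 tendsto_const_nhds
  rw [hP2 W hWV] at hPW
  rw [hPW, mem_sphere_zero_iff_norm, norm_zero] at hW
  exact zero_ne_one hW

theorem exp_contDiffAt (x : A) : ContDiffAt ℝ ω (NormedSpace.exp : A → A) x :=
  (NormedSpace.exp_analytic (𝕂 := ℝ) x).contDiffAt

/-- A retraction on the group near the identity. -/
theorem exists_retr {S : Set A} (hS : CG S) [FiniteDimensional ℝ A] :
    ∃ π : A → A, ∃ ρ : ℝ, 0 < ρ ∧ (∀ M, π M ∈ S) ∧ (∀ g ∈ S, ‖g - 1‖ < ρ → π g = g) ∧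
      (∀ M, ‖M - 1‖ < ρ → ContDiffAt ℝ ω π M) ∧ π 1 = 1 := by
  have he := exp_contDiffAt (A := A) 0
  have hf : HasFDerivAt (NormedSpace.exp : A → A)
      ((ContinuousLinearEquiv.refl ℝ A : A ≃L[ℝ] A) : A →L[ℝ] A) 0 :=
    (exp_strict (A := A)).hasFDerivAt
  have hn : (ω : WithTop ℕ∞) ≠ 0 := by simp
  obtain ⟨lg, hlg⟩ : ∃ lg, lg = he.localInverse hf hn := ⟨_, rfl⟩
  have hs := he.hasStrictFDerivAt' hf hn
  have hlg' : lg = hs.localInverse := hlg
  have hleft : ∀ᶠ x in 𝓝 (0 : A), lg (NormedSpace.exp x) = x := by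
    rw [hlg']; exact hs.eventually_left_inverse
  have hright : ∀ᶠ y in 𝓝 (1 : A), NormedSpace.exp (lg y) = y := by
    have := hs.eventually_right_inverse
    rw [NormedSpace.exp_zero] at this
    rw [hlg']; exact this
  have hsm : ContDiffAt ℝ ω lg 1 := by
    have := he.to_localInverse hf hn
    rw [NormedSpace.exp_zero] at this
    rw [hlg]; exact this
  have hlg1 : lg 1 = 0 := by
    have := he.localInverse_apply_image hf hn
    rw [NormedSpace.exp_zero] at this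
    rw [hlg]; exact this
  have hsm2 := hsm.eventually (by simp)
  obtain ⟨P, hP1, hP2⟩ := exists_proj (lie hS)
  have hall := (log_mem hS lg hleft).and (hright.and hsm2)
  rw [Metric.eventually_nhds_iff] at hall
  obtain ⟨ρ, hρ, hall⟩ := hall
  refine ⟨fun M => NormedSpace.exp (P (lg M)), ρ, hρ, fun M => ?_, fun g hg hg1 => ?_,
    fun M hM => ?_, ?_⟩
  · have := (mem_lie hS).1 (hP1 (lg M)) 1
    rwa [one_smul] at this
  · have h1 := hall (y := g) (by rwa [dist_eq_norm])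
    show NormedSpace.exp (P (lg g)) = g
    rw [hP2 _ (h1.1 hg), h1.2.1]
  · have h1 := hall (y := M) (by rwa [dist_eq_norm])
    exact (exp_contDiffAt _).comp M (P.contDiff.contDiffAt.comp M h1.2.2)
  · show NormedSpace.exp (P (lg 1)) = 1
    rw [hlg1, map_zero, NormedSpace.exp_zero]

theorem ext_general {S : Set A} (hS : CG S) [FiniteDimensional ℝ A] (r : A → ℝ)
    (hr : ContDiff ℝ ∞ r) (hC : ∃ C : ℝ, ∀ g ∈ S, |r g| ≤ C * ‖g - 1‖ ^ 4) :
    ∃ r' : A → ℝ, ContDiff ℝ ∞ r' ∧ (∀ g ∈ S, r' g = r g) ∧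
      ∃ C δ : ℝ, 0 < δ ∧ ∀ M : A, ‖M - 1‖ ≤ δ → |r' M| ≤ C * ‖M - 1‖ ^ 4 := by
  obtain ⟨π, ρ, hρ, hπS, hπg, hπs, hπ1⟩ := exists_retr hS
  obtain ⟨C, hC⟩ := hC
  let χ : ContDiffBump (1 : A) := ⟨ρ / 3, ρ / 2, by positivity, by linarith⟩
  have hdf : DifferentiableAt ℝ π 1 := (hπs 1 (by simpa using hρ)).differentiableAt (by simp)
  have hO := hdf.isBigO_sub
  rw [hπ1] at hO
  obtain ⟨K, hK⟩ := hO.bound
  rw [Metric.eventually_nhds_iff] at hK
  obtain ⟨δ, hδ, hK⟩ := hK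
  refine ⟨fun M => χ M * r (π M) + (1 - χ M) * r M, ?_, ?_, ?_⟩
  · rw [contDiff_iff_contDiffAt]
    intro M
    by_cases hM : ‖M - 1‖ < ρ
    · have h1 : ContDiffAt ℝ ∞ π M := (hπs M hM).of_le (by simp)
      have h2 : ContDiffAt ℝ ∞ (fun M => r (π M)) M := hr.contDiffAt.comp M h1
      have h3 : ContDiffAt ℝ ∞ (fun M => χ M) M := χ.contDiffAt
      exact (h3.mul h2).add ((contDiffAt_const.sub h3).mul hr.contDiffAt)
    · refine (hr.contDiffAt (x := M)).congr_of_eventuallyEq ?_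
      have h1 : ∀ᶠ M' in 𝓝 M, ρ / 2 < ‖M' - 1‖ := by
        have h2 : ContinuousAt (fun M' : A => ‖M' - 1‖) M := by fun_prop
        exact h2.eventually (lt_mem_nhds (by linarith))
      filter_upwards [h1] with M' hM'
      have h3 : χ M' = 0 := χ.zero_of_le_dist (by rw [dist_eq_norm]; exact hM'.le)
      rw [h3, zero_mul, zero_add, sub_zero, one_mul]
  · intro g hg
    by_cases hM : ‖g - 1‖ < ρ
    · show χ g * r (π g) + (1 - χ g) * r g = r g
      rw [hπg g hg hM]; ring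
    · have h3 : χ g = 0 := χ.zero_of_le_dist (by
        rw [dist_eq_norm]
        show ρ / 2 ≤ _
        linarith)
      show χ g * r (π g) + (1 - χ g) * r g = r g
      rw [h3]; ring
  · refine ⟨|C| * |K| ^ 4, min (ρ / 3) (δ / 2), by positivity, fun M hM => ?_⟩
    have h1 : χ M = 1 := χ.one_of_mem_closedBall (by
      rw [Metric.mem_closedBall, dist_eq_norm]
      exact hM.trans (min_le_left _ _))
    show |χ M * r (π M) + (1 - χ M) * r M| ≤ _
    rw [h1, one_mul, sub_self, zero_mul, add_zero]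
    have h2 := hC _ (hπS M)
    have h3 : ‖π M - 1‖ ≤ K * ‖M - 1‖ := hK (by
      rw [dist_eq_norm]
      have := hM.trans (min_le_right _ _)
      linarith)
    have h4 : ‖π M - 1‖ ≤ |K| * ‖M - 1‖ :=
      h3.trans (mul_le_mul_of_nonneg_right (le_abs_self K) (norm_nonneg _))
    have h5 : ‖π M - 1‖ ^ 4 ≤ (|K| * ‖M - 1‖) ^ 4 := pow_le_pow_left₀ (norm_nonneg _) h4 4
    calc |r (π M)| ≤ C * ‖π M - 1‖ ^ 4 := h2
      _ ≤ |C| * ‖π M - 1‖ ^ 4 := mul_le_mul_of_nonneg_right (le_abs_self C) (by positivity)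
      _ ≤ |C| * (|K| * ‖M - 1‖) ^ 4 := mul_le_mul_of_nonneg_left h5 (abs_nonneg _)
      _ = _ := by ring

end alg

end Ext

end Pool.Agent.H735U

open MeasureTheory Matrix Filter
open scoped Matrix.Norms.Frobenius Topology ContDiff
open Pool.Agent.Y16.Gluon Pool.Agent.Y16.AF

namespace Pool.Agent.H735U

namespace Ext

theorem cg_range {N : ℕ} (G : Subgroup (UU N)) (hG : IsClosed (G : Set (UU N))) :
    CG (A := Mt N) (Set.range (mt : G → Mt N)) := by
  refine ⟨?_, ⟨1, rfl⟩, ?_, ?_⟩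
  · have hc : Continuous (mt : G → Mt N) := continuous_subtype_val.comp continuous_subtype_val
    have h1 : IsCompact (G : Set (UU N)) := hG.isCompact
    have h2 : CompactSpace G := isCompact_iff_compactSpace.1 h1
    exact (isCompact_range hc).isClosed
  · rintro _ ⟨g, rfl⟩ _ ⟨h, rfl⟩
    exact ⟨g * h, rfl⟩
  · rintro _ ⟨g, rfl⟩
    refine ⟨mt g⁻¹, ⟨g⁻¹, rfl⟩, ?_⟩
    have h : mt (g * g⁻¹) = mt g * mt g⁻¹ := rfl
    rw [← h, mul_inv_cancel]; rfl

end Ext

theorem t_EXT : S_EXT := by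
  intro N G hG r hr hC
  obtain ⟨C, hC⟩ := hC
  obtain ⟨r', h1, h2, h3⟩ := Ext.ext_general (Ext.cg_range G hG) r hr
    ⟨C, by rintro _ ⟨g, rfl⟩; exact hC g⟩
  exact ⟨r', h1, fun g => h2 _ ⟨g, rfl⟩, h3⟩

end Pool.Agent.H735U
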