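import Mathlib
import Pool.Agent.H735U.Stm3
import Pool.Agent.Y16.AF.Prob9

/-
Project UNI (helper735, MP_7f377f_mp = Yang-Mills, weight 100): universality of asymptotic freedom, the lattice Yang-Mills theory with a
general plaquette energy s(g) = Re tr (1 - g) + r(g). It extends the starting result AsymptoticFreedom (Pool/Agent/Y16/AF/* and the job files
Pool/Agent/Y*/AF/*). Statements: Pool/Agent/H735U/{Gen,Defs,Stm,Stm2,Stm3}.lean on origin/main (copy the imported modules and everything they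
import to the same paths; everything is on origin/main; `lake build <module>`).
TARGET: prove the theorem below, statement unchanged, no sorry, no axioms. Put auxiliary lemmas before it, in the sub-namespace used here.
Paste the full file back as result. Please compile with `lake build` or with -DmaxHeartbeats=4000000 (the package option), not `lake env lean`
defaults. If the statement is false or unclear: status='problem' and say why, or message helper735.
REMARK on instances: for Mt N = Matrix (Fin N) (Fin N) C with the Frobenius norm, the Matrix topology and the topology of the norm are equal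
by rfl, but not at reducible transparency, so e.g. `Norm (Mt N ->L[R] R)` and `NormedAddCommGroup (Mt N ->L[R] R)` are not found. Therefore
derivatives are used through dr1, dr2, dr4 (Gen.lean, for a general normed space E; hasDerivAt_comp, hasDerivAt_dr1, contDiff_dr1, contDiff_dr2, dr2_comm, dr4_*).
Prove analytic facts for a general E and apply them to Mt N.

PROOF.
As fin_of and unif_of (Pool/Agent/Y16/AF/Prob8.lean, Prob9.lean, see how they are used in Pool/Agent/Y16/AF/Top.lean: theorem sharp). For a fixed T, CORER with 1/L^4 tr(Hm^-1 H01) -> 1/2 (C_WH) and XX L = -11/(12 pi^2) log L + x + o(1), kap B T = sum ‖T X_a - X_a T‖^2, trace (eM B T) in terms of sum ‖X_a T‖^2 and kap (see Prob8/Prob9: this gives (1/2 x + 1/16) kap - 1/4 sum ‖X_a T‖^2)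
and trace (qM B r T) = sum_a dr4 r 1 T T X_a X_a with coefficient 1/2 * 1/2 = 1/4. Uniformity in T: by S_GAUGER, S_DIFFR invR is a quadratic form in T in the span of the X_a: S1R r T is linear in T and S2R r T quadratic (D1r, V1 linear in T; D2r: V1, V1 quadratic, V2 quadratic), so is the main term, and a quadratic form with coefficients o(1) (in the basis X_a; polarization)
is o(1) ‖T‖^2 (unif_of in Prob9.lean: repeat the argument with the R versions). dr4 r 1 T T Z Z' is quadratic in T (dr4_swap and dr4_add_right, dr4_smul_right, or dr2 linear).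
-/

set_option autoImplicit false
set_option linter.unusedVariables false

open MeasureTheory Matrix Filter
open scoped Matrix.Norms.Frobenius Topology ContDiff
open Pool.Agent.Y16.Gluon Pool.Agent.Y16.AF

namespace Pool.Agent.H735U

namespace Fin

variable {N n L : ℕ} {G : Subgroup (UU N)}

/-- The asymptotics for one field `T`. -/
def FIN1 (x : ℝ) (K : ℕ) : Prop :=
  ∀ {N n : ℕ} (G : Subgroup (UU N)) (_ : IsClosed (G : Set (UU N)))
    [MeasurableSpace G] [BorelSpace G] (μ : Measure G) [IsProbabilityMeasure μ]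
    [μ.IsHaarMeasure] (r : Mt N → ℝ) (_ : Adm G r) (B : LieBasis G n) (T : Mt N) (e : ℝ → G)
    (_ : ∀ t, mt (e t) = NormedSpace.exp (t • T)),
    ∃ δ : ℕ → ℝ, Tendsto δ atTop (𝓝 0) ∧ ∀ (L : ℕ) [NeZero L], 2 ≤ L → ∀ β : ℝ,
      (L : ℝ) ^ K ≤ β → |invR μ r e L β - (β * ‖T‖ ^ 2 -
          11 / (24 * Real.pi ^ 2) * kap B T * Real.log L +
          (1 / 2 * x + 1 / 16) * kap B T - 1 / 4 * ∑ a, ‖B.X a * T‖ ^ 2 +
          1 / 4 * ∑ a, dr4 r 1 T T (B.X a) (B.X a))| ≤ δ L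

theorem fin1_of {K : ℕ} (hcore : CORER K) {x : ℝ}
    (hx : Tendsto (fun L : ℕ => XX (L + 2) +
      11 / (12 * Real.pi ^ 2) * Real.log ((L + 2 : ℕ) : ℝ)) atTop (𝓝 x))
    (hw : C_WH) : FIN1 x K := by
  intro N n G hG _ _ μ _ _ r hadm B T e he
  obtain ⟨C, hC⟩ := hcore G hG μ r hadm B T e he
  have hT : T ∈ Submodule.span ℝ (Set.range B.X) := T_mem B he
  set κ := kap B T with hκ
  set t := trace (eM B T) + trace (qM B r T) with ht
  have htq : trace (qM B r T) = ∑ a, dr4 r 1 T T (B.X a) (B.X a) := by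
    rw [Matrix.trace]
    rfl
  set a : ℕ → ℝ := fun l => C / ((l + 2 : ℕ) : ℝ) +
    |1 / 2 * κ * (XX (l + 2) + 11 / (12 * Real.pi ^ 2) * Real.log ((l + 2 : ℕ) : ℝ) - x)| +
    |1 / 2 * t * (trace ((rs (Hm (L := l + 2)))⁻¹ * rs (H01 (L := l + 2))) /
      ((l + 2 : ℕ) : ℝ) ^ 4 - 1 / 2)| with ha
  have ha0 : Tendsto a atTop (𝓝 0) := by
    have h1 : Tendsto (fun l : ℕ => C / ((l + 2 : ℕ) : ℝ)) atTop (𝓝 0) :=
      (tendsto_const_div_atTop_nhds_zero_nat C).comp (tendsto_add_atTop_nat 2)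
    have h2 : Tendsto (fun l : ℕ => |1 / 2 * κ * (XX (l + 2) + 11 / (12 * Real.pi ^ 2) *
        Real.log ((l + 2 : ℕ) : ℝ) - x)|) atTop (𝓝 0) := by
      have h3 := ((hx.sub_const x).const_mul (1 / 2 * κ)).abs
      simpa using h3
    have h4 : Tendsto (fun l : ℕ => |1 / 2 * t * (trace ((rs (Hm (L := l + 2)))⁻¹ *
        rs (H01 (L := l + 2))) / ((l + 2 : ℕ) : ℝ) ^ 4 - 1 / 2)|) atTop (𝓝 0) := by
      have h3 := ((Tendsto.sub_const hw (1 / 2 : ℝ)).const_mul (1 / 2 * t)).abs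
      simpa using h3
    have h5 := (h1.add h2).add h4
    rw [add_zero, add_zero] at h5
    exact h5
  refine ⟨fun L => a (L - 2), ha0.comp (tendsto_sub_atTop_nat 2), ?_⟩
  intro L _ hL β hβ
  obtain ⟨l, rfl⟩ : ∃ l, L = l + 2 := ⟨L - 2, by omega⟩
  have h1 := hC (l + 2) hL β hβ
  show _ ≤ a (l + 2 - 2)
  have h2 : l + 2 - 2 = l := rfl
  rw [h2]
  have hpi : Real.pi ≠ 0 := Real.pi_ne_zero
  have he : invR μ r e (l + 2) β - (β * ‖T‖ ^ 2 -
        11 / (24 * Real.pi ^ 2) * κ * Real.log ((l + 2 : ℕ) : ℝ) +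
        (1 / 2 * x + 1 / 16) * κ - 1 / 4 * ∑ a, ‖B.X a * T‖ ^ 2 +
        1 / 4 * ∑ a, dr4 r 1 T T (B.X a) (B.X a)) =
      (invR μ r e (l + 2) β - (β * ‖T‖ ^ 2 + 1 / 2 * (κ * XX (l + 2)) + 1 / 2 *
        (1 / ((l + 2 : ℕ) : ℝ) ^ 4 * trace ((rs (Hm (L := l + 2)))⁻¹ * rs (H01 (L := l + 2)))) *
        t)) +
      1 / 2 * κ * (XX (l + 2) + 11 / (12 * Real.pi ^ 2) * Real.log ((l + 2 : ℕ) : ℝ) - x) +
      1 / 2 * t * (trace ((rs (Hm (L := l + 2)))⁻¹ * rs (H01 (L := l + 2))) /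
        ((l + 2 : ℕ) : ℝ) ^ 4 - 1 / 2) := by
    have h5 : (11 : ℝ) / (24 * Real.pi ^ 2) = 1 / 2 * (11 / (12 * Real.pi ^ 2)) := by
      field_simp
      norm_num
    rw [h5, ht, tr_eM B hT, htq]
    ring
  rw [he]
  refine (abs_add_three _ _ _).trans ?_
  simp only [ha]
  gcongr

/-! ### the coupling as a quadratic form in the field -/

lemma V1_lc (B : LieBasis G n) (α τ : ℝ) (g : Fin 4 → G) (t : Fin n → ℝ) :
    V1 (lc B t) α τ g = ∑ a, t a • V1 (B.X a) α τ g := by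
  have h1 : lc B t * pm g = ∑ a, t a • (B.X a * pm g) := by
    unfold lc
    rw [Finset.sum_mul]
    exact Finset.sum_congr rfl fun a _ => by rw [smul_mul_assoc]
  have h2 : (lc B t * mt (g 0) - mt (g 0) * lc B t) * (mt (g 1) * mt (g 2) * mt (g 3)) =
      ∑ a, t a • ((B.X a * mt (g 0) - mt (g 0) * B.X a) * (mt (g 1) * mt (g 2) * mt (g 3))) := by
    unfold lc
    rw [Finset.sum_mul, Finset.mul_sum, ← Finset.sum_sub_distrib, Finset.sum_mul]
    refine Finset.sum_congr rfl fun a _ => ?_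
    rw [smul_mul_assoc, mul_smul_comm, ← smul_sub, smul_mul_assoc]
  unfold V1
  rw [h1, h2, Finset.smul_sum, Finset.smul_sum, ← Finset.sum_add_distrib]
  refine Finset.sum_congr rfl fun a _ => ?_
  rw [smul_add, smul_comm (t a) α, smul_comm (t a) τ]

lemma D1r_lc (B : LieBasis G n) (r : Mt N → ℝ) (α τ : ℝ) (g : Fin 4 → G) :
    IsL fun t => D1r r (lc B t) α τ g := by
  refine ⟨fun a => D1r r (B.X a) α τ g, fun t => ?_⟩
  show dr1 r (pm g) (V1 (lc B t) α τ g) = _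
  rw [V1_lc, dr1_sum]
  refine Finset.sum_congr rfl fun a _ => ?_
  rw [dr1_smul]
  rfl

/-- The polarised second derivative of a plaquette. -/
noncomputable def V2b (α τ : ℝ) (g : Fin 4 → G) : Mt N →ₗ[ℝ] Mt N →ₗ[ℝ] Mt N :=
  LinearMap.mk₂ ℝ (fun T S =>
    α ^ 2 • (T * S * pm g) + (2 * (α * τ)) • (T * (S * mt (g 0) - mt (g 0) * S) *
      (mt (g 1) * mt (g 2) * mt (g 3))) +
    τ ^ 2 • ((T * (S * mt (g 0) - mt (g 0) * S) - (S * mt (g 0) - mt (g 0) * S) * T) *
      (mt (g 1) * mt (g 2) * mt (g 3))))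
    (by
      intro T T' S
      simp only [add_mul, mul_add, sub_mul, mul_sub, smul_add, smul_sub]
      abel)
    (by
      intro c T S
      simp only [smul_mul_assoc, mul_smul_comm, ← smul_sub, smul_add, smul_comm c])
    (by
      intro T S S'
      simp only [add_mul, mul_add, sub_mul, mul_sub, smul_add, smul_sub]
      abel)
    (by
      intro c T S
      simp only [smul_mul_assoc, mul_smul_comm, ← smul_sub, smul_add, smul_comm c])

lemma IsQ_bil2 (b : Mt N →ₗ[ℝ] Mt N →ₗ[ℝ] Mt N) (l : Mt N → ℝ)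
    (hl : ∀ (m : ℕ) (V : Fin m → Mt N) (c : Fin m → ℝ), l (∑ a, c a • V a) = ∑ a, c a * l (V a))
    (B : LieBasis G n) : IsQ fun t => l (b (lc B t) (lc B t)) := by
  refine ⟨fun a c => l (b (B.X a) (B.X c)), fun t => ?_⟩
  have h1 : b (lc B t) (lc B t) = ∑ a, t a • ∑ c, t c • b (B.X a) (B.X c) := by
    have h0 : b (lc B t) = ∑ a, t a • b (B.X a) := by
      unfold lc
      rw [map_sum]
      exact Finset.sum_congr rfl fun a _ => by rw [map_smul]
    rw [h0, LinearMap.sum_apply]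
    refine Finset.sum_congr rfl fun a _ => ?_
    rw [LinearMap.smul_apply]
    congr 1
    unfold lc
    rw [map_sum]
    exact Finset.sum_congr rfl fun c _ => by rw [map_smul]
  show l (b (lc B t) (lc B t)) = _
  rw [h1, hl]
  refine Finset.sum_congr rfl fun a _ => ?_
  rw [hl, Finset.mul_sum]
  exact Finset.sum_congr rfl fun c _ => by ring

lemma dr1_lin (r : Mt N → ℝ) (M : Mt N) (m : ℕ) (V : Fin m → Mt N) (c : Fin m → ℝ) :
    dr1 r M (∑ a, c a • V a) = ∑ a, c a * dr1 r M (V a) := by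
  rw [dr1_sum]
  exact Finset.sum_congr rfl fun a _ => dr1_smul _ _ _

lemma dr2_quad (r : Mt N → ℝ) (M : Mt N) (V : Fin n → Mt N) (t : Fin n → ℝ) :
    dr2 r M (∑ a, t a • V a) (∑ a, t a • V a) = ∑ a, ∑ c, t a * t c * dr2 r M (V a) (V c) := by
  rw [dr2_sum_left]
  refine Finset.sum_congr rfl fun a _ => ?_
  rw [dr2_smul_left, dr2_sum_right, Finset.mul_sum]
  refine Finset.sum_congr rfl fun c _ => ?_
  rw [dr2_smul_right]
  ring

lemma D2r_lc (B : LieBasis G n) (r : Mt N → ℝ) (α τ : ℝ) (g : Fin 4 → G) :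
    IsQ fun t => D2r r (lc B t) α τ g := by
  have h1 : IsQ fun t => dr2 r (pm g) (V1 (lc B t) α τ g) (V1 (lc B t) α τ g) := by
    refine ⟨fun a c => dr2 r (pm g) (V1 (B.X a) α τ g) (V1 (B.X c) α τ g), fun t => ?_⟩
    show dr2 r (pm g) (V1 (lc B t) α τ g) (V1 (lc B t) α τ g) = _
    rw [V1_lc]
    exact dr2_quad r (pm g) _ t
  have h2 : IsQ fun t => dr1 r (pm g) (V2b α τ g (lc B t) (lc B t)) :=
    IsQ_bil2 (V2b α τ g) (dr1 r (pm g)) (dr1_lin r (pm g)) B
  exact h1.add h2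

variable [NeZero L]

lemma S1r_lc (B : LieBasis G n) (r : Mt N → ℝ) (U : Links L → G) :
    IsL fun t => S1r r (lc B t) U := by
  refine ⟨fun a => S1r r (B.X a) U, fun t => ?_⟩
  show ∑ p : Pq L, D1r r (lc B t) (al L p.2.2) (ta p.2.1 p.2.2) (lg (fx U) p) = _
  have h1 : ∀ p : Pq L, D1r r (lc B t) (al L p.2.2) (ta p.2.1 p.2.2) (lg (fx U) p) =
      ∑ a, t a * D1r r (B.X a) (al L p.2.2) (ta p.2.1 p.2.2) (lg (fx U) p) := by
    intro p
    have h := (D1r_lc B r (al L p.2.2) (ta p.2.1 p.2.2) (lg (fx U) p)).rep t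
    simp only [lc_single] at h
    exact h
  simp only [h1]
  rw [Finset.sum_comm]
  refine Finset.sum_congr rfl fun a _ => ?_
  rw [← Finset.mul_sum]
  rfl

lemma S2r_lc (B : LieBasis G n) (r : Mt N → ℝ) (U : Links L → G) :
    IsQ fun t => S2r r (lc B t) U :=
  IsQ.sum _ fun p _ => D2r_lc B r (al L p.2.2) (ta p.2.1 p.2.2) (lg (fx U) p)

lemma S1R_lc (B : LieBasis G n) (r : Mt N → ℝ) (U : Links L → G) :
    IsL fun t => S1R r (lc B t) U := by
  obtain ⟨v, hv⟩ := S1_lc B U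
  obtain ⟨w, hw⟩ := S1r_lc B r U
  refine ⟨fun a => v a + w a, fun t => ?_⟩
  show S1 (lc B t) U + S1r r (lc B t) U = _
  beta_reduce at hv hw
  rw [hv t, hw t, ← Finset.sum_add_distrib]
  exact Finset.sum_congr rfl fun a _ => by ring

lemma S2R_lc (B : LieBasis G n) (r : Mt N → ℝ) (U : Links L → G) :
    IsQ fun t => S2R r (lc B t) U := (S2_lc B U).add (S2r_lc B r U)

/-- The coupling as a function of the field. -/
noncomputable def VTR [MeasurableSpace G] (μ : Measure G) (r : Mt N → ℝ) (L : ℕ) [NeZero L]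
    (β : ℝ) (T : Mt N) : ℝ :=
  β * ∫ U, S2R r T U ∂(PR μ r L β) -
      β ^ 2 * (∫ U, S1R r T U ^ 2 ∂(PR μ r L β) - (∫ U, S1R r T U ∂(PR μ r L β)) ^ 2)

lemma EXR_eq' [MeasurableSpace G] (μ : Measure G) (r : Mt N → ℝ) (β : ℝ)
    (F : (Links L → G) → ℝ) : EXR μ r β F = ∫ U, F U ∂(PR μ r L β) := by
  unfold EXR PR
  rw [integral_tilted, ← integral_div]
  refine integral_congr_ae (Filter.Eventually.of_forall fun U => ?_)
  simp only [smul_eq_mul]
  ring

lemma inv_eqR (hgauge : S_GAUGER) (hdiff : S_DIFFR) (hG : IsClosed (G : Set (UU N)))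
    [MeasurableSpace G] [BorelSpace G] (μ : Measure G) [IsProbabilityMeasure μ]
    [μ.IsHaarMeasure] (r : Mt N → ℝ) (hadm : Adm G r) (T : Mt N) (e : ℝ → G)
    (he : ∀ t, mt (e t) = NormedSpace.exp (t • T))
    (hL : 2 ≤ L) (β : ℝ) : invR μ r e L β = VTR μ r L β T := by
  unfold invR VTR
  have h1 : (fun ε => -Real.log (ZR μ r e L β ε)) = fun ε => -Real.log
      (∫ U : Links L → G, Real.exp (-(β * SgR r e ε U)) ∂(Measure.pi fun _ => μ)) := by
    funext ε
    rw [hgauge G hG μ r hadm T e he L hL β ε]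
  rw [h1, hdiff G hG μ r hadm T e he L β, EXR_eq', EXR_eq', EXR_eq']

lemma VTR_lc (hcont : S_CONTR) (hG : IsClosed (G : Set (UU N))) [MeasurableSpace G]
    [BorelSpace G] (μ : Measure G)
    [IsProbabilityMeasure μ] [μ.IsHaarMeasure] (r : Mt N → ℝ) (hadm : Adm G r)
    (B : LieBasis G n) (β : ℝ) :
    IsQ fun t => VTR μ r L β (lc B t) := by
  have : CompactSpace G := compactG hG
  have : SecondCountableTopology G := scG
  have c0 : Continuous (S0R (L := L) r : (Links L → G) → ℝ) := (hcont G hG r hadm B 0 L).1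
  have c1 : ∀ t, Continuous (S1R (L := L) r (lc B t) : (Links L → G) → ℝ) := fun t =>
    (hcont G hG r hadm B (lc B t) L).2.1
  have c2 : ∀ t, Continuous (S2R (L := L) r (lc B t) : (Links L → G) → ℝ) := fun t =>
    (hcont G hG r hadm B (lc B t) L).2.2.1
  have hexp : Integrable (fun U : Links L → G => Real.exp (-(β * S0R r U)))
      (Measure.pi fun _ => μ) :=
    (Real.continuous_exp.comp (continuous_const.mul c0).neg).integrable_of_hasCompactSupport
      (HasCompactSupport.of_compactSpace _)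
  have hprob : IsProbabilityMeasure (PR μ r L β) := isProbabilityMeasure_tilted hexp
  have i1 : ∀ t, Integrable (fun U : Links L → G => S1R r (lc B t) U) (PR μ r L β) := fun t =>
    (c1 t).integrable_of_hasCompactSupport (HasCompactSupport.of_compactSpace _)
  have i2 : ∀ t, Integrable (fun U : Links L → G => S2R r (lc B t) U) (PR μ r L β) := fun t =>
    (c2 t).integrable_of_hasCompactSupport (HasCompactSupport.of_compactSpace _)
  have i3 : ∀ t, Integrable (fun U : Links L → G => S1R r (lc B t) U ^ 2) (PR μ r L β) := fun t =>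
    ((c1 t).pow 2).integrable_of_hasCompactSupport (HasCompactSupport.of_compactSpace _)
  have q2 : IsQ fun t => ∫ U, S2R r (lc B t) U ∂(PR μ r L β) := IsQ.int i2 fun U => S2R_lc B r U
  have q1 : IsL fun t => ∫ U, S1R r (lc B t) U ∂(PR μ r L β) := IsL.int i1 fun U => S1R_lc B r U
  have q3 : IsQ fun t => ∫ U, S1R r (lc B t) U ^ 2 ∂(PR μ r L β) := by
    refine IsQ.int i3 fun U => ?_
    have := (S1R_lc B r U).mul (S1R_lc B r U)
    simpa [sq] using this
  have q4 : IsQ fun t => (∫ U, S1R r (lc B t) U ∂(PR μ r L β)) ^ 2 := by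
    have := q1.mul q1
    simpa [sq] using this
  exact (q2.smul β).sub ((q3.sub q4).smul (β ^ 2))

omit [NeZero L] in
lemma dr4_lc (B : LieBasis G n) (r : Mt N → ℝ) (hr : ContDiff ℝ ∞ r) :
    IsQ fun t => ∑ a, dr4 r 1 (lc B t) (lc B t) (B.X a) (B.X a) := by
  refine IsQ.sum _ fun a _ => ?_
  refine ⟨fun b c => dr4 r 1 (B.X b) (B.X c) (B.X a) (B.X a), fun t => ?_⟩
  have h1 : ∀ Y : Mt N, dr4 r 1 Y Y (B.X a) (B.X a) = dr4 r 1 (B.X a) (B.X a) Y Y := fun Y =>
    dr4_swap hr _ _ _ _ _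
  have h2 : ∀ b c, dr4 r 1 (B.X b) (B.X c) (B.X a) (B.X a) =
      dr4 r 1 (B.X a) (B.X a) (B.X b) (B.X c) := fun b c => dr4_swap hr _ _ _ _ _
  beta_reduce
  rw [h1]
  simp only [h2]
  exact dr2_quad (fun M => dr2 r M (B.X a) (B.X a)) 1 B.X t

theorem unifR_of (hgauge : S_GAUGER) (hdiff : S_DIFFR) (hcont : S_CONTR) {x : ℝ} {K : ℕ}
    (h : FIN1 x K) {N n : ℕ} (G : Subgroup (UU N)) (hG : IsClosed (G : Set (UU N)))
      [MeasurableSpace G] [BorelSpace G] (μ : Measure G) [IsProbabilityMeasure μ]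
      [μ.IsHaarMeasure] (r : Mt N → ℝ) (hadm : Adm G r) (B : LieBasis G n) :
      ∃ δ : ℕ → ℝ, Tendsto δ atTop (𝓝 0) ∧ ∀ (T : Mt N) (e : ℝ → G),
        (∀ t, mt (e t) = NormedSpace.exp (t • T)) → ∀ (L : ℕ) [NeZero L], 2 ≤ L → ∀ β : ℝ,
        (L : ℝ) ^ K ≤ β → |invR μ r e L β - (β * ‖T‖ ^ 2 -
          11 / (24 * Real.pi ^ 2) * kap B T * Real.log L +
          (1 / 2 * x + 1 / 16) * kap B T - 1 / 4 * ∑ a, ‖B.X a * T‖ ^ 2 +
          1 / 4 * ∑ a, dr4 r 1 T T (B.X a) (B.X a))| ≤ δ L * ‖T‖ ^ 2 := by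
  have h1 : ∀ a, ∃ δ : ℕ → ℝ, Tendsto δ atTop (𝓝 0) ∧ ∀ (L : ℕ) [NeZero L], 2 ≤ L → ∀ β : ℝ,
      (L : ℝ) ^ K ≤ β → |VTR μ r L β (B.X a) - (β * ‖B.X a‖ ^ 2 -
        11 / (24 * Real.pi ^ 2) * kap B (B.X a) * Real.log L +
        (1 / 2 * x + 1 / 16) * kap B (B.X a) - 1 / 4 * ∑ c, ‖B.X c * B.X a‖ ^ 2 +
        1 / 4 * ∑ c, dr4 r 1 (B.X a) (B.X a) (B.X c) (B.X c))| ≤ δ L := by
    intro a
    obtain ⟨δ, h2, h3⟩ := h G hG μ r hadm B (B.X a) (B.ex a) (B.ex_eq a)
    refine ⟨δ, h2, fun L _ hL β hβ => ?_⟩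
    rw [← inv_eqR hgauge hdiff hG μ r hadm (B.X a) (B.ex a) (B.ex_eq a) hL β]
    exact h3 L hL β hβ
  have h2 : ∀ a b, ∃ δ : ℕ → ℝ, Tendsto δ atTop (𝓝 0) ∧ ∀ (L : ℕ) [NeZero L], 2 ≤ L → ∀ β : ℝ,
      (L : ℝ) ^ K ≤ β → |VTR μ r L β (B.X a + B.X b) - (β * ‖B.X a + B.X b‖ ^ 2 -
        11 / (24 * Real.pi ^ 2) * kap B (B.X a + B.X b) * Real.log L +
        (1 / 2 * x + 1 / 16) * kap B (B.X a + B.X b) -
        1 / 4 * ∑ c, ‖B.X c * (B.X a + B.X b)‖ ^ 2 +
        1 / 4 * ∑ c, dr4 r 1 (B.X a + B.X b) (B.X a + B.X b) (B.X c) (B.X c))| ≤ δ L := by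
    intro a b
    obtain ⟨e, he⟩ := lie_mem hG B (Y := B.X a + B.X b)
      (Submodule.add_mem _ (Submodule.subset_span ⟨a, rfl⟩) (Submodule.subset_span ⟨b, rfl⟩))
    obtain ⟨δ, h2, h3⟩ := h G hG μ r hadm B (B.X a + B.X b) e he
    refine ⟨δ, h2, fun L _ hL β hβ => ?_⟩
    rw [← inv_eqR hgauge hdiff hG μ r hadm (B.X a + B.X b) e he hL β]
    exact h3 L hL β hβ
  choose δ1 ht1 hb1 using h1
  choose δ2 ht2 hb2 using h2
  set δ : ℕ → ℝ := fun L => (∑ a, |δ1 a L|) + ∑ a, ∑ b, |δ2 a b L| with hδ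
  have hδ0 : Tendsto δ atTop (𝓝 0) := by
    have e1 : Tendsto (fun L => ∑ a, |δ1 a L|) atTop (𝓝 (∑ a : Fin n, |(0 : ℝ)|)) :=
      tendsto_finsetSum _ fun a _ => (ht1 a).abs
    have e2 : Tendsto (fun L => ∑ a, ∑ b, |δ2 a b L|) atTop
        (𝓝 (∑ a : Fin n, ∑ b : Fin n, |(0 : ℝ)|)) :=
      tendsto_finsetSum _ fun a _ => tendsto_finsetSum _ fun b _ => (ht2 a b).abs
    have e3 := e1.add e2
    simpa using e3
  have hδ1 : ∀ a L, δ1 a L ≤ δ L := by
    intro a L
    have e1 : |δ1 a L| ≤ ∑ a, |δ1 a L| :=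
      Finset.single_le_sum (f := fun a => |δ1 a L|) (fun _ _ => abs_nonneg _) (Finset.mem_univ a)
    have e2 : 0 ≤ ∑ a, ∑ b, |δ2 a b L| :=
      Finset.sum_nonneg fun _ _ => Finset.sum_nonneg fun _ _ => abs_nonneg _
    have e3 := le_abs_self (δ1 a L)
    simp only [hδ]
    linarith
  have hδ2 : ∀ a b L, δ2 a b L ≤ δ L := by
    intro a b L
    have e1 : |δ2 a b L| ≤ ∑ b, |δ2 a b L| :=
      Finset.single_le_sum (f := fun b => |δ2 a b L|) (fun _ _ => abs_nonneg _)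
        (Finset.mem_univ b)
    have e4 : ∑ b, |δ2 a b L| ≤ ∑ a, ∑ b, |δ2 a b L| :=
      Finset.single_le_sum (f := fun a => ∑ b, |δ2 a b L|)
        (fun _ _ => Finset.sum_nonneg fun _ _ => abs_nonneg _) (Finset.mem_univ a)
    have e2 : 0 ≤ ∑ a, |δ1 a L| := Finset.sum_nonneg fun _ _ => abs_nonneg _
    have e3 := le_abs_self (δ2 a b L)
    simp only [hδ]
    linarith
  refine ⟨fun L => 2 * n * δ L, by simpa using hδ0.const_mul (2 * (n : ℝ)), ?_⟩
  intro T e he L _ hL β hβ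
  have hT : T ∈ Submodule.span ℝ (Set.range B.X) := T_mem B he
  rw [inv_eqR hgauge hdiff hG μ r hadm T e he hL β]
  set t : Fin n → ℝ := fun a => (trace ((B.X a)ᴴ * T)).re with htt
  have hTt : T = lc B t := expand B hT
  have hn : ‖T‖ ^ 2 = ∑ a, t a ^ 2 := frob_span B hT
  set q : (Fin n → ℝ) → ℝ := fun s => VTR μ r L β (lc B s) - (β * ‖lc B s‖ ^ 2 -
        11 / (24 * Real.pi ^ 2) * kap B (lc B s) * Real.log L +
        (1 / 2 * x + 1 / 16) * kap B (lc B s) -
        1 / 4 * ∑ c, ‖B.X c * lc B s‖ ^ 2 +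
        1 / 4 * ∑ c, dr4 r 1 (lc B s) (lc B s) (B.X c) (B.X c)) with hq
  have hQ : IsQ q := by
    have q1 := VTR_lc (L := L) hcont hG μ r hadm B β
    have q2 := norm_lc B (LinearMap.id : Mt N →ₗ[ℝ] Mt N)
    have q3 : IsQ fun s => kap B (lc B s) := by
      have : ∀ a, IsQ fun s => ‖lc B s * B.X a - B.X a * lc B s‖ ^ 2 := fun a =>
        norm_lc B ((LinearMap.mulRight ℝ (B.X a)) - LinearMap.mulLeft ℝ (B.X a))
      exact IsQ.sum _ fun a _ => this a
    have q4 : IsQ fun s => ∑ c, ‖B.X c * lc B s‖ ^ 2 :=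
      IsQ.sum _ fun a _ => norm_lc B (LinearMap.mulLeft ℝ (B.X a))
    have q6 := dr4_lc B r hadm.smooth
    have q5 := q1.sub (((((q2.smul β).sub (q3.smul (11 / (24 * Real.pi ^ 2) * Real.log L))).add
      (q3.smul (1 / 2 * x + 1 / 16))).sub (q4.smul (1 / 4))).add (q6.smul (1 / 4)))
    obtain ⟨m, hm⟩ := q5
    refine ⟨m, fun s => ?_⟩
    rw [← hm]
    simp only [hq, LinearMap.id_apply]
    ring
  have hfin := hQ.bound (δ := δ L) (by
    intro a
    simp only [hq, lc_single]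
    exact (hb1 a L hL β hβ).trans (hδ1 a L)) (by
    intro a b
    simp only [hq, lc_add, lc_single]
    exact (hb2 a b L hL β hβ).trans (hδ2 a b L)) t
  simp only [hq] at hfin
  rw [← hTt, ← hn] at hfin
  exact hfin

end Fin

theorem t_FINR : S_FINR := by
  intro K hcore hgauge hdiff hcont x hx hw N n G hG _ _ μ _ _ r hadm B
  exact Fin.unifR_of hgauge hdiff hcont (Fin.fin1_of hcore hx hw) G hG μ r hadm B

end Pool.Agent.H735U
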