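import Mathlib
import Pool.Agent.H735U.Stm
import Pool.Agent.Y781.AF.Gauge

/-
Project UNI (helper735, MP_7f377f_mp = Yang-Mills, weight 100): universality of asymptotic freedom, the lattice Yang-Mills theory with a
general plaquette energy s(g) = Re tr (1 - g) + r(g). It extends the starting result AsymptoticFreedom (Pool/Agent/Y16/AF/* and the job files
Pool/Agent/Y*/AF/*). Statements: Pool/Agent/H735U/{Gen,Defs,Stm,Stm2,Stm3}.lean on origin/main (copy the imported modules and everything they
import to the same paths; everything is on origin/main; `lake build <module>`).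
TARGET: prove the theorem below, statement unchanged, no sorry, no axioms. Put auxiliary lemmas before it, in the sub-namespace used here.
Paste the full file back as result. Please compile with `lake build` or with -DmaxHeartbeats=4000000 (the package option), not `lake env lean`
defaults. If the statement is false or unclear: status='problem' and say why, or message helper735.
REMARK on instances: for Mt N = Matrix (Fin N) (Fin N) C with the Frobenius norm, the Matrix topology and the topology of the norm are equal
by rfl, but not at reducible transparency, so e.g. `Norm (Mt N ->L[R] R)` and `NormedAddCommGroup (Mt N ->L[R] R)` are not found. Therefore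
derivatives are used through dr1, dr2, dr4 (Gen.lean, for a general normed space E; hasDerivAt_comp, hasDerivAt_dr1, contDiff_dr1, contDiff_dr2, dr2_comm, dr4_*).
Prove analytic facts for a general E and apply them to Mt N.

PROOF.
This is Pool.Agent.Y781.AF.af_gauge (file Pool/Agent/Y781/AF/Gauge.lean) with the energy Re tr (1 - g) replaced by en1 r g. The only property used there is that Re tr (1 - mt (a b)) = Re tr (1 - mt (b a)) (tr_cyc) and tr (1 - 1) = 0. Here en1 r (a * b) = en1 r (b * a) follows from Adm.cls (b a = b (a b) b^-1),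
and en1 r 1 = 0 from Adm.van (r 1 = 0: take M = 1 in the bound). Copy plaq_T, plaq_S, plaq_L, action_Psi, act_cont, af_gauge with this energy (it is best to prove them for a general continuous function s : G -> R with s (a b) = s (b a), s 1 = 0). SgR and actionR are in Pool/Agent/H735U/Defs.lean.
-/

set_option autoImplicit false
set_option linter.unusedVariables false

open MeasureTheory Matrix Filter
open scoped Matrix.Norms.Frobenius Topology ContDiff
open Pool.Agent.Y16.Gluon Pool.Agent.Y16.AF

namespace Pool.Agent.H735U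

namespace Gau


open Pool.Agent.Y781.AF

section alg

variable {N L : ℕ} {G : Subgroup (UU N)}

lemma s_congr (s : G → ℝ) {a b : G} (h : a = b) : s a = s b := by rw [h]

lemma plaq_T (s : G → ℝ) (hs : ∀ a b, s (a * b) = s (b * a)) (hL : 2 ≤ L) {T : Mt N} {e : ℝ → G}
    (he : ∀ t, mt (e t) = NormedSpace.exp (t • T)) (ε : ℝ) (V : Links L → G) (x : Sp L)
    (t : Fin L) (j : Fin 3) :
    s (tplaq e ε (Psi e ε V) t x j) =
      s (bg e (al L (.inl j) * ε) (ta t (.inl j) * ε)
        (lg (fx V) (x, t, .inl j))) := by
  obtain ⟨g0, g1, g2, g3⟩ := lgT V x t j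
  have ht := t.2
  have h1 : tplaq e ε (Psi e ε V) t x j =
      ((gam V t x)⁻¹ * (tv (fx V) t x * WW V (t + 1) x j)) *
      ((bf e L ε (t + 1) j * (tv (fx V) t (x + Pi.single j 1))⁻¹ * (bf e L ε t j)⁻¹ *
        (WW V t x j)⁻¹) * gam V t x) := by
    unfold tplaq
    rw [tv_Psi e ε V ht, tv_Psi e ε V ht, sv_Psi hL (e_zero he) ε V (by omega),
      sv_Psi hL (e_zero he) ε V (by omega)]
    group
  rw [h1, hs]
  refine s_congr s ?_
  unfold bg
  rw [g0, g1, g2, g3]
  have h2 : bf e L ε (t + 1) j = e (al L (.inl j) * ε) * e (ta t (.inl j) * ε) := by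
    unfold bf al ta
    by_cases hj : j = 0
    · subst hj
      rw [if_pos rfl, if_pos rfl, ← e_add he]
      simp only [if_true]
      congr 1
      push_cast
      ring
    · rw [if_neg hj, if_neg (fun h => hj (Sum.inl_injective h))]
      simp only [if_neg hj, zero_mul, e_zero he, mul_one]
  have h3 : bf e L ε t j = e (ta t (.inl j) * ε) := by
    unfold bf ta
    by_cases hj : j = 0
    · subst hj
      simp only [if_true]
      congr 1
      ring
    · simp only [if_neg hj, zero_mul, e_zero he]
  rw [h2, h3]
  group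

lemma plaq_S (s : G → ℝ) (hs : ∀ a b, s (a * b) = s (b * a)) (hL : 2 ≤ L) {T : Mt N} {e : ℝ → G}
    (he : ∀ t, mt (e t) = NormedSpace.exp (t • T)) (ε : ℝ) (V : Links L → G) (x : Sp L)
    (t : Fin L) (m : Fin 3) :
    s (splaq e ε (Psi e ε V) t x (pi1 m) (pi2 m)) =
      s (bg e (al L (.inr m) * ε) (ta t (.inr m) * ε)
        (lg (fx V) (x, t, .inr m))) := by
  obtain ⟨g0, g1, g2, g3⟩ := lgS V x t m
  have ht := t.2
  have hb : bf e L ε t (pi2 m) = 1 := by
    unfold bf
    rw [if_neg]
    fin_cases m <;> simp [pi2]
  have h1 : splaq e ε (Psi e ε V) t x (pi1 m) (pi2 m) =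
      ((gam V t x)⁻¹ * WW V t x (pi1 m)) *
      ((bf e L ε t (pi1 m) * WW V t (x + Pi.single (pi1 m) 1) (pi2 m) * (bf e L ε t (pi1 m))⁻¹ *
        (WW V t (x + Pi.single (pi2 m) 1) (pi1 m))⁻¹ * (WW V t x (pi2 m))⁻¹) * gam V t x) := by
    unfold splaq
    rw [sv_Psi hL (e_zero he) ε V (by omega), sv_Psi hL (e_zero he) ε V (by omega),
      sv_Psi hL (e_zero he) ε V (by omega), sv_Psi hL (e_zero he) ε V (by omega), hb,
      add_right_comm x (Pi.single (pi2 m) 1) (Pi.single (pi1 m) 1)]
    group
  rw [h1, hs]
  refine s_congr s ?_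
  unfold bg
  rw [g0, g1, g2, g3]
  have h2 : al L (.inr m) * ε = 0 := by
    unfold al
    rw [if_neg (by simp), zero_mul]
  have h3 : bf e L ε t (pi1 m) = e (ta t (.inr m) * ε) := by
    unfold bf ta
    by_cases hm : m = 2
    · subst hm
      have : pi1 2 ≠ 0 := by decide
      simp only [if_neg this, if_true, zero_mul, e_zero he]
    · have : pi1 m = 0 := by
        fin_cases m
        · rfl
        · rfl
        · exact absurd rfl hm
      simp only [if_neg hm, if_pos this]
      congr 1
      ring
  rw [h2, h3, e_zero he]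
  group

lemma plaq_L (s : G → ℝ) (hs1 : s 1 = 0) (hL : 2 ≤ L) (e : ℝ → G) (ε : ℝ) (U : Links L → G)
    (x : Sp L) {i j : Fin 3} (hij : i < j) : s (splaq e ε U L x i j) = 0 := by
  have h1 : ∀ y (k : Fin 3), sv e ε U L y k = if k = 0 then e (ε / L) else 1 := by
    intro y k
    unfold sv
    rw [dif_neg (by omega)]
    simp
  have hj : j ≠ 0 := by
    intro h
    subst h
    exact absurd hij (by simp)
  have h2 : splaq e ε U L x i j = 1 := by
    unfold splaq
    rw [h1, h1, h1, h1, if_neg hj]
    group
  rw [h2, hs1]

lemma action_Psi [NeZero L] (r : Mt N → ℝ)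
    (hs : ∀ a b : G, en1 r (a * b) = en1 r (b * a)) (hs1 : en1 r (1 : G) = 0)
    (hL : 2 ≤ L) {T : Mt N} {e : ℝ → G}
    (he : ∀ t, mt (e t) = NormedSpace.exp (t • T)) (ε : ℝ) (V : Links L → G) :
    actionR r e ε (Psi e ε V) = SgR r e ε V := by
  unfold actionR SgR
  rw [Fintype.sum_prod_type]
  refine Finset.sum_congr rfl fun x _ => ?_
  rw [Fintype.sum_prod_type, Finset.sum_range_succ]
  have h1 : (∑ i, ∑ j, if i < j then en1 r (splaq e ε (Psi e ε V) L x i j) else 0)
      = 0 := by
    refine Finset.sum_eq_zero fun i _ => Finset.sum_eq_zero fun j _ => ?_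
    split_ifs with h
    · exact plaq_L (en1 r) hs1 hL e ε _ x h
    · rfl
  rw [h1, add_zero, Finset.sum_range, Finset.sum_range, ← Finset.sum_add_distrib]
  refine Finset.sum_congr rfl fun t _ => ?_
  rw [Fintype.sum_sum_type, sum_pl]
  refine congrArg₂ (· + ·) ?_ ?_
  · exact Finset.sum_congr rfl fun j _ => plaq_T (en1 r) hs hL he ε V x t j
  · exact Finset.sum_congr rfl fun m _ => plaq_S (en1 r) hs hL he ε V x t m

end alg

section cont

variable {N L : ℕ} {G : Subgroup (UU N)}

lemma act_cont [NeZero L] (r : Mt N → ℝ) (hr : Continuous r) (e : ℝ → G) (ε : ℝ) :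
    Continuous (actionR (L := L) r e ε) := by
  have hm : ∀ {g : (Links L → G) → G}, Continuous g →
      Continuous fun U => en1 r (g U) := fun hg =>
    (Complex.continuous_re.comp (continuous_const.sub (mt_cont.comp hg)).matrix_trace).add
      (hr.comp (mt_cont.comp hg))
  have ht : ∀ t x j, Continuous fun U : Links L → G => tplaq e ε U t x j := fun t x j =>
    (((tv_cont t x).mul (sv_cont e ε _ x j)).mul (tv_cont t _).inv).mul (sv_cont e ε t x j).inv
  have hs : ∀ t x i j, Continuous fun U : Links L → G => splaq e ε U t x i j := fun t x i j =>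
    (((sv_cont e ε t x i).mul (sv_cont e ε _ _ j)).mul (sv_cont e ε t _ i).inv).mul
      (sv_cont e ε t x j).inv
  unfold actionR
  refine continuous_finsetSum _ fun x _ => Continuous.add ?_ ?_
  · exact continuous_finsetSum _ fun t _ => continuous_finsetSum _ fun j _ => hm (ht t x j)
  · refine continuous_finsetSum _ fun t _ => continuous_finsetSum _ fun i _ =>
      continuous_finsetSum _ fun j _ => ?_
    split_ifs
    · exact hm (hs t x i j)
    · exact continuous_const

lemma en1_cyc {r : Mt N → ℝ} (h : Adm G r) (a b : G) : en1 r (a * b) = en1 r (b * a) := by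
  unfold en1
  have h1 := h.cls (a * b) b
  have h2 : b * (a * b) * b⁻¹ = b * a := by group
  rw [h2] at h1
  rw [tr_cyc a b, h1]

lemma en1_one {r : Mt N → ℝ} (h : Adm G r) : en1 r (1 : G) = 0 := by
  unfold en1
  obtain ⟨C, δ, hδ, hC⟩ := h.van
  have h1 := hC 1 (by rw [sub_self, norm_zero]; exact hδ.le)
  rw [sub_self, norm_zero] at h1
  have h2 : r 1 = 0 := by
    apply abs_eq_zero.1
    apply le_antisymm _ (abs_nonneg _)
    simpa using h1
  rw [mt_one, sub_self, trace_zero, Complex.zero_re, h2, add_zero]

end cont

end Gau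

theorem t_GAUGER : S_GAUGER := by
  intro N G hG _ _ μ _ _ r hr T e he L _ hL β ε
  have : CompactSpace (UU N) := by
    have h1 : IsCompact (UU N : Set (Mt N)) := by
      have h2 : IsCompact (Set.pi Set.univ fun _ : Fin N => Set.pi Set.univ fun _ : Fin N =>
          Metric.closedBall (0 : ℂ) 1) :=
        isCompact_univ_pi fun _ => isCompact_univ_pi fun _ => isCompact_closedBall _ _
      refine IsCompact.of_isClosed_subset h2 ?_ ?_
      · have h3 : (UU N : Set (Mt N)) = {A | A * star A = 1} := by
          ext A
          exact Matrix.mem_unitaryGroup_iff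
        rw [h3]
        exact isClosed_eq (continuous_id.mul continuous_star) continuous_const
      · intro A hA i _ j _
        rw [mem_closedBall_zero_iff]
        exact entry_norm_bound_of_unitary hA i j
    exact isCompact_iff_compactSpace.1 h1
  have : SecondCountableTopology (Mt N) :=
    inferInstanceAs (SecondCountableTopology (Fin N → Fin N → ℂ))
  have : CompactSpace G := by
    have h1 : IsCompact (G : Set (UU N)) := hG.isCompact
    exact isCompact_iff_compactSpace.1 h1
  have h00 : SecondCountableTopology (UU N) := TopologicalSpace.Subtype.secondCountableTopology _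
  have : SecondCountableTopology G := TopologicalSpace.Subtype.secondCountableTopology _
  have : μ.IsMulRightInvariant := by
    refine ⟨fun g => ?_⟩
    have h1 : IsProbabilityMeasure (Measure.map (fun x => x * g) μ) :=
      Measure.isProbabilityMeasure_map (measurable_mul_const g).aemeasurable
    exact Measure.isHaarMeasure_eq_of_isProbabilityMeasure _ _
  have hF : Continuous fun U : Links L → G => Real.exp (-(β * actionR r e ε U)) :=
    Real.continuous_exp.comp
      (continuous_const.mul (Gau.act_cont r hr.smooth.continuous e ε)).neg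
  have key := Pool.Agent.W793.YM.integral_skew (E := Links L) μ (fun w => dyn w) hF
    (a := Pool.Agent.Y781.AF.ga) (b := Pool.Agent.Y781.AF.gb e ε) Pool.Agent.Y781.AF.ga_cont
    (Pool.Agent.Y781.AF.gb_cont e ε)
    (fun w V V' h => by
      have h' : ∀ w, ¬dyn w → V w = V' w := h
      obtain ⟨x, t | s⟩ := w
      · show (Pool.Agent.Y781.AF.gam V t x)⁻¹ = (Pool.Agent.Y781.AF.gam V' t x)⁻¹
        rw [Pool.Agent.Y781.AF.gam_dep h']
      · show (Pool.Agent.Y781.AF.gam V (s.1 + 1) x)⁻¹ = (Pool.Agent.Y781.AF.gam V' (s.1 + 1) x)⁻¹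
        rw [Pool.Agent.Y781.AF.gam_dep h'])
    (fun w V V' h => by
      have h' : ∀ w, ¬dyn w → V w = V' w := h
      obtain ⟨x, t | s⟩ := w
      · rfl
      · show Pool.Agent.Y781.AF.bf e L ε (s.1 + 1) s.2 *
            Pool.Agent.Y781.AF.gam V (s.1 + 1) (x + Pi.single s.2 1) =
          Pool.Agent.Y781.AF.bf e L ε (s.1 + 1) s.2 *
            Pool.Agent.Y781.AF.gam V' (s.1 + 1) (x + Pi.single s.2 1)
        rw [Pool.Agent.Y781.AF.gam_dep h'])
  unfold ZR
  refine key.symm.trans ?_
  refine integral_congr_ae (Filter.Eventually.of_forall fun V => ?_)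
  show Real.exp (-(β * actionR r e ε (Pool.Agent.Y781.AF.Psi e ε V))) =
    Real.exp (-(β * SgR r e ε V))
  rw [Gau.action_Psi r (Gau.en1_cyc hr) (Gau.en1_one hr) hL he]

end Pool.Agent.H735U
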