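import Mathlib
import Pool.Agent.H735U.Stm
import Pool.Agent.Y929.AF.Ibp

/-
Project UNI (helper735, MP_7f377f_mp = Yang-Mills, weight 100): universality of asymptotic freedom, the lattice Yang-Mills theory with a
general plaquette energy s(g) = Re tr (1 - g) + r(g). It extends the starting result AsymptoticFreedom (Pool/Agent/Y16/AF/* and the job files
Pool/Agent/Y*/AF/*). Statements: Pool/Agent/H735U/{Gen,Defs,Stm,Stm2,Stm3}.lean on origin/main (copy the imported modules and everything they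
import to the same paths; everything is on origin/main; `lake build <module>`).
TARGET: prove the theorem below, statement unchanged, no sorry, no axioms. Put auxiliary lemmas before it, in the sub-namespace used here.
Paste the full file back as result. Please compile with `lake build` or with -DmaxHeartbeats=4000000 (the package option), not `lake env lean`
defaults. If the statement is false or unclear: status='problem' and say why, or message helper735.
REMARK on instances: for Mt N = Matrix (Fin N) (Fin N) C with the Frobenius norm, the Matrix topology and the topology of the norm are equal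
by rfl, but not at reducible transparency, so e.g. `Norm (Mt N ->L[R] R)` and `NormedAddCommGroup (Mt N ->L[R] R)` are not found. Therefore
derivatives are used through dr1, dr2, dr4 (Gen.lean, for a general normed space E; hasDerivAt_comp, hasDerivAt_dr1, contDiff_dr1, contDiff_dr2, dr2_comm, dr4_*).
Prove analytic facts for a general E and apply them to Mt N.

PROOF.
This is Pool.Agent.Y929.AF.af_ibp (file Pool/Agent/Y929/AF/Ibp.lean) with the action S0R r = S0 + S0r r and GSR = GS + GSr. YM.Sm is the algebra of the functions f (mat U) with f smooth; S0r r is in it since r is smooth and the plaquette is a smooth (polynomial) function of the matrices of the links (sm_plaq; write the matrix valued function as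
f_p(mat U) with f_p smooth, then r o f_p; if the smoothness class in YM.Sm is an `∞`, ContDiff.comp). hd_S0r: the derivative of r (plaquette) along the shift is dr1 r (plaquette) (derivative of the plaquette) by hasDerivAt_comp in Pool/Agent/H735U/Gen.lean, the derivative of the product of the four legs is a sum over the legs (as in hd_tr4, hd_plaq, before taking
the trace) and dr1 is linear (dr1_add). Then bz, Dv_bz, ibp, af_ibp with S0R, GSR, EXR.
-/

set_option autoImplicit false
set_option linter.unusedVariables false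

open MeasureTheory Matrix Filter
open scoped Matrix.Norms.Frobenius Topology ContDiff
open Pool.Agent.Y16.Gluon Pool.Agent.Y16.AF

namespace Pool.Agent.H735U

namespace Ibp

open Pool.Agent.Y929.AF Pool.Agent.H906R3

set_option linter.unusedSectionVars false

noncomputable section

variable {N n L : ℕ} {G : Subgroup (UU N)} [NeZero L]

lemma sm_pm (B : LieBasis G n) (p : Pq L) :
    YM.SmM (dat B) (fun U : Links L → G => pm (lg (fx U) p)) :=
  (((sm_leg B p 0).mul (sm_leg B p 1)).mul (sm_leg B p 2)).mul (sm_leg B p 3)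

lemma hd4 (f0 f1 f2 f3 : ℝ → Mt N) (d0 d1 d2 d3 : Mt N) (h0 : HasDerivAt f0 d0 0)
    (h1 : HasDerivAt f1 d1 0) (h2 : HasDerivAt f2 d2 0) (h3 : HasDerivAt f3 d3 0) :
    HasDerivAt (fun t => f0 t * f1 t * f2 t * f3 t)
      (d0 * f1 0 * f2 0 * f3 0 + f0 0 * d1 * f2 0 * f3 0 + f0 0 * f1 0 * d2 * f3 0 +
        f0 0 * f1 0 * f2 0 * d3) 0 := by
  refine (((h0.fun_mul h1).fun_mul h2).fun_mul h3).congr_deriv ?_
  simp only [add_mul]

lemma dr1_zero' (r : Mt N → ℝ) (M : Mt N) : dr1 r M 0 = 0 := by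
  have h := dr1_smul (r := r) M 0 0
  rwa [zero_smul, zero_mul] at h

lemma hd_plaqr (B : LieBasis G n) (r : Mt N → ℝ) (hr : ContDiff ℝ ∞ r) (U : Links L → G)
    (i : Dy L × Fin n) (p : Pq L) :
    HasDerivAt (fun t => r (pm (lg (fx ((dat B).shift i.1.1 i.2 t U)) p)))
      (∑ l : Fin 4,
        if lv p.2.1 p.2.2 l = some i.1.1.2 ∧ p.1 + ls p.2.2 l = i.1.1.1 then
          dr1 r (pm (lg (fx U) p))
            ((if l = 0 then dl B U p 0 i.2 else mt (lg (fx U) p 0)) *
            (if l = 1 then dl B U p 1 i.2 else mt (lg (fx U) p 1)) *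
            (if l = 2 then dl B U p 2 i.2 else mt (lg (fx U) p 2)) *
            (if l = 3 then dl B U p 3 i.2 else mt (lg (fx U) p 3)))
        else 0) 0 := by
  classical
  have hm := hd4 _ _ _ _ _ _ _ _ (hd_leg B U i.1 i.2 p 0) (hd_leg B U i.1 i.2 p 1)
    (hd_leg B U i.1 i.2 p 2) (hd_leg B U i.1 i.2 p 3)
  have h1 := hasDerivAt_comp hr hm
  have hz : (dat B).shift i.1.1 i.2 0 U = U := YM.LD.shift_zero _ _ _ _
  refine h1.congr_deriv ?_
  rw [hz, Fin.sum_univ_four, dr1_add, dr1_add, dr1_add]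
  have e : ∀ l : Fin 4, (lv p.2.1 p.2.2 l = some i.1.1.2 ∧ p.1 + ls p.2.2 l = i.1.1.1) =
      hit p l i.1 := fun l => rfl
  simp only [e]
  have ep : mt (lg (fx U) p 0) * mt (lg (fx U) p 1) * mt (lg (fx U) p 2) * mt (lg (fx U) p 3) =
      pm (lg (fx U) p) := rfl
  rw [ep]
  refine congrArg₂ _ (congrArg₂ _ (congrArg₂ _ ?_ ?_) ?_) ?_
  · by_cases c : hit p 0 i.1
    · simp [c]
    · simp [c, dr1_zero']
  · by_cases c : hit p 1 i.1
    · simp [c]
    · simp [c, dr1_zero']
  · by_cases c : hit p 2 i.1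
    · simp [c]
    · simp [c, dr1_zero']
  · by_cases c : hit p 3 i.1
    · simp [c]
    · simp [c, dr1_zero']

lemma hd_S0r (B : LieBasis G n) (r : Mt N → ℝ) (hr : ContDiff ℝ ∞ r) (U : Links L → G)
    (i : Dy L × Fin n) :
    HasDerivAt (fun t => S0r r ((dat B).shift i.1.1 i.2 t U)) (GSr B r U i) 0 := by
  unfold S0r GSr
  exact HasDerivAt.fun_sum fun p _ => hd_plaqr B r hr U i p

lemma hd_S0R (B : LieBasis G n) (r : Mt N → ℝ) (hr : ContDiff ℝ ∞ r) (U : Links L → G)
    (i : Dy L × Fin n) :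
    HasDerivAt (fun t => S0R r ((dat B).shift i.1.1 i.2 t U)) (GSR B r U i) 0 :=
  (hd_S0 B U i).fun_add (hd_S0r B r hr U i)

lemma S0r_mem (B : LieBasis G n) (r : Mt N → ℝ) (hr : ContDiff ℝ ∞ r) :
    (S0r r : (Links L → G) → ℝ) ∈ YM.Sm (dat B) (Links L) := by
  have h : (S0r r : (Links L → G) → ℝ) =
      ∑ p : Pq L, (fun U : Links L → G => r (pm (lg (fx U) p))) := by
    funext U
    rw [Finset.sum_apply]
    rfl
  rw [h]
  refine Subalgebra.sum_mem _ fun p _ => ?_
  obtain ⟨f, hf, h⟩ := sm_pm B p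
  exact ⟨fun M => r (f M), hr.comp hf, fun U => by simp only [h]⟩

lemma S0R_mem (B : LieBasis G n) (r : Mt N → ℝ) (hr : ContDiff ℝ ∞ r) :
    (S0R r : (Links L → G) → ℝ) ∈ YM.Sm (dat B) (Links L) :=
  Subalgebra.add_mem _ (S0_mem B) (S0r_mem B r hr)

lemma expR_mem (B : LieBasis G n) (r : Mt N → ℝ) (hr : ContDiff ℝ ∞ r) (β : ℝ) :
    (fun U : Links L → G => Real.exp (-(β * S0R r U))) ∈ YM.Sm (dat B) (Links L) := by
  obtain ⟨f, hf, h⟩ := S0R_mem (L := L) B r hr
  refine ⟨fun M => Real.exp (-(β * f M)), ?_, fun U => by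
    show Real.exp (-(β * S0R r U)) = Real.exp (-(β * f ((dat B).mat U)))
    rw [h U]⟩
  exact Real.contDiff_exp.comp (contDiff_const.mul hf).neg

/-- the Boltzmann factor -/
def bzR (B : LieBasis G n) (r : Mt N → ℝ) (hr : ContDiff ℝ ∞ r) (L : ℕ) [NeZero L] (β : ℝ) :
    YM.Sm (dat B) (Links L) :=
  ⟨_, expR_mem B r hr β⟩

lemma bzR_apply (B : LieBasis G n) (r : Mt N → ℝ) (hr : ContDiff ℝ ∞ r) (β : ℝ)
    (U : Links L → G) : (bzR B r hr L β).1 U = Real.exp (-(β * S0R r U)) := rfl

lemma Dv_bzR (B : LieBasis G n) (r : Mt N → ℝ) (hr : ContDiff ℝ ∞ r) (β : ℝ)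
    (i : Dy L × Fin n) (U : Links L → G) :
    ((dat B).Dv (i.1.1, i.2) (bzR B r hr L β)).1 U =
      -(β * GSR B r U i) * Real.exp (-(β * S0R r U)) := by
  rw [YM.Dv_apply]
  unfold YM.LD.dF
  have h1 := (((hd_S0R B r hr U i).const_mul β).fun_neg).exp
  have hz : (dat B).shift i.1.1 i.2 0 U = U := YM.LD.shift_zero _ _ _ _
  have h2 := h1.deriv
  refine h2.trans ?_
  rw [hz]
  ring

variable [CompactSpace G] [SecondCountableTopology G] [MeasurableSpace G] [BorelSpace G]
  (μ : Measure G) [IsProbabilityMeasure μ] [μ.IsHaarMeasure]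

lemma ibpR (B : LieBasis G n) (r : Mt N → ℝ) (hr : ContDiff ℝ ∞ r) (β : ℝ) (i : Dy L × Fin n)
    (P : YM.Sm (dat B) (Links L))
    (dP : (Links L → G) → ℝ) (hP : ∀ U, ((dat B).Dv (i.1.1, i.2) P).1 U = dP U) :
    EXR μ r β dP = β * EXR μ r β (fun U => P.1 U * GSR B r U i) := by
  have h0 := YM.I_D_zero (L := dat B) μ (i.1.1, i.2) (P * bzR B r hr L β)
  rw [Derivation.leibniz, map_add, smul_eq_mul, smul_eq_mul, YM.I_apply, YM.I_apply] at h0
  have e1 : ∀ U, (P * (dat B).Dv (i.1.1, i.2) (bzR B r hr L β)).1 U =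
      -β * (P.1 U * GSR B r U i * Real.exp (-(β * S0R r U))) := by
    intro U
    have : (P * (dat B).Dv (i.1.1, i.2) (bzR B r hr L β)).1 U =
      P.1 U * ((dat B).Dv (i.1.1, i.2) (bzR B r hr L β)).1 U := rfl
    rw [this, Dv_bzR]
    ring
  have e2 : ∀ U, (bzR B r hr L β * (dat B).Dv (i.1.1, i.2) P).1 U =
      dP U * Real.exp (-(β * S0R r U)) := by
    intro U
    have : (bzR B r hr L β * (dat B).Dv (i.1.1, i.2) P).1 U =
      (bzR B r hr L β).1 U * ((dat B).Dv (i.1.1, i.2) P).1 U := rfl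
    rw [this, hP, bzR_apply]
    ring
  simp only [e1, e2] at h0
  rw [integral_const_mul] at h0
  unfold EXR
  have h3 : ∫ U : Links L → G, dP U * Real.exp (-(β * S0R r U)) ∂(Measure.pi fun _ => μ) =
      β * ∫ U : Links L → G, P.1 U * GSR B r U i * Real.exp (-(β * S0R r U))
        ∂(Measure.pi fun _ => μ) := by
    linarith
  rw [h3, mul_div_assoc]

end

end Ibp

theorem t_IBPR : S_IBPR := by
  intro N n G hG _ _ μ _ _ r hr B L _ hL β
  have hc : CompactSpace G := by
    have h1 : IsCompact (G : Set (UU N)) := hG.isCompact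
    exact isCompact_iff_compactSpace.1 h1
  have h00 : SecondCountableTopology (UU N) := TopologicalSpace.Subtype.secondCountableTopology _
  have hs : SecondCountableTopology G := TopologicalSpace.Subtype.secondCountableTopology _
  refine ⟨fun i j => ?_, fun i j k l => ?_⟩
  · exact Ibp.ibpR μ B r hr.smooth β i (Pool.Agent.Y929.AF.cS B j) _
      (fun U => Pool.Agent.Y929.AF.Dv_cS B i j U)
  · refine Ibp.ibpR μ B r hr.smooth β i (Pool.Agent.Y929.AF.cS B j * Pool.Agent.Y929.AF.cS B k *
      Pool.Agent.Y929.AF.cS B l) _ (fun U => ?_)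
    rw [Derivation.leibniz, Derivation.leibniz]
    have e : (((Pool.Agent.Y929.AF.cS B j * Pool.Agent.Y929.AF.cS B k) •
          (Pool.Agent.Y929.AF.dat B).Dv (i.1.1, i.2) (Pool.Agent.Y929.AF.cS B l) +
        Pool.Agent.Y929.AF.cS B l • (Pool.Agent.Y929.AF.cS B j •
            (Pool.Agent.Y929.AF.dat B).Dv (i.1.1, i.2) (Pool.Agent.Y929.AF.cS B k) +
          Pool.Agent.Y929.AF.cS B k •
            (Pool.Agent.Y929.AF.dat B).Dv (i.1.1, i.2) (Pool.Agent.Y929.AF.cS B j))) :
          Pool.Agent.H906R3.YM.Sm (Pool.Agent.Y929.AF.dat B) (Links L)).1 U =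
        (Pool.Agent.Y929.AF.cS B j).1 U * (Pool.Agent.Y929.AF.cS B k).1 U *
          ((Pool.Agent.Y929.AF.dat B).Dv (i.1.1, i.2) (Pool.Agent.Y929.AF.cS B l)).1 U +
        (Pool.Agent.Y929.AF.cS B l).1 U * ((Pool.Agent.Y929.AF.cS B j).1 U *
          ((Pool.Agent.Y929.AF.dat B).Dv (i.1.1, i.2) (Pool.Agent.Y929.AF.cS B k)).1 U +
          (Pool.Agent.Y929.AF.cS B k).1 U *
            ((Pool.Agent.Y929.AF.dat B).Dv (i.1.1, i.2) (Pool.Agent.Y929.AF.cS B j)).1 U) := rfl
    rw [e, Pool.Agent.Y929.AF.Dv_cS, Pool.Agent.Y929.AF.Dv_cS, Pool.Agent.Y929.AF.Dv_cS,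
      Pool.Agent.Y929.AF.cS_apply, Pool.Agent.Y929.AF.cS_apply, Pool.Agent.Y929.AF.cS_apply]
    ring

end Pool.Agent.H735U
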