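import Mathlib
import Pool.Agent.H735U.Stm2
import Pool.Agent.TH618.YM.Cartan
import Pool.Agent.Y16.AF.Prob2

set_option autoImplicit false
set_option linter.unusedVariables false

open MeasureTheory Matrix Filter
open scoped Matrix.Norms.Frobenius Topology ContDiff
open Pool.Agent.Y16.Gluon Pool.Agent.Y16.AF

namespace Pool.Agent.H735U

namespace Inv

section gen

variable {E : Type*} [NormedAddCommGroup E] [NormedSpace ℝ E] [FiniteDimensional ℝ E]

theorem bil_deriv (b : E →ₗ[ℝ] E →ₗ[ℝ] ℝ) {γ : ℝ → E} {v : E} {t : ℝ} (h : HasDerivAt γ v t) :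
    HasDerivAt (fun s => b (γ s) (γ s)) (b v (γ t) + b (γ t) v) t := by
  let B : E →L[ℝ] (E →L[ℝ] ℝ) :=
    LinearMap.toContinuousLinearMap
      ((LinearMap.toContinuousLinearMap (𝕜 := ℝ) (E := E) (F' := ℝ)).toLinearMap ∘ₗ b)
  have hB : ∀ x y, B x y = b x y := fun x y => rfl
  have h1 : HasDerivAt (fun s => B (γ s)) (B v) t := B.hasFDerivAt.comp_hasDerivAt t h
  have h2 := h1.clm_apply h
  exact h2

end gen

section alg

variable {𝔸 : Type*} [NormedRing 𝔸] [NormedAlgebra ℝ 𝔸] [FiniteDimensional ℝ 𝔸]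

theorem exp_mul_exp_neg (Z : 𝔸) (t : ℝ) :
    NormedSpace.exp (t • Z) * NormedSpace.exp ((-t) • Z) = 1 := by
  have : CompleteSpace 𝔸 := FiniteDimensional.complete ℝ 𝔸
  let _ : NormedAlgebra ℚ 𝔸 := NormedAlgebra.restrictScalars ℚ ℝ 𝔸
  rw [← NormedSpace.exp_add_of_commute]
  · rw [← add_smul, add_neg_cancel, zero_smul, NormedSpace.exp_zero]
  · exact (Commute.refl Z).smul_left _ |>.smul_right _

theorem conj_deriv (Z T : 𝔸) :
    HasDerivAt (fun t : ℝ => NormedSpace.exp (t • Z) * T * NormedSpace.exp ((-t) • Z))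
      (Z * T - T * Z) 0 := by
  have : CompleteSpace 𝔸 := FiniteDimensional.complete ℝ 𝔸
  have h1 : HasDerivAt (fun t : ℝ => NormedSpace.exp (t • Z)) Z 0 := by
    have := hasDerivAt_exp_smul_const Z (0 : ℝ)
    simpa using this
  have h2 : HasDerivAt (fun t : ℝ => NormedSpace.exp ((-t) • Z)) (-Z) 0 := by
    have h3 := hasDerivAt_exp_smul_const (-Z) (0 : ℝ)
    simp only [smul_neg, zero_smul, neg_zero, NormedSpace.exp_zero, one_mul] at h3
    simpa only [neg_smul] using h3
  have h4 : HasDerivAt (fun t : ℝ => NormedSpace.exp (t • Z) * T * NormedSpace.exp ((-t) • Z))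
    _ 0 := (h1.mul_const T).mul h2
  convert h4 using 1
  simp [sub_eq_add_neg]

theorem inv_deriv (b : 𝔸 →ₗ[ℝ] 𝔸 →ₗ[ℝ] ℝ) (Z T : 𝔸)
    (h : ∀ t : ℝ, b (NormedSpace.exp (t • Z) * T * NormedSpace.exp ((-t) • Z))
      (NormedSpace.exp (t • Z) * T * NormedSpace.exp ((-t) • Z)) = b T T) :
    b (Z * T - T * Z) T + b T (Z * T - T * Z) = 0 := by
  have h1 := bil_deriv b (conj_deriv Z T)
  simp only [h] at h1
  have h2 := h1.unique (hasDerivAt_const (0 : ℝ) (b T T))
  simpa using h2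

end alg

noncomputable section

variable {N n : ℕ} {G : Subgroup (UU N)}

/-- the coefficients with respect to the basis -/
def cf (B : LieBasis G n) : Mt N →ₗ[ℝ] (Fin n → ℝ) where
  toFun Y := fun a => (trace ((B.X a)ᴴ * Y)).re
  map_add' x y := by
    funext a
    simp [Matrix.mul_add]
  map_smul' c x := by
    funext a
    simp

lemma cf_apply (B : LieBasis G n) (Y : Mt N) (a : Fin n) :
    cf B Y a = (trace ((B.X a)ᴴ * Y)).re := rfl

lemma cf_X (B : LieBasis G n) (a : Fin n) : cf B (B.X a) = Pi.single a 1 := by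
  funext b
  rw [cf_apply, B.orth, Pi.single_apply]

/-- the matrix of `[X d, ·]` (row vectors) -/
def A (B : LieBasis G n) (d : Fin n) : Matrix (Fin n) (Fin n) ℝ :=
  Matrix.of fun b c => cf B (B.X d * B.X b - B.X b * B.X d) c

lemma A_apply (B : LieBasis G n) (d b c : Fin n) :
    A B d b c = cf B (B.X d * B.X b - B.X b * B.X d) c := rfl

lemma A_anti (B : LieBasis G n) (d b c : Fin n) : A B d b c = -A B d c b := by
  rw [A_apply, A_apply, cf_apply, cf_apply, skX, skX, ← Complex.neg_re]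
  congr 1
  have h1 : trace (B.X c * B.X d * B.X b) = trace (B.X b * B.X c * B.X d) :=
    Matrix.trace_mul_cycle _ _ _
  have h2 : trace (B.X c * B.X b * B.X d) = trace (B.X b * B.X d * B.X c) := by
    rw [Matrix.trace_mul_cycle, Matrix.trace_mul_cycle]
  simp only [neg_mul, Matrix.mul_sub, ← mul_assoc, Matrix.trace_neg, Matrix.trace_sub]
  rw [h1, h2]
  ring

lemma bm (B : LieBasis G n) (d b : Fin n) :
    B.X d * B.X b - B.X b * B.X d ∈ Submodule.span ℝ (Set.range B.X) := (fr B).brk_mem d b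

lemma brk_eq (B : LieBasis G n) (d b : Fin n) :
    B.X d * B.X b - B.X b * B.X d = ∑ c, A B d b c • B.X c := expand B (bm B d b)

lemma cf_brk (B : LieBasis G n) (d : Fin n) {Y : Mt N}
    (hY : Y ∈ Submodule.span ℝ (Set.range B.X)) (e : Fin n) :
    cf B (B.X d * Y - Y * B.X d) e = ∑ b, cf B Y b * A B d b e := by
  have h : B.X d * Y - Y * B.X d = ∑ b, cf B Y b • (B.X d * B.X b - B.X b * B.X d) := by
    conv_lhs => rw [expand B hY]
    rw [Finset.mul_sum, Finset.sum_mul, ← Finset.sum_sub_distrib]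
    refine Finset.sum_congr rfl fun b _ => ?_
    rw [mul_smul_comm, smul_mul_assoc, smul_sub]
    rfl
  rw [h, map_sum, Finset.sum_apply]
  refine Finset.sum_congr rfl fun b _ => ?_
  rw [map_smul]
  rfl

lemma cf_comb (B : LieBasis G n) (v : Fin n → ℝ) : cf B (∑ a, v a • B.X a) = v := by
  rw [map_sum]
  funext b
  simp only [map_smul, cf_X, Finset.sum_apply, Pi.smul_apply, Pi.single_apply, smul_eq_mul]
  simp

lemma lie_iff {G : Subgroup (UU N)} (hG : IsClosed (G : Set (UU N)))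
    (B : LieBasis G n) (Y : Mt N) : IsLie G Y ↔ Y ∈ Submodule.span ℝ (Set.range B.X) := by
  refine ⟨B.full Y, fun hY => ?_⟩
  exact Pool.Agent.Y274.YMTan.lie_span hG B.X (fun a t => ⟨B.ex a t, B.ex_eq a t⟩) Y hY

lemma exists_lieBasis {G : Subgroup (UU N)} (hG : IsClosed (G : Set (UU N))) :
    ∃ n, Nonempty (LieBasis G n) := by
  obtain ⟨n, ⟨F⟩⟩ := Pool.Agent.TH618.YM.exists_frame hG
  exact ⟨n, ⟨⟨F.X, F.ex, F.ex_eq, F.orth, F.full⟩⟩⟩

/-- the infinitesimal invariance -/
lemma inf_inv (b : Mt N →ₗ[ℝ] Mt N →ₗ[ℝ] ℝ)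
    (hb : ∀ h : G, ∀ T, IsLie G T → b (mt h * T * mt h⁻¹) (mt h * T * mt h⁻¹) = b T T)
    {Z T : Mt N} (hZ : IsLie G Z) (hT : IsLie G T) :
    b (Z * T - T * Z) T + b T (Z * T - T * Z) = 0 := by
  refine inv_deriv b Z T fun t => ?_
  obtain ⟨g, hg⟩ := hZ t
  have h1 : mt g⁻¹ = NormedSpace.exp ((-t) • Z) := by
    have h2 : mt g⁻¹ * mt g = (1 : Mt N) := by
      have h3 : ((g⁻¹ * g : G) : UU N) = 1 := by simp
      have h4 : (((g⁻¹ * g : G) : UU N) : Mt N) = 1 := by rw [h3]; rfl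
      exact h4
    have h5 : mt g * NormedSpace.exp ((-t) • Z) = 1 := by
      rw [hg]
      exact exp_mul_exp_neg Z t
    exact left_inv_eq_right_inv h2 h5
  have h6 := hb g T hT
  rw [h1, hg] at h6
  exact h6

/-- the symmetric matrix of the form -/
def S (b : Mt N →ₗ[ℝ] Mt N →ₗ[ℝ] ℝ) (B : LieBasis G n) : Matrix (Fin n) (Fin n) ℝ :=
  Matrix.of fun a e => (b (B.X a) (B.X e) + b (B.X e) (B.X a)) / 2

lemma S_apply (b : Mt N →ₗ[ℝ] Mt N →ₗ[ℝ] ℝ) (B : LieBasis G n) (a e : Fin n) :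
    S b B a e = (b (B.X a) (B.X e) + b (B.X e) (B.X a)) / 2 := rfl

lemma S_symm (b : Mt N →ₗ[ℝ] Mt N →ₗ[ℝ] ℝ) (B : LieBasis G n) (a e : Fin n) :
    S b B a e = S b B e a := by
  rw [S_apply, S_apply, add_comm]

lemma lieX (B : LieBasis G n) (a : Fin n) : IsLie G (B.X a) := fun t => ⟨B.ex a t, B.ex_eq a t⟩

lemma q_eq (b : Mt N →ₗ[ℝ] Mt N →ₗ[ℝ] ℝ) (B : LieBasis G n) {T : Mt N}
    (hT : T ∈ Submodule.span ℝ (Set.range B.X)) :
    b T T = ∑ a, ∑ e, cf B T a * cf B T e * S b B a e := by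
  have h1 : b T T = ∑ a, ∑ e, cf B T a * cf B T e * b (B.X a) (B.X e) := by
    have h2 : T = ∑ a, cf B T a • B.X a := expand B hT
    have h3 : b T T = b (∑ a, cf B T a • B.X a) (∑ a, cf B T a • B.X a) := by rw [← h2]
    rw [h3]
    simp only [map_sum, map_smul, LinearMap.sum_apply, LinearMap.smul_apply, smul_eq_mul]
    rw [Finset.sum_comm]
    refine Finset.sum_congr rfl fun a _ => ?_
    rw [Finset.mul_sum]
    refine Finset.sum_congr rfl fun e _ => ?_
    ring
  have h4 : b T T = ∑ a, ∑ e, cf B T a * cf B T e * b (B.X e) (B.X a) := by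
    rw [h1, Finset.sum_comm]
    refine Finset.sum_congr rfl fun a _ => Finset.sum_congr rfl fun e _ => ?_
    ring
  have h5 : b T T = (b T T + b T T) / 2 := by ring
  rw [h5]
  conv_lhs =>
    lhs
    lhs
    rw [h1]
  conv_lhs =>
    lhs
    rhs
    rw [h4]
  rw [← Finset.sum_add_distrib, Finset.sum_div]
  refine Finset.sum_congr rfl fun a _ => ?_
  rw [← Finset.sum_add_distrib, Finset.sum_div]
  refine Finset.sum_congr rfl fun e _ => ?_
  rw [S_apply]
  ring

lemma S_comm (b : Mt N →ₗ[ℝ] Mt N →ₗ[ℝ] ℝ) (hG : IsClosed (G : Set (UU N)))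
    (hb : ∀ h : G, ∀ T, IsLie G T → b (mt h * T * mt h⁻¹) (mt h * T * mt h⁻¹) = b T T)
    (B : LieBasis G n) (d : Fin n) : A B d * S b B = S b B * A B d := by
  -- polarization
  have hpol : ∀ a e, b (B.X d * B.X a - B.X a * B.X d) (B.X e) +
      b (B.X e) (B.X d * B.X a - B.X a * B.X d) +
      (b (B.X d * B.X e - B.X e * B.X d) (B.X a) +
      b (B.X a) (B.X d * B.X e - B.X e * B.X d)) = 0 := by
    intro a e
    have h1 := inf_inv b hb (lieX B d) (lieX B a)
    have h2 := inf_inv b hb (lieX B d) (lieX B e)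
    have hs : IsLie G (B.X a + B.X e) := (lie_iff hG B _).2 (Submodule.add_mem _
      (Submodule.subset_span ⟨a, rfl⟩) (Submodule.subset_span ⟨e, rfl⟩))
    have h3 := inf_inv b hb (lieX B d) hs
    have e1 : B.X d * (B.X a + B.X e) - (B.X a + B.X e) * B.X d =
        (B.X d * B.X a - B.X a * B.X d) + (B.X d * B.X e - B.X e * B.X d) := by noncomm_ring
    rw [e1] at h3
    simp only [map_add, LinearMap.add_apply] at h3
    linarith
  have hexp : ∀ a e, b (B.X d * B.X a - B.X a * B.X d) (B.X e) +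
      b (B.X e) (B.X d * B.X a - B.X a * B.X d) = 2 * ∑ c, A B d a c * S b B c e := by
    intro a e
    rw [brk_eq B d a]
    simp only [map_sum, map_smul, LinearMap.sum_apply, LinearMap.smul_apply, smul_eq_mul]
    rw [← Finset.sum_add_distrib, Finset.mul_sum]
    refine Finset.sum_congr rfl fun c _ => ?_
    rw [S_apply]
    ring
  ext a e
  rw [Matrix.mul_apply, Matrix.mul_apply]
  have h1 := hpol a e
  rw [hexp a e, hexp e a] at h1
  have h2 : ∑ c, S b B a c * A B d c e = - ∑ c, A B d e c * S b B c a := by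
    rw [← Finset.sum_neg_distrib]
    refine Finset.sum_congr rfl fun c _ => ?_
    rw [A_anti B d c e, S_symm b B a c]
    ring
  rw [h2]
  linarith

end

end Inv

open Pool.Agent.H735U.Inv in
theorem t_INV : S_INV := by
  intro N G hG hsimp b hb
  obtain ⟨n, ⟨B⟩⟩ := exists_lieBasis hG
  obtain ⟨⟨Y, Z, hY, hZ, hYZ⟩, hW⟩ := hsimp
  have hn : 0 < n := by
    rcases Nat.eq_zero_or_pos n with h0 | h0
    · subst h0
      exfalso
      apply hYZ
      have h1 := (lie_iff hG B Y).1 hY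
      have h2 : Set.range B.X = ∅ := Set.range_eq_empty _
      rw [h2, Submodule.span_empty, Submodule.mem_bot] at h1
      rw [h1, zero_mul, mul_zero]
    · exact h0
  have hCH : (S b B).IsHermitian := by
    ext a e
    rw [Matrix.conjTranspose_apply, star_trivial]
    exact S_symm b B e a
  set i : Fin n := ⟨0, hn⟩
  set l : ℝ := hCH.eigenvalues i with hl
  set v : Fin n → ℝ := ⇑(hCH.eigenvectorBasis i) with hv
  have hv1 : S b B *ᵥ v = l • v := hCH.mulVec_eigenvectorBasis i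
  have hv0 : v ≠ 0 := by
    intro h
    apply hCH.eigenvectorBasis.orthonormal.ne_zero i
    ext a
    exact congrFun h a
  let W : Submodule ℝ (Mt N) := Submodule.span ℝ (Set.range B.X) ⊓
    LinearMap.ker ((S b B).mulVecLin ∘ₗ cf B - l • cf B)
  have hWm : ∀ Y, Y ∈ W ↔ Y ∈ Submodule.span ℝ (Set.range B.X) ∧
      S b B *ᵥ cf B Y = l • cf B Y := by
    intro Y
    rw [Submodule.mem_inf, LinearMap.mem_ker, LinearMap.sub_apply, sub_eq_zero]
    rfl
  have hst : ∀ a, ∀ Y ∈ W, B.X a * Y - Y * B.X a ∈ W := by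
    intro a Y hY
    rw [hWm] at hY ⊢
    obtain ⟨hY1, hY2⟩ := hY
    refine ⟨?_, ?_⟩
    · rw [← neg_sub]
      exact Submodule.neg_mem _ (brT B hY1 a)
    · have h1 : cf B (B.X a * Y - Y * B.X a) = -(A B a *ᵥ cf B Y) := by
        funext e
        rw [cf_brk B a hY1, Pi.neg_apply, Matrix.mulVec, dotProduct, ← Finset.sum_neg_distrib]
        refine Finset.sum_congr rfl fun b _ => ?_
        rw [A_anti B a b e]
        ring
      rw [h1, Matrix.mulVec_neg, Matrix.mulVec_mulVec, ← S_comm b hG hb, ← Matrix.mulVec_mulVec,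
        hY2, Matrix.mulVec_smul, smul_neg]
  have hWtop : ∀ Y ∈ Submodule.span ℝ (Set.range B.X), Y ∈ W := by
    rcases hW W (fun Y hY => (lie_iff hG B Y).2 ((hWm Y).1 hY).1) (fun Y hY Z hZ => by
        rw [expand B ((lie_iff hG B Z).1 hZ), Finset.sum_mul, Finset.mul_sum,
          ← Finset.sum_sub_distrib]
        refine Submodule.sum_mem _ fun a _ => ?_
        rw [smul_mul_assoc, mul_smul_comm, ← smul_sub]
        exact Submodule.smul_mem _ _ (hst a Y hY)) with h | h
    · exfalso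
      have hmem : (∑ a, v a • B.X a) ∈ W := by
        rw [hWm, cf_comb]
        exact ⟨Submodule.sum_mem _ fun a _ => Submodule.smul_mem _ _
          (Submodule.subset_span ⟨a, rfl⟩), hv1⟩
      rw [h, Submodule.mem_bot] at hmem
      apply hv0
      rw [← cf_comb B v, hmem, map_zero]
    · exact fun Y hY => h Y ((lie_iff hG B Y).2 hY)
  have hCl : ∀ a e, S b B a e = if a = e then l else 0 := by
    intro a e
    have h1 : B.X e ∈ W := hWtop _ (Submodule.subset_span ⟨e, rfl⟩)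
    have h2 := ((hWm _).1 h1).2
    rw [cf_X] at h2
    have h3 := congrFun h2 a
    rw [Matrix.mulVec_single_one] at h3
    rw [Pi.smul_apply, Pi.single_apply, smul_eq_mul] at h3
    have h4 : S b B a e = l * if a = e then 1 else 0 := h3
    rw [h4]
    split_ifs <;> simp
  refine ⟨l, fun T hT => ?_⟩
  have hT' := (lie_iff hG B T).1 hT
  rw [q_eq b B hT', frob_span B hT', Finset.mul_sum]
  refine Finset.sum_congr rfl fun a _ => ?_
  simp only [hCl, mul_ite, mul_zero]
  rw [Finset.sum_ite_eq]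
  simp only [Finset.mem_univ, if_true]
  rw [cf_apply]
  ring

end Pool.Agent.H735U
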