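import Mathlib
import Pool.Agent.H735U.Stm
import Pool.Agent.Y421.AF.Mom

/-
Project UNI (helper735, MP_7f377f_mp = Yang-Mills, weight 100): universality of asymptotic freedom, the lattice Yang-Mills theory with a
general plaquette energy s(g) = Re tr (1 - g) + r(g). It extends the starting result AsymptoticFreedom (Pool/Agent/Y16/AF/* and the job files
Pool/Agent/Y*/AF/*). Statements: Pool/Agent/H735U/{Gen,Defs,Stm,Stm2,Stm3}.lean on origin/main (copy the imported modules and everything they
import to the same paths; everything is on origin/main; `lake build <module>`).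
TARGET: prove the theorem below, statement unchanged, no sorry, no axioms. Put auxiliary lemmas before it, in the sub-namespace used here.
Paste the full file back as result. Please compile with `lake build` or with -DmaxHeartbeats=4000000 (the package option), not `lake env lean`
defaults. If the statement is false or unclear: status='problem' and say why, or message helper735.
REMARK on instances: for Mt N = Matrix (Fin N) (Fin N) C with the Frobenius norm, the Matrix topology and the topology of the norm are equal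
by rfl, but not at reducible transparency, so e.g. `Norm (Mt N ->L[R] R)` and `NormedAddCommGroup (Mt N ->L[R] R)` are not found. Therefore
derivatives are used through dr1, dr2, dr4 (Gen.lean, for a general normed space E; hasDerivAt_comp, hasDerivAt_dr1, contDiff_dr1, contDiff_dr2, dr2_comm, dr4_*).
Prove analytic facts for a general E and apply them to Mt N.

PROOF.
This is Pool.Agent.Y421.AF.af_mom (file Pool/Agent/Y421/AF/Mom.lean) for the action S0R = sum over the plaquettes of en1 r (plaquette) = S0 + S0r. By S_CMP: c S0 <= S0R <= C S0 (pointwise, S0 is the sum of Re tr (1 - plaquette); pm (lg (fx U) p) is mt of the product of the four legs). Follow that file: the abstract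
inequality abs_mom, the lower bound of the partition function (Z_lower: integrate over the ball of radius beta^(-1/2)), rr^2 <= const L^8 S0 (rr_sq) <= const/c S0R. S0R is continuous (r is smooth).
-/

set_option autoImplicit false
set_option linter.unusedVariables false

open MeasureTheory Matrix Filter
open scoped Matrix.Norms.Frobenius Topology ContDiff
open Pool.Agent.Y16.Gluon Pool.Agent.Y16.AF

namespace Pool.Agent.H735U

namespace Mom

open Pool.Agent.Y421.AF

variable {N L : ℕ} {G : Subgroup (UU N)}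

lemma S0R_eq [NeZero L] (r : Mt N → ℝ) (U : Links L → G) :
    S0R r U = ∑ p : Pq L, en1 r (pr U p) := by
  unfold S0R S0r
  rw [S0_eq, ← Finset.sum_add_distrib]
  rfl

lemma S0R_cont [NeZero L] {r : Mt N → ℝ} (hr : ContDiff ℝ ∞ r) :
    Continuous (S0R r : (Links L → G) → ℝ) := by
  have h0 : (S0R r : (Links L → G) → ℝ) = fun U => S0 U + ∑ p : Pq L, r (mt (pr U p)) := rfl
  rw [h0]
  refine S0_cont.add (continuous_finsetSum _ fun p _ => ?_)
  have h1 : Continuous fun U : Links L → G => mt (pr U p) :=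
    mt_cont.comp ((((lg_cont p 0).mul (lg_cont p 1)).mul (lg_cont p 2)).mul (lg_cont p 3))
  exact hr.continuous.comp h1

lemma S0R_bounds [NeZero L] {r : Mt N → ℝ} {c C : ℝ}
    (h : ∀ g : G, c * (trace (1 - mt g)).re ≤ en1 r g ∧ en1 r g ≤ C * (trace (1 - mt g)).re)
    (U : Links L → G) : c * S0 U ≤ S0R r U ∧ S0R r U ≤ C * S0 U := by
  rw [S0R_eq, S0_eq, Finset.mul_sum, Finset.mul_sum]
  exact ⟨Finset.sum_le_sum fun p _ => (h _).1, Finset.sum_le_sum fun p _ => (h _).2⟩

lemma ZR_lower [MeasurableSpace G] [BorelSpace G] (μ : Measure G) [IsProbabilityMeasure μ]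
    (c : ℝ) (hc : 0 < c) (D : ℕ)
    (hcD : ∀ r : ℝ, 0 < r → r ≤ 1 → c * r ^ D ≤ (μ {g : G | ‖mt g - 1‖ ≤ r}).toReal)
    (L : ℕ) [NeZero L] (β : ℝ) (hβ : 3 ≤ β) {r : Mt N → ℝ} (hr : ContDiff ℝ ∞ r) (K : ℝ)
    (hK : 1 ≤ K) (h0 : ∀ U : Links L → G, 0 ≤ S0R r U) (h1 : ∀ U : Links L → G, S0R r U ≤ K * S0 U) :
    Real.exp (-((48 + 4 * Real.log (min c 1)⁻¹ + 2 * D) * (1 + Real.log K) * (L : ℝ) ^ 4 *
      Real.log β)) ≤ ∫ U : Links L → G, Real.exp (-(β * S0R r U)) ∂(Measure.pi fun _ => μ) := by
  have hβ0 : 0 < β := by linarith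
  have hlog := one_le_log hβ
  have hlK : 0 ≤ Real.log K := Real.log_nonneg hK
  have hlc : 0 ≤ Real.log (min c 1)⁻¹ := by
    rw [Real.log_inv]
    have := Real.log_nonpos (lt_min hc one_pos).le (min_le_right c 1)
    linarith
  have h2 := Z_lower μ c hc D hcD L (β * K) (by nlinarith)
  have hint : ∀ (S : (Links L → G) → ℝ), Continuous S → (∀ U, 0 ≤ S U) →
      Integrable (fun U : Links L → G => Real.exp (-S U)) (Measure.pi fun _ => μ) := by
    intro S hS hS0
    refine Integrable.mono' (integrable_const (1 : ℝ))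
      (Real.continuous_exp.comp hS.neg).aestronglyMeasurable
      (Filter.Eventually.of_forall fun U => ?_)
    rw [Real.norm_eq_abs, Real.abs_exp]
    exact Real.exp_le_one_iff.2 (neg_nonpos.2 (hS0 U))
  have h3 : ∫ U : Links L → G, Real.exp (-(β * K * S0 U)) ∂(Measure.pi fun _ => μ) ≤
      ∫ U : Links L → G, Real.exp (-(β * S0R r U)) ∂(Measure.pi fun _ => μ) := by
    refine integral_mono (hint _ (continuous_const.mul S0_cont) fun U => ?_)
      (hint _ (continuous_const.mul (S0R_cont hr)) fun U => ?_) fun U => ?_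
    · exact mul_nonneg (by positivity) (S0_nonneg U)
    · exact mul_nonneg hβ0.le (h0 U)
    · refine Real.exp_le_exp.2 ?_
      have := mul_le_mul_of_nonneg_left (h1 U) hβ0.le
      nlinarith
  refine le_trans (le_trans (Real.exp_le_exp.2 ?_) h2) h3
  have h4 : Real.log (β * K) = Real.log β + Real.log K :=
    Real.log_mul (by positivity) (by positivity)
  rw [h4]
  have hD : (0 : ℝ) ≤ D := Nat.cast_nonneg D
  set C1 : ℝ := 48 + 4 * Real.log (min c 1)⁻¹ + 2 * (D : ℝ) with hC1
  have hC1p : 0 ≤ C1 := by rw [hC1]; positivity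
  have hL : (0 : ℝ) ≤ (L : ℝ) ^ 4 := by positivity
  have h5 : Real.log β + Real.log K ≤ (1 + Real.log K) * Real.log β := by nlinarith
  have h6 := mul_le_mul_of_nonneg_left h5 (mul_nonneg hC1p hL)
  nlinarith

end Mom

open Pool.Agent.Y421.AF in
theorem t_MOMR : S_MOMR := by
  intro hB hC hRT hCMP N G hG _ _ μ _ _ r hr
  obtain ⟨c, hc, D, hcD⟩ := hB G hG μ
  obtain ⟨a, K, ha, haK⟩ := hCMP hRT G hG r hr
  set a' := min a 1 with ha'
  set K' := max K 1 with hK'
  have ha0 : 0 < a' := lt_min ha one_pos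
  have ha1 : a' ≤ 1 := min_le_right _ _
  have hK1 : 1 ≤ K' := le_max_right _ _
  have hlK : 0 ≤ Real.log K' := Real.log_nonneg hK1
  have hb : ∀ g : G, a' * (trace (1 - mt g)).re ≤ en1 r g ∧
      en1 r g ≤ K' * (trace (1 - mt g)).re := fun g =>
    ⟨(mul_le_mul_of_nonneg_right (min_le_left _ _) (re_nonneg g)).trans (haK g).1,
      (haK g).2.trans (mul_le_mul_of_nonneg_right (le_max_left _ _) (re_nonneg g))⟩
  set C1 : ℝ := 48 + 4 * Real.log (min c 1)⁻¹ + 2 * (D : ℝ) with hC1
  have hlc : 0 ≤ Real.log (min c 1)⁻¹ := by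
    rw [Real.log_inv]
    have := Real.log_nonpos (lt_min hc one_pos).le (min_le_right c 1)
    linarith
  have hC1' : 48 ≤ C1 := by
    have : (0 : ℝ) ≤ D := Nat.cast_nonneg D
    rw [hC1]; linarith
  set C2 : ℝ := C1 * (1 + Real.log K') with hC2
  have hC2' : 48 ≤ C2 := by rw [hC2]; nlinarith
  have hfin : 1 ≤ 28800 * C2 / a' := by
    rw [le_div_iff₀ ha0]
    nlinarith
  refine ⟨28800 * C2 / a', hfin, fun L _ hL β hβ p hp => ?_⟩
  have hlog := one_le_log hβ
  have hLp : (1 : ℝ) ≤ L := by exact_mod_cast (by omega : 1 ≤ L)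
  have hL4 : (1 : ℝ) ≤ (L : ℝ) ^ 4 := one_le_pow₀ hLp
  have hm : 1 ≤ C2 * (L : ℝ) ^ 4 * Real.log β := by
    have h1 : 1 ≤ C2 * (L : ℝ) ^ 4 := by nlinarith
    nlinarith
  have hbd : ∀ U : Links L → G, a' * S0 U ≤ S0R r U ∧ S0R r U ≤ K' * S0 U :=
    fun U => Mom.S0R_bounds hb U
  have hnn : ∀ U : Links L → G, 0 ≤ S0R r U := fun U =>
    (mul_nonneg ha0.le (S0_nonneg U)).trans (hbd U).1
  have hZ := Mom.ZR_lower μ c hc D hcD L β hβ hr.smooth K' hK1 hnn (fun U => (hbd U).2)
  have h := abs_mom (Measure.pi fun _ : Links L => μ) (S0R r : (Links L → G) → ℝ) rr β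
    (1600 * (L : ℝ) ^ 12 / a') (C2 * (L : ℝ) ^ 4 * Real.log β) (by linarith) (by positivity) hm
    hnn (fun U => Finset.sum_nonneg fun w _ => norm_nonneg _) (fun U => by
      refine (rr_sq hL hC U).trans ?_
      rw [div_mul_eq_mul_div, le_div_iff₀ ha0]
      have h7 := mul_le_mul_of_nonneg_left (hbd U).1 (show (0 : ℝ) ≤ 1600 * (L : ℝ) ^ 12 by positivity)
      nlinarith) hZ p hp
  have he : 18 * (1600 * (L : ℝ) ^ 12 / a') * (C2 * (L : ℝ) ^ 4 * Real.log β) / β =
      28800 * C2 / a' * (L : ℝ) ^ 16 * Real.log β / β := by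
    field_simp
    ring
  rw [he] at h
  exact h

end Pool.Agent.H735U
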