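import Mathlib
import Pool.Agent.H735U.Stm

/-
Project UNI (helper735, MP_7f377f_mp = Yang-Mills, weight 100): universality of asymptotic freedom, the lattice Yang-Mills theory with a
general plaquette energy s(g) = Re tr (1 - g) + r(g). It extends the starting result AsymptoticFreedom (Pool/Agent/Y16/AF/* and the job files
Pool/Agent/Y*/AF/*). Statements: Pool/Agent/H735U/{Gen,Defs,Stm,Stm2,Stm3}.lean on origin/main (copy the imported modules and everything they
import to the same paths; everything is on origin/main; `lake build <module>`).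
TARGET: prove the theorem below, statement unchanged, no sorry, no axioms. Put auxiliary lemmas before it, in the sub-namespace used here.
Paste the full file back as result. Please compile with `lake build` or with -DmaxHeartbeats=4000000 (the package option), not `lake env lean`
defaults. If the statement is false or unclear: status='problem' and say why, or message helper735.
REMARK on instances: for Mt N = Matrix (Fin N) (Fin N) C with the Frobenius norm, the Matrix topology and the topology of the norm are equal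
by rfl, but not at reducible transparency, so e.g. `Norm (Mt N ->L[R] R)` and `NormedAddCommGroup (Mt N ->L[R] R)` are not found. Therefore
derivatives are used through dr1, dr2, dr4 (Gen.lean, for a general normed space E; hasDerivAt_comp, hasDerivAt_dr1, contDiff_dr1, contDiff_dr2, dr2_comm, dr4_*).
Prove analytic facts for a general E and apply them to Mt N.

PROOF.
Everything in the normed space E (finite dimensional, so closed balls are compact). The derivatives of order 0, 1, 2, 3 of r vanish at p: along every line f(t) = r (p + t V) is smooth and O(t^4).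
A convenient way: for fixed V, V' the function g(M) = dr2 r M V V' is smooth (contDiff_dr2); dr4 r p V V' Z Z' = dr2 g p Z Z' by definition.
(a) r, dr1 r . V, dr2 r . V V' and the first derivative of dr2 r . V V' vanish at p: r(p+h) = O(|h|^4) gives dr1 r p V = 0 and dr2 r p V V = 0 (one variable), then dr2 r p = 0 by polarization, and the third derivatives in the same way
(one variable statement: if f : R -> R is smooth and f(t) = O(t^4) then its derivatives of order at most 3 vanish at 0; for the third derivatives use V = arbitrary combination and the symmetry of the third derivative, or: the bilinear map A(h) = fderiv (fderiv r)(p + h) satisfies A(h) = L h + O(|h|^2)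
with L linear and r(p+h) = int_0^1 (1-u) A(u h) h h du = (1/6) (L h) h h + O(|h|^4), so (L h) h h = 0 for all h, and the trilinear form (L h) k l is symmetric, so L = 0.)
(b) bounds with ‖V‖ ‖V'‖ uniformly: apply the mean value / Taylor inequality to the operator valued function fderiv (fderiv r) : E -> E ->L E ->L R (smooth; its derivatives are bounded on the compact ball of radius R + ‖p‖ around p, which is convex and contains {‖M‖ <= R} if the radius is R + 2‖p‖ + 1).
All four estimates follow from |D^2 r (M) - (1/2) D^4 r (p)(., ., M-p, M-p)| <= C ‖M-p‖^3 by integration along the segment (Convex.norm_image_sub_le_of_norm_fderiv_le etc.).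
-/

set_option autoImplicit false
set_option linter.unusedVariables false

open MeasureTheory Matrix Filter
open scoped Matrix.Norms.Frobenius Topology ContDiff
open Pool.Agent.Y16.Gluon Pool.Agent.Y16.AF

namespace Pool.Agent.H735U

namespace Rt

theorem lim0 {g : ℝ → ℝ} (hg : Continuous g) {δ : ℝ} (hδ : 0 < δ)
    (h : ∀ t, 0 < t → t ≤ δ → g t ≤ 0) : g 0 ≤ 0 := by
  have ht : Tendsto g (𝓝[>] 0) (𝓝 (g 0)) := (hg.tendsto 0).mono_left nhdsWithin_le_nhds
  refine le_of_tendsto ht ?_
  filter_upwards [Ioo_mem_nhdsGT hδ] with t ht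
  exact h t ht.1 ht.2.le

theorem coef {a b c d K δ : ℝ} (hδ : 0 < δ)
    (h : ∀ t, |t| ≤ δ → |a + b * t + c * t ^ 2 + d * t ^ 3| ≤ K * |t| ^ 4) :
    a = 0 ∧ b = 0 ∧ c = 0 ∧ d = 0 := by
  have ha : a = 0 := by
    have h1 := h 0 (by simpa using hδ.le)
    have h2 : |a| ≤ 0 := by simpa using h1
    exact abs_nonpos_iff.1 h2
  subst ha
  have hb : b = 0 := by
    have h1 := lim0 (g := fun t => |b + c * t + d * t ^ 2| - K * t ^ 3) (by fun_prop) hδ
      (fun t ht ht' => by
        have h2 := h t (by rwa [abs_of_pos ht])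
        have e : 0 + b * t + c * t ^ 2 + d * t ^ 3 = t * (b + c * t + d * t ^ 2) := by ring
        rw [e, abs_mul, abs_of_pos ht] at h2
        have h3 : t * |b + c * t + d * t ^ 2| ≤ t * (K * t ^ 3) := by
          refine h2.trans (le_of_eq ?_)
          ring
        have h4 := le_of_mul_le_mul_left h3 ht
        linarith)
    have h2 : |b| ≤ 0 := by simpa using h1
    exact abs_nonpos_iff.1 h2
  subst hb
  have hc : c = 0 := by
    have h1 := lim0 (g := fun t => |c + d * t| - K * t ^ 2) (by fun_prop) hδ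
      (fun t ht ht' => by
        have h2 := h t (by rwa [abs_of_pos ht])
        have e : 0 + 0 * t + c * t ^ 2 + d * t ^ 3 = t ^ 2 * (c + d * t) := by ring
        rw [e, abs_mul, abs_of_pos ht, abs_of_pos (by positivity : (0 : ℝ) < t ^ 2)] at h2
        have h3 : t ^ 2 * |c + d * t| ≤ t ^ 2 * (K * t ^ 2) := by
          refine h2.trans (le_of_eq ?_)
          ring
        have h4 := le_of_mul_le_mul_left h3 (by positivity)
        linarith)
    have h2 : |c| ≤ 0 := by simpa using h1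
    exact abs_nonpos_iff.1 h2
  subst hc
  have hd : d = 0 := by
    have h1 := lim0 (g := fun t => |d| - K * t) (by fun_prop) hδ
      (fun t ht ht' => by
        have h2 := h t (by rwa [abs_of_pos ht])
        have e : 0 + 0 * t + 0 * t ^ 2 + d * t ^ 3 = t ^ 3 * d := by ring
        rw [e, abs_mul, abs_of_pos ht, abs_of_pos (by positivity : (0 : ℝ) < t ^ 3)] at h2
        have h3 : t ^ 3 * |d| ≤ t ^ 3 * (K * t) := by
          refine h2.trans (le_of_eq ?_)
          ring
        have h4 := le_of_mul_le_mul_left h3 (by positivity)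
        linarith)
    have h2 : |d| ≤ 0 := by simpa using h1
    exact abs_nonpos_iff.1 h2
  exact ⟨rfl, rfl, rfl, hd⟩

/-- one variable -/
theorem mv1 {f f' : ℝ → ℝ} (hf : ∀ t, HasDerivAt f (f' t) t) (h0 : f 0 = 0) {K δ : ℝ} (hK : 0 ≤ K)
    (k : ℕ) (hb : ∀ t, |t| ≤ δ → |f' t| ≤ K * |t| ^ k) :
    ∀ t, |t| ≤ δ → |f t| ≤ K * |t| ^ (k + 1) := by
  intro t ht
  have h1 := (convex_Icc (-|t|) |t|).norm_image_sub_le_of_norm_hasDerivWithin_le (f := f) (f' := f')
    (C := K * |t| ^ k) (x := 0) (y := t) (fun x _ => (hf x).hasDerivWithinAt)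
    (fun x hx => by
      have hx1 : |x| ≤ |t| := abs_le.2 hx
      rw [Real.norm_eq_abs]
      refine (hb x (hx1.trans ht)).trans ?_
      exact mul_le_mul_of_nonneg_left (pow_le_pow_left₀ (abs_nonneg _) hx1 k) hK)
    ⟨by simp, by simp⟩ ⟨neg_abs_le t, le_abs_self t⟩
  rw [h0, sub_zero, sub_zero, Real.norm_eq_abs, Real.norm_eq_abs] at h1
  refine h1.trans (le_of_eq ?_)
  ring

theorem four {f0 f1 f2 f3 f4 : ℝ → ℝ} (h0 : ∀ t, HasDerivAt f0 (f1 t) t)
    (h1 : ∀ t, HasDerivAt f1 (f2 t) t) (h2 : ∀ t, HasDerivAt f2 (f3 t) t)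
    (h3 : ∀ t, HasDerivAt f3 (f4 t) t) (hc : Continuous f4) {C δ : ℝ} (hδ : 0 < δ)
    (hb : ∀ t, |t| ≤ δ → |f0 t| ≤ C * |t| ^ 4) : f0 0 = 0 ∧ f1 0 = 0 ∧ f2 0 = 0 ∧ f3 0 = 0 := by
  obtain ⟨K0, hK0⟩ := (isCompact_Icc (a := -δ) (b := δ)).exists_bound_of_continuousOn hc.continuousOn
  set K : ℝ := max K0 0 with hK
  have hK1 : 0 ≤ K := le_max_right _ _
  have hidd : ∀ t : ℝ, HasDerivAt (fun t : ℝ => t) 1 t := fun t => hasDerivAt_id t
  have g3 := mv1 (f := fun t => f3 t - f3 0) (f' := f4) (fun t => (h3 t).sub_const _) (by simp) hK1 0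
    (δ := δ) (fun t ht => by
      rw [pow_zero, mul_one]
      exact (hK0 t (abs_le.1 ht)).trans (le_max_left _ _))
  have g2 := mv1 (f := fun t => f2 t - f2 0 - f3 0 * t) (f' := fun t => f3 t - f3 0)
    (fun t => by
      have := ((h2 t).sub_const (f2 0)).sub ((hidd t).const_mul (f3 0))
      exact this.congr_deriv (by ring)) (by simp) hK1 1 (δ := δ) g3
  have g1 := mv1 (f := fun t => f1 t - f1 0 - f2 0 * t - f3 0 / 2 * t ^ 2)
    (f' := fun t => f2 t - f2 0 - f3 0 * t)
    (fun t => by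
      have := (((h1 t).sub_const (f1 0)).sub ((hidd t).const_mul (f2 0))).sub
        ((hasDerivAt_pow 2 t).const_mul (f3 0 / 2))
      refine this.congr_deriv ?_
      push_cast
      ring) (by simp) hK1 2 (δ := δ) g2
  have g0 := mv1 (f := fun t => f0 t - f0 0 - f1 0 * t - f2 0 / 2 * t ^ 2 - f3 0 / 6 * t ^ 3)
    (f' := fun t => f1 t - f1 0 - f2 0 * t - f3 0 / 2 * t ^ 2)
    (fun t => by
      have := ((((h0 t).sub_const (f0 0)).sub ((hidd t).const_mul (f1 0))).sub
        ((hasDerivAt_pow 2 t).const_mul (f2 0 / 2))).sub ((hasDerivAt_pow 3 t).const_mul (f3 0 / 6))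
      refine this.congr_deriv ?_
      push_cast
      ring) (by simp) hK1 3 (δ := δ) g1
  obtain ⟨e0, e1, e2, e3⟩ := coef (a := f0 0) (b := f1 0) (c := f2 0 / 2) (d := f3 0 / 6)
    (K := C + K) hδ (fun t ht => by
      have k1 := hb t ht
      have k2 := g0 t ht
      have e : f0 0 + f1 0 * t + f2 0 / 2 * t ^ 2 + f3 0 / 6 * t ^ 3 =
        f0 t - (f0 t - f0 0 - f1 0 * t - f2 0 / 2 * t ^ 2 - f3 0 / 6 * t ^ 3) := by ring
      rw [e]
      refine (abs_sub _ _).trans ?_
      have k3 : K * |t| ^ (3 + 1) = K * |t| ^ 4 := by norm_num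
      linarith)
  exact ⟨e0, e1, by linarith, by linarith⟩

section

variable {E : Type*} [NormedAddCommGroup E] [NormedSpace ℝ E]
variable {G : Type*} [NormedAddCommGroup G] [NormedSpace ℝ G]

theorem line {F : E → G} (hF : ContDiff ℝ ∞ F) (p V : E) (t : ℝ) :
    HasDerivAt (fun s : ℝ => F (p + s • V)) (fderiv ℝ F (p + t • V) V) t := by
  have h1 : HasFDerivAt F (fderiv ℝ F (p + t • V)) (p + t • V) :=
    (hF.differentiable (by simp) _).hasFDerivAt
  have h2 : HasDerivAt (fun s : ℝ => p + s • V) V t := by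
    simpa using ((hasDerivAt_id t).smul_const V).const_add p
  exact h1.comp_hasDerivAt t h2

theorem app {c : ℝ → (E →L[ℝ] G)} {c' : E →L[ℝ] G} {t : ℝ} (h : HasDerivAt c c' t) (V : E) :
    HasDerivAt (fun s => c s V) (c' V) t := by
  have := h.clm_apply (hasDerivAt_const t V)
  simpa using this

theorem bdd [FiniteDimensional ℝ E] {F : E → G} (hF : ContDiff ℝ ∞ F) (p : E) (ρ : ℝ) :
    ∃ K0 : ℝ, ∀ K, K0 ≤ K → ∀ M, ‖M - p‖ ≤ ρ → ‖F M‖ ≤ K := by
  obtain ⟨K0, hK0⟩ := (isCompact_closedBall p ρ).exists_bound_of_continuousOn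
    hF.continuous.continuousOn
  exact ⟨K0, fun K hK M hM => (hK0 M (mem_closedBall_iff_norm.2 hM)).trans hK⟩

theorem n1 (T : E →L[ℝ] G) (W : E) {c : ℝ} (h : ‖T‖ ≤ c) : ‖T W‖ ≤ c * ‖W‖ :=
  (T.le_opNorm W).trans (mul_le_mul_of_nonneg_right h (norm_nonneg _))

theorem mv1G {f f' : ℝ → G} (hf : ∀ t, HasDerivAt f (f' t) t) (h0 : f 0 = 0) {K δ : ℝ}
    (hK : 0 ≤ K) (k : ℕ) (hb : ∀ t, |t| ≤ δ → ‖f' t‖ ≤ K * |t| ^ k) :
    ∀ t, |t| ≤ δ → ‖f t‖ ≤ K * |t| ^ (k + 1) := by
  intro t ht
  have h1 := (convex_Icc (-|t|) |t|).norm_image_sub_le_of_norm_hasDerivWithin_le (f := f) (f' := f')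
    (C := K * |t| ^ k) (x := 0) (y := t) (fun x _ => (hf x).hasDerivWithinAt)
    (fun x hx => by
      have hx1 : |x| ≤ |t| := abs_le.2 hx
      refine (hb x (hx1.trans ht)).trans ?_
      exact mul_le_mul_of_nonneg_left (pow_le_pow_left₀ (abs_nonneg _) hx1 k) hK)
    ⟨by simp, by simp⟩ ⟨neg_abs_le t, le_abs_self t⟩
  rw [h0, sub_zero, sub_zero, Real.norm_eq_abs] at h1
  refine h1.trans (le_of_eq ?_)
  ring

theorem tay2 {F : E → G} (hF : ContDiff ℝ ∞ F) {p : E} (h0 : F p = 0) (h1 : fderiv ℝ F p = 0)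
    {K ρ : ℝ} (hK : 0 ≤ K)
    (hb : ∀ M W : E, ‖M - p‖ ≤ ρ →
      ‖fderiv ℝ (fderiv ℝ (fderiv ℝ F)) M W W W‖ ≤ K * ‖W‖ * ‖W‖ * ‖W‖) :
    ∀ M, ‖M - p‖ ≤ ρ →
      ‖F M - (1 / 2 : ℝ) • fderiv ℝ (fderiv ℝ F) p (M - p) (M - p)‖ ≤ K * ‖M - p‖ ^ 3 := by
  intro M hM
  set W : E := M - p with hW
  have c1 := contDiff_fderiv hF
  have c2 := contDiff_fderiv c1
  have l0 : ∀ t : ℝ, HasDerivAt (fun t : ℝ => F (p + t • W)) (fderiv ℝ F (p + t • W) W) t :=
    fun t => line hF p W t
  have l1 : ∀ t : ℝ, HasDerivAt (fun t : ℝ => fderiv ℝ F (p + t • W) W)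
      (fderiv ℝ (fderiv ℝ F) (p + t • W) W W) t := fun t => app (line c1 p W t) W
  have l2 : ∀ t : ℝ, HasDerivAt (fun t : ℝ => fderiv ℝ (fderiv ℝ F) (p + t • W) W W)
      (fderiv ℝ (fderiv ℝ (fderiv ℝ F)) (p + t • W) W W W) t :=
    fun t => app (app (line c2 p W t) W) W
  set A : G := fderiv ℝ (fderiv ℝ F) p W W with hA
  have hKw0 : 0 ≤ K * ‖W‖ ^ 3 := by positivity
  have hidd : ∀ t : ℝ, HasDerivAt (fun t : ℝ => t) 1 t := fun t => hasDerivAt_id t
  have n2 := mv1G (f := fun t : ℝ => fderiv ℝ (fderiv ℝ F) (p + t • W) W W - A) (δ := 1)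
    (fun t => (l2 t).sub_const A) (by simp [hA]) hKw0 0 (fun t ht => by
      rw [pow_zero, mul_one]
      have h1 : ‖p + t • W - p‖ ≤ ρ := by
        have e : p + t • W - p = t • W := by abel
        rw [e, norm_smul, Real.norm_eq_abs]
        calc |t| * ‖W‖ ≤ 1 * ‖W‖ := mul_le_mul_of_nonneg_right ht (norm_nonneg _)
          _ ≤ ρ := by rw [one_mul]; exact hM
      refine (hb _ W h1).trans (le_of_eq ?_)
      ring)
  have n1' := mv1G (f := fun t : ℝ => fderiv ℝ F (p + t • W) W - t • A)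
    (f' := fun t : ℝ => fderiv ℝ (fderiv ℝ F) (p + t • W) W W - A)
    (δ := 1) (fun t => by
      have := (l1 t).sub ((hidd t).smul_const A)
      rw [one_smul] at this
      exact this) (by simp [h1]) hKw0 1 n2
  have n0 := mv1G (f := fun t : ℝ => F (p + t • W) - (t ^ 2 / 2) • A)
    (f' := fun t : ℝ => fderiv ℝ F (p + t • W) W - t • A)
    (δ := 1) (fun t => by
      have h3 : HasDerivAt (fun t : ℝ => t ^ 2 / 2) t t := by
        have := (hasDerivAt_pow 2 t).div_const 2
        refine this.congr_deriv ?_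
        push_cast
        ring
      exact (l0 t).sub (h3.smul_const A)) (by simp [h0]) hKw0 2 n1'
  have n := n0 1 (by simp)
  have e1 : p + (1 : ℝ) • W = M := by rw [one_smul, hW]; abel
  simp only [e1] at n
  rw [one_pow] at n
  refine n.trans (le_of_eq ?_)
  simp

theorem mv0 {F : E → G} (hF : ContDiff ℝ ∞ F) {p : E} (h0 : F p = 0) {K ρ : ℝ} (hK : 0 ≤ K)
    (hb : ∀ M, ‖M - p‖ ≤ ρ → ‖fderiv ℝ F M‖ ≤ K) :
    ∀ M, ‖M - p‖ ≤ ρ → ‖F M‖ ≤ K * ‖M - p‖ ^ (0 + 1) := by
  intro M hM
  have h1 := (convex_closedBall p ‖M - p‖).norm_image_sub_le_of_norm_fderiv_le (𝕜 := ℝ) (f := F)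
    (C := K) (x := p) (y := M) (fun x _ => hF.differentiable (by simp) x)
    (fun x hx => by
      rw [mem_closedBall_iff_norm] at hx
      exact hb x (hx.trans hM))
    (Metric.mem_closedBall_self (norm_nonneg _)) (by rw [mem_closedBall_iff_norm])
  rw [h0, sub_zero] at h1
  refine h1.trans (le_of_eq ?_)
  ring

theorem mv {F : E → G} (hF : ContDiff ℝ ∞ F) {p : E} (h0 : F p = 0) {K ρ : ℝ} (hK : 0 ≤ K)
    (k : ℕ) (hb : ∀ M, ‖M - p‖ ≤ ρ → ‖fderiv ℝ F M‖ ≤ K * ‖M - p‖ ^ k) :
    ∀ M, ‖M - p‖ ≤ ρ → ‖F M‖ ≤ K * ‖M - p‖ ^ (k + 1) := by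
  intro M hM
  have h1 := (convex_closedBall p ‖M - p‖).norm_image_sub_le_of_norm_fderiv_le (𝕜 := ℝ) (f := F)
    (C := K * ‖M - p‖ ^ k) (x := p) (y := M) (fun x _ => hF.differentiable (by simp) x)
    (fun x hx => by
      rw [mem_closedBall_iff_norm] at hx
      refine (hb x (hx.trans hM)).trans ?_
      exact mul_le_mul_of_nonneg_left (pow_le_pow_left₀ (norm_nonneg _) hx k) hK)
    (Metric.mem_closedBall_self (norm_nonneg _)) (by rw [mem_closedBall_iff_norm])
  rw [h0, sub_zero] at h1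
  refine h1.trans (le_of_eq ?_)
  ring

end

theorem vanish {E : Type} [NormedAddCommGroup E] [NormedSpace ℝ E] {r : E → ℝ} {p : E}
    (hr : ContDiff ℝ ∞ r)
    (hb : ∃ C δ : ℝ, 0 < δ ∧ ∀ M : E, ‖M - p‖ ≤ δ → |r M| ≤ C * ‖M - p‖ ^ 4) :
    r p = 0 ∧ fderiv ℝ r p = 0 ∧ fderiv ℝ (fderiv ℝ r) p = 0 ∧
      fderiv ℝ (fderiv ℝ (fderiv ℝ r)) p = 0 := by
  obtain ⟨C, δ, hδ, hb⟩ := hb
  have c1 := contDiff_fderiv hr
  have c2 := contDiff_fderiv c1
  have c3 := contDiff_fderiv c2
  have c4 := contDiff_fderiv c3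
  have key : ∀ V : E, r p = 0 ∧ fderiv ℝ r p V = 0 ∧ fderiv ℝ (fderiv ℝ r) p V V = 0 ∧
      fderiv ℝ (fderiv ℝ (fderiv ℝ r)) p V V V = 0 := by
    intro V
    have h := four (f0 := fun t : ℝ => r (p + t • V)) (f1 := fun t : ℝ => fderiv ℝ r (p + t • V) V)
      (f2 := fun t : ℝ => fderiv ℝ (fderiv ℝ r) (p + t • V) V V)
      (f3 := fun t : ℝ => fderiv ℝ (fderiv ℝ (fderiv ℝ r)) (p + t • V) V V V)
      (f4 := fun t : ℝ => fderiv ℝ (fderiv ℝ (fderiv ℝ (fderiv ℝ r))) (p + t • V) V V V V)
      (C := C * ‖V‖ ^ 4) (δ := δ / (1 + ‖V‖))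
      (fun t => line hr p V t)
      (fun t => by
        have := (line c1 p V t).clm_apply (hasDerivAt_const t V)
        simpa using this)
      (fun t => by
        have := ((line c2 p V t).clm_apply (hasDerivAt_const t V)).clm_apply (hasDerivAt_const t V)
        simpa using this)
      (fun t => by
        have := (((line c3 p V t).clm_apply (hasDerivAt_const t V)).clm_apply
          (hasDerivAt_const t V)).clm_apply (hasDerivAt_const t V)
        simpa using this)
      (by
        have h1 := c4.continuous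
        fun_prop)
      (by positivity)
      (fun t ht => by
        have e : p + t • V - p = t • V := by abel
        have h1 : ‖p + t • V - p‖ ≤ δ := by
          rw [e, norm_smul, Real.norm_eq_abs]
          have h2 : |t| * (1 + ‖V‖) ≤ δ := by
            rwa [le_div_iff₀ (by positivity)] at ht
          have h3 := abs_nonneg t
          have h4 := norm_nonneg V
          nlinarith
        have h5 := hb _ h1
        rw [e, norm_smul, Real.norm_eq_abs, mul_pow] at h5
        refine h5.trans (le_of_eq ?_)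
        ring)
    simpa using h
  have s2 : ∀ V W : E, fderiv ℝ (fderiv ℝ r) p V W = fderiv ℝ (fderiv ℝ r) p W V :=
    fun V W => dr2_comm hr p V W
  have s3 : ∀ V W U : E, fderiv ℝ (fderiv ℝ (fderiv ℝ r)) p V W U =
      fderiv ℝ (fderiv ℝ (fderiv ℝ r)) p W V U := by
    intro V W U
    have h : IsSymmSndFDerivAt ℝ (fderiv ℝ r) p := by
      apply (c1.contDiffAt (x := p)).isSymmSndFDerivAt
      simp only [minSmoothness_of_isRCLikeNormedField]
      exact ENat.LEInfty.out
    have h2 := h V W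
    rw [h2]
  have s3' : ∀ V W U : E, fderiv ℝ (fderiv ℝ (fderiv ℝ r)) p V W U =
      fderiv ℝ (fderiv ℝ (fderiv ℝ r)) p V U W := by
    intro V W U
    have e : ∀ W U : E, HasFDerivAt (fun M => fderiv ℝ (fderiv ℝ r) M W U)
        (((fderiv ℝ (fderiv ℝ (fderiv ℝ r)) p).flip W).flip U) p := by
      intro W U
      have h1 : HasFDerivAt (fderiv ℝ (fderiv ℝ r)) (fderiv ℝ (fderiv ℝ (fderiv ℝ r)) p) p :=
        (c2.differentiable (by simp) p).hasFDerivAt
      have h2 := (h1.clm_apply (hasFDerivAt_const W p)).clm_apply (hasFDerivAt_const U p)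
      refine h2.congr_fderiv ?_
      ext V
      simp
    have h1 := e W U
    have h2 := e U W
    have h3 : (fun M => fderiv ℝ (fderiv ℝ r) M W U) = fun M => fderiv ℝ (fderiv ℝ r) M U W := by
      funext M
      exact dr2_comm hr M W U
    rw [h3] at h1
    have h4 := h1.unique h2
    have h5 := congrArg (fun T : E →L[ℝ] ℝ => T V) h4
    simpa using h5
  refine ⟨(key 0).1, ?_, ?_, ?_⟩
  · ext V
    simpa using (key V).2.1
  · ext V W
    have h1 := (key (V + W)).2.2.1
    have h2 := (key V).2.2.1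
    have h3 := (key W).2.2.1
    simp only [map_add, ContinuousLinearMap.add_apply] at h1
    rw [s2 W V] at h1
    simp only [ContinuousLinearMap.zero_apply]
    linarith
  · set T := fderiv ℝ (fderiv ℝ (fderiv ℝ r)) p with hT
    have k1 : ∀ V W : E, T V V W = 0 := by
      intro V W
      have h1 := (key (V + W)).2.2.2
      have h2 := (key (V - W)).2.2.2
      have h3 := (key V).2.2.2
      have h4 := (key W).2.2.2
      simp only [map_add, ContinuousLinearMap.add_apply] at h1
      simp only [map_sub, ContinuousLinearMap.sub_apply] at h2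
      have a1 : T W V V = T V V W := by rw [s3 W V V, s3' V W V]
      have a2 : T V W V = T V V W := s3' V W V
      have a3 : T V W W = T W W V := by rw [s3 V W W, s3' W V W]
      have a4 : T W V W = T W W V := s3' W V W
      rw [a1, a2, a3, a4] at h1 h2
      linarith
    ext V W U
    have h1 := k1 (V + W) U
    have h2 := k1 V U
    have h3 := k1 W U
    simp only [map_add, ContinuousLinearMap.add_apply] at h1
    rw [s3 W V U] at h1
    simp only [ContinuousLinearMap.zero_apply]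
    linarith

end Rt

theorem t_RT : S_RT := by
  intro E _ _ _ r p hr hb R
  obtain ⟨v0, v1, v2, v3⟩ := Rt.vanish hr hb
  have c1 := contDiff_fderiv hr
  have c2 := contDiff_fderiv c1
  have c3 := contDiff_fderiv c2
  have c4 := contDiff_fderiv c3
  have c5 := contDiff_fderiv c4
  set ρ : ℝ := R + ‖p‖ with hρ
  obtain ⟨K4, hK4⟩ := Rt.bdd c4 p ρ
  obtain ⟨K5, hK5⟩ := Rt.bdd c5 p ρ
  set K : ℝ := max (max K4 K5) 0 with hK
  have hK0 : 0 ≤ K := le_max_right _ _
  have b4 := hK4 K ((le_max_left _ _).trans (le_max_left _ _))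
  have b5 := hK5 K ((le_max_right _ _).trans (le_max_left _ _))
  have m3 := Rt.mv0 c3 v3 hK0 (ρ := ρ) b4
  have m2 := Rt.mv c2 v2 hK0 1 (ρ := ρ) m3
  have m1 := Rt.mv c1 v1 hK0 2 (ρ := ρ) m2
  have m0 := Rt.mv hr v0 hK0 3 (ρ := ρ) m1
  refine ⟨K, hK0, fun M hM => ?_⟩
  have hMp : ‖M - p‖ ≤ ρ := (norm_sub_le _ _).trans (by linarith)
  refine ⟨m0 M hMp, fun V => ?_, fun V V' => ?_, fun V V' => ?_⟩
  · exact ((fderiv ℝ r M).le_opNorm V).trans
      (mul_le_mul_of_nonneg_right (m1 M hMp) (norm_nonneg _))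
  · refine ((fderiv ℝ (fderiv ℝ r) M).le_opNorm₂ V V').trans ?_
    exact mul_le_mul_of_nonneg_right (mul_le_mul_of_nonneg_right (m2 M hMp) (norm_nonneg _))
      (norm_nonneg _)
  · set W : E := M - p with hW
    have hline : ∀ t : ℝ, HasDerivAt (fun t : ℝ => p + t • W) W t := fun t => by
      simpa using ((hasDerivAt_id t).smul_const W).const_add p
    have cg := contDiff_dr2 hr V V'
    have q1 : ∀ t : ℝ, dr1 (fun M => dr2 r M V V') (p + t • W) W =
        fderiv ℝ (fderiv ℝ (fderiv ℝ r)) (p + t • W) W V V' := fun t =>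
      (hasDerivAt_comp cg (hline t)).unique (Rt.app (Rt.app (Rt.line c2 p W t) V) V')
    have q2 : dr4 r p V V' W W = fderiv ℝ (fderiv ℝ (fderiv ℝ (fderiv ℝ r))) p W W V V' := by
      have h1 := hasDerivAt_dr1 cg (hline 0) (hasDerivAt_const (0 : ℝ) W)
      have h2 : (fun t : ℝ => dr1 (fun M => dr2 r M V V') (p + t • W) W) =
          fun t : ℝ => fderiv ℝ (fderiv ℝ (fderiv ℝ r)) (p + t • W) W V V' := funext q1
      rw [h2] at h1
      have h3 := h1.unique (Rt.app (Rt.app (Rt.app (Rt.line c3 p W 0) W) V) V')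
      simpa [dr4, dr1] using h3
    have n := Rt.tay2 c2 v2 v3 hK0 (ρ := ρ)
      (fun M W hM => Rt.n1 _ W (Rt.n1 _ W (Rt.n1 _ W (b5 M hM)))) M hMp
    have n3 := Rt.n1 _ V' (Rt.n1 _ V n)
    rw [q2]
    exact n3

end Pool.Agent.H735U
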