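import Mathlib
import Pool.Agent.H735U.Stm
import Pool.Agent.Y454.AF.Tay2

set_option autoImplicit false
set_option linter.unusedVariables false

open MeasureTheory Matrix Filter
open scoped Matrix.Norms.Frobenius Topology ContDiff
open Pool.Agent.Y16.Gluon Pool.Agent.Y16.AF

namespace Pool.Agent.H735U

namespace Ta1

variable {N : ℕ} {G : Subgroup (UU N)}

open Pool.Agent.Y454.AF in
theorem pm_norm (g : Fin 4 → G) : ‖pm g‖ ≤ N + 1 := by
  have h : pm g = mt (g 0 * g 1 * g 2 * g 3) := rfl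
  rw [h]
  exact mt_norm _

open Pool.Agent.Y454.AF in
theorem V1_norm (T : Mt N) (α τ : ℝ) (hα : |α| ≤ 1) (hτ : |τ| ≤ 1) (g : Fin 4 → G) :
    ‖V1 T α τ g‖ ≤ ‖T‖ * (N + 1) + 2 * (‖T‖ * (N + 1)) * (N + 1) := by
  have h0 : (0 : ℝ) ≤ N + 1 := by positivity
  have hT := norm_nonneg T
  have hp := pm_norm g
  have h123 : ‖mt (g 1) * mt (g 2) * mt (g 3)‖ ≤ N + 1 := by
    have h : mt (g 1) * mt (g 2) * mt (g 3) = mt (g 1 * g 2 * g 3) := rfl
    rw [h]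
    exact mt_norm _
  have hg0 := mt_norm (g 0)
  have h1 : ‖T * pm g‖ ≤ ‖T‖ * (N + 1) :=
    (Matrix.frobenius_norm_mul _ _).trans (mul_le_mul_of_nonneg_left hp hT)
  have h2 : ‖T * mt (g 0) - mt (g 0) * T‖ ≤ 2 * (‖T‖ * (N + 1)) := by
    have h3 : ‖T * mt (g 0)‖ ≤ ‖T‖ * (N + 1) :=
      (Matrix.frobenius_norm_mul _ _).trans (mul_le_mul_of_nonneg_left hg0 hT)
    have h4 : ‖mt (g 0) * T‖ ≤ ‖T‖ * (N + 1) := by
      refine (Matrix.frobenius_norm_mul _ _).trans ?_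
      rw [mul_comm]
      exact mul_le_mul_of_nonneg_left hg0 hT
    have h5 := norm_sub_le (T * mt (g 0)) (mt (g 0) * T)
    linarith
  have h6 : ‖(T * mt (g 0) - mt (g 0) * T) * (mt (g 1) * mt (g 2) * mt (g 3))‖ ≤
      2 * (‖T‖ * (N + 1)) * (N + 1) :=
    (Matrix.frobenius_norm_mul _ _).trans
      (mul_le_mul h2 h123 (norm_nonneg _) (by positivity))
  unfold V1
  refine (norm_add_le _ _).trans ?_
  rw [norm_smul, norm_smul, Real.norm_eq_abs, Real.norm_eq_abs]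
  have h7 : |α| * ‖T * pm g‖ ≤ 1 * (‖T‖ * (N + 1)) :=
    mul_le_mul hα h1 (norm_nonneg _) zero_le_one
  have h8 : |τ| * ‖(T * mt (g 0) - mt (g 0) * T) * (mt (g 1) * mt (g 2) * mt (g 3))‖ ≤
      1 * (2 * (‖T‖ * (N + 1)) * (N + 1)) :=
    mul_le_mul hτ h6 (norm_nonneg _) zero_le_one
  linarith

end Ta1

open Pool.Agent.Y454.AF in
theorem t_TAY1R : S_TAY1R := by
  intro hRT N G hG r hr T
  obtain ⟨C, hC0, hC⟩ := hRT (Mt N) r 1 hr.smooth hr.van (N + 1)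
  obtain ⟨c, hc⟩ := Asymptotics.isBigO_top.1 (zz_O (G := G))
  set K : ℝ := ‖T‖ * (N + 1) + 2 * (‖T‖ * (N + 1)) * (N + 1) with hK
  have hK0 : 0 ≤ K := by positivity
  refine ⟨6 * (C * (|c| * 4) ^ 3 * K), ?_⟩
  intro L _ hL U
  have hr0 : 0 ≤ rr U := rr_nonneg U
  have h2 : ∀ p : Pq L, |D1r r T (al L p.2.2) (ta p.2.1 p.2.2) (lg (fx U) p)| ≤
      C * (|c| * 4 * rr U) ^ 3 * K := by
    intro p
    have h3 := (hC (pm (lg (fx U) p)) (Ta1.pm_norm _)).2.1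
      (V1 T (al L p.2.2) (ta p.2.1 p.2.2) (lg (fx U) p))
    have h4 : ‖pm (lg (fx U) p) - 1‖ ≤ |c| * 4 * rr U := by
      have h5 := hc (lg (fx U) p)
      have h6 := dd_le U p
      have h7 := dd_nonneg (lg (fx U) p)
      have h8 : zz (lg (fx U) p) = pm (lg (fx U) p) - 1 := rfl
      rw [h8, Real.norm_of_nonneg h7] at h5
      have h9 : c * dd (lg (fx U) p) ≤ |c| * (4 * rr U) :=
        mul_le_mul (le_abs_self c) h6 h7 (abs_nonneg c)
      linarith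
    have h5 := Ta1.V1_norm T _ _ (al_le (L := L) p.2.2) (ta_le (L := L) p.2.1 p.2.2)
      (lg (fx U) p)
    refine h3.trans ?_
    have h6 : ‖pm (lg (fx U) p) - 1‖ ^ 3 ≤ (|c| * 4 * rr U) ^ 3 :=
      pow_le_pow_left₀ (norm_nonneg _) h4 3
    exact mul_le_mul (mul_le_mul_of_nonneg_left h6 hC0) h5 (norm_nonneg _) (by positivity)
  unfold S1r
  refine (Finset.abs_sum_le_sum_abs _ _).trans ?_
  refine (Finset.sum_le_sum fun p _ => h2 p).trans (le_of_eq ?_)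
  rw [Finset.sum_const, Finset.card_univ, card_Pq, nsmul_eq_mul]
  push_cast
  ring

end Pool.Agent.H735U

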