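import Mathlib
import Pool.Agent.H735U.Stm
import Pool.Agent.Y454.AF.Tay2

/-
Project UNI (helper735, MP_7f377f_mp = Yang-Mills, weight 100): universality of asymptotic freedom, the lattice Yang-Mills theory with a
general plaquette energy s(g) = Re tr (1 - g) + r(g). It extends the starting result AsymptoticFreedom (Pool/Agent/Y16/AF/* and the job files
Pool/Agent/Y*/AF/*). Statements: Pool/Agent/H735U/{Gen,Defs,Stm,Stm2,Stm3}.lean on origin/main (copy the imported modules and everything they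
import to the same paths; everything is on origin/main; `lake build <module>`).
TARGET: prove the theorem below, statement unchanged, no sorry, no axioms. Put auxiliary lemmas before it, in the sub-namespace used here.
Paste the full file back as result. Please compile with `lake build` or with -DmaxHeartbeats=4000000 (the package option), not `lake env lean`
defaults. If the statement is false or unclear: status='problem' and say why, or message helper735.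
REMARK on instances: for Mt N = Matrix (Fin N) (Fin N) C with the Frobenius norm, the Matrix topology and the topology of the norm are equal
by rfl, but not at reducible transparency, so e.g. `Norm (Mt N ->L[R] R)` and `NormedAddCommGroup (Mt N ->L[R] R)` are not found. Therefore
derivatives are used through dr1, dr2, dr4 (Gen.lean, for a general normed space E; hasDerivAt_comp, hasDerivAt_dr1, contDiff_dr1, contDiff_dr2, dr2_comm, dr4_*).
Prove analytic facts for a general E and apply them to Mt N.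

PROOF.
Write al = al L p.2.2, F = pm (lg (fx U) p). D2r = dr2 r F V1 V1 + dr1 r F V2. By S_RT (E = Mt N, p = 1, R = sqrt N, ‖mt g‖ = sqrt N): dr1 r F V2 = O(rr^3), and V1 = al T + O(rr) (V1 = al T F + ta (T g0 - g0 T)(...), T g0 - g0 T = T (g0 - 1) - (g0 - 1) T, |al|, |ta| <= 1), so
dr2 r F V1 V1 = al^2 dr2 r F T T + O(rr^2 rr) and dr2 r F T T = 1/2 dr4 r 1 T T (F-1) (F-1) + O(rr^3). F - 1 = Phi + O(rr^2), Phi = sum of the four cA' B (g_i) (zz_A in Pool/Agent/Y454/AF/Plq.lean, cA' B g = sum_a co B g a X_a; ‖F - 1‖ <= 4 rr, ‖Phi‖ = O(rr)), so 1/2 dr4 r 1 T T (F-1)(F-1) = 1/2 dr4 r 1 T T Phi Phi + O(rr^3)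
(dr4 r 1 T T is a bounded bilinear form in the last two arguments). al^2 = 1/L^4 for p.2.2 = inl 0 and 0 otherwise (al_sq in Pool/Agent/Y454/AF/Tay2.lean). The sum over the plaquettes of al^2 dr4 r 1 T T Phi Phi is the quadratic form in the statement: as sum_qf, coef_eq, co_lg (co B (lg (fx U) p i) a = sum over the
dynamical links w of inc p i w co B (U w) a) in Tay2.lean; H01 is the sum over the plaquettes with p.2.2 = inl 0 of inc p i w inc p j w'. The error terms are summed over the 6 L^4 plaquettes; rr may be large, but all the estimates above hold without smallness (everything is bounded by powers of ‖g_i - 1‖ <= min (rr, 2 sqrt N)).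
-/

set_option autoImplicit false
set_option linter.unusedVariables false

open MeasureTheory Matrix Filter
open scoped Matrix.Norms.Frobenius Topology ContDiff
open Pool.Agent.Y16.Gluon Pool.Agent.Y16.AF

namespace Pool.Agent.H735U

namespace Ta2

-- auxiliary lemmas

section gen

variable {E : Type*} [NormedAddCommGroup E] [NormedSpace ℝ E]

theorem dr2_bound (ρ : E → ℝ) (M : E) :
    ∃ K : ℝ, 0 ≤ K ∧ ∀ Z Z' : E, |dr2 ρ M Z Z'| ≤ K * ‖Z‖ * ‖Z'‖ := by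
  refine ⟨‖fderiv ℝ (fderiv ℝ ρ) M‖, (fderiv ℝ (fderiv ℝ ρ) M).opNorm_nonneg, fun Z Z' => ?_⟩
  have h1 := (fderiv ℝ (fderiv ℝ ρ) M Z).le_opNorm Z'
  have h2 := (fderiv ℝ (fderiv ℝ ρ) M).le_opNorm Z
  rw [Real.norm_eq_abs] at h1
  refine h1.trans ?_
  exact mul_le_mul_of_nonneg_right h2 (norm_nonneg _)

theorem dr2_sub_left (r : E → ℝ) (M V W V' : E) :
    dr2 r M (V - W) V' = dr2 r M V V' - dr2 r M W V' := by
  simp [dr2]

theorem dr2_sub_right (r : E → ℝ) (M V V' W' : E) :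
    dr2 r M V (V' - W') = dr2 r M V V' - dr2 r M V W' := by
  simp [dr2]

theorem gen_tay {r : E → ℝ} {p T F V W V2 Φ : E} {C K a b c e f D d α : ℝ} (hC0 : 0 ≤ C)
    (hK0 : 0 ≤ K) (hd0 : 0 ≤ d) (hdD : d ≤ D) (ha0 : 0 ≤ a) (hb0 : 0 ≤ b) (hc0 : 0 ≤ c)
    (he0 : 0 ≤ e) (hf0 : 0 ≤ f) (hα : |α| ≤ 1)
    (H1 : ∀ V : E, |dr1 r F V| ≤ C * ‖F - p‖ ^ 3 * ‖V‖)
    (H2 : ∀ V V' : E, |dr2 r F V V'| ≤ C * ‖F - p‖ ^ 2 * ‖V‖ * ‖V'‖)
    (H3 : ∀ V V' : E, |dr2 r F V V' - 1 / 2 * dr4 r p V V' (F - p) (F - p)| ≤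
        C * ‖F - p‖ ^ 3 * ‖V‖ * ‖V'‖)
    (HK : ∀ Z Z' : E, |dr4 r p T T Z Z'| ≤ K * ‖Z‖ * ‖Z'‖)
    (hF : ‖F - p‖ ≤ a * d) (hV : V = α • T + W) (hW : ‖W‖ ≤ b * d) (hV2 : ‖V2‖ ≤ c)
    (hΦ : ‖F - p - Φ‖ ≤ e * d ^ 2) (hΦ2 : ‖Φ‖ ≤ f * d) :
    |dr2 r F V V + dr1 r F V2 - α ^ 2 * (1 / 2 * dr4 r p T T Φ Φ)| ≤
      (C * a ^ 3 * c + C * a ^ 2 * (2 * ‖T‖ * b + b ^ 2 * D) + C * a ^ 3 * ‖T‖ ^ 2 +
        K * e * (a + f)) * d ^ 3 := by
  have hT0 := norm_nonneg T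
  have hα2 : |α ^ 2| ≤ 1 := by
    rw [abs_pow]
    exact pow_le_one₀ (abs_nonneg _) hα
  have t1 : |dr1 r F V2| ≤ C * a ^ 3 * c * d ^ 3 := by
    calc |dr1 r F V2| ≤ C * ‖F - p‖ ^ 3 * ‖V2‖ := H1 V2
      _ ≤ C * (a * d) ^ 3 * c := by gcongr
      _ = _ := by ring
  have q1 : |dr2 r F T W| ≤ C * a ^ 2 * ‖T‖ * b * d ^ 3 := by
    calc |dr2 r F T W| ≤ C * ‖F - p‖ ^ 2 * ‖T‖ * ‖W‖ := H2 T W
      _ ≤ C * (a * d) ^ 2 * ‖T‖ * (b * d) := by gcongr
      _ = _ := by ring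
  have q2 : |dr2 r F W T| ≤ C * a ^ 2 * ‖T‖ * b * d ^ 3 := by
    calc |dr2 r F W T| ≤ C * ‖F - p‖ ^ 2 * ‖W‖ * ‖T‖ := H2 W T
      _ ≤ C * (a * d) ^ 2 * (b * d) * ‖T‖ := by gcongr
      _ = _ := by ring
  have q3 : |dr2 r F W W| ≤ C * a ^ 2 * b ^ 2 * D * d ^ 3 := by
    calc |dr2 r F W W| ≤ C * ‖F - p‖ ^ 2 * ‖W‖ * ‖W‖ := H2 W W
      _ ≤ C * (a * d) ^ 2 * (b * d) * (b * d) := by gcongr
      _ = C * a ^ 2 * b ^ 2 * d * d ^ 3 := by ring
      _ ≤ _ := by gcongr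
  have e1 : dr2 r F V V = α ^ 2 * dr2 r F T T + α * dr2 r F T W + α * dr2 r F W T
      + dr2 r F W W := by
    rw [hV]
    simp only [dr2_add_left, dr2_add_right, dr2_smul_left, dr2_smul_right]
    ring
  have q1' : |α * dr2 r F T W| ≤ C * a ^ 2 * ‖T‖ * b * d ^ 3 := by
    rw [abs_mul]
    calc |α| * |dr2 r F T W| ≤ 1 * |dr2 r F T W| :=
          mul_le_mul_of_nonneg_right hα (abs_nonneg _)
      _ ≤ _ := by rw [one_mul]; exact q1
  have q2' : |α * dr2 r F W T| ≤ C * a ^ 2 * ‖T‖ * b * d ^ 3 := by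
    rw [abs_mul]
    calc |α| * |dr2 r F W T| ≤ 1 * |dr2 r F W T| :=
          mul_le_mul_of_nonneg_right hα (abs_nonneg _)
      _ ≤ _ := by rw [one_mul]; exact q2
  have t3 : |α ^ 2 * (dr2 r F T T - 1 / 2 * dr4 r p T T (F - p) (F - p))| ≤
      C * a ^ 3 * ‖T‖ ^ 2 * d ^ 3 := by
    rw [abs_mul]
    calc |α ^ 2| * |dr2 r F T T - 1 / 2 * dr4 r p T T (F - p) (F - p)|
        ≤ 1 * (C * ‖F - p‖ ^ 3 * ‖T‖ * ‖T‖) :=
          mul_le_mul hα2 (H3 T T) (abs_nonneg _) zero_le_one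
      _ ≤ 1 * (C * (a * d) ^ 3 * ‖T‖ * ‖T‖) := by gcongr
      _ = _ := by ring
  have e4 : dr4 r p T T (F - p) (F - p) - dr4 r p T T Φ Φ =
      dr4 r p T T (F - p - Φ) (F - p) + dr4 r p T T Φ (F - p - Φ) := by
    unfold dr4
    generalize F - p = Z
    rw [dr2_sub_left, dr2_sub_right]
    ring
  have q4 : |dr4 r p T T (F - p - Φ) (F - p)| ≤ K * e * a * d ^ 3 := by
    calc |dr4 r p T T (F - p - Φ) (F - p)| ≤ K * ‖F - p - Φ‖ * ‖F - p‖ := HK _ _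
      _ ≤ K * (e * d ^ 2) * (a * d) := by gcongr
      _ = _ := by ring
  have q5 : |dr4 r p T T Φ (F - p - Φ)| ≤ K * e * f * d ^ 3 := by
    calc |dr4 r p T T Φ (F - p - Φ)| ≤ K * ‖Φ‖ * ‖F - p - Φ‖ := HK _ _
      _ ≤ K * (f * d) * (e * d ^ 2) := by gcongr
      _ = _ := by ring
  have t4 : |α ^ 2 * (1 / 2 * (dr4 r p T T (F - p) (F - p) - dr4 r p T T Φ Φ))| ≤
      K * e * (a + f) * d ^ 3 := by
    rw [e4, abs_mul, abs_mul, abs_of_pos (show (0 : ℝ) < 1 / 2 by norm_num)]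
    have h1 := abs_add_le (dr4 r p T T (F - p - Φ) (F - p)) (dr4 r p T T Φ (F - p - Φ))
    have h2 := abs_nonneg (dr4 r p T T (F - p - Φ) (F - p) + dr4 r p T T Φ (F - p - Φ))
    calc |α ^ 2| * (1 / 2 * |dr4 r p T T (F - p - Φ) (F - p) + dr4 r p T T Φ (F - p - Φ)|)
        ≤ 1 * (1 / 2 * |dr4 r p T T (F - p - Φ) (F - p) + dr4 r p T T Φ (F - p - Φ)|) :=
          mul_le_mul_of_nonneg_right hα2 (by positivity)
      _ ≤ |dr4 r p T T (F - p - Φ) (F - p) + dr4 r p T T Φ (F - p - Φ)| := by linarith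
      _ ≤ K * e * a * d ^ 3 + K * e * f * d ^ 3 := by linarith
      _ = _ := by ring
  have e5 : dr2 r F V V + dr1 r F V2 - α ^ 2 * (1 / 2 * dr4 r p T T Φ Φ) =
      dr1 r F V2 + α * dr2 r F T W + α * dr2 r F W T + dr2 r F W W +
      α ^ 2 * (dr2 r F T T - 1 / 2 * dr4 r p T T (F - p) (F - p)) +
      α ^ 2 * (1 / 2 * (dr4 r p T T (F - p) (F - p) - dr4 r p T T Φ Φ)) := by
    rw [e1]; ring
  rw [e5]
  have s1 := abs_add_le (dr1 r F V2 + α * dr2 r F T W + α * dr2 r F W T + dr2 r F W W +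
      α ^ 2 * (dr2 r F T T - 1 / 2 * dr4 r p T T (F - p) (F - p)))
      (α ^ 2 * (1 / 2 * (dr4 r p T T (F - p) (F - p) - dr4 r p T T Φ Φ)))
  have s2 := abs_add_le (dr1 r F V2 + α * dr2 r F T W + α * dr2 r F W T + dr2 r F W W)
      (α ^ 2 * (dr2 r F T T - 1 / 2 * dr4 r p T T (F - p) (F - p)))
  have s3 := abs_add_le (dr1 r F V2 + α * dr2 r F T W + α * dr2 r F W T) (dr2 r F W W)
  have s4 := abs_add_le (dr1 r F V2 + α * dr2 r F T W) (α * dr2 r F W T)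
  have s5 := abs_add_le (dr1 r F V2) (α * dr2 r F T W)
  have s6 : (C * a ^ 3 * c + C * a ^ 2 * (2 * ‖T‖ * b + b ^ 2 * D) + C * a ^ 3 * ‖T‖ ^ 2 +
        K * e * (a + f)) * d ^ 3 = C * a ^ 3 * c * d ^ 3 + C * a ^ 2 * ‖T‖ * b * d ^ 3 +
        C * a ^ 2 * ‖T‖ * b * d ^ 3 + C * a ^ 2 * b ^ 2 * D * d ^ 3 +
        C * a ^ 3 * ‖T‖ ^ 2 * d ^ 3 + K * e * (a + f) * d ^ 3 := by ring
  rw [s6]
  linarith

end gen

noncomputable section

open Pool.Agent.Y454.AF Asymptotics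

variable {N n : ℕ} {G : Subgroup (UU N)}

theorem O_const {f : (Fin 4 → G) → Mt N} {u : (Fin 4 → G) → ℝ} (hu : ∀ g, 0 ≤ u g)
    (h : f =O[⊤] u) : ∃ C : ℝ, 0 ≤ C ∧ ∀ g, ‖f g‖ ≤ C * u g := by
  obtain ⟨C, hC⟩ := isBigO_top.1 h
  refine ⟨|C|, abs_nonneg _, fun g => (hC g).trans ?_⟩
  rw [Real.norm_of_nonneg (hu g)]
  exact mul_le_mul_of_nonneg_right (le_abs_self C) (hu g)

theorem pm_eq (g : Fin 4 → G) : pm g - 1 = zz g := rfl

theorem tri_O : (fun g : Fin 4 → G => mt (g 1) * mt (g 2) * mt (g 3)) =O[⊤]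
    (fun _ => (1 : ℝ)) :=
  mul_O (mul_O (g_O 1) (g_O 2) fun _ => one_mul _) (g_O 3) fun _ => one_mul _

theorem pm_O : (fun g : Fin 4 → G => pm g) =O[⊤] (fun _ => (1 : ℝ)) :=
  mul_O (mul_O (mul_O (g_O 0) (g_O 1) fun _ => one_mul _) (g_O 2) fun _ => one_mul _) (g_O 3)
    fun _ => one_mul _

theorem W1_O (T : Mt N) : (fun g : Fin 4 → G => T * zz g) =O[⊤] (fun g => dd g) :=
  lin_O (LinearMap.mulLeft ℝ T) zz_O

theorem W2_O (T : Mt N) : (fun g : Fin 4 → G => Jl T (mt (g 0) - 1) *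
    (mt (g 1) * mt (g 2) * mt (g 3))) =O[⊤] (fun g => dd g) :=
  mul_O (lin_O (Jl T) (x_O 0)) tri_O fun _ => mul_one _

theorem V1_eq (T : Mt N) (α τ : ℝ) (g : Fin 4 → G) : V1 T α τ g = α • T +
    (α • (T * zz g) + τ • (Jl T (mt (g 0) - 1) * (mt (g 1) * mt (g 2) * mt (g 3)))) := by
  have h1 : T * mt (g 0) - mt (g 0) * T = Jl T (mt (g 0) - 1) := by
    rw [Jl_apply]
    noncomm_ring
  have h2 : T * pm g = T + T * zz g := by
    rw [← pm_eq]
    noncomm_ring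
  unfold V1
  rw [h1, h2, smul_add, add_assoc]

theorem V2_O1 (T : Mt N) : (fun g : Fin 4 → G => T * T * pm g) =O[⊤] (fun _ => (1 : ℝ)) :=
  lin_O (LinearMap.mulLeft ℝ (T * T)) pm_O

theorem V2_O2 (T : Mt N) : (fun g : Fin 4 → G => T * (T * mt (g 0) - mt (g 0) * T) *
      (mt (g 1) * mt (g 2) * mt (g 3))) =O[⊤] (fun _ => (1 : ℝ)) :=
  mul_O (lin_O (LinearMap.mulLeft ℝ T ∘ₗ Jl T) (g_O 0)) tri_O fun _ => mul_one _

theorem V2_O3 (T : Mt N) : (fun g : Fin 4 → G => (T * (T * mt (g 0) - mt (g 0) * T) -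
      (T * mt (g 0) - mt (g 0) * T) * T) *
      (mt (g 1) * mt (g 2) * mt (g 3))) =O[⊤] (fun _ => (1 : ℝ)) :=
  mul_O (lin_O (JJ T) (g_O 0)) tri_O fun _ => mul_one _

/-- the expansion for a plaquette -/
theorem plqR (hRT : S_RT) (hG : IsClosed (G : Set (UU N))) {r : Mt N → ℝ} (hr : Adm G r)
    (B : LieBasis G n) (T : Mt N) :
    ∃ C : ℝ, 0 ≤ C ∧ ∀ (g : Fin 4 → G) (α τ : ℝ), |α| ≤ 1 → |τ| ≤ 1 →
      |D2r r T α τ g - α ^ 2 * (1 / 2 * dr4 r 1 T T (∑ i, cA' B (g i)) (∑ i, cA' B (g i)))| ≤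
        C * dd g ^ 3 := by
  have hdd : ∀ g : Fin 4 → G, 0 ≤ dd g := dd_nonneg
  obtain ⟨R, hR0, hR⟩ := O_const (fun _ => zero_le_one) (pm_O (G := G))
  obtain ⟨C, hC0, hC⟩ := hRT (Mt N) r 1 hr.smooth hr.van R
  obtain ⟨K, hK0, hK⟩ := dr2_bound (fun M => dr2 r M T T) 1
  obtain ⟨a, ha0, ha⟩ := O_const hdd (zz_O (G := G))
  obtain ⟨b1, hb10, hb1⟩ := O_const hdd (W1_O (G := G) T)
  obtain ⟨b2, hb20, hb2⟩ := O_const hdd (W2_O (G := G) T)
  obtain ⟨c1, hc10, hc1⟩ := O_const (fun _ => zero_le_one) (V2_O1 (G := G) T)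
  obtain ⟨c2, hc20, hc2⟩ := O_const (fun _ => zero_le_one) (V2_O2 (G := G) T)
  obtain ⟨c3, hc30, hc3⟩ := O_const (fun _ => zero_le_one) (V2_O3 (G := G) T)
  obtain ⟨e, he0, he⟩ := O_const (fun g => pow_nonneg (hdd g) 2) (zz_A hG B)
  obtain ⟨f, hf0, hf⟩ := O_const hdd (S_O hG B)
  obtain ⟨D, hD⟩ := isBigO_top.1 (dd_O_one (G := G))
  have hD' : ∀ g : Fin 4 → G, dd g ≤ |D| := fun g => by
    have h := hD g
    rw [norm_one, mul_one, Real.norm_of_nonneg (hdd g)] at h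
    exact h.trans (le_abs_self D)
  refine ⟨C * a ^ 3 * (c1 + 2 * c2 + c3) + C * a ^ 2 * (2 * ‖T‖ * (b1 + b2) +
    (b1 + b2) ^ 2 * |D|) + C * a ^ 3 * ‖T‖ ^ 2 + K * e * (a + f), by positivity, ?_⟩
  intro g α τ hα hτ
  obtain ⟨_, H1, H2, H3⟩ := hC (pm g) (by have := hR g; rwa [mul_one] at this)
  have hα2 : |α ^ 2| ≤ 1 := by
    rw [abs_pow]
    exact pow_le_one₀ (abs_nonneg _) hα
  have hτ2 : |τ ^ 2| ≤ 1 := by
    rw [abs_pow]
    exact pow_le_one₀ (abs_nonneg _) hτ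
  have hατ : |2 * (α * τ)| ≤ 2 := by
    rw [abs_mul, abs_mul, abs_two]
    have := mul_le_one₀ hα (abs_nonneg τ) hτ
    linarith
  have sm : ∀ (x : ℝ) (M : Mt N) (k y : ℝ), |x| ≤ k → ‖M‖ ≤ y → 0 ≤ k → ‖x • M‖ ≤ k * y := by
    intro x M k y h1 h2 h3
    rw [norm_smul, Real.norm_eq_abs]
    exact mul_le_mul h1 h2 (norm_nonneg _) h3
  have hW : ‖α • (T * zz g) + τ • (Jl T (mt (g 0) - 1) * (mt (g 1) * mt (g 2) * mt (g 3)))‖ ≤
      (b1 + b2) * dd g := by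
    refine (norm_add_le _ _).trans ?_
    have h1 := sm α (T * zz g) 1 _ hα (hb1 g) zero_le_one
    have h2 := sm τ (Jl T (mt (g 0) - 1) * (mt (g 1) * mt (g 2) * mt (g 3))) 1 _ hτ (hb2 g)
      zero_le_one
    linarith
  have hV2 : ‖V2 T α τ g‖ ≤ c1 + 2 * c2 + c3 := by
    unfold V2
    refine (norm_add_le _ _).trans ?_
    have h0 := norm_add_le (α ^ 2 • (T * T * pm g)) ((2 * (α * τ)) •
      (T * (T * mt (g 0) - mt (g 0) * T) * (mt (g 1) * mt (g 2) * mt (g 3))))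
    have h1 := sm (α ^ 2) _ 1 _ hα2 (hc1 g) zero_le_one
    have h2 := sm (2 * (α * τ)) _ 2 _ hατ (hc2 g) zero_le_two
    have h3 := sm (τ ^ 2) _ 1 _ hτ2 (hc3 g) zero_le_one
    linarith
  exact gen_tay (E := Mt N) (r := r) (p := 1) (T := T) (F := pm g) (V := V1 T α τ g)
    (W := α • (T * zz g) + τ • (Jl T (mt (g 0) - 1) * (mt (g 1) * mt (g 2) * mt (g 3))))
    (V2 := V2 T α τ g) (Φ := ∑ i, cA' B (g i)) (b := b1 + b2) hC0 hK0 (hdd g) (hD' g) ha0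
    (by positivity) (by positivity) he0 hf0 hα H1 H2 H3 hK (ha g) (V1_eq T α τ g) hW hV2
    (he g) (hf g)

/-! ### The quadratic form -/

theorem dr4_form (B : LieBasis G n) (r : Mt N → ℝ) (T : Mt N) (g : Fin 4 → G) :
    dr4 r 1 T T (∑ i, cA' B (g i)) (∑ i, cA' B (g i)) =
      ∑ k, ∑ l, ∑ a, ∑ b, qM B r T a b * (co B (g k) a * co B (g l) b) := by
  have h1 : ∀ k l, dr4 r 1 T T (cA' B (g k)) (cA' B (g l)) =
      ∑ a, ∑ b, qM B r T a b * (co B (g k) a * co B (g l) b) := by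
    intro k l
    unfold dr4 cA'
    rw [dr2_sum_left]
    refine Finset.sum_congr rfl fun a _ => ?_
    rw [dr2_sum_right]
    refine Finset.sum_congr rfl fun b _ => ?_
    rw [dr2_smul_left, dr2_smul_right]
    show _ = dr2 (fun M => dr2 r M T T) 1 (B.X a) (B.X b) * _
    ring
  rw [show dr4 r 1 T T (∑ i, cA' B (g i)) (∑ i, cA' B (g i)) =
    ∑ k, ∑ l, dr4 r 1 T T (cA' B (g k)) (cA' B (g l)) by
      unfold dr4
      rw [dr2_sum_left]
      refine Finset.sum_congr rfl fun k _ => ?_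
      rw [dr2_sum_right]]
  refine Finset.sum_congr rfl fun k _ => Finset.sum_congr rfl fun l _ => ?_
  exact h1 k l

variable {L : ℕ} [NeZero L]

theorem coefR (q : Fin n → Fin n → ℝ) (w w' : Dy L) (a b : Fin n) :
    1 / (L : ℝ) ^ 4 * rs (H01 (L := L)) w w' * q a b =
      ∑ p : Pq L, ∑ k, ∑ l, inc p k w.1 * inc p l w'.1 * (al L p.2.2 ^ 2 * q a b) := by
  show 1 / (L : ℝ) ^ 4 * H01 w.1 w'.1 * q a b = _
  unfold H01
  simp only [Finset.sum_mul, Finset.mul_sum]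
  refine Finset.sum_congr rfl fun p _ => ?_
  refine Finset.sum_congr rfl fun k _ => ?_
  refine Finset.sum_congr rfl fun l _ => ?_
  rw [al_sq]
  split_ifs
  · ring
  · ring

theorem sum_qR (B : LieBasis G n) (q : Fin n → Fin n → ℝ) (U : Links L → G) :
    ∑ p : Pq L, al L p.2.2 ^ 2 * (1 / 2 * ∑ k, ∑ l, ∑ a, ∑ b, q a b *
      (co B (lg (fx U) p k) a * co B (lg (fx U) p l) b)) =
      1 / 2 * ∑ i : Dy L × Fin n, ∑ j : Dy L × Fin n,
        (1 / (L : ℝ) ^ 4 * rs (H01 (L := L)) i.1 j.1 * q i.2 j.2) *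
          (cA B U i * cA B U j) := by
  have h1 : ∀ (p : Pq L) (k l : Fin 4), ∑ a, ∑ b, (al L p.2.2 ^ 2 * q a b) *
      (co B (lg (fx U) p k) a * co B (lg (fx U) p l) b) =
      ∑ i : Dy L × Fin n, ∑ j : Dy L × Fin n,
        inc p k i.1.1 * inc p l j.1.1 * (al L p.2.2 ^ 2 * q i.2 j.2) *
          (cA B U i * cA B U j) := by
    intro p k l
    rw [Fintype.sum_prod_type_right]
    refine Finset.sum_congr rfl fun a _ => ?_
    have h2 : ∀ w : Dy L, ∑ j : Dy L × Fin n, inc p k w.1 * inc p l j.1.1 *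
        (al L p.2.2 ^ 2 * q a j.2) * (cA B U (w, a) * cA B U j) =
        ∑ b, ∑ w' : Dy L, inc p k w.1 * inc p l w'.1 *
        (al L p.2.2 ^ 2 * q a b) * (cA B U (w, a) * cA B U (w', b)) := fun w =>
      Fintype.sum_prod_type_right _
    simp only [h2]
    rw [Finset.sum_comm]
    refine Finset.sum_congr rfl fun b _ => ?_
    rw [co_lg, co_lg, Finset.sum_mul_sum, Finset.mul_sum]
    refine Finset.sum_congr rfl fun w _ => ?_
    rw [Finset.mul_sum]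
    refine Finset.sum_congr rfl fun w' _ => ?_
    ring
  have h3 : ∀ p : Pq L, al L p.2.2 ^ 2 * (1 / 2 * ∑ k, ∑ l, ∑ a, ∑ b, q a b *
      (co B (lg (fx U) p k) a * co B (lg (fx U) p l) b)) =
      1 / 2 * ∑ k, ∑ l, ∑ i : Dy L × Fin n, ∑ j : Dy L × Fin n,
        inc p k i.1.1 * inc p l j.1.1 * (al L p.2.2 ^ 2 * q i.2 j.2) *
          (cA B U i * cA B U j) := by
    intro p
    simp only [← h1]
    rw [← mul_assoc, mul_comm (al L p.2.2 ^ 2) (1 / 2), mul_assoc]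
    congr 1
    simp only [Finset.mul_sum, mul_assoc]
  simp only [h3, coefR, Finset.sum_mul]
  rw [← Finset.mul_sum]
  congr 1
  exact (swap5 (fun (i j : Dy L × Fin n) (p : Pq L) (k l : Fin 4) =>
    inc p k i.1.1 * inc p l j.1.1 * (al L p.2.2 ^ 2 * q i.2 j.2) *
      (cA B U i * cA B U j))).symm

end

end Ta2

theorem t_TAY2R : S_TAY2R := by
  intro hRT N n G hG r hr B T
  obtain ⟨C, hC, h⟩ := Ta2.plqR hRT hG hr B T
  refine ⟨6 * (C * 4 ^ 3), ?_⟩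
  intro L _ hL U
  have h1 : S2r r T U - 1 / 2 * ∑ i : Dy L × Fin n, ∑ j : Dy L × Fin n,
        (1 / (L : ℝ) ^ 4 * rs (H01 (L := L)) i.1 j.1 * qM B r T i.2 j.2) *
          (cA B U i * cA B U j) = ∑ p : Pq L, (D2r r T (al L p.2.2) (ta p.2.1 p.2.2)
          (lg (fx U) p) - al L p.2.2 ^ 2 * (1 / 2 * dr4 r 1 T T
          (∑ i, Pool.Agent.Y454.AF.cA' B (lg (fx U) p i))
          (∑ i, Pool.Agent.Y454.AF.cA' B (lg (fx U) p i)))) := by
    rw [Finset.sum_sub_distrib]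
    simp only [Ta2.dr4_form]
    rw [Ta2.sum_qR B (fun a b => qM B r T a b) U]
    rfl
  rw [h1]
  refine (Finset.abs_sum_le_sum_abs _ _).trans ?_
  have h2 : ∀ p : Pq L, |D2r r T (al L p.2.2) (ta p.2.1 p.2.2)
          (lg (fx U) p) - al L p.2.2 ^ 2 * (1 / 2 * dr4 r 1 T T
          (∑ i, Pool.Agent.Y454.AF.cA' B (lg (fx U) p i))
          (∑ i, Pool.Agent.Y454.AF.cA' B (lg (fx U) p i)))| ≤
      C * (4 * rr U) ^ 3 := by
    intro p
    refine (h _ _ _ (Pool.Agent.Y454.AF.al_le _) (Pool.Agent.Y454.AF.ta_le _ _)).trans ?_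
    have h3 := Pool.Agent.Y454.AF.dd_nonneg (lg (fx U) p)
    have h4 := Pool.Agent.Y454.AF.dd_le U p
    gcongr
  refine (Finset.sum_le_sum fun p _ => h2 p).trans (le_of_eq ?_)
  rw [Finset.sum_const, Finset.card_univ, Pool.Agent.Y454.AF.card_Pq, nsmul_eq_mul]
  push_cast
  ring

end Pool.Agent.H735U
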