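import Mathlib
import Pool.Agent.H735U.Stm
import Pool.Agent.Y349.AF.TayG

/-
Project UNI (helper735, MP_7f377f_mp = Yang-Mills): the gradient of the correction.
-/

set_option autoImplicit false
set_option linter.unusedVariables false

open MeasureTheory Matrix Filter
open scoped Matrix.Norms.Frobenius Topology ContDiff
open Pool.Agent.Y16.Gluon Pool.Agent.Y16.AF

namespace Pool.Agent.H735U

namespace Tag

open Pool.Agent.Y349.AF

variable {N n L : ℕ} {G : Subgroup (UU N)}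

lemma norm_mt (g : G) : ‖mt g‖ = ‖(1 : Mt N)‖ := by
  have h := norm_mul_mt (1 : Mt N) g
  rwa [one_mul] at h

lemma pm_eq (g : Fin 4 → G) : pm g = mt (g 0 * g 1 * g 2 * g 3) := rfl

lemma norm_pm (g : Fin 4 → G) : ‖pm g‖ = ‖(1 : Mt N)‖ := by rw [pm_eq, norm_mt]

lemma pm_sub (g : Fin 4 → G) (r : ℝ) (h : ∀ i, ‖mt (g i) - 1‖ ≤ r) : ‖pm g - 1‖ ≤ 4 * r := by
  rw [pm_eq]
  have h1 := norm_mt_mul_sub (g 0 * g 1 * g 2) (g 3)
  have h2 := norm_mt_mul_sub (g 0 * g 1) (g 2)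
  have h3 := norm_mt_mul_sub (g 0) (g 1)
  have e0 := h 0
  have e1 := h 1
  have e2 := h 2
  have e3 := h 3
  linarith

lemma pm_sub' (g : Fin 4 → G) : ‖pm g - 1‖ ≤ 2 * ‖(1 : Mt N)‖ := by
  refine (norm_sub_le _ _).trans ?_
  rw [norm_pm]
  linarith

lemma norm_dl_le (B : LieBasis G n) (U : Links L → G) (p : Pq L) (i : Fin 4) (a : Fin n) :
    ‖dl B U p i a‖ ≤ 1 + ‖(1 : Mt N)‖ := by
  have h0 := norm_nonneg (1 : Mt N)
  rw [dl]
  split_ifs
  · rw [norm_mul_mt, normX]; linarith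
  · rw [norm_neg]
    refine (norm_mul_le _ _).trans ?_
    rw [normX, mul_one, norm_mt]; linarith

lemma norm_fac_le (B : LieBasis G n) (U : Links L → G) (p : Pq L) (i l : Fin 4) (a : Fin n) :
    ‖(if l = i then dl B U p i a else mt (lg (fx U) p i))‖ ≤ 1 + ‖(1 : Mt N)‖ := by
  split_ifs
  · exact norm_dl_le B U p i a
  · rw [norm_mt]; linarith

lemma norm_prod_le (A B C D : Mt N) (K : ℝ) (hA : ‖A‖ ≤ K) (hB : ‖B‖ ≤ K) (hC : ‖C‖ ≤ K)
    (hD : ‖D‖ ≤ K) : ‖A * B * C * D‖ ≤ K ^ 4 := by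
  have hK : 0 ≤ K := (norm_nonneg _).trans hA
  have h1 : ‖A * B‖ ≤ K * K := (norm_mul_le _ _).trans (mul_le_mul hA hB (norm_nonneg _) hK)
  have h2 : ‖A * B * C‖ ≤ K * K * K :=
    (norm_mul_le _ _).trans (mul_le_mul h1 hC (norm_nonneg _) (by positivity))
  have h3 : ‖A * B * C * D‖ ≤ K * K * K * K :=
    (norm_mul_le _ _).trans (mul_le_mul h2 hD (norm_nonneg _) (by positivity))
  refine h3.trans (le_of_eq ?_)
  ring

lemma term_le [NeZero L] (B : LieBasis G n) (r : Mt N → ℝ) (C : ℝ) (hC : 0 ≤ C)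
    (h : ∀ M : Mt N, ‖M‖ ≤ ‖(1 : Mt N)‖ → ∀ V : Mt N, |dr1 r M V| ≤ C * ‖M - 1‖ ^ 3 * ‖V‖)
    (U : Links L → G) (p : Pq L) (l : Fin 4) (a : Fin n) :
    |dr1 r (pm (lg (fx U) p))
        ((if l = 0 then dl B U p 0 a else mt (lg (fx U) p 0)) *
        (if l = 1 then dl B U p 1 a else mt (lg (fx U) p 1)) *
        (if l = 2 then dl B U p 2 a else mt (lg (fx U) p 2)) *
        (if l = 3 then dl B U p 3 a else mt (lg (fx U) p 3)))| ≤
      C * (32 * ‖(1 : Mt N)‖) * (1 + ‖(1 : Mt N)‖) ^ 4 * rr U ^ 2 := by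
  have hr := rr_nonneg U
  have h1 := h (pm (lg (fx U) p)) (norm_pm _).le
    ((if l = 0 then dl B U p 0 a else mt (lg (fx U) p 0)) *
        (if l = 1 then dl B U p 1 a else mt (lg (fx U) p 1)) *
        (if l = 2 then dl B U p 2 a else mt (lg (fx U) p 2)) *
        (if l = 3 then dl B U p 3 a else mt (lg (fx U) p 3)))
  have h2 := norm_prod_le _ _ _ _ _ (norm_fac_le B U p 0 l a) (norm_fac_le B U p 1 l a)
    (norm_fac_le B U p 2 l a) (norm_fac_le B U p 3 l a)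
  have h3 : ‖pm (lg (fx U) p) - 1‖ ^ 3 ≤ (32 * ‖(1 : Mt N)‖) * rr U ^ 2 := by
    have a1 := pm_sub (lg (fx U) p) (rr U) (lg_le U p)
    have a2 := pm_sub' (lg (fx U) p)
    have a0 := norm_nonneg (pm (lg (fx U) p) - 1)
    have a3 : ‖pm (lg (fx U) p) - 1‖ ^ 2 ≤ (4 * rr U) ^ 2 := pow_le_pow_left₀ a0 a1 2
    calc ‖pm (lg (fx U) p) - 1‖ ^ 3 = ‖pm (lg (fx U) p) - 1‖ * ‖pm (lg (fx U) p) - 1‖ ^ 2 := by
          ring
      _ ≤ (2 * ‖(1 : Mt N)‖) * (4 * rr U) ^ 2 :=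
          mul_le_mul a2 a3 (by positivity) (by positivity)
      _ = _ := by ring
  refine h1.trans ?_
  calc C * ‖pm (lg (fx U) p) - 1‖ ^ 3 * _ ≤
        C * ((32 * ‖(1 : Mt N)‖) * rr U ^ 2) * (1 + ‖(1 : Mt N)‖) ^ 4 :=
        mul_le_mul (mul_le_mul_of_nonneg_left h3 hC) h2 (norm_nonneg _) (by positivity)
    _ = _ := by ring

lemma card_Pq [NeZero L] : ((Fintype.card (Pq L) : ℕ) : ℝ) = 6 * (L : ℝ) ^ 4 := by
  rw [Fintype.card_prod, Fintype.card_prod, Fintype.card_sum, Fintype.card_fin, Fintype.card_fin,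
    Fintype.card_fun, Fintype.card_fin, ZMod.card]
  push_cast
  ring

end Tag

theorem t_TAYGR : S_TAYGR := by
  intro hRT N n G _ r hr B
  obtain ⟨C, hC, hh⟩ := hRT (Mt N) r 1 hr.smooth hr.van ‖(1 : Mt N)‖
  refine ⟨24 * (C * (32 * ‖(1 : Mt N)‖) * (1 + ‖(1 : Mt N)‖) ^ 4), fun L _ _ U i => ?_⟩
  have h := fun M hM => (hh M hM).2.1
  have hr := Pool.Agent.Y349.AF.rr_nonneg U
  set K := C * (32 * ‖(1 : Mt N)‖) * (1 + ‖(1 : Mt N)‖) ^ 4 with hK
  have hK0 : 0 ≤ K := by positivity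
  unfold GSr
  refine (Finset.abs_sum_le_sum_abs _ _).trans ?_
  refine (Finset.sum_le_sum fun p _ => (?_ : _ ≤ 4 * (K * rr U ^ 2))).trans ?_
  · refine (Finset.abs_sum_le_sum_abs _ _).trans ?_
    refine (Finset.sum_le_sum fun l _ => (?_ : _ ≤ K * rr U ^ 2)).trans ?_
    · by_cases hc : lv p.2.1 p.2.2 l = some i.1.1.2 ∧ p.1 + ls p.2.2 l = i.1.1.1
      · rw [if_pos hc]
        exact Tag.term_le B r C hC h U p l i.2
      · rw [if_neg hc, abs_zero]; positivity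
    · rw [Finset.sum_const, Finset.card_univ, Fintype.card_fin, nsmul_eq_mul]
      push_cast
      exact le_rfl
  · rw [Finset.sum_const, Finset.card_univ, nsmul_eq_mul, Tag.card_Pq]
    apply le_of_eq
    ring

end Pool.Agent.H735U
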