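import Mathlib
import Pool.Agent.H735U.Asm
import Pool.Agent.H735U.Rt
import Pool.Agent.H735U.Cmp
import Pool.Agent.H735U.Mom
import Pool.Agent.H735U.Gau
import Pool.Agent.H735U.Dif
import Pool.Agent.H735U.Ta1
import Pool.Agent.H735U.Ta2
import Pool.Agent.H735U.Tag
import Pool.Agent.H735U.Ibp
import Pool.Agent.H735U.Cont
import Pool.Agent.H735U.Cor
import Pool.Agent.H735U.FinU
import Pool.Agent.H735U.D4
import Pool.Agent.H735U.Inv
import Pool.Agent.H735U.Hes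
import Pool.Agent.H735U.Exa

/-! # Project UNI: the main theorem -/

open MeasureTheory Matrix Filter
open scoped Matrix.Norms.Frobenius Topology ContDiff
open Pool.Agent.Y16.Gluon
open Pool.Agent.Y16.AF (Sp Links tplaq splaq kap expand T_mem)

namespace Pool.Agent.H735U

/-- The one loop formula for a general admissible energy. -/
theorem corer : ∃ K : ℕ, CORER K :=
  t_CORER t_GAUGER t_DIFFR Pool.Agent.Y614.AF.af_ball Pool.Agent.Y352.AF.af_coer t_RT t_CMP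
    t_MOMR Pool.Agent.Y500.AF.af_tay1 Pool.Agent.Y454.AF.af_tay2 Pool.Agent.Y349.AF.af_tayg
    t_TAY1R t_TAY2R t_TAYGR t_IBPR t_CONTR Pool.Agent.Y220.AF.af_abs Pool.Agent.Y16.AF.c_hpd

/-- The running coupling for a general energy. -/
theorem energy_runs (hext : S_EXT) : ∃ (x : ℝ) (K : ℕ), ∀ {N : ℕ} (G : Subgroup (UU N))
    (_ : IsClosed (G : Set (UU N))) [MeasurableSpace G] [BorelSpace G] (μ : Measure G)
    [IsProbabilityMeasure μ] [μ.IsHaarMeasure] (s : Mt N → ℝ), IsEnergy G s →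
    ∀ {n : ℕ} (B : LieBasis G n), RunsS G μ s K fun T β L =>
      β * ‖T‖ ^ 2 - 11 / (24 * Real.pi ^ 2) * kap B T * Real.log L +
        x * kap B T + 1 / 4 * ∑ a, mixed s T (B.X a) := by
  obtain ⟨K, hK⟩ := corer
  obtain ⟨x, hx⟩ := Pool.Agent.Y16.AF.c_coefl
  refine ⟨1 / 2 * x + 1 / 16 - 1 / 24, K, ?_⟩
  intro N G hG _ _ μ _ _ s hs n B
  obtain ⟨r, hr, he⟩ := exists_adm hext hG hs
  obtain ⟨δ, hδ, hb⟩ := t_FINR K hK t_GAUGER t_DIFFR t_CONTR x hx Pool.Agent.Y16.AF.c_wh G hG μ r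
    hr B
  refine ⟨δ, hδ, fun T e hT L _ hL β hβ => ?_⟩
  have h1 := hb T e hT L hL β hβ
  have hTm : T ∈ Submodule.span ℝ (Set.range B.X) := T_mem B hT
  have h2 : ∑ a, mixed s T (B.X a) = -(∑ a, ‖B.X a * T‖ ^ 2) + 1 / 6 * kap B T +
      ∑ a, dr4 r 1 T T (B.X a) (B.X a) := by
    have : kap B T = ∑ a, ‖T * B.X a - B.X a * T‖ ^ 2 := rfl
    rw [this, Finset.mul_sum, ← Finset.sum_neg_distrib, ← Finset.sum_add_distrib,
      ← Finset.sum_add_distrib]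
    exact Finset.sum_congr rfl fun a _ =>
      mixed_eq t_RT t_D4 hG hr he B hTm (Submodule.subset_span ⟨a, rfl⟩)
  beta_reduce
  rw [invS_eq μ he, h2]
  refine le_trans (le_of_eq ?_) h1
  congr 1
  ring

theorem final_of (hext : S_EXT) (hsim : S_SIMF) : ∃ (x : ℝ) (K : ℕ), ∀ {N : ℕ}
    (G : Subgroup (UU N)) (_ : IsClosed (G : Set (UU N))) [MeasurableSpace G] [BorelSpace G]
    (μ : Measure G) [IsProbabilityMeasure μ] [μ.IsHaarMeasure],
    (∀ s : Mt N → ℝ, IsEnergy G s → ∀ {n : ℕ} (X : Fin n → Mt N), IsBasis G X →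
      RunsS G μ s K fun T β L =>
        β * ‖T‖ ^ 2 - 11 / (24 * Real.pi ^ 2) * (∑ a, ‖T * X a - X a * T‖ ^ 2) * Real.log L +
          x * (∑ a, ‖T * X a - X a * T‖ ^ 2) + 1 / 4 * ∑ a, mixed s T (X a)) ∧
    (IsSimple G → ∃ c : ℝ, 0 < c ∧
      (∀ s : Mt N → ℝ, IsEnergy G s → ∃ f : ℝ, RunsS G μ s K fun T β L =>
        ‖T‖ ^ 2 * (β - 11 / (24 * Real.pi ^ 2) * c * Real.log L + f)) ∧
      ∀ s : Mt N → ℝ, ContDiff ℝ ∞ s → (∀ g h : G, s (mt (h * g * h⁻¹)) = s (mt g)) →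
        (∀ g : G, s (mt g⁻¹) = s (mt g)) → s 1 = 0 → (∀ g : G, g ≠ 1 → 0 < s (mt g)) →
        (∃ T, IsLie G T ∧ iteratedDeriv 2 (fun t : ℝ => s (NormedSpace.exp (t • T))) 0 ≠ 0) →
        ∃ z : ℝ, 0 < z ∧ IsEnergy G fun M => s M / z) ∧
    ((∀ U : UU N, U ∈ G ↔ det (U : Mt N) = 1) → 0 < N → ∀ b : ℝ, b * (2 * N) < 1 →
      IsEnergy G (smix b) ∧ RunsS G μ (smix b) K fun T β L =>
        ‖T‖ ^ 2 * (β - 11 * N / (12 * Real.pi ^ 2) * Real.log L + 2 * N * x -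
          N / 6 + 1 / (4 * N) - b * (N ^ 2 + 1) / 2)) := by
  obtain ⟨x, K, h⟩ := energy_runs hext
  refine ⟨x, K, ?_⟩
  intro N G hG _ _ μ _ _
  refine ⟨?_, ?_, ?_⟩
  · intro s hs n X hX
    have hX2 : ∀ a, IsLie G (X a) := fun a => (hX.2 (X a)).2 (Submodule.subset_span ⟨a, rfl⟩)
    choose ex hex using hX2
    let B : LieBasis G n := ⟨X, ex, hex, hX.1, fun Y hY => (hX.2 Y).1 hY⟩
    obtain ⟨δ, hδ, hb⟩ := h G hG μ s hs B
    exact ⟨δ, hδ, fun T e he L _ hL β hβ => hb T e he L hL β hβ⟩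
  · intro hG2
    have hG3 := hG2
    obtain ⟨⟨Y, Z, hY, hZ, hYZ⟩, hW⟩ := hG3
    obtain ⟨n, ⟨B⟩⟩ := Pool.Agent.Y16.AF.exists_lieBasis hG
    have lie_iff : ∀ Y, IsLie G Y ↔ Y ∈ Submodule.span ℝ (Set.range B.X) :=
      fun Y => Pool.Agent.Y16.AF.lie_iff hG B Y
    have hcomm : ∃ a b, B.X a * B.X b ≠ B.X b * B.X a := by
      by_contra hcon
      push Not at hcon
      apply hYZ
      have e1 := expand B ((lie_iff Y).1 hY)
      have e2 := expand B ((lie_iff Z).1 hZ)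
      rw [e1, e2, Finset.sum_mul_sum, Finset.sum_mul_sum, Finset.sum_comm]
      refine Finset.sum_congr rfl fun a _ => Finset.sum_congr rfl fun b _ => ?_
      rw [smul_mul_smul_comm, smul_mul_smul_comm, hcon b a, mul_comm]
    obtain ⟨a0, b0, hab⟩ := hcomm
    have hn : 0 < n := Fin.pos a0
    have hn' : (0 : ℝ) < n := by exact_mod_cast hn
    have hsimp : ∀ W : Submodule ℝ (Mt N), W ≤ Submodule.span ℝ (Set.range B.X) →
        (∀ a, ∀ Y ∈ W, B.X a * Y - Y * B.X a ∈ W) →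
        W = ⊥ ∨ W = Submodule.span ℝ (Set.range B.X) := by
      intro W hW1 hW2
      rcases hW W (fun Y hY => (lie_iff Y).2 (hW1 hY)) (fun Y hY Z hZ => by
        rw [expand B ((lie_iff Z).1 hZ), Finset.sum_mul, Finset.mul_sum,
          ← Finset.sum_sub_distrib]
        refine Submodule.sum_mem _ fun a _ => ?_
        rw [smul_mul_assoc, mul_smul_comm, ← smul_sub]
        exact Submodule.smul_mem _ _ (hW2 a Y hY)) with h1 | h1
      · exact Or.inl h1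
      · exact Or.inr (le_antisymm hW1 fun Y hY => h1 Y ((lie_iff Y).2 hY))
    refine ⟨1 / (n : ℝ) * ∑ a, ∑ b, ‖B.X a * B.X b - B.X b * B.X a‖ ^ 2, ?_, ?_, ?_⟩
    · refine mul_pos (by positivity) ?_
      refine Finset.sum_pos' (fun a _ => Finset.sum_nonneg fun b _ => sq_nonneg _)
        ⟨a0, Finset.mem_univ _, ?_⟩
      refine Finset.sum_pos' (fun b _ => sq_nonneg _) ⟨b0, Finset.mem_univ _, ?_⟩
      have : 0 < ‖B.X a0 * B.X b0 - B.X b0 * B.X a0‖ := norm_pos_iff.2 (sub_ne_zero.2 hab)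
      positivity
    · intro s hs
      obtain ⟨f, hf⟩ := hsim t_RT hext t_D4 t_INV G hG hG2 s hs B
      obtain ⟨δ, hδ, hb⟩ := h G hG μ s hs B
      refine ⟨x * (1 / (n : ℝ) * ∑ a, ∑ b, ‖B.X a * B.X b - B.X b * B.X a‖ ^ 2) + 1 / 4 * f,
        δ, hδ, fun T e he L _ hL β hβ => ?_⟩
      have hT : T ∈ Submodule.span ℝ (Set.range B.X) := T_mem B he
      have h1 := hb T e he L hL β hβ
      have h2 : kap B T = _ := Pool.Agent.Y514.AF.af_simp G B hn hsimp T hT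
      beta_reduce at h1
      rw [h2, hf T ((lie_iff T).2 hT)] at h1
      refine le_trans (le_of_eq ?_) h1
      congr 1
      ring
    · exact fun s h1 h2 h3 h4 h5 h6 => t_HESS t_INV G hG hG2 s h1 h2 h3 h4 h5 h6
  · intro hSU hN b hb
    have hen := t_EXA G hSU b hb
    refine ⟨hen, ?_⟩
    obtain ⟨n, ⟨B⟩⟩ := Pool.Agent.Y16.AF.exists_lieBasis hG
    obtain ⟨δ, hδ, hbd⟩ := h G hG μ (smix b) hen B
    refine ⟨δ, hδ, fun T e he L _ hL β hβ => ?_⟩
    have hT : T ∈ Submodule.span ℝ (Set.range B.X) := T_mem B he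
    have h1 := hbd T e he L hL β hβ
    have h2 := (Pool.Agent.Y721.AF.Sun.af_sun G B hN hSU T hT).1
    have h3 := t_EXB G hG hN hSU B b T hT
    beta_reduce at h1
    rw [h2, h3] at h1
    refine le_trans (le_of_eq ?_) h1
    congr 1
    have hpi : Real.pi ≠ 0 := Real.pi_ne_zero
    have hN0 : (N : ℝ) ≠ 0 := by exact_mod_cast hN.ne'
    field_simp
    ring

end Pool.Agent.H735U
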