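import Mathlib
import Pool.Agent.H735U.Stm2
import Pool.Agent.TH618.YM.Cartan
import Pool.Agent.Y16.AF.Prob2

/-
Project UNI (helper735, MP_7f377f_mp), job SIMF.
-/

set_option autoImplicit false
set_option linter.unusedVariables false

open MeasureTheory Matrix Filter
open scoped Matrix.Norms.Frobenius Topology ContDiff
open Pool.Agent.Y16.Gluon Pool.Agent.Y16.AF

namespace Pool.Agent.H735U

namespace Sim

/-! ### General facts -/

theorem lin_contDiff {E : Type*} [NormedAddCommGroup E] [NormedSpace ℝ E] [FiniteDimensional ℝ E]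
    (f : E →ₗ[ℝ] ℝ) : ContDiff ℝ ∞ (fun x : E => f x) :=
  (LinearMap.toContinuousLinearMap f).contDiff

section gen

variable {E : Type*} [NormedAddCommGroup E] [NormedSpace ℝ E] {r : E → ℝ}

theorem dr4_add3 (M Y Y' Z W Z' : E) :
    dr4 r M Y Y' (Z + W) Z' = dr4 r M Y Y' Z Z' + dr4 r M Y Y' W Z' := dr2_add_left _ _ _ _

theorem dr4_smul3 (M Y Y' Z Z' : E) (c : ℝ) :
    dr4 r M Y Y' (c • Z) Z' = c * dr4 r M Y Y' Z Z' := dr2_smul_left _ _ _ _

theorem dr4_add1 (hr : ContDiff ℝ ∞ r) (M Y W Y' Z Z' : E) :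
    dr4 r M (Y + W) Y' Z Z' = dr4 r M Y Y' Z Z' + dr4 r M W Y' Z Z' := by
  rw [dr4_swap hr, dr4_add3, dr4_swap hr, dr4_swap hr (Y := Z) (Y' := Z') (Z := W)]

theorem dr4_add2 (hr : ContDiff ℝ ∞ r) (M Y Y' W Z Z' : E) :
    dr4 r M Y (Y' + W) Z Z' = dr4 r M Y Y' Z Z' + dr4 r M Y W Z Z' := by
  rw [dr4_comm_left hr, dr4_add1 hr, dr4_comm_left hr, dr4_comm_left hr (Y := W)]

theorem dr4_smul1 (hr : ContDiff ℝ ∞ r) (M Y Y' Z Z' : E) (c : ℝ) :
    dr4 r M (c • Y) Y' Z Z' = c * dr4 r M Y Y' Z Z' := by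
  rw [dr4_swap hr, dr4_smul3, dr4_swap hr]

theorem dr4_smul2 (hr : ContDiff ℝ ∞ r) (M Y Y' Z Z' : E) (c : ℝ) :
    dr4 r M Y (c • Y') Z Z' = c * dr4 r M Y Y' Z Z' := by
  rw [dr4_comm_left hr, dr4_smul1 hr, dr4_comm_left hr]

/-- exchange of the second and the third argument -/
theorem dr4_mid (hr : ContDiff ℝ ∞ r) (M Y Y' Z Z' : E) :
    dr4 r M Y Y' Z Z' = dr4 r M Y Z Y' Z' := by
  rw [dr4_comm_left hr, dr4_comm_right hr, dr4_comm_mid hr, dr4_comm_left hr,
    dr4_comm_right hr]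

/-- the polarization identity -/
theorem dr4_pol (hr : ContDiff ℝ ∞ r) (M T X : E) :
    dr4 r M (T + X) (T + X) (T + X) (T + X) + dr4 r M (T - X) (T - X) (T - X) (T - X) -
      2 * dr4 r M T T T T - 2 * dr4 r M X X X X = 12 * dr4 r M T T X X := by
  have e : T - X = T + (-1 : ℝ) • X := by simp [sub_eq_add_neg]
  rw [e]
  simp only [dr4_add1 hr, dr4_add2 hr, dr4_add3, dr4_add_right, dr4_smul1 hr, dr4_smul2 hr,
    dr4_smul3, dr4_smul_right]
  have h1 : dr4 r M T X T X = dr4 r M T T X X := dr4_mid hr _ _ _ _ _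
  have h2 : dr4 r M X T T X = dr4 r M T T X X := by rw [dr4_comm_left hr, h1]
  have h3 : dr4 r M T X X T = dr4 r M T T X X := by rw [dr4_comm_right hr, h1]
  have h4 : dr4 r M X T X T = dr4 r M T T X X := by rw [dr4_comm_left hr, h3]
  have h5 : dr4 r M X X T T = dr4 r M T T X X := dr4_swap hr _ _ _ _ _
  rw [h1, h2, h3, h4, h5]
  ring

end gen

/-! ### The quartic form of the trace -/

section tr

variable {N : ℕ}

/-- real part of the trace -/
noncomputable def rtr (M : Mt N) : ℝ := (trace M).re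

theorem rtr_add (A B : Mt N) : rtr (A + B) = rtr A + rtr B := by
  unfold rtr; rw [trace_add, Complex.add_re]

theorem rtr_sub (A B : Mt N) : rtr (A - B) = rtr A - rtr B := by
  unfold rtr; rw [trace_sub, Complex.sub_re]

theorem rtr_smul (c : ℝ) (A : Mt N) : rtr (c • A) = c * rtr A := by
  unfold rtr; rw [trace_smul, Complex.real_smul, Complex.re_ofReal_mul]

theorem rtr_comm (A B : Mt N) : rtr (A * B) = rtr (B * A) := by
  unfold rtr; rw [trace_mul_comm]

theorem rtr_pol (T X : Mt N) :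
    rtr ((T + X) * (T + X) * ((T + X) * (T + X))) + rtr ((T - X) * (T - X) * ((T - X) * (T - X))) -
      2 * rtr (T * T * (T * T)) - 2 * rtr (X * X * (X * X)) =
      8 * rtr (T * T * (X * X)) + 4 * rtr (T * X * (T * X)) := by
  have key : (T + X) * (T + X) * ((T + X) * (T + X)) + (T - X) * (T - X) * ((T - X) * (T - X)) =
      (2 : ℝ) • (T * T * (T * T)) + (2 : ℝ) • (X * X * (X * X)) +
        (2 : ℝ) • (T * T * (X * X) + T * X * (T * X) + T * X * (X * T) + X * T * (T * X) +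
          X * T * (X * T) + X * X * (T * T)) := by
    simp only [two_smul]
    noncomm_ring
  have h := congrArg rtr key
  simp only [rtr_add, rtr_smul] at h
  have e1 : rtr (T * X * (X * T)) = rtr (T * T * (X * X)) := by
    rw [rtr_comm]
    have : X * T * (T * X) = X * (T * T * X) := by noncomm_ring
    rw [this, rtr_comm]
    have : T * T * X * X = T * T * (X * X) := by noncomm_ring
    rw [this]
  have e2 : rtr (X * T * (T * X)) = rtr (T * T * (X * X)) := by
    rw [rtr_comm, e1]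
  have e3 : rtr (X * X * (T * T)) = rtr (T * T * (X * X)) := rtr_comm _ _
  have e4 : rtr (X * T * (X * T)) = rtr (T * X * (T * X)) := by
    have : X * T * (X * T) = X * (T * (X * T)) := by noncomm_ring
    rw [this, rtr_comm]
    have : T * (X * T) * X = T * X * (T * X) := by noncomm_ring
    rw [this]
  rw [e1, e2, e3, e4] at h
  linarith

/-- the mixed form -/
noncomputable def cf (r : Mt N → ℝ) (T T' X X' : Mt N) : ℝ :=
  -(1 / 3) * (2 * rtr (T * T' * (X * X')) + rtr (T * X * (T' * X'))) + dr4 r 1 T T' X X'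

variable {r : Mt N → ℝ}

theorem cf_add1 (hr : ContDiff ℝ ∞ r) (A B T' X X' : Mt N) :
    cf r (A + B) T' X X' = cf r A T' X X' + cf r B T' X X' := by
  unfold cf
  rw [dr4_add1 hr]
  simp only [add_mul, mul_add, rtr_add]
  ring

theorem cf_add2 (hr : ContDiff ℝ ∞ r) (T A B X X' : Mt N) :
    cf r T (A + B) X X' = cf r T A X X' + cf r T B X X' := by
  unfold cf
  rw [dr4_add2 hr]
  simp only [add_mul, mul_add, rtr_add]
  ring

theorem cf_add3 (T T' A B X' : Mt N) :
    cf r T T' (A + B) X' = cf r T T' A X' + cf r T T' B X' := by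
  unfold cf
  rw [dr4_add3]
  simp only [add_mul, mul_add, rtr_add]
  ring

theorem cf_add4 (T T' X A B : Mt N) :
    cf r T T' X (A + B) = cf r T T' X A + cf r T T' X B := by
  unfold cf
  rw [dr4_add_right]
  simp only [add_mul, mul_add, rtr_add]
  ring

theorem cf_smul1 (hr : ContDiff ℝ ∞ r) (c : ℝ) (T T' X X' : Mt N) :
    cf r (c • T) T' X X' = c * cf r T T' X X' := by
  unfold cf
  rw [dr4_smul1 hr]
  simp only [smul_mul_assoc, mul_smul_comm, rtr_smul]
  ring

theorem cf_smul2 (hr : ContDiff ℝ ∞ r) (c : ℝ) (T T' X X' : Mt N) :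
    cf r T (c • T') X X' = c * cf r T T' X X' := by
  unfold cf
  rw [dr4_smul2 hr]
  simp only [smul_mul_assoc, mul_smul_comm, rtr_smul]
  ring

theorem cf_smul3 (c : ℝ) (T T' X X' : Mt N) :
    cf r T T' (c • X) X' = c * cf r T T' X X' := by
  unfold cf
  rw [dr4_smul3]
  simp only [smul_mul_assoc, mul_smul_comm, rtr_smul]
  ring

theorem cf_smul4 (c : ℝ) (T T' X X' : Mt N) :
    cf r T T' X (c • X') = c * cf r T T' X X' := by
  unfold cf
  rw [dr4_smul_right]
  simp only [smul_mul_assoc, mul_smul_comm, rtr_smul]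
  ring

theorem cf_sum3 {ι : Type*} (s : Finset ι) (T T' : Mt N) (A : ι → Mt N) (X' : Mt N) :
    cf r T T' (∑ i ∈ s, A i) X' = ∑ i ∈ s, cf r T T' (A i) X' := by
  classical
  induction s using Finset.induction_on with
  | empty =>
    rw [Finset.sum_empty, Finset.sum_empty]
    have := cf_smul3 (r := r) 0 T T' 0 X'
    rwa [zero_smul, zero_mul] at this
  | insert a s ha ih => rw [Finset.sum_insert ha, Finset.sum_insert ha, cf_add3, ih]

theorem cf_sum4 {ι : Type*} (s : Finset ι) (T T' X : Mt N) (A : ι → Mt N) :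
    cf r T T' X (∑ i ∈ s, A i) = ∑ i ∈ s, cf r T T' X (A i) := by
  classical
  induction s using Finset.induction_on with
  | empty =>
    rw [Finset.sum_empty, Finset.sum_empty]
    have := cf_smul4 (r := r) 0 T T' X 0
    rwa [zero_smul, zero_mul] at this
  | insert a s ha ih => rw [Finset.sum_insert ha, Finset.sum_insert ha, cf_add4, ih]

/-- invariance of the trace of the form under a change of the orthonormal basis -/
theorem cf_basis {n : ℕ} (T T' : Mt N) (X X' : Fin n → Mt N) (o : Fin n → Fin n → ℝ)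
    (hX : ∀ a, X' a = ∑ b, o a b • X b) (ho : ∀ b b', ∑ a, o a b * o a b' = if b = b' then 1 else 0) :
    ∑ a, cf r T T' (X' a) (X' a) = ∑ a, cf r T T' (X a) (X a) := by
  have h1 : ∀ a, cf r T T' (X' a) (X' a) =
      ∑ b, ∑ b', o a b * o a b' * cf r T T' (X b) (X b') := by
    intro a
    rw [hX a, cf_sum3]
    refine Finset.sum_congr rfl fun b _ => ?_
    rw [cf_sum4]
    refine Finset.sum_congr rfl fun b' _ => ?_
    rw [cf_smul3, cf_smul4]
    ring
  simp_rw [h1]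
  rw [Finset.sum_comm]
  refine Finset.sum_congr rfl fun b _ => ?_
  rw [Finset.sum_comm]
  simp_rw [← Finset.sum_mul, ho]
  simp

end tr

/-! ### The Lie algebra -/

section lie

variable {N n : ℕ} {G : Subgroup (UU N)}

theorem smt_mul (g h : G) : mt (g * h) = mt g * mt h := rfl

theorem smt_inv (g : G) : mt g⁻¹ = (mt g)ᴴ := rfl

theorem smt_unit (g : G) : mt g * (mt g)ᴴ = 1 := Matrix.mem_unitaryGroup_iff.1 (g : UU N).2

theorem smt_unit' (g : G) : (mt g)ᴴ * mt g = 1 := Matrix.mem_unitaryGroup_iff'.1 (g : UU N).2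

theorem lie_iff (hG : IsClosed (G : Set (UU N))) (B : LieBasis G n) (Y : Mt N) :
    H735U.IsLie G Y ↔ Y ∈ Submodule.span ℝ (Set.range B.X) := by
  refine ⟨fun h => B.full Y h, fun hY => ?_⟩
  exact Pool.Agent.Y274.YMTan.lie_span hG B.X (fun a t => ⟨B.ex a t, B.ex_eq a t⟩) Y hY

/-- conjugation -/
theorem exp_conj (h : G) (Y : Mt N) (t : ℝ) :
    NormedSpace.exp (t • (mt h * Y * mt h⁻¹)) = mt h * NormedSpace.exp (t • Y) * mt h⁻¹ := by
  have hu : IsUnit (mt h) := ⟨⟨mt h, (mt h)ᴴ, smt_unit h, smt_unit' h⟩, rfl⟩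
  have hinv : (mt h)⁻¹ = (mt h)ᴴ := Matrix.inv_eq_right_inv (smt_unit h)
  have h1 := Matrix.exp_conj (mt h) (t • Y) hu
  rw [hinv, mul_smul_comm, smul_mul_assoc] at h1
  rw [smt_inv]
  exact h1

theorem lie_conj (h : G) {Y : Mt N} (hY : H735U.IsLie G Y) :
    H735U.IsLie G (mt h * Y * mt h⁻¹) := by
  intro t
  obtain ⟨g, hg⟩ := hY t
  refine ⟨h * g * h⁻¹, ?_⟩
  rw [exp_conj, ← hg]
  rfl

theorem quart_conj {s : Mt N → ℝ} (hcls : ∀ g h : G, s (mt (h * g * h⁻¹)) = s (mt g)) (h : G)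
    {Y : Mt N} (hY : H735U.IsLie G Y) : quart s (mt h * Y * mt h⁻¹) = quart s Y := by
  unfold quart
  have : (fun t : ℝ => s (NormedSpace.exp (t • (mt h * Y * mt h⁻¹)))) =
      fun t : ℝ => s (NormedSpace.exp (t • Y)) := by
    funext t
    obtain ⟨g, hg⟩ := hY t
    rw [exp_conj, ← hg, ← hcls g h]
    rfl
  rw [this]

theorem norm_sub_sq' (g : G) : ‖mt g - 1‖ ^ 2 = 2 * (trace (1 - mt g)).re := by
  rw [frob_sq]
  have h : (mt g - 1)ᴴ * (mt g - 1) = (1 - mt g) + (1 - mt g)ᴴ := by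
    rw [conjTranspose_sub, conjTranspose_one, sub_mul, mul_sub, mul_sub, smt_unit',
      conjTranspose_sub, conjTranspose_one]
    simp only [one_mul, mul_one]
    abel
  rw [h, trace_add, trace_conjTranspose, Complex.add_re, Complex.star_def, Complex.conj_re]
  ring

/-- the real part of the trace as a linear map -/
noncomputable def rtl (N : ℕ) : Mt N →ₗ[ℝ] ℝ where
  toFun M := rtr M
  map_add' := rtr_add
  map_smul' c M := by rw [rtr_smul]; rfl

theorem contDiff_tr : ContDiff ℝ ∞ (fun M : Mt N => (trace (1 - M)).re) := by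
  have h : (fun M : Mt N => (trace (1 - M)).re) = fun M => rtr (1 : Mt N) - rtl N M := by
    funext M
    exact rtr_sub 1 M
  rw [h]
  exact contDiff_const.sub (lin_contDiff (rtl N))

/-- inner product of the conjugated basis -/
theorem orth_coef (B : LieBasis G n) (h : G) :
    ∃ o : Fin n → Fin n → ℝ, (∀ a, mt h * B.X a * mt h⁻¹ = ∑ b, o a b • B.X b) ∧
      ∀ b b', ∑ a, o a b * o a b' = if b = b' then 1 else 0 := by
  have hlie : ∀ a, H735U.IsLie G (B.X a) := fun a t => ⟨B.ex a t, B.ex_eq a t⟩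
  have hmem : ∀ (h : G) a, mt h * B.X a * mt h⁻¹ ∈ Submodule.span ℝ (Set.range B.X) :=
    fun h a => B.full _ (lie_conj h (hlie a))
  refine ⟨fun a b => rtr ((B.X b)ᴴ * (mt h * B.X a * mt h⁻¹)), fun a => expand B (hmem h a), ?_⟩
  intro b b'
  -- the conjugate of `X_b` by `h⁻¹`
  have hE : ∀ c, mt h⁻¹ * B.X c * mt h⁻¹⁻¹ =
      ∑ a, rtr ((B.X a)ᴴ * (mt h⁻¹ * B.X c * mt h⁻¹⁻¹)) • B.X a := fun c =>
    expand B (hmem h⁻¹ c)
  have hc : ∀ a c, rtr ((B.X c)ᴴ * (mt h * B.X a * mt h⁻¹)) =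
      rtr ((mt h⁻¹ * B.X c * mt h⁻¹⁻¹)ᴴ * B.X a) := by
    intro a c
    rw [inv_inv, smt_inv, conjTranspose_mul, conjTranspose_mul, conjTranspose_conjTranspose]
    have e1 : (B.X c)ᴴ * (mt h * B.X a * (mt h)ᴴ) = ((B.X c)ᴴ * (mt h * B.X a)) * (mt h)ᴴ := by
      noncomm_ring
    rw [e1, rtr_comm]
    congr 1
    noncomm_ring
  have hc' : ∀ a c, rtr ((B.X a)ᴴ * (mt h⁻¹ * B.X c * mt h⁻¹⁻¹)) =
      rtr ((mt h⁻¹ * B.X c * mt h⁻¹⁻¹)ᴴ * B.X a) := by
    intro a c
    unfold rtr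
    rw [← conjTranspose_conjTranspose (mt h⁻¹ * B.X c * mt h⁻¹⁻¹), ← conjTranspose_mul,
      trace_conjTranspose, conjTranspose_conjTranspose]
    simp
  have h3 : rtr ((mt h⁻¹ * B.X b * mt h⁻¹⁻¹)ᴴ * (mt h⁻¹ * B.X b' * mt h⁻¹⁻¹)) =
      if b = b' then 1 else 0 := by
    rw [← B.orth b b']
    rw [inv_inv, smt_inv, conjTranspose_mul, conjTranspose_mul, conjTranspose_conjTranspose]
    have e1 : (mt h)ᴴ * ((B.X b)ᴴ * mt h) * ((mt h)ᴴ * B.X b' * mt h) =
        ((mt h)ᴴ * (B.X b)ᴴ) * (mt h * (mt h)ᴴ) * (B.X b' * mt h) := by noncomm_ring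
    rw [e1, smt_unit, mul_one]
    have e2 : (mt h)ᴴ * (B.X b)ᴴ * (B.X b' * mt h) = (mt h)ᴴ * ((B.X b)ᴴ * B.X b' * mt h) := by
      noncomm_ring
    rw [e2, rtr_comm, mul_assoc, smt_unit, mul_one]
    rfl
  rw [← h3]
  have h4 : rtr ((mt h⁻¹ * B.X b * mt h⁻¹⁻¹)ᴴ * (mt h⁻¹ * B.X b' * mt h⁻¹⁻¹)) =
      ∑ a, rtr ((B.X a)ᴴ * (mt h⁻¹ * B.X b' * mt h⁻¹⁻¹)) *
        rtr ((mt h⁻¹ * B.X b * mt h⁻¹⁻¹)ᴴ * B.X a) := by
    conv_lhs => rw [hE b']
    rw [Finset.mul_sum]
    have : ∀ (f : Fin n → Mt N), rtr (∑ a, f a) = ∑ a, rtr (f a) := fun f =>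
      map_sum (rtl N) f Finset.univ
    rw [this]
    refine Finset.sum_congr rfl fun a _ => ?_
    rw [mul_smul_comm, rtr_smul]
  rw [h4]
  refine Finset.sum_congr rfl fun a _ => ?_
  beta_reduce
  rw [hc a b, hc a b', hc' a b']
  ring

end lie

end Sim

open Sim in
theorem t_SIMF : S_SIMF := by
  intro hRT hEXT hD4 hINV N n G hG hsim s hs B
  obtain ⟨C0, hC0⟩ := hs.norm
  have hr0 : ContDiff ℝ ∞ (fun M : Mt N => s M - (trace (1 - M)).re) := hs.smooth.sub contDiff_tr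
  obtain ⟨r, hr, hreq, hvan⟩ := hEXT G hG (fun M : Mt N => s M - (trace (1 - M)).re) hr0
    ⟨C0, fun g => by
      have h1 := hC0 g
      rw [norm_sub_sq'] at h1
      have h2 : s (mt g) - 1 / 2 * (2 * (trace (1 - mt g)).re) = s (mt g) - (trace (1 - mt g)).re := by
        ring
      rwa [h2] at h1⟩
  -- the fourth derivative
  have hq : ∀ Y, H735U.IsLie G Y → quart s Y = -rtr (Y * Y * (Y * Y)) + dr4 r 1 Y Y Y Y := by
    intro Y hY
    have h1 : quart s Y = quart (fun M => (trace (1 - M)).re + r M) Y := by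
      unfold quart
      have : (fun t : ℝ => s (NormedSpace.exp (t • Y))) =
          fun t : ℝ => (trace (1 - NormedSpace.exp (t • Y))).re + r (NormedSpace.exp (t • Y)) := by
        funext t
        obtain ⟨g, hg⟩ := hY t
        rw [← hg, hreq g]
        ring
      rw [this]
    rw [h1, hD4 hRT r hr hvan Y]
    rfl
  have hadd : ∀ Y Z, H735U.IsLie G Y → H735U.IsLie G Z → H735U.IsLie G (Y + Z) := by
    intro Y Z hY hZ
    rw [Sim.lie_iff hG B] at *
    exact Submodule.add_mem _ hY hZ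
  have hsub : ∀ Y Z, H735U.IsLie G Y → H735U.IsLie G Z → H735U.IsLie G (Y - Z) := by
    intro Y Z hY hZ
    rw [Sim.lie_iff hG B] at *
    exact Submodule.sub_mem _ hY hZ
  have hmix : ∀ T X, H735U.IsLie G T → H735U.IsLie G X → mixed s T X = cf r T T X X := by
    intro T X hT hX
    unfold mixed cf
    rw [hq _ (hadd T X hT hX), hq _ (hsub T X hT hX), hq T hT, hq X hX]
    have h1 := rtr_pol T X
    have h2 := dr4_pol hr 1 T X
    linarith
  have hlie : ∀ a, H735U.IsLie G (B.X a) := fun a t => ⟨B.ex a t, B.ex_eq a t⟩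
  -- the bilinear form
  let b : Mt N →ₗ[ℝ] Mt N →ₗ[ℝ] ℝ := LinearMap.mk₂ ℝ (fun T T' => ∑ a, cf r T T' (B.X a) (B.X a))
    (fun T T2 T' => by simp only [cf_add1 hr, Finset.sum_add_distrib])
    (fun c T T' => by simp only [cf_smul1 hr, smul_eq_mul, Finset.mul_sum])
    (fun T T' T2 => by simp only [cf_add2 hr, Finset.sum_add_distrib])
    (fun c T T' => by simp only [cf_smul2 hr, smul_eq_mul, Finset.mul_sum])
  have hb : ∀ T T', b T T' = ∑ a, cf r T T' (B.X a) (B.X a) := fun T T' => rfl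
  have hbm : ∀ T, H735U.IsLie G T → b T T = ∑ a, mixed s T (B.X a) := by
    intro T hT
    rw [hb]
    exact Finset.sum_congr rfl fun a _ => (hmix T (B.X a) hT (hlie a)).symm
  obtain ⟨c, hc⟩ := hINV G hG hsim b (by
    intro h T hT
    rw [hbm T hT, hb]
    obtain ⟨o, ho1, ho2⟩ := orth_coef B h
    rw [← cf_basis (mt h * T * mt h⁻¹) (mt h * T * mt h⁻¹) B.X
      (fun a => mt h * B.X a * mt h⁻¹) o ho1 ho2]
    refine Finset.sum_congr rfl fun a _ => ?_
    rw [← hmix _ _ (lie_conj h hT) (lie_conj h (hlie a))]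
    have e1 : mt h * T * mt h⁻¹ + mt h * B.X a * mt h⁻¹ = mt h * (T + B.X a) * mt h⁻¹ := by
      rw [mul_add, add_mul]
    have e2 : mt h * T * mt h⁻¹ - mt h * B.X a * mt h⁻¹ = mt h * (T - B.X a) * mt h⁻¹ := by
      rw [mul_sub, sub_mul]
    unfold mixed
    rw [e1, e2, quart_conj hs.cls h (hadd _ _ hT (hlie a)),
      quart_conj hs.cls h (hsub _ _ hT (hlie a)), quart_conj hs.cls h hT,
      quart_conj hs.cls h (hlie a)])
  exact ⟨c, fun T hT => by rw [← hbm T hT]; exact hc T hT⟩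

end Pool.Agent.H735U
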