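import Mathlib
import Pool.Agent.H735U.Main
import Pool.Agent.H735U.Ext
import Pool.Agent.H735U.Sim

/-! # Project UNI: the final theorem -/

open MeasureTheory Matrix Filter
open scoped Matrix.Norms.Frobenius Topology ContDiff
open Pool.Agent.Y16.Gluon

namespace Pool.Agent.H735U

theorem final : ∃ (x : ℝ) (K : ℕ), ∀ {N : ℕ}
    (G : Subgroup (UU N)) (_ : IsClosed (G : Set (UU N))) [MeasurableSpace G] [BorelSpace G]
    (μ : Measure G) [IsProbabilityMeasure μ] [μ.IsHaarMeasure],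
    (∀ s : Mt N → ℝ, IsEnergy G s → ∀ {n : ℕ} (X : Fin n → Mt N), IsBasis G X →
      RunsS G μ s K fun T β L =>
        β * ‖T‖ ^ 2 - 11 / (24 * Real.pi ^ 2) * (∑ a, ‖T * X a - X a * T‖ ^ 2) * Real.log L +
          x * (∑ a, ‖T * X a - X a * T‖ ^ 2) + 1 / 4 * ∑ a, mixed s T (X a)) ∧
    (IsSimple G → ∃ c : ℝ, 0 < c ∧
      (∀ s : Mt N → ℝ, IsEnergy G s → ∃ f : ℝ, RunsS G μ s K fun T β L =>
        ‖T‖ ^ 2 * (β - 11 / (24 * Real.pi ^ 2) * c * Real.log L + f)) ∧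
      ∀ s : Mt N → ℝ, ContDiff ℝ ∞ s → (∀ g h : G, s (mt (h * g * h⁻¹)) = s (mt g)) →
        (∀ g : G, s (mt g⁻¹) = s (mt g)) → s 1 = 0 → (∀ g : G, g ≠ 1 → 0 < s (mt g)) →
        (∃ T, IsLie G T ∧ iteratedDeriv 2 (fun t : ℝ => s (NormedSpace.exp (t • T))) 0 ≠ 0) →
        ∃ z : ℝ, 0 < z ∧ IsEnergy G fun M => s M / z) ∧
    ((∀ U : UU N, U ∈ G ↔ det (U : Mt N) = 1) → 0 < N → ∀ b : ℝ, b * (2 * N) < 1 →
      IsEnergy G (smix b) ∧ RunsS G μ (smix b) K fun T β L =>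
        ‖T‖ ^ 2 * (β - 11 * N / (12 * Real.pi ^ 2) * Real.log L + 2 * N * x -
          N / 6 + 1 / (4 * N) - b * (N ^ 2 + 1) / 2)) :=
  final_of t_EXT t_SIMF

end Pool.Agent.H735U
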