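import Mathlib
import Pool.Agent.H735U.Stm2
import Pool.Agent.TH618.YM.Cartan
import Pool.Agent.Y16.AF.Prob2
import Pool.Agent.Y421.AF.Mom

set_option autoImplicit false
set_option linter.unusedVariables false

open MeasureTheory Matrix Filter
open scoped Matrix.Norms.Frobenius Topology ContDiff
open Pool.Agent.Y16.Gluon Pool.Agent.Y16.AF

namespace Pool.Agent.H735U

namespace Hes

section gen

variable {A : Type*} [NormedRing A] [NormedAlgebra ℝ A] [FiniteDimensional ℝ A]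

/-- Closed subgroups near the identity: they are given by the exponential of the Lie algebra. -/
theorem exp_local {S : Set A} (hS : IsClosed S) (h1 : (1 : A) ∈ S)
    (hmul : ∀ a ∈ S, ∀ b ∈ S, a * b ∈ S)
    (hinv : ∀ Y : A, NormedSpace.exp Y ∈ S → NormedSpace.exp (-Y) ∈ S)
    (P : A →ₗ[ℝ] A) (hP : ∀ (M : A) (t : ℝ), NormedSpace.exp (t • P M) ∈ S)
    (hP' : ∀ Y : A, (∀ t : ℝ, NormedSpace.exp (t • Y) ∈ S) → P Y = Y) :
    ∃ δ : ℝ, 0 < δ ∧ ∀ g ∈ S, ‖g - 1‖ < δ → ∃ Y : A, (∀ t : ℝ, NormedSpace.exp (t • Y) ∈ S) ∧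
      NormedSpace.exp Y = g ∧ ‖Y‖ ≤ 2 * ‖g - 1‖ := by
  have hc : CompleteSpace A := FiniteDimensional.complete ℝ A
  have hp : ProperSpace A := FiniteDimensional.proper ℝ A
  let _ : NormedAlgebra ℚ A := NormedAlgebra.restrictScalars ℚ ℝ A
  obtain ⟨P', hPP⟩ : ∃ P' : A →L[ℝ] A, ∀ M, P' M = P M := ⟨P.toContinuousLinearMap, fun _ => rfl⟩
  obtain ⟨Ψ, hΨ⟩ : ∃ Ψ : A → A, ∀ M, Ψ M = NormedSpace.exp (P' M) * NormedSpace.exp (M - P' M) :=
    ⟨_, fun _ => rfl⟩
  have h0 : HasStrictFDerivAt (NormedSpace.exp : A → A) (1 : A →L[ℝ] A) 0 :=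
    hasStrictFDerivAt_exp_zero (𝕂 := ℝ) (𝔸 := A)
  have hA : HasStrictFDerivAt (fun M => NormedSpace.exp (P' M)) P' 0 := by
    have h2 : HasStrictFDerivAt (NormedSpace.exp : A → A) (1 : A →L[ℝ] A) (P' 0) := by
      rw [map_zero]; exact h0
    have h3 := h2.comp (0 : A) P'.hasStrictFDerivAt
    exact h3
  have hB : HasStrictFDerivAt (fun M => NormedSpace.exp (M - P' M))
      (ContinuousLinearMap.id ℝ A - P') 0 := by
    have h2 : HasStrictFDerivAt (NormedSpace.exp : A → A) (1 : A →L[ℝ] A)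
        ((ContinuousLinearMap.id ℝ A - P') 0) := by
      rw [map_zero]; exact h0
    have h3 := h2.comp (0 : A) (ContinuousLinearMap.id ℝ A - P').hasStrictFDerivAt
    exact h3
  have hD : HasStrictFDerivAt Ψ ((ContinuousLinearEquiv.refl ℝ A : A ≃L[ℝ] A) : A →L[ℝ] A) 0 := by
    have h2 := hA.mul' hB
    have h3 : Ψ = fun M => NormedSpace.exp (P' M) * NormedSpace.exp (M - P' M) := funext hΨ
    rw [h3]
    refine h2.congr_fderiv ?_
    ext M
    simp [NormedSpace.exp_zero]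
  have hΨ0 : Ψ 0 = 1 := by simp [hΨ, NormedSpace.exp_zero]
  have hmap : map Ψ (𝓝 0) = 𝓝 1 := by
    have h2 := hD.map_nhds_eq_of_equiv
    rwa [hΨ0] at h2
  have hneg : ∀ Y : A, NormedSpace.exp (-Y) * NormedSpace.exp Y = 1 := fun Y => by
    rw [← NormedSpace.exp_add_of_commute ((Commute.refl Y).neg_left), neg_add_cancel,
      NormedSpace.exp_zero]
  have hpow : ∀ a ∈ S, ∀ n : ℕ, a ^ n ∈ S := by
    intro a ha n
    induction n with
    | zero => rw [pow_zero]; exact h1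
    | succ n ih => rw [pow_succ]; exact hmul _ ih _ ha
  have hPid : ∀ M, P (P M) = P M := fun M => hP' _ (hP M)
  -- the claim
  have key : ∀ᶠ M in 𝓝 (0 : A), Ψ M ∈ S → P M = M := by
    by_contra hcon
    have hfr : ∃ᶠ M in 𝓝 (0 : A), Ψ M ∈ S ∧ P M ≠ M := by
      intro h
      apply hcon
      filter_upwards [h] with M hM h2
      by_contra h3
      exact hM ⟨h2, h3⟩
    obtain ⟨M, hM0, hM⟩ := exists_seq_forall_of_frequently hfr
    obtain ⟨B, hBd⟩ : ∃ B : ℕ → A, ∀ k, B k = M k - P (M k) := ⟨_, fun _ => rfl⟩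
    have hBne : ∀ k, B k ≠ 0 := fun k h => (hM k).2 (by rw [hBd, sub_eq_zero] at h; exact h.symm)
    have hBS : ∀ k, NormedSpace.exp (B k) ∈ S := by
      intro k
      have e1 : NormedSpace.exp (B k) = NormedSpace.exp (-(P (M k))) * Ψ (M k) := by
        rw [hΨ, hPP, ← mul_assoc, hneg, one_mul, hBd]
      rw [e1]
      refine hmul _ ?_ _ (hM k).1
      have := hP (M k) (-1)
      rwa [neg_one_smul] at this
    have hB0 : Tendsto B atTop (𝓝 0) := by
      have e1 : Tendsto (fun M => M - P' M) (𝓝 0) (𝓝 0) := by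
        have h2 : Continuous fun M : A => M - P' M := continuous_id.sub P'.continuous
        have h3 := h2.tendsto 0
        rwa [map_zero, sub_zero] at h3
      refine (e1.comp hM0).congr fun k => ?_
      simp only [Function.comp_apply, hPP, hBd]
    obtain ⟨τ, hτd⟩ : ∃ τ : ℕ → ℝ, ∀ k, τ k = ‖B k‖ := ⟨_, fun _ => rfl⟩
    have hτ : ∀ k, 0 < τ k := fun k => by rw [hτd]; exact norm_pos_iff.2 (hBne k)
    have hτ0 : Tendsto τ atTop (𝓝 0) := by
      have := hB0.norm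
      rw [norm_zero] at this
      exact this.congr fun k => (hτd k).symm
    obtain ⟨v, hv⟩ : ∃ v : ℕ → A, ∀ k, v k = (τ k)⁻¹ • B k := ⟨_, fun _ => rfl⟩
    have hv1 : ∀ k, v k ∈ Metric.sphere (0 : A) 1 := fun k => by
      rw [mem_sphere_zero_iff_norm, hv, norm_smul, norm_inv, Real.norm_eq_abs, abs_of_pos (hτ k),
        ← hτd, inv_mul_cancel₀ (hτ k).ne']
    obtain ⟨Z, hZ, φ, hφ, hlim⟩ := (isCompact_sphere (0 : A) 1).tendsto_subseq hv1
    have hPZ : P Z = 0 := by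
      have e1 : ∀ k, P' ((v ∘ φ) k) = 0 := by
        intro k
        simp only [Function.comp_apply]
        rw [hv, map_smul, hPP, hBd, map_sub, hPid, sub_self, smul_zero]
      have e2 := (P'.continuous.tendsto Z).comp hlim
      rw [← hPP]
      refine tendsto_nhds_unique e2 ?_
      refine tendsto_const_nhds.congr fun k => ?_
      exact (e1 k).symm
    have hpos : ∀ t : ℝ, 0 ≤ t → NormedSpace.exp (t • Z) ∈ S := by
      intro t ht
      have hτφ : Tendsto (fun k => τ (φ k)) atTop (𝓝 0) := hτ0.comp hφ.tendsto_atTop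
      have hm : Tendsto (fun k => (⌊t / τ (φ k)⌋₊ : ℝ) * τ (φ k)) atTop (𝓝 t) := by
        rw [tendsto_iff_norm_sub_tendsto_zero]
        refine squeeze_zero (fun _ => norm_nonneg _) (fun k => ?_) hτφ
        have h1 := Nat.floor_le (div_nonneg ht (hτ (φ k)).le)
        have h2 := Nat.lt_floor_add_one (t / τ (φ k))
        rw [le_div_iff₀ (hτ _)] at h1
        rw [div_lt_iff₀ (hτ _)] at h2
        rw [Real.norm_eq_abs, abs_le]
        constructor <;> nlinarith [hτ (φ k)]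
      have hmL : Tendsto (fun k => ⌊t / τ (φ k)⌋₊ • B (φ k)) atTop (𝓝 (t • Z)) := by
        have h1 := hm.smul hlim
        refine h1.congr fun k => ?_
        simp only [Function.comp_apply]
        rw [hv, smul_smul, mul_assoc, mul_inv_cancel₀ (hτ _).ne', mul_one, Nat.cast_smul_eq_nsmul]
      have hE : Continuous (NormedSpace.exp : A → A) := NormedSpace.exp_continuous
      refine hS.mem_of_tendsto ((hE.tendsto _).comp hmL) (Eventually.of_forall fun k => ?_)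
      simp only [Function.comp_apply]
      rw [NormedSpace.exp_nsmul]
      exact hpow _ (hBS _) _
    have hall : ∀ t : ℝ, NormedSpace.exp (t • Z) ∈ S := by
      intro t
      rcases le_total 0 t with ht | ht
      · exact hpos t ht
      · have h2 := hinv _ (hpos (-t) (by linarith))
        rwa [neg_smul, neg_neg] at h2
    have h2 := hP' Z hall
    rw [hPZ] at h2
    rw [mem_sphere_zero_iff_norm, ← h2, norm_zero] at hZ
    norm_num at hZ
  have hlow : ∀ᶠ M in 𝓝 (0 : A), ‖M‖ ≤ 2 * ‖Ψ M - 1‖ := by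
    have h2 := hD.hasFDerivAt.isLittleO.def (c := 1 / 2) (by norm_num)
    filter_upwards [h2] with M hM
    simp only [hΨ0, sub_zero] at hM
    have h3 : ‖M‖ ≤ ‖Ψ M - 1‖ + ‖Ψ M - 1 - M‖ := by
      have := norm_sub_le (Ψ M - 1) (Ψ M - 1 - M)
      rwa [sub_sub_cancel] at this
    change ‖Ψ M - 1 - M‖ ≤ _ at hM
    linarith
  have hQ : {g : A | ∃ M, ((Ψ M ∈ S → P M = M) ∧ ‖M‖ ≤ 2 * ‖Ψ M - 1‖) ∧ Ψ M = g} ∈ 𝓝 (1 : A) := by
    rw [← hmap]
    exact image_mem_map (key.and hlow)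
  obtain ⟨δ, hδ, hball⟩ := Metric.mem_nhds_iff.1 hQ
  refine ⟨δ, hδ, fun g hg hgδ => ?_⟩
  obtain ⟨M, ⟨h2, h3⟩, h4⟩ := hball (by rwa [Metric.mem_ball, dist_eq_norm])
  have h5 := h2 (by rw [h4]; exact hg)
  refine ⟨M, fun t => ?_, ?_, ?_⟩
  · have := hP M t
    rwa [h5] at this
  · rw [← h4, hΨ, hPP, h5, sub_self, NormedSpace.exp_zero, mul_one]
  · rw [← h4]; exact h3

end gen

/-! ### the expansion along one parameter groups -/

theorem odd_of_even {f f' : ℝ → ℝ} (h : ∀ t, HasDerivAt f (f' t) t) (he : ∀ t, f (-t) = f t) :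
    ∀ t, f' (-t) = -f' t := by
  intro t
  have h1 : HasDerivAt (fun t => f (-t)) (f' (-t) * -1) t :=
    (h (-t)).comp t (hasDerivAt_neg t)
  have h2 : (fun t => f (-t)) = f := funext he
  rw [h2] at h1
  have h3 := h1.unique (h t)
  linarith

theorem even_of_odd {f f' : ℝ → ℝ} (h : ∀ t, HasDerivAt f (f' t) t) (he : ∀ t, f (-t) = -f t) :
    ∀ t, f' (-t) = f' t := by
  intro t
  have h1 : HasDerivAt (fun t => f (-t)) (f' (-t) * -1) t :=
    (h (-t)).comp t (hasDerivAt_neg t)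
  have h2 : (fun t => f (-t)) = fun t => -f t := funext he
  rw [h2] at h1
  have h3 := h1.unique (h t).neg
  linarith

theorem chain {g g' : ℝ → ℝ} (h : ∀ t, HasDerivAt g (g' t) t) (h0 : g 0 = 0) {T C : ℝ}
    (hT : 0 ≤ T) (hC : ∀ t ∈ Set.Icc 0 T, |g' t| ≤ C) : ∀ t ∈ Set.Icc 0 T, |g t| ≤ C * T := by
  intro t ht
  have h1 := Convex.norm_image_sub_le_of_norm_hasDerivWithin_le (s := Set.Icc 0 T) (f := g)
    (f' := g') (x := 0) (y := t) (C := C) (fun s _ => (h s).hasDerivWithinAt)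
    (fun s hs => by rw [Real.norm_eq_abs]; exact hC s hs) (convex_Icc _ _) ⟨le_rfl, hT⟩ ht
  rw [h0, sub_zero, sub_zero, Real.norm_eq_abs, Real.norm_eq_abs, abs_of_nonneg ht.1] at h1
  have hC0 : 0 ≤ C := (abs_nonneg _).trans (hC 0 ⟨le_rfl, hT⟩)
  exact h1.trans (mul_le_mul_of_nonneg_left ht.2 hC0)

theorem taylor_even {f f1 f2 f3 f4 : ℝ → ℝ} (h : ∀ t, HasDerivAt f (f1 t) t)
    (h1 : ∀ t, HasDerivAt f1 (f2 t) t) (h2 : ∀ t, HasDerivAt f2 (f3 t) t)
    (h3 : ∀ t, HasDerivAt f3 (f4 t) t) (he : ∀ t, f (-t) = f t) {T K : ℝ} (hT : 0 ≤ T)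
    (hK : ∀ t ∈ Set.Icc 0 T, |f4 t| ≤ K) : |f T - f 0 - 1 / 2 * T ^ 2 * f2 0| ≤ K * T ^ 4 := by
  have o1 := odd_of_even h he
  have e2 := even_of_odd h1 o1
  have o3 := odd_of_even h2 e2
  have z1 : f1 0 = 0 := by have := o1 0; rw [neg_zero] at this; linarith
  have z3 : f3 0 = 0 := by have := o3 0; rw [neg_zero] at this; linarith
  have b3 := chain h3 z3 hT hK
  have b2 := chain (g := fun t => f2 t - f2 0) (fun t => (h2 t).sub_const (f2 0)) (by simp) hT b3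
  have b1 := chain (g := fun t => f1 t - t * f2 0) (g' := fun t => f2 t - f2 0) (fun t => by
    have := (h1 t).sub ((hasDerivAt_id t).mul_const (f2 0))
    rwa [one_mul] at this) (by simp [z1]) hT b2
  have b0 := chain (g := fun t => f t - f 0 - 1 / 2 * t ^ 2 * f2 0)
    (g' := fun t => f1 t - t * f2 0) (fun t => by
    have h5 : HasDerivAt (fun t : ℝ => 1 / 2 * t ^ 2 * f2 0) (t * f2 0) t := by
      have h6 := (((hasDerivAt_id t).pow 2).const_mul (1 / 2)).mul_const (f2 0)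
      refine h6.congr_deriv ?_
      simp
    exact ((h t).sub_const (f 0)).sub h5) (by simp) hT b1
  have h5 := b0 T ⟨hT, le_rfl⟩
  calc _ ≤ K * T * T * T * T := h5
    _ = K * T ^ 4 := by ring

section tay

variable {E : Type*} [NormedAddCommGroup E] [NormedSpace ℝ E]

/-- Iterated derivatives in the direction of the second variable. -/
noncomputable def Dn (φ : E → ℝ) : ℕ → E × E → ℝ
  | 0 => fun p => φ p.1
  | k + 1 => fun p => fderiv ℝ (Dn φ k) p (p.2, 0)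

theorem contDiff_Dn {φ : E → ℝ} (hφ : ContDiff ℝ ∞ φ) : ∀ k, ContDiff ℝ ∞ (Dn φ k)
  | 0 => hφ.comp contDiff_fst
  | k + 1 => (contDiff_fderiv (contDiff_Dn hφ k)).clm_apply (contDiff_snd.prodMk contDiff_const)

theorem hasDerivAt_Dn {φ : E → ℝ} (hφ : ContDiff ℝ ∞ φ) (k : ℕ) (U : E) (t : ℝ) :
    HasDerivAt (fun t : ℝ => Dn φ k (t • U, U)) (Dn φ (k + 1) (t • U, U)) t := by
  have h1 : HasDerivAt (fun t : ℝ => ((t • U, U) : E × E)) (U, 0) t := by
    have h2 := ((hasDerivAt_id t).smul_const U)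
    rw [one_smul] at h2
    exact h2.prodMk (hasDerivAt_const t U)
  exact hasDerivAt_comp (contDiff_Dn hφ k) h1

theorem taylor4 [FiniteDimensional ℝ E] {φ : E → ℝ} (hφ : ContDiff ℝ ∞ φ) :
    ∃ K : ℝ, 0 ≤ K ∧ ∀ U : E, ‖U‖ ≤ 1 → (∀ t : ℝ, φ (-t • U) = φ (t • U)) → ∀ t : ℝ,
      0 ≤ t → t ≤ 1 → |φ (t • U) - φ 0 - 1 / 2 * t ^ 2 * Dn φ 2 (0, U)| ≤ K * t ^ 4 := by
  have hp : ProperSpace (E × E) := FiniteDimensional.proper ℝ _
  obtain ⟨K, hK⟩ := (isCompact_closedBall (0 : E × E) 1).exists_bound_of_continuousOn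
    (contDiff_Dn hφ 4).continuous.continuousOn
  refine ⟨K, (norm_nonneg _).trans (hK 0 (by simp)), fun U hU he T hT hT1 => ?_⟩
  have h := taylor_even (hasDerivAt_Dn hφ 0 U) (hasDerivAt_Dn hφ 1 U) (hasDerivAt_Dn hφ 2 U)
    (hasDerivAt_Dn hφ 3 U) (fun t => he t) hT (K := K) (fun t ht => by
      rw [← Real.norm_eq_abs]
      refine hK _ ?_
      rw [mem_closedBall_zero_iff, Prod.norm_def]
      refine max_le ?_ hU
      rw [norm_smul, Real.norm_eq_abs, abs_of_nonneg ht.1]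
      exact mul_le_one₀ (ht.2.trans hT1) (norm_nonneg _) hU)
  simp only [zero_smul] at h
  exact h

/-- Affine functions. -/
theorem affine [FiniteDimensional ℝ E] (l : E →ₗ[ℝ] ℝ) (c : ℝ) :
    ContDiff ℝ ∞ (fun M => c - l M) ∧ (∀ M V, dr1 (fun M => c - l M) M V = -l V) ∧
      ∀ M V V', dr2 (fun M => c - l M) M V V' = 0 := by
  obtain ⟨L, hL⟩ : ∃ L : E →L[ℝ] ℝ, ∀ M, L M = l M := ⟨l.toContinuousLinearMap, fun _ => rfl⟩
  have e1 : (fun M => c - l M) = fun M => c - L M := funext fun M => by rw [hL]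
  have e2 : fderiv ℝ (fun M => c - L M) = fun _ => -L := by
    funext M
    have h1 : HasFDerivAt (fun M => c - L M) (-L) M := by
      have := (hasFDerivAt_const c M).sub L.hasFDerivAt
      rwa [zero_sub] at this
    exact h1.fderiv
  rw [e1]
  refine ⟨contDiff_const.sub L.contDiff, fun M V => ?_, fun M V V' => ?_⟩
  · unfold dr1
    rw [e2]
    change -(L V) = _
    rw [hL]
  · unfold dr2
    rw [e2]
    simp

end tay

section alg

variable {A : Type*} [NormedRing A] [NormedAlgebra ℝ A] [FiniteDimensional ℝ A]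

theorem contDiff_exp' : ContDiff ℝ ∞ (NormedSpace.exp : A → A) := by
  have hc : CompleteSpace A := FiniteDimensional.complete ℝ A
  rw [contDiff_iff_contDiffAt]
  intro x
  exact (NormedSpace.exp_analytic (𝕂 := ℝ) x).contDiffAt

theorem hasDerivAt_ex (Y : A) (t : ℝ) :
    HasDerivAt (fun t : ℝ => NormedSpace.exp (t • Y)) (NormedSpace.exp (t • Y) * Y) t := by
  have hc : CompleteSpace A := FiniteDimensional.complete ℝ A
  exact hasDerivAt_exp_smul_const (𝕂 := ℝ) Y t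

theorem hasDerivAt_s {s : A → ℝ} (hs : ContDiff ℝ ∞ s) (Y : A) (t : ℝ) :
    HasDerivAt (fun t : ℝ => s (NormedSpace.exp (t • Y)))
      (dr1 s (NormedSpace.exp (t • Y)) (NormedSpace.exp (t • Y) * Y)) t :=
  hasDerivAt_comp hs (hasDerivAt_ex Y t)

theorem hasDerivAt_s1 {s : A → ℝ} (hs : ContDiff ℝ ∞ s) (Y : A) (t : ℝ) :
    HasDerivAt (fun t : ℝ => dr1 s (NormedSpace.exp (t • Y)) (NormedSpace.exp (t • Y) * Y))
      (dr2 s (NormedSpace.exp (t • Y)) (NormedSpace.exp (t • Y) * Y)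
        (NormedSpace.exp (t • Y) * Y) +
        dr1 s (NormedSpace.exp (t • Y)) (NormedSpace.exp (t • Y) * Y * Y)) t :=
  hasDerivAt_dr1 hs (hasDerivAt_ex Y t) ((hasDerivAt_ex Y t).mul_const Y)

/-- The second derivative at the identity. -/
noncomputable def bb (s : A → ℝ) (V V' : A) : ℝ :=
  dr2 s 1 V V' + dr1 s 1 ((1 / 2 : ℝ) • (V * V' + V' * V))

theorem bb_self (s : A → ℝ) (V : A) : bb s V V = dr2 s 1 V V + dr1 s 1 (V * V) := by
  unfold bb
  congr 2
  rw [← two_smul ℝ (V * V), smul_smul]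
  norm_num

theorem bb_smul (s : A → ℝ) (V : A) (c : ℝ) : bb s (c • V) (c • V) = c ^ 2 * bb s V V := by
  rw [bb_self, bb_self, dr2_smul_left, dr2_smul_right, smul_mul_smul_comm, dr1_smul]
  ring

theorem iter_two {s : A → ℝ} (hs : ContDiff ℝ ∞ s) (Y : A) :
    iteratedDeriv 2 (fun t : ℝ => s (NormedSpace.exp (t • Y))) 0 = bb s Y Y := by
  rw [iteratedDeriv_succ, iteratedDeriv_one]
  have h1 : deriv (fun t : ℝ => s (NormedSpace.exp (t • Y))) = fun t : ℝ =>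
      dr1 s (NormedSpace.exp (t • Y)) (NormedSpace.exp (t • Y) * Y) :=
    funext fun t => (hasDerivAt_s hs Y t).deriv
  rw [h1, (hasDerivAt_s1 hs Y 0).deriv, bb_self, zero_smul, NormedSpace.exp_zero, one_mul]

theorem Dn_two {s : A → ℝ} (hs : ContDiff ℝ ∞ s) (U : A) :
    Dn (fun M => s (NormedSpace.exp M)) 2 (0, U) = bb s U U := by
  have hφ : ContDiff ℝ ∞ fun M : A => s (NormedSpace.exp M) := hs.comp contDiff_exp'
  have h1 : (fun t : ℝ => Dn (fun M => s (NormedSpace.exp M)) 1 (t • U, U)) = fun t : ℝ =>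
      dr1 s (NormedSpace.exp (t • U)) (NormedSpace.exp (t • U) * U) := by
    funext t
    exact (hasDerivAt_Dn hφ 0 U t).unique (hasDerivAt_s hs U t)
  have h2 := hasDerivAt_Dn hφ 1 U 0
  rw [h1] at h2
  have h3 := h2.unique (hasDerivAt_s1 hs U 0)
  rw [zero_smul, NormedSpace.exp_zero, one_mul, ← bb_self] at h3
  exact h3

/-- The expansion of the energy along one parameter groups. -/
theorem taylor_exp {s : A → ℝ} (hs : ContDiff ℝ ∞ s) : ∃ K : ℝ, 0 ≤ K ∧ ∀ Y : A, ‖Y‖ ≤ 1 →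
    (∀ t : ℝ, s (NormedSpace.exp (-t • Y)) = s (NormedSpace.exp (t • Y))) →
    |s (NormedSpace.exp Y) - s 1 - 1 / 2 * bb s Y Y| ≤ K * ‖Y‖ ^ 4 := by
  have hφ : ContDiff ℝ ∞ fun M : A => s (NormedSpace.exp M) := hs.comp contDiff_exp'
  obtain ⟨K, hK0, hK⟩ := taylor4 hφ
  refine ⟨K, hK0, fun Y hY he => ?_⟩
  rcases eq_or_ne Y 0 with rfl | hY0
  · have : bb s (0 : A) 0 = 0 := by
      have := bb_smul s (0 : A) 0
      simpa using this
    rw [NormedSpace.exp_zero, this]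
    simp
  · have hn : 0 < ‖Y‖ := norm_pos_iff.2 hY0
    have h1 := hK (‖Y‖⁻¹ • Y) (by rw [norm_smul, norm_inv, norm_norm, inv_mul_cancel₀ hn.ne'])
      (fun t => by
        have := he (t * ‖Y‖⁻¹)
        rw [smul_smul, smul_smul, neg_mul]
        exact this) ‖Y‖ hn.le hY
    rw [Dn_two hs, bb_smul, smul_smul, mul_inv_cancel₀ hn.ne', one_smul, NormedSpace.exp_zero] at h1
    have h2 : 1 / 2 * ‖Y‖ ^ 2 * (‖Y‖⁻¹ ^ 2 * bb s Y Y) = 1 / 2 * bb s Y Y := by
      field_simp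
    rwa [h2] at h1

end alg

section mat

variable {N : ℕ} {G : Subgroup (UU N)}

theorem mtmul (g h : G) : mt (g * h) = mt g * mt h := rfl

theorem mtone : mt (1 : G) = 1 := rfl

theorem mtinv (g : G) : mt g⁻¹ = (mt g)ᴴ := rfl

theorem mtcont : Continuous (mt : G → Mt N) := continuous_subtype_val.comp continuous_subtype_val

theorem mtc (g : G) : mt g⁻¹ * mt g = 1 := by rw [← mtmul, inv_mul_cancel]; rfl

theorem exp_neg_mul (Y : Mt N) : NormedSpace.exp (-Y) * NormedSpace.exp Y = 1 := by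
  rw [← Matrix.exp_add_of_commute _ _ ((Commute.refl Y).neg_left), neg_add_cancel,
    NormedSpace.exp_zero]

theorem exp_mul_neg (Y : Mt N) : NormedSpace.exp Y * NormedSpace.exp (-Y) = 1 := by
  rw [← Matrix.exp_add_of_commute _ _ ((Commute.refl Y).neg_right), add_neg_cancel,
    NormedSpace.exp_zero]

theorem mt_exp_neg {Y : Mt N} {g : G} (h : mt g = NormedSpace.exp Y) :
    mt g⁻¹ = NormedSpace.exp (-Y) := by
  calc mt g⁻¹ = mt g⁻¹ * (mt g * NormedSpace.exp (-Y)) := by rw [h, exp_mul_neg, mul_one]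
    _ = _ := by rw [← mul_assoc, mtc, one_mul]

theorem compact_mt (hG : IsClosed (G : Set (UU N))) : IsCompact (Set.range (mt : G → Mt N)) := by
  have h1 : IsCompact (G : Set (UU N)) := hG.isCompact
  have h2 : CompactSpace G := isCompact_iff_compactSpace.1 h1
  exact isCompact_range mtcont

/-- The closed subgroup theorem near the identity. -/
theorem local_exp (hG : IsClosed (G : Set (UU N))) : ∃ δ : ℝ, 0 < δ ∧ ∀ g : G, ‖mt g - 1‖ < δ →
    ∃ Y : Mt N, IsLie G Y ∧ mt g = NormedSpace.exp Y ∧ ‖Y‖ ≤ 2 * ‖mt g - 1‖ := by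
  obtain ⟨V, hV⟩ : ∃ V : Submodule ℝ (Mt N), ∀ Y, Y ∈ V ↔ IsLie G Y :=
    ⟨Pool.Agent.TH618.YM.lieS hG, fun Y => Iff.rfl⟩
  obtain ⟨f, hf⟩ := V.subtype.exists_leftInverse_of_injective (Submodule.ker_subtype _)
  have hf' : ∀ v : V, f v = v := fun v => by
    have := LinearMap.congr_fun hf v
    simpa using this
  obtain ⟨δ, hδ, h⟩ := exp_local (A := Mt N) (S := Set.range (mt : G → Mt N))
    (compact_mt hG).isClosed ⟨1, rfl⟩ (by
      rintro _ ⟨a, rfl⟩ _ ⟨b, rfl⟩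
      exact ⟨a * b, rfl⟩) (by
      rintro Y ⟨g, hg⟩
      exact ⟨g⁻¹, mt_exp_neg hg⟩) (V.subtype ∘ₗ f) (fun M t => by
      have h1 : IsLie G ((f M : V) : Mt N) := (hV _).1 (f M).2
      obtain ⟨g, hg⟩ := h1 t
      exact ⟨g, hg⟩) (fun Y hY => by
      have h1 : Y ∈ V := (hV Y).2 fun t => by
        obtain ⟨g, hg⟩ := hY t
        exact ⟨g, hg⟩
      have h2 := hf' ⟨Y, h1⟩
      change ((f Y : V) : Mt N) = Y
      have h3 : f Y = ⟨Y, h1⟩ := h2
      rw [h3])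
  refine ⟨δ, hδ, fun g hg => ?_⟩
  obtain ⟨Y, h1, h2, h3⟩ := h _ ⟨g, rfl⟩ hg
  exact ⟨Y, fun t => by
    obtain ⟨g', hg'⟩ := h1 t
    exact ⟨g', hg'⟩, h2.symm, h3⟩

theorem skew_lie {Y : Mt N} (hY : IsLie G Y) : Yᴴ = -Y := by
  have h1 : ∀ t : ℝ, NormedSpace.exp (t • Yᴴ) = NormedSpace.exp (t • -Y) := by
    intro t
    obtain ⟨g, hg⟩ := hY t
    have h2 := mt_exp_neg hg
    rw [mtinv, hg, ← Matrix.exp_conjTranspose] at h2
    rw [smul_neg, ← h2, conjTranspose_smul]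
    simp
  have h2 := hasDerivAt_ex (A := Mt N) Yᴴ 0
  have h3 := hasDerivAt_ex (A := Mt N) (-Y) 0
  have h4 : (fun t : ℝ => NormedSpace.exp (t • Yᴴ)) = fun t : ℝ => NormedSpace.exp (t • -Y) :=
    funext h1
  have h5 : HasDerivAt (fun t : ℝ => NormedSpace.exp (t • Yᴴ))
    (NormedSpace.exp ((0 : ℝ) • -Y) * -Y) 0 := by
    rw [h4]; exact h3
  have h6 := h2.unique h5
  rw [zero_smul, zero_smul, NormedSpace.exp_zero, one_mul, NormedSpace.exp_zero, one_mul] at h6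
  exact h6

/-- The Wilson energy. -/
noncomputable def wil (M : Mt N) : ℝ := (trace (1 - M)).re

/-- The real part of the trace as a linear map. -/
noncomputable def rt (N : ℕ) : Mt N →ₗ[ℝ] ℝ where
  toFun M := (trace M).re
  map_add' A B := by rw [trace_add, Complex.add_re]
  map_smul' c A := by
    rw [trace_smul, RingHom.id_apply, smul_eq_mul, Complex.real_smul, Complex.re_ofReal_mul]

theorem wil_eq : (wil : Mt N → ℝ) = fun M => (trace (1 : Mt N)).re - rt N M := by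
  funext M
  unfold wil
  rw [trace_sub, Complex.sub_re]
  rfl

theorem bb_wil {Y : Mt N} (hY : Yᴴ = -Y) : bb (wil : Mt N → ℝ) Y Y = ‖Y‖ ^ 2 := by
  obtain ⟨h1, h2, h3⟩ := affine (rt N) ((trace (1 : Mt N)).re)
  rw [bb_self, wil_eq, h2, h3, Pool.Agent.Y421.AF.norm_sq, hY, neg_mul, trace_neg, Complex.neg_re,
    zero_add]
  rfl

theorem contDiff_wil : ContDiff ℝ ∞ (wil : Mt N → ℝ) := by
  obtain ⟨h1, h2, h3⟩ := affine (rt N) ((trace (1 : Mt N)).re)
  rw [wil_eq]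
  exact h1

theorem exp_cj (h : G) (T : Mt N) (t : ℝ) :
    NormedSpace.exp (t • (mt h * T * mt h⁻¹)) = mt h * NormedSpace.exp (t • T) * mt h⁻¹ := by
  have h1 : mt h * mt h⁻¹ = 1 := by rw [← mtmul, mul_inv_cancel]; rfl
  have h2 := Matrix.exp_units_conj (⟨mt h, mt h⁻¹, h1, mtc h⟩ : (Mt N)ˣ) (t • T)
  change NormedSpace.exp (mt h * (t • T) * mt h⁻¹) = mt h * NormedSpace.exp (t • T) * mt h⁻¹ at h2
  rw [← h2]
  congr 1
  rw [mul_smul_comm, smul_mul_assoc]

theorem lie_even {s : Mt N → ℝ} (hsym : ∀ g : G, s (mt g⁻¹) = s (mt g)) {Y : Mt N}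
    (hY : IsLie G Y) (t : ℝ) : s (NormedSpace.exp (-t • Y)) = s (NormedSpace.exp (t • Y)) := by
  obtain ⟨g, hg⟩ := hY t
  rw [neg_smul, ← mt_exp_neg hg, hsym, hg]

theorem wil_inv (g : G) : wil (mt g⁻¹) = wil (mt g) := by
  have h1 := Pool.Agent.Y421.AF.norm_sub_sq g
  have h2 := Pool.Agent.Y421.AF.norm_sub_sq g⁻¹
  rw [Pool.Agent.Y421.AF.norm_inv_sub, h1] at h2
  unfold wil
  linarith

/-- The form as a bilinear map. -/
noncomputable def bbL (s : Mt N → ℝ) : Mt N →ₗ[ℝ] Mt N →ₗ[ℝ] ℝ :=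
  LinearMap.mk₂ ℝ (bb s)
    (fun A B C => by
      unfold bb
      rw [dr2_add_left, add_mul, mul_add, show (1 / 2 : ℝ) • (A * C + B * C + (C * A + C * B)) =
        (1 / 2 : ℝ) • (A * C + C * A) + (1 / 2 : ℝ) • (B * C + C * B) by
          rw [← smul_add]; congr 1; abel, dr1_add]
      ring)
    (fun c A B => by
      unfold bb
      rw [dr2_smul_left, smul_mul_assoc, mul_smul_comm, ← smul_add, smul_comm, dr1_smul,
        smul_eq_mul, mul_add])
    (fun A B C => by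
      unfold bb
      rw [dr2_add_right, add_mul, mul_add, show (1 / 2 : ℝ) • (A * B + A * C + (B * A + C * A)) =
        (1 / 2 : ℝ) • (A * B + B * A) + (1 / 2 : ℝ) • (A * C + C * A) by
          rw [← smul_add]; congr 1; abel, dr1_add]
      ring)
    (fun c A B => by
      unfold bb
      rw [dr2_smul_right, smul_mul_assoc, mul_smul_comm, ← smul_add, smul_comm, dr1_smul,
        smul_eq_mul, mul_add])

theorem bbL_apply (s : Mt N → ℝ) (A B : Mt N) : bbL s A B = bb s A B := rfl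

end mat

end Hes

theorem t_HESS : S_HESS := by
  intro hInv N G hG hsimp s hs hcls hsym hs1 hpos hnd
  have heven : ∀ Y : Mt N, IsLie G Y → ∀ t : ℝ,
      s (NormedSpace.exp (-t • Y)) = s (NormedSpace.exp (t • Y)) :=
    fun Y hY t => Hes.lie_even hsym hY t
  have hwev : ∀ Y : Mt N, IsLie G Y → ∀ t : ℝ,
      Hes.wil (NormedSpace.exp (-t • Y)) = Hes.wil (NormedSpace.exp (t • Y)) :=
    fun Y hY t => Hes.lie_even (G := G) Hes.wil_inv hY t
  obtain ⟨c, hc⟩ := hInv G hG hsimp (Hes.bbL s) (fun h T hT => by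
    rw [Hes.bbL_apply, Hes.bbL_apply]
    have e1 : ∀ t : ℝ, s (NormedSpace.exp (t • (mt h * T * mt h⁻¹))) =
        s (NormedSpace.exp (t • T)) := by
      intro t
      rw [Hes.exp_cj]
      obtain ⟨g, hg⟩ := hT t
      rw [← hg, ← Hes.mtmul, ← Hes.mtmul, hcls]
    have e2 : (fun t : ℝ => s (NormedSpace.exp (t • (mt h * T * mt h⁻¹)))) =
        fun t : ℝ => s (NormedSpace.exp (t • T)) := funext e1
    have e3 := Hes.iter_two hs (mt h * T * mt h⁻¹)
    have e4 := Hes.iter_two hs T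
    exact (e3.symm.trans (congrArg (fun f => iteratedDeriv 2 f 0) e2)).trans e4)
  have hc' : ∀ T : Mt N, IsLie G T → Hes.bb s T T = c * ‖T‖ ^ 2 := fun T hT => hc T hT
  obtain ⟨K, hK0, hK⟩ := Hes.taylor_exp (A := Mt N) hs
  obtain ⟨K', hK0', hK'⟩ := Hes.taylor_exp (A := Mt N) Hes.contDiff_wil
  have hT : ∀ Y : Mt N, IsLie G Y → ‖Y‖ ≤ 1 →
      |s (NormedSpace.exp Y) - c / 2 * ‖Y‖ ^ 2| ≤ K * ‖Y‖ ^ 4 := by
    intro Y hY hY1
    have h1 := hK Y hY1 (heven Y hY)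
    rw [hs1, sub_zero, hc' Y hY] at h1
    have h2 : 1 / 2 * (c * ‖Y‖ ^ 2) = c / 2 * ‖Y‖ ^ 2 := by ring
    rwa [h2] at h1
  have hw1 : Hes.wil (1 : Mt N) = 0 := by simp [Hes.wil]
  have hT' : ∀ Y : Mt N, IsLie G Y → ‖Y‖ ≤ 1 →
      |Hes.wil (NormedSpace.exp Y) - 1 / 2 * ‖Y‖ ^ 2| ≤ K' * ‖Y‖ ^ 4 := by
    intro Y hY hY1
    have h1 := hK' Y hY1 (hwev Y hY)
    rwa [hw1, sub_zero, Hes.bb_wil (Hes.skew_lie hY)] at h1
  have hnn : ∀ g : G, 0 ≤ s (mt g) := by
    intro g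
    by_cases hg : g = 1
    · rw [hg]
      have : s (mt (1 : G)) = 0 := hs1
      exact this.ge
    · exact (hpos g hg).le
  obtain ⟨T₀, hT₀, hT₂⟩ := hnd
  have hT₁ : c * ‖T₀‖ ^ 2 ≠ 0 := fun h => hT₂ ((Hes.iter_two hs T₀).trans ((hc' T₀ hT₀).trans h))
  have hT0 : 0 < ‖T₀‖ := by
    rw [norm_pos_iff]
    rintro rfl
    apply hT₁
    simp
  have hcpos : 0 < c := by
    have hc0 : c ≠ 0 := fun h => hT₁ (by rw [h, zero_mul])
    by_contra hneg
    have hclt : c < 0 := lt_of_le_of_ne (not_lt.1 hneg) hc0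
    obtain ⟨t, ht⟩ : ∃ t : ℝ, t = min 1 (-c / (4 * (K + 1))) := ⟨_, rfl⟩
    have h4 : 0 < 4 * (K + 1) := by linarith
    have ht0 : 0 < t := by
      rw [ht]
      exact lt_min one_pos (div_pos (by linarith) h4)
    have ht1 : t ≤ 1 := by rw [ht]; exact min_le_left _ _
    have ht2 : t * (4 * (K + 1)) ≤ -c := by
      rw [← le_div_iff₀ h4, ht]; exact min_le_right _ _
    obtain ⟨Y, hYd⟩ : ∃ Y, Y = (t * ‖T₀‖⁻¹) • T₀ := ⟨_, rfl⟩
    have hYn : ‖Y‖ = t := by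
      rw [hYd, norm_smul, norm_mul, norm_inv, norm_norm, Real.norm_eq_abs, abs_of_pos ht0,
        mul_assoc, inv_mul_cancel₀ hT0.ne', mul_one]
    have hYL : IsLie G Y := by
      intro u
      obtain ⟨g, hg⟩ := hT₀ (u * (t * ‖T₀‖⁻¹))
      exact ⟨g, by rw [hg, hYd, smul_smul]⟩
    have h5 := hT Y hYL (by rw [hYn]; exact ht1)
    rw [hYn] at h5
    obtain ⟨g, hg⟩ := hYL 1
    rw [one_smul] at hg
    have h6 := hnn g
    rw [hg] at h6
    have h7 := (abs_le.1 h5).2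
    have h8 : K * t ^ 2 ≤ -c / 4 := by
      have h9 : K * t ^ 2 ≤ K * t := by
        refine mul_le_mul_of_nonneg_left ?_ hK0
        nlinarith
      nlinarith
    have h9 : 0 < t ^ 2 := by positivity
    nlinarith [mul_le_mul_of_nonneg_right h8 h9.le]
  refine ⟨c, hcpos, ⟨hs.div_const c, fun g h => ?_, fun g hg => div_pos (hpos g hg) hcpos, ?_⟩⟩
  · simp only [hcls]
  obtain ⟨δ, hδ, hloc⟩ := Hes.local_exp hG
  obtain ⟨D, hD⟩ := (Hes.compact_mt hG).exists_bound_of_continuousOn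
    (f := fun M : Mt N => s M / c - 1 / 2 * ‖M - 1‖ ^ 2)
    (by
      have h1 : Continuous s := hs.continuous
      fun_prop)
  have hD' : ∀ g : G, |s (mt g) / c - 1 / 2 * ‖mt g - 1‖ ^ 2| ≤ D := fun g => hD _ ⟨g, rfl⟩
  have hD0 : 0 ≤ D := (abs_nonneg _).trans (hD' 1)
  obtain ⟨ε, hε⟩ : ∃ ε : ℝ, ε = min δ (1 / 2) := ⟨_, rfl⟩
  have hε0 : 0 < ε := by rw [hε]; exact lt_min hδ (by norm_num)
  have hε1 : ε ≤ δ := by rw [hε]; exact min_le_left _ _
  have hε2 : ε ≤ 1 / 2 := by rw [hε]; exact min_le_right _ _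
  refine ⟨16 * (K / c + K') + D / ε ^ 4, fun g => ?_⟩
  have hA0 : 0 ≤ 16 * (K / c + K') := by positivity
  have hB0 : 0 ≤ D / ε ^ 4 := by positivity
  have hn0 := norm_nonneg (mt g - 1)
  have hn4 : 0 ≤ ‖mt g - 1‖ ^ 4 := by positivity
  rw [add_mul]
  rcases lt_or_ge ‖mt g - 1‖ ε with hlt | hge
  · refine le_trans ?_ (le_add_of_nonneg_right (mul_nonneg hB0 hn4))
    obtain ⟨Y, hYL, hYe, hYn⟩ := hloc g (hlt.trans_le hε1)
    have hY1 : ‖Y‖ ≤ 1 := by linarith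
    have h1 := hT Y hYL hY1
    have h2 := hT' Y hYL hY1
    rw [← hYe] at h1 h2
    have h3 := Pool.Agent.Y421.AF.norm_sub_sq g
    have h4 : Hes.wil (mt g) = 1 / 2 * ‖mt g - 1‖ ^ 2 := by
      rw [h3]; unfold Hes.wil; ring
    rw [h4] at h2
    have h5 : s (mt g) / c - 1 / 2 * ‖mt g - 1‖ ^ 2 =
        (s (mt g) - c / 2 * ‖Y‖ ^ 2) / c - (1 / 2 * ‖mt g - 1‖ ^ 2 - 1 / 2 * ‖Y‖ ^ 2) := by
      field_simp
      ring
    have h6 : |(s (mt g) - c / 2 * ‖Y‖ ^ 2) / c| ≤ K / c * ‖Y‖ ^ 4 := by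
      rw [abs_div, abs_of_pos hcpos, div_le_iff₀ hcpos]
      calc _ ≤ K * ‖Y‖ ^ 4 := h1
        _ = K / c * ‖Y‖ ^ 4 * c := by field_simp
    have h7 : ‖Y‖ ^ 4 ≤ 16 * ‖mt g - 1‖ ^ 4 := by
      calc ‖Y‖ ^ 4 ≤ (2 * ‖mt g - 1‖) ^ 4 := pow_le_pow_left₀ (norm_nonneg _) hYn 4
        _ = _ := by ring
    rw [h5]
    refine (abs_sub _ _).trans ?_
    calc _ ≤ K / c * ‖Y‖ ^ 4 + K' * ‖Y‖ ^ 4 := add_le_add h6 h2
      _ = (K / c + K') * ‖Y‖ ^ 4 := by ring
      _ ≤ (K / c + K') * (16 * ‖mt g - 1‖ ^ 4) := mul_le_mul_of_nonneg_left h7 (by positivity)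
      _ = _ := by ring
  · refine le_trans ?_ (le_add_of_nonneg_left (mul_nonneg hA0 hn4))
    refine (hD' g).trans ?_
    rw [div_mul_eq_mul_div, le_div_iff₀ (by positivity)]
    exact mul_le_mul_of_nonneg_left (pow_le_pow_left₀ hε0.le hge 4) hD0

end Pool.Agent.H735U
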